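import Mathlib

/-!
# Project HM (helper46), MP_e4fe74_an: a hypercyclic multiplier on hyperbolic three-space

Definitions and the statements of the parts.
-/

set_option autoImplicit false

open MeasureTheory Set Filter
open scoped ENNReal Topology ComplexConjugate

namespace Pool.Agent.N46.HM

noncomputable section

/-! ## Hyperbolic space -/

/-- points `(z, y)`; hyperbolic three-space is the part `0 < y` -/
abbrev Hs : Type := ℂ × ℝ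

/-- the invariant measure `dz dy / y³` of hyperbolic three-space -/
def mu : Measure Hs :=
  (volume.restrict {x : Hs | 0 < x.2}).withDensity fun x => ENNReal.ofReal ((x.2 ^ 3)⁻¹)

/-- the hyperbolic cosine of the distance -/
def ch (x x' : Hs) : ℝ := 1 + (‖x.1 - x'.1‖ ^ 2 + (x.2 - x'.2) ^ 2) / (2 * x.2 * x'.2)

/-- the hyperbolic distance -/
def dH (x x' : Hs) : ℝ := 2 * Real.arsinh (√((ch x x' - 1) / 2))

/-- the denominator of the action of `SL(2, ℂ)` -/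
def dn (g : Matrix.SpecialLinearGroup (Fin 2) ℂ) (x : Hs) : ℝ :=
  ‖g.1 1 0 * x.1 + g.1 1 1‖ ^ 2 + ‖g.1 1 0‖ ^ 2 * x.2 ^ 2

/-- the action of `SL(2, ℂ)` on hyperbolic three-space (Poincaré extension) -/
def act (g : Matrix.SpecialLinearGroup (Fin 2) ℂ) (x : Hs) : Hs :=
  (((g.1 0 0 * x.1 + g.1 0 1) * conj (g.1 1 0 * x.1 + g.1 1 1) +
    g.1 0 0 * conj (g.1 1 0) * (x.2 : ℂ) ^ 2) / (dn g x : ℂ), x.2 / dn g x)

/-! ## The kernel and the symbol -/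

/-- the radial kernel -/
def kap (s t : ℝ) : ℝ :=
  4 * s ^ 2 / Real.pi ^ 3 * ((2 * s * t * Real.cosh (2 * s * t) - Real.sinh (2 * s * t)) /
    (Real.sinh (2 * s * t) ^ 2 * Real.sinh t))

/-- the symbol of the convolution with the kernel: `1 / cosh² (π λ / (4 s))` -/
def sec (s : ℝ) (l : ℂ) : ℂ := (Complex.cosh (Real.pi * l / (4 * s)) ^ 2)⁻¹

/-- the symbol of the multiplier: `tanh² (π λ / (4 s))` -/
def msym (s : ℝ) (l : ℂ) : ℂ := Complex.tanh (Real.pi * l / (4 * s)) ^ 2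

/-- the spherical function `sin (l t) / (l sinh t)` -/
def sph (l : ℂ) (t : ℝ) : ℂ :=
  (∫ r in (-t)..t, Complex.exp (-(Complex.I * l * r))) / (2 * Real.sinh t)

/-- the Poisson kernel `exp ⟨x, b⟩` at the boundary point `b` (`none` is the point at infinity) -/
def PK (b : Option ℂ) (x : Hs) : ℝ :=
  match b with
  | none => x.2
  | some ζ => x.2 * (1 + ‖ζ‖ ^ 2) / (x.2 ^ 2 + ‖x.1 - ζ‖ ^ 2)

/-- `exp ((- i l + ρ) ⟨x, b⟩)`, `ρ = 1` -/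
def EE (l : ℂ) (b : Option ℂ) (x : Hs) : ℂ := (PK b x : ℂ) ^ (1 - Complex.I * l)

/-- the wave packet of spherical functions on the line `ℝ + z` -/
def GG (a : ℝ → ℂ) (z : ℂ) (t : ℝ) : ℂ := ∫ ξ : ℝ, a ξ * sph (ξ + z) t

/-- test functions on the real line -/
def Tst (a : ℝ → ℂ) : Prop := ContDiff ℝ (⊤ : ℕ∞) a ∧ HasCompactSupport a

/-- test functions with support in the open half-line -/
def Tst0 (a : ℝ → ℂ) : Prop := Tst a ∧ tsupport a ⊆ Ioi 0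

/-- the phase of the symbol on the line `ℝ + i s` -/
def ph (s ξ : ℝ) : ℝ := 4 * Real.arctan (Real.exp (-(Real.pi * ξ) / (2 * s)))

/-- the element of `L^p` given by a function -/
def el (p : ℝ≥0∞) (F : Hs → ℂ) : Lp ℂ p mu :=
  open Classical in if h : MemLp F p mu then h.toLp F else 0

/-- the exponent `p = 2 / (1 - s)` -/
def pp (s : ℝ) : ℝ≥0∞ := ENNReal.ofReal (2 / (1 - s))

/-- convolution with the kernel -/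
def IsK (s : ℝ) (p : ℝ≥0∞) [Fact (1 ≤ p)] (K : Lp ℂ p mu →L[ℂ] Lp ℂ p mu) : Prop :=
  ∀ f : Lp ℂ p mu, (∀ᵐ x ∂mu, Integrable (fun x' => (kap s (dH x x') : ℂ) * f x') mu) ∧
    K f =ᵐ[mu] fun x => ∫ x', (kap s (dH x x') : ℂ) * f x' ∂mu

/-! ## Geometry -/

/-- DIST -/
def S_DIST : Prop :=
  (∀ x x' : Hs, 0 < x.2 → 0 < x'.2 → 1 ≤ ch x x' ∧ 0 ≤ dH x x' ∧ Real.cosh (dH x x') = ch x x' ∧
    dH x x' = dH x' x ∧ (dH x x' = 0 → x = x')) ∧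
  Measurable (fun q : Hs × Hs => dH q.1 q.2)

/-- ISO: the action is by isometries, it is an action -/
def S_ISO : Prop :=
  (∀ (g : Matrix.SpecialLinearGroup (Fin 2) ℂ) (x : Hs), 0 < x.2 → 0 < dn g x ∧ 0 < (act g x).2 ∧
    ∀ x' : Hs, 0 < x'.2 → ch (act g x) (act g x') = ch x x' ∧ dH (act g x) (act g x') = dH x x') ∧
  (∀ (g h : Matrix.SpecialLinearGroup (Fin 2) ℂ) (x : Hs), 0 < x.2 →
    act (g * h) x = act g (act h x)) ∧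
  (∀ x : Hs, act 1 x = x)

/-- INV: the measure is invariant -/
def S_INV : Prop := ∀ g : Matrix.SpecialLinearGroup (Fin 2) ℂ, MeasurePreserving (act g) mu mu

/-- PAIR: pairs of points can be moved to the vertical line -/
def S_PAIR : Prop := ∀ x x₀ : Hs, 0 < x.2 → 0 < x₀.2 →
  ∃ (g : Matrix.SpecialLinearGroup (Fin 2) ℂ) (D : ℝ), 0 ≤ D ∧ act g x = (0, 1) ∧
    act g x₀ = (0, Real.exp D)

/-- RAD: distance from a point and height -/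
def S_RAD : Prop := ∀ x : Hs, 0 < x.2 → ∀ F G : ℝ → ℝ≥0∞, Measurable F → Measurable G →
  ∫⁻ x', F (dH x x') * G (Real.log (x'.2 / x.2)) ∂mu =
    ∫⁻ t in Ioi (0 : ℝ), ∫⁻ r in Ioo (-t) t,
      F t * G r * ENNReal.ofReal (2 * Real.pi * Real.sinh t * Real.exp (-r))

/-- BI: distances from two points -/
def S_BI : Prop := ∀ x x₀ : Hs, 0 < x.2 → 0 < x₀.2 → x ≠ x₀ → ∀ F G : ℝ → ℝ≥0∞,
  Measurable F → Measurable G →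
  ∫⁻ x', F (dH x x') * G (dH x₀ x') ∂mu =
    ∫⁻ t in Ioi (0 : ℝ), ∫⁻ r in Ioo |dH x x₀ - t| (dH x x₀ + t),
      F t * G r * ENNReal.ofReal
        (2 * Real.pi * Real.sinh t * Real.sinh r / Real.sinh (dH x x₀))

/-! ## The kernel -/

/-- FT: a Fourier transform -/
def S_FT : Prop := ∀ b : ℝ, 0 < b → ∀ l : ℂ, |l.im| < b →
  IntegrableOn (fun t : ℝ => (t : ℂ) * Complex.cos (l * t) / (Real.sinh (b * t) : ℂ)) (Ioi 0) ∧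
  ∫ t in Ioi (0 : ℝ), (t : ℂ) * Complex.cos (l * t) / (Real.sinh (b * t) : ℂ) =
    Real.pi ^ 2 / (4 * b ^ 2) * (Complex.cosh (Real.pi * l / (2 * b)) ^ 2)⁻¹

/-- KAP: properties of the kernel -/
def S_KAP : Prop := ∀ s : ℝ, 0 < s →
  Measurable (kap s) ∧ (∀ t, 0 < t → 0 ≤ kap s t) ∧
  (∃ C : ℝ, ∀ t, 0 < t → kap s t * Real.sinh t ≤ C * (1 + t) * Real.exp (-(2 * s * t))) ∧
  ∀ l : ℂ, |l.im| < 2 * s →
    IntegrableOn (fun t : ℝ => ((kap s t * Real.sinh t ^ 2 : ℝ) : ℂ) * sph l t) (Ioi 0) ∧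
    4 * Real.pi * ∫ t in Ioi (0 : ℝ), ((kap s t * Real.sinh t ^ 2 : ℝ) : ℂ) * sph l t = sec s l

/-- MS: properties of the symbol -/
def S_MS : Prop := ∀ s : ℝ, 0 < s →
  (∀ l : ℂ, |l.im| < 2 * s → Complex.cosh (Real.pi * l / (4 * s)) ≠ 0) ∧
  (∀ l : ℂ, |l.im| < 2 * s → msym s l = 1 - sec s l) ∧
  (∀ l : ℂ, msym s (-l) = msym s l) ∧
  DifferentiableOn ℂ (msym s) {l : ℂ | |l.im| < 2 * s} ∧
  (∀ l : ℂ, |l.im| ≤ s → ‖msym s l‖ ≤ 1) ∧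
  (∀ ξ : ℝ, msym s (ξ + s * Complex.I) = Complex.exp (Complex.I * ph s ξ)) ∧
  ContDiff ℝ (⊤ : ℕ∞) (ph s)

/-- SPH: spherical functions -/
def S_SPH : Prop :=
  (∀ (l : ℂ) (t : ℝ), l ≠ 0 → sph l t = Complex.sin (l * t) / (l * Real.sinh t)) ∧
  (∀ (l : ℂ) (t : ℝ), 0 < t → ‖sph l t‖ ≤ (sph (l.im * Complex.I) t).re ∧
    (sph (l.im * Complex.I) t).im = 0) ∧
  (∀ (ξ t : ℝ), 0 < t → ‖sph ξ t‖ ≤ t / Real.sinh t) ∧
  (∀ t : ℝ, Differentiable ℂ fun l => sph l t) ∧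
  Measurable (fun q : ℂ × ℝ => sph q.1 q.2)

/-! ## The operator -/

/-- OP: the convolution is bounded -/
def S_OP : Prop := ∀ s : ℝ, 0 < s → s < 1 → ∀ [Fact (1 ≤ pp s)],
  ∃ K : Lp ℂ (pp s) mu →L[ℂ] Lp ℂ (pp s) mu, IsK s (pp s) K

/-- COMM: it commutes with the action -/
def S_COMM : Prop := ∀ s : ℝ, 0 < s → s < 1 → ∀ [Fact (1 ≤ pp s)]
  (K : Lp ℂ (pp s) mu →L[ℂ] Lp ℂ (pp s) mu), IsK s (pp s) K →
  ∀ (g : Matrix.SpecialLinearGroup (Fin 2) ℂ) (h : MeasurePreserving (act g) mu mu)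
    (f : Lp ℂ (pp s) mu), K (Lp.compMeasurePreserving (act g) h f) =
      Lp.compMeasurePreserving (act g) h (K f)

/-- SYM: the functions `EE` are eigenfunctions -/
def S_SYM : Prop := ∀ s : ℝ, 0 < s → ∀ l : ℂ, |l.im| < 2 * s → ∀ (b : Option ℂ) (x : Hs),
  0 < x.2 → Integrable (fun x' => (kap s (dH x x') : ℂ) * EE l b x') mu ∧
    ∫ x', (kap s (dH x x') : ℂ) * EE l b x' ∂mu = sec s l * EE l b x

/-- FUB: the symbol of the operator -/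
def S_FUB : Prop := ∀ s : ℝ, 0 < s → s < 1 → ∀ [Fact (1 ≤ pp s)]
  (K : Lp ℂ (pp s) mu →L[ℂ] Lp ℂ (pp s) mu), IsK s (pp s) K →
  ∀ (f : Lp ℂ (pp s) mu) (u : Hs → ℂ), Continuous u → HasCompactSupport u →
    tsupport u ⊆ {x | 0 < x.2} → f =ᵐ[mu] u → ∀ l : ℂ, |l.im| < 2 * s → ∀ b : Option ℂ,
    Integrable (fun x => K f x * EE l b x) mu ∧ Integrable (fun x => u x * EE l b x) mu ∧
    ∫ x, K f x * EE l b x ∂mu = sec s l * ∫ x, u x * EE l b x ∂mu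

/-- EIG: spherical functions are eigenfunctions -/
def S_EIG : Prop := ∀ s : ℝ, 0 < s → ∀ l : ℂ, |l.im| < 2 * s → ∀ x x₀ : Hs, 0 < x.2 →
  0 < x₀.2 → x ≠ x₀ → Integrable (fun x' => (kap s (dH x x') : ℂ) * sph l (dH x₀ x')) mu ∧
    ∫ x', (kap s (dH x x') : ℂ) * sph l (dH x₀ x') ∂mu = sec s l * sph l (dH x₀ x)

/-- DOM: a bound of the wave packets, uniform in the closed strip -/
def S_DOM : Prop := ∀ s : ℝ, 0 < s → s < 1 → ∀ a : ℝ → ℂ, Tst a → ∃ D : ℝ → ℝ, Measurable D ∧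
  (∀ t, 0 ≤ D t) ∧
  (∀ t, 0 < t → Differentiable ℂ (fun z => GG a z t) ∧
    ∀ z : ℂ, |z.im| ≤ s → ‖GG a z t‖ ≤ D t ∧ ‖deriv (fun w => GG a w t) z‖ ≤ D t) ∧
  (∀ z : ℂ, Measurable (GG a z)) ∧
  ∫⁻ t in Ioi (0 : ℝ), ENNReal.ofReal (D t ^ (2 / (1 - s)) * Real.sinh t ^ 2) < ∞

/-- MEM: wave packets are in `L^p` -/
def S_MEM : Prop := ∀ s : ℝ, 0 < s → s < 1 → ∀ a : ℝ → ℂ, Tst a → ∀ x₀ : Hs, 0 < x₀.2 →
  ∀ z : ℂ, |z.im| ≤ s → MemLp (fun x => GG a z (dH x₀ x)) (pp s) mu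

/-- HOLV: functionals of wave packets are holomorphic in the strip -/
def S_HOLV : Prop := ∀ s : ℝ, 0 < s → s < 1 → ∀ [Fact (1 ≤ pp s)] (a : ℝ → ℂ), Tst a →
  ∀ x₀ : Hs, 0 < x₀.2 → ∀ φ : Lp ℂ (pp s) mu →L[ℂ] ℂ,
  ContinuousOn (fun z => φ (el (pp s) fun x => GG a z (dH x₀ x))) {z : ℂ | |z.im| ≤ s} ∧
  DifferentiableOn ℂ (fun z => φ (el (pp s) fun x => GG a z (dH x₀ x))) {z : ℂ | |z.im| < s}

/-- UNQ: uniqueness -/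
def S_UNQ : Prop := ∀ (s : ℝ) (A : ℂ → ℂ), 0 < s → ContinuousOn A {z : ℂ | |z.im| ≤ s} →
  DifferentiableOn ℂ A {z : ℂ | |z.im| < s} →
  (∃ δ : ℝ, 0 < δ ∧ ∀ τ : ℝ, |τ| < δ → A (τ + s * Complex.I) = 0) →
  ∀ z : ℂ, |z.im| ≤ s → A z = 0

/-- KG: the operator on wave packets -/
def S_KG : Prop := ∀ s : ℝ, 0 < s → s < 1 → ∀ [Fact (1 ≤ pp s)]
  (K : Lp ℂ (pp s) mu →L[ℂ] Lp ℂ (pp s) mu), IsK s (pp s) K → ∀ a : ℝ → ℂ, Tst a →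
  ∀ x₀ : Hs, 0 < x₀.2 →
    K (el (pp s) fun x => GG a (s * Complex.I) (dH x₀ x)) =
      el (pp s) fun x => GG (fun ξ => sec s (ξ + s * Complex.I) * a ξ) (s * Complex.I) (dH x₀ x)

/-! ## Dispersion -/

/-- VDC: decay of oscillatory integrals -/
def S_VDC : Prop := ∀ s : ℝ, 0 < s → ∀ a : ℝ → ℂ, Tst0 a → ∀ σ : ℝ, (σ = 1 ∨ σ = -1) →
  ∀ ε : ℝ, 0 < ε → ∃ N : ℕ, ∀ n : ℕ, N ≤ n → ∀ t : ℝ,
    ‖∫ ξ : ℝ, a ξ * Complex.exp (Complex.I * ((σ * n * ph s ξ + t * ξ : ℝ) : ℂ))‖ ≤ ε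

/-- PLA: Plancherel inequality -/
def S_PLA : Prop := ∀ c : ℝ → ℂ, Continuous c → HasCompactSupport c →
  ∫⁻ t : ℝ, (‖∫ ξ : ℝ, c ξ * Complex.exp (Complex.I * ((t * ξ : ℝ) : ℂ))‖ₑ) ^ 2 ≤
    ENNReal.ofReal (2 * Real.pi * ∫ ξ : ℝ, ‖c ξ‖ ^ 2)

/-- EST: the `L^p` norm of a wave packet on the line `ℝ + i s` -/
def S_EST : Prop := ∀ s : ℝ, 0 < s → s < 1 → ∃ C : ℝ, 0 < C ∧ ∀ a : ℝ → ℂ, Continuous a →
  HasCompactSupport a → ∀ M : ℝ, 0 < M →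
  (∀ t : ℝ, ‖∫ ξ : ℝ, a ξ * Complex.exp (Complex.I * ((t * ξ : ℝ) : ℂ))‖ ≤ M) →
  (∀ t : ℝ, ‖∫ ξ : ℝ, (a ξ / (ξ + s * Complex.I)) *
    Complex.exp (Complex.I * ((t * ξ : ℝ) : ℂ))‖ ≤ M) →
  ∀ x₀ : Hs, 0 < x₀.2 →
    ∫⁻ x, (‖GG a (s * Complex.I) (dH x₀ x)‖ₑ) ^ (2 / (1 - s)) ∂mu ≤
      ENNReal.ofReal (C * (M ^ (2 / (1 - s)) + M ^ (2 / (1 - s) - 2) *
        ∫ ξ : ℝ, ‖a ξ / (ξ + s * Complex.I)‖ ^ 2))

/-- DISP: dispersion -/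
def S_DISP : Prop := ∀ s : ℝ, 0 < s → s < 1 → ∀ [Fact (1 ≤ pp s)] (a : ℝ → ℂ), Tst0 a →
  ∀ x₀ : Hs, 0 < x₀.2 → ∀ σ : ℝ, (σ = 1 ∨ σ = -1) →
  Tendsto (fun n : ℕ => el (pp s) fun x =>
    GG (fun ξ => Complex.exp (Complex.I * ((σ * n * ph s ξ : ℝ) : ℂ)) * a ξ) (s * Complex.I)
      (dH x₀ x)) atTop (𝓝 0)

/-! ## Density -/

/-- BUMP: radial bumps are superpositions of spherical functions -/
def S_BUMP : Prop := ∀ s : ℝ, 0 < s → s < 1 → ∀ [Fact (1 ≤ pp s)]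
  (φ : Lp ℂ (pp s) mu →L[ℂ] ℂ) (x₀ : Hs), 0 < x₀.2 →
  (∀ b : ℝ → ℂ, Tst b → φ (el (pp s) fun x => GG b 0 (dH x₀ x)) = 0) →
  ∀ Q : ℝ → ℝ, ContDiff ℝ (⊤ : ℕ∞) Q → HasCompactSupport Q → (∀ t, Q (-t) = Q t) →
    φ (el (pp s) fun x => (Q (dH x₀ x) : ℂ)) = 0

/-- BALL: indicators of balls -/
def S_BALL : Prop := ∀ s : ℝ, 0 < s → s < 1 → ∀ [Fact (1 ≤ pp s)]
  (φ : Lp ℂ (pp s) mu →L[ℂ] ℂ) (x₀ : Hs), 0 < x₀.2 →
  (∀ Q : ℝ → ℝ, ContDiff ℝ (⊤ : ℕ∞) Q → HasCompactSupport Q → (∀ t, Q (-t) = Q t) →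
    φ (el (pp s) fun x => (Q (dH x₀ x) : ℂ)) = 0) →
  ∀ r : ℝ, 0 < r → φ (el (pp s) ({x : Hs | 0 < x.2 ∧ dH x₀ x ≤ r}.indicator 1)) = 0

/-- EUC: hyperbolic balls are Euclidean balls -/
def S_EUC : Prop := ∀ (c : Hs) (R : ℝ), 0 < R → R < c.2 → ∃ (x₀ : Hs) (r : ℝ), 0 < x₀.2 ∧ 0 < r ∧
  {x : Hs | ‖x.1 - c.1‖ ^ 2 + (x.2 - c.2) ^ 2 ≤ R ^ 2} = {x : Hs | 0 < x.2 ∧ dH x₀ x ≤ r}

/-- VIT: a functional which vanishes on the indicators of Euclidean balls is zero -/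
def S_VIT : Prop := ∀ s : ℝ, 0 < s → s < 1 → ∀ [Fact (1 ≤ pp s)]
  (φ : Lp ℂ (pp s) mu →L[ℂ] ℂ),
  (∀ (c : Hs) (R : ℝ), 0 < R → R < c.2 → φ (el (pp s)
    ({x : Hs | ‖x.1 - c.1‖ ^ 2 + (x.2 - c.2) ^ 2 ≤ R ^ 2}.indicator 1)) = 0) → φ = 0

/-- KIT: Kitai's criterion -/
def S_KIT : Prop := ∀ (E : Type) [NormedAddCommGroup E] [NormedSpace ℂ E] [CompleteSpace E]
  [SecondCountableTopology E] (T : E →L[ℂ] E) (S : Set E),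
  (∀ φ : E →L[ℂ] ℂ, (∀ e ∈ S, φ e = 0) → φ = 0) →
  (∀ e ∈ S, Tendsto (fun n : ℕ => (T ^ n) e) atTop (𝓝 0)) →
  (∀ e ∈ S, ∃ v : ℕ → E, Tendsto v atTop (𝓝 0) ∧ ∀ n, (T ^ n) (v n) = e) →
  ∃ f : E, Dense (range fun n : ℕ => (T ^ n) f)

end

end Pool.Agent.N46.HM
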