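import Mathlib
import Pool.Agent.N46.HM.Stm

/-!
# Project HM (helper46), leaf BALL (helper863)

A functional which vanishes on all smooth radial bumps vanishes on the indicators of balls.
-/

set_option autoImplicit false

open MeasureTheory Set Filter
open scoped ENNReal Topology ComplexConjugate

namespace Pool.Agent.N46.HM

namespace BALL

/-- the ball -/
def bl (x₀ : Hs) (r : ℝ) : Set Hs := {x : Hs | 0 < x.2 ∧ dH x₀ x ≤ r}

lemma meas_aux (g : Hs → Hs → ℝ) (h : Measurable (fun q : Hs × Hs => g q.1 q.2)) (x₀ : Hs) :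
    Measurable (fun x : Hs => g x₀ x) := by
  have h' : Measurable (fun x : Hs => ((x₀, x) : Hs × Hs)) :=
    measurable_const.prodMk measurable_id
  exact h.comp h'

lemma meas_dH (h1 : S_DIST) (x₀ : Hs) : Measurable (fun x : Hs => dH x₀ x) :=
  meas_aux dH h1.2 x₀

lemma meas_pos : MeasurableSet {x : Hs | 0 < x.2} :=
  measurableSet_lt measurable_const measurable_snd

lemma meas_bl (h1 : S_DIST) (x₀ : Hs) (r : ℝ) : MeasurableSet (bl x₀ r) :=
  meas_pos.inter (measurableSet_le (meas_dH h1 x₀) measurable_const)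

lemma ae_pos : ∀ᵐ x ∂mu, 0 < x.2 := by
  have h : ∀ᵐ x ∂(volume.restrict {x : Hs | 0 < x.2}), 0 < x.2 := ae_restrict_mem meas_pos
  exact (withDensity_absolutelyContinuous _ _).ae_le h

/-- balls have finite measure -/
lemma mu_bl (h1 : S_DIST) (h2 : S_RAD) (x₀ : Hs) (hx : 0 < x₀.2) (R : ℝ) :
    mu (bl x₀ R) < ∞ := by
  have hF : Measurable ((Iic R).indicator (fun _ : ℝ => (1 : ℝ≥0∞))) :=
    measurable_const.indicator measurableSet_Iic
  have h := h2 x₀ hx ((Iic R).indicator (fun _ => (1 : ℝ≥0∞))) (fun _ => 1) hF measurable_const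
  have e1 : mu (bl x₀ R) ≤
      ∫⁻ x', ((Iic R).indicator (fun _ => (1 : ℝ≥0∞))) (dH x₀ x') * 1 ∂mu := by
    rw [← lintegral_indicator_one (meas_bl h1 x₀ R)]
    refine lintegral_mono fun x => ?_
    by_cases hx : x ∈ bl x₀ R
    · have hx' : dH x₀ x ∈ Iic R := hx.2
      simp [hx, hx']
    · simp [hx]
  refine lt_of_le_of_lt e1 ?_
  rw [h]
  have e2 : (∫⁻ t in Ioi (0 : ℝ), ∫⁻ r in Ioo (-t) t,
      ((Iic R).indicator (fun _ => (1 : ℝ≥0∞))) t * 1 *
        ENNReal.ofReal (2 * Real.pi * Real.sinh t * Real.exp (-r))) ≤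
      ∫⁻ t in Ioi (0 : ℝ), (Iic R).indicator (fun _ => ENNReal.ofReal (2 * R) *
        ENNReal.ofReal (2 * Real.pi * Real.sinh R * Real.exp R)) t := by
    refine setLIntegral_mono' measurableSet_Ioi fun t ht => ?_
    by_cases hR : t ∈ Iic R
    · have ht0 : (0 : ℝ) < t := ht
      have htR : t ≤ R := hR
      rw [indicator_of_mem hR, indicator_of_mem hR]
      calc ∫⁻ r in Ioo (-t) t, (1 : ℝ≥0∞) * 1 *
            ENNReal.ofReal (2 * Real.pi * Real.sinh t * Real.exp (-r))
          ≤ ∫⁻ _r in Ioo (-t) t,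
            ENNReal.ofReal (2 * Real.pi * Real.sinh R * Real.exp R) := by
            refine setLIntegral_mono' measurableSet_Ioo fun r hr => ?_
            rw [one_mul, one_mul]
            refine ENNReal.ofReal_le_ofReal ?_
            have a1 : Real.sinh t ≤ Real.sinh R := Real.sinh_le_sinh.2 htR
            have a2 : 0 ≤ Real.sinh t := Real.sinh_nonneg_iff.2 ht0.le
            have a3 : Real.exp (-r) ≤ Real.exp R := Real.exp_le_exp.2 (by linarith [hr.1])
            have a4 : 0 < Real.exp (-r) := Real.exp_pos _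
            have a5 := Real.pi_pos
            have a6 : 0 ≤ Real.sinh R := a2.trans a1
            gcongr
        _ = ENNReal.ofReal (2 * Real.pi * Real.sinh R * Real.exp R) *
            ENNReal.ofReal (2 * t) := by
            rw [setLIntegral_const, Real.volume_Ioo]
            congr 2
            ring
        _ ≤ ENNReal.ofReal (2 * R) *
            ENNReal.ofReal (2 * Real.pi * Real.sinh R * Real.exp R) := by
            rw [mul_comm]
            gcongr
    · rw [indicator_of_notMem hR, indicator_of_notMem hR]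
      simp
  refine lt_of_le_of_lt e2 ?_
  rw [lintegral_indicator measurableSet_Iic, setLIntegral_const]
  refine ENNReal.mul_lt_top (ENNReal.mul_lt_top ENNReal.ofReal_lt_top ENNReal.ofReal_lt_top) ?_
  rw [Measure.restrict_apply measurableSet_Iic]
  have : (Iic R ∩ Ioi (0 : ℝ)) = Ioc 0 R := by
    ext t
    simp only [mem_inter_iff, mem_Iic, mem_Ioi, mem_Ioc]
    tauto
  rw [this, Real.volume_Ioc]
  exact ENNReal.ofReal_lt_top

/-- the smooth cut-offs -/
noncomputable def bp (r : ℝ) (hr : 0 < r) (n : ℕ) : ContDiffBump (0 : ℝ) where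
  rIn := r
  rOut := r + 1 / ((n : ℝ) + 1)
  rIn_pos := hr
  rIn_lt_rOut := by
    have : (0 : ℝ) < 1 / ((n : ℝ) + 1) := by positivity
    linarith

end BALL

open BALL in
/-- BALL -/
theorem t_BALL (h1 : S_DIST) (h2 : S_RAD) : S_BALL := by
  intro s hs0 hs1 _ φ x₀ hx₀ hQ r hr
  have hp0 : pp s ≠ 0 := by
    rw [pp, Ne, ENNReal.ofReal_eq_zero, not_le]
    exact div_pos two_pos (by linarith)
  have hpt : pp s ≠ ∞ := ENNReal.ofReal_ne_top
  have hpr : 0 < (pp s).toReal := ENNReal.toReal_pos hp0 hpt
  have hpos := ae_pos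
  -- the functions
  set F : ℕ → Hs → ℂ := fun n x => ((bp r hr n (dH x₀ x) : ℝ) : ℂ) with hFdef
  set L : Hs → ℂ := ({x : Hs | 0 < x.2 ∧ dH x₀ x ≤ r}.indicator 1) with hLdef
  have hFm : ∀ n, Measurable (F n) := fun n =>
    Complex.measurable_ofReal.comp ((bp r hr n).continuous.measurable.comp (meas_dH h1 x₀))
  have hLm : Measurable L := measurable_one.indicator (meas_bl h1 x₀ r)
  -- MemLp
  have hI : ∀ R : ℝ, MemLp ((bl x₀ R).indicator (fun _ => (1 : ℂ))) (pp s) mu := fun R =>
    memLp_indicator_const _ (meas_bl h1 x₀ R) 1 (Or.inr (mu_bl h1 h2 x₀ hx₀ R).ne)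
  have hLp : MemLp L (pp s) mu := hI r
  have hn1 : ∀ n : ℕ, (1 : ℝ) / ((n : ℝ) + 1) ≤ 1 := by
    intro n
    rw [div_le_one (by positivity)]
    have : (0 : ℝ) ≤ n := by positivity
    linarith
  have hFp : ∀ n, MemLp (F n) (pp s) mu := by
    intro n
    refine (hI (r + 1)).mono (hFm n).aestronglyMeasurable ?_
    filter_upwards [hpos] with x hx
    have hd : 0 ≤ dH x₀ x := (h1.1 x₀ x hx₀ hx).2.1
    by_cases hxb : x ∈ bl x₀ (r + 1)
    · rw [indicator_of_mem hxb]
      simp only [hFdef, Complex.norm_real, Real.norm_eq_abs, norm_one]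
      rw [abs_of_nonneg (bp r hr n).nonneg]
      exact (bp r hr n).le_one
    · rw [indicator_of_notMem hxb]
      have hgt : r + 1 < dH x₀ x := by
        by_contra hcon
        exact hxb ⟨hx, not_lt.1 hcon⟩
      have hz : bp r hr n (dH x₀ x) = 0 := by
        apply (bp r hr n).zero_of_le_dist
        rw [Real.dist_eq, sub_zero, abs_of_nonneg hd]
        show r + 1 / ((n : ℝ) + 1) ≤ _
        linarith [hn1 n]
      simp [hFdef, hz]
  -- convergence
  have hconv : Tendsto (fun n => (hFp n).toLp (F n)) atTop (𝓝 (hLp.toLp L)) := by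
    rw [Lp.tendsto_Lp_iff_tendsto_eLpNorm'']
    set A : ℕ → Set Hs := fun n =>
      {x : Hs | 0 < x.2 ∧ r < dH x₀ x ∧ dH x₀ x < r + 1 / ((n : ℝ) + 1)} with hA
    have hAm : ∀ n, MeasurableSet (A n) := fun n =>
      meas_pos.inter ((measurableSet_lt measurable_const (meas_dH h1 x₀)).inter
        (measurableSet_lt (meas_dH h1 x₀) measurable_const))
    have hAanti : Antitone A := by
      intro m n hmn x hx
      refine ⟨hx.1, hx.2.1, hx.2.2.trans_le ?_⟩
      have hmn' : (m : ℝ) ≤ n := by exact_mod_cast hmn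
      gcongr
    have hAfin : mu (A 0) ≠ ∞ := by
      refine ((measure_mono ?_).trans_lt (mu_bl h1 h2 x₀ hx₀ (r + 1))).ne
      intro x hx
      refine ⟨hx.1, hx.2.2.le.trans ?_⟩
      simp
    have hAint : (⋂ n, A n) = ∅ := by
      ext x
      simp only [mem_iInter, mem_empty_iff_false, iff_false, not_forall]
      by_contra hcon
      push Not at hcon
      have h0 := (hcon 0).2.1
      obtain ⟨n, hn⟩ := exists_nat_one_div_lt (sub_pos.2 h0)
      have := (hcon n).2.2
      linarith
    have hAt : Tendsto (fun n => mu (A n)) atTop (𝓝 0) := by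
      have := tendsto_measure_iInter_atTop (μ := mu) (fun n => (hAm n).nullMeasurableSet) hAanti
        ⟨0, hAfin⟩
      rw [hAint, measure_empty] at this
      exact this
    have hbound : ∀ n, eLpNorm (F n - L) (pp s) mu ≤ mu (A n) ^ (1 / (pp s).toReal) := by
      intro n
      have e1 : eLpNorm ((A n).indicator (fun _ => (1 : ℂ))) (pp s) mu =
          mu (A n) ^ (1 / (pp s).toReal) := by
        rw [eLpNorm_indicator_const (hAm n) hp0 hpt]
        simp
      rw [← e1]
      refine eLpNorm_mono_ae ?_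
      filter_upwards [hpos] with x hx
      have hd : 0 ≤ dH x₀ x := (h1.1 x₀ x hx₀ hx).2.1
      simp only [Pi.sub_apply]
      rcases le_or_gt (dH x₀ x) r with hle | hgt
      · have hone : bp r hr n (dH x₀ x) = 1 := by
          apply (bp r hr n).one_of_mem_closedBall
          rw [Metric.mem_closedBall, Real.dist_eq, sub_zero, abs_of_nonneg hd]
          exact hle
        have hxm : x ∈ {x : Hs | 0 < x.2 ∧ dH x₀ x ≤ r} := ⟨hx, hle⟩
        have hL1 : L x = 1 := by rw [hLdef, indicator_of_mem hxm]; rfl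
        rw [hL1]
        simp [hFdef, hone]
      · have hxm : x ∉ {x : Hs | 0 < x.2 ∧ dH x₀ x ≤ r} := fun h => absurd h.2 (not_le.2 hgt)
        have hL0 : L x = 0 := by rw [hLdef, indicator_of_notMem hxm]
        rw [hL0, sub_zero]
        rcases lt_or_ge (dH x₀ x) (r + 1 / ((n : ℝ) + 1)) with h3 | h3
        · have hxA : x ∈ A n := ⟨hx, hgt, h3⟩
          rw [indicator_of_mem hxA]
          simp only [hFdef, Complex.norm_real, Real.norm_eq_abs, norm_one]
          rw [abs_of_nonneg (bp r hr n).nonneg]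
          exact (bp r hr n).le_one
        · have hz : bp r hr n (dH x₀ x) = 0 := by
            apply (bp r hr n).zero_of_le_dist
            rw [Real.dist_eq, sub_zero, abs_of_nonneg hd]
            exact h3
          simp [hFdef, hz]
    have hlim : Tendsto (fun n => mu (A n) ^ (1 / (pp s).toReal)) atTop (𝓝 0) := by
      have := hAt.ennrpow_const (1 / (pp s).toReal)
      rwa [ENNReal.zero_rpow_of_pos (by positivity)] at this
    exact tendsto_of_tendsto_of_tendsto_of_le_of_le tendsto_const_nhds hlim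
      (fun n => bot_le) hbound
  -- the functional vanishes along the sequence
  have hzero : ∀ n, φ ((hFp n).toLp (F n)) = 0 := by
    intro n
    have h := hQ (fun t => bp r hr n t) (bp r hr n).contDiff (bp r hr n).hasCompactSupport
      (fun t => (bp r hr n).neg t)
    rw [el, dif_pos (hFp n)] at h
    exact h
  have hfin : φ (hLp.toLp L) = 0 := by
    have h := (φ.continuous.tendsto _).comp hconv
    have h' : Tendsto (fun _ : ℕ => (0 : ℂ)) atTop (𝓝 (φ (hLp.toLp L))) :=
      h.congr fun n => hzero n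
    exact (tendsto_nhds_unique h' tendsto_const_nhds)
  rw [el, dif_pos hLp]
  exact hfin

end Pool.Agent.N46.HM
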