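import Mathlib
import Pool.Agent.N46.HM.Stm

/-!
# Project HM, part BI: distances from two points (helper383)
-/

set_option autoImplicit false

open MeasureTheory Set Filter
open scoped ENNReal Topology ComplexConjugate

namespace Pool.Agent.N46.HM

namespace BI

/-! ### the inverse of the hyperbolic cosine -/

/-- the inverse of the hyperbolic cosine -/
noncomputable def ac (c : ℝ) : ℝ := 2 * Real.arsinh (√((c - 1) / 2))

theorem ac_nonneg (c : ℝ) : 0 ≤ ac c := by
  unfold ac
  have := Real.arsinh_nonneg_iff.2 (Real.sqrt_nonneg ((c - 1) / 2))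
  positivity

theorem cosh_two (y : ℝ) : Real.cosh (2 * y) = 1 + 2 * Real.sinh y ^ 2 := by
  rw [Real.cosh_two_mul, Real.cosh_sq]
  ring

theorem ac_cosh {s : ℝ} (hs : 0 ≤ s) : ac (Real.cosh s) = s := by
  unfold ac
  have h1 : Real.cosh s = 1 + 2 * Real.sinh (s / 2) ^ 2 := by
    have h2 := cosh_two (s / 2)
    rwa [mul_div_cancel₀ s (two_ne_zero)] at h2
  have h2 : (Real.cosh s - 1) / 2 = Real.sinh (s / 2) ^ 2 := by
    rw [h1]
    ring
  have h3 : 0 ≤ Real.sinh (s / 2) := Real.sinh_nonneg_iff.2 (by positivity)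
  rw [h2, Real.sqrt_sq h3, Real.arsinh_sinh]
  ring

theorem cosh_ac {c : ℝ} (hc : 1 ≤ c) : Real.cosh (ac c) = c := by
  unfold ac
  rw [cosh_two, Real.sinh_arsinh, Real.sq_sqrt (by linarith)]
  ring

theorem ac_meas : Measurable ac := by
  unfold ac
  have h1 : Continuous fun c : ℝ => 2 * Real.arsinh (√((c - 1) / 2)) :=
    continuous_const.mul (Real.continuous_arsinh.comp (by fun_prop))
  exact h1.measurable

/-! ### the measure on pairs (distance, height) -/

/-- the set of the pairs -/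
def Sr : Set (ℝ × ℝ) := {q | 0 < q.1 ∧ -q.1 < q.2 ∧ q.2 < q.1}

/-- the density -/
noncomputable def wr (q : ℝ × ℝ) : ℝ≥0∞ :=
  ENNReal.ofReal (2 * Real.pi * Real.sinh q.1 * Real.exp (-q.2))

theorem Sr_meas : MeasurableSet Sr := by
  unfold Sr
  refine (measurableSet_lt measurable_const measurable_fst).inter
    ((measurableSet_lt measurable_fst.neg measurable_snd).inter
      (measurableSet_lt measurable_snd measurable_fst))

theorem wr_meas : Measurable wr := by
  unfold wr
  exact (by fun_prop : Continuous fun q : ℝ × ℝ =>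
    2 * Real.pi * Real.sinh q.1 * Real.exp (-q.2)).measurable.ennreal_ofReal

/-- the measure -/
noncomputable def rho : Measure (ℝ × ℝ) := (volume.restrict Sr).withDensity wr

theorem rho_lint {K : ℝ × ℝ → ℝ≥0∞} (hK : Measurable K) :
    ∫⁻ q, K q ∂rho = ∫⁻ t in Ioi (0 : ℝ), ∫⁻ r in Ioo (-t) t, K (t, r) * wr (t, r) := by
  unfold rho
  rw [lintegral_withDensity_eq_lintegral_mul _ wr_meas hK, ← lintegral_indicator Sr_meas,
    Measure.volume_eq_prod, lintegral_prod _
      ((wr_meas.mul hK).indicator Sr_meas).aemeasurable, ← lintegral_indicator measurableSet_Ioi]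
  refine lintegral_congr fun t => ?_
  by_cases ht : 0 < t
  · rw [indicator_of_mem (show t ∈ Ioi (0 : ℝ) from ht), ← lintegral_indicator measurableSet_Ioo]
    refine lintegral_congr fun r => ?_
    by_cases hr : r ∈ Ioo (-t) t
    · rw [indicator_of_mem hr, indicator_of_mem (show (t, r) ∈ Sr from ⟨ht, hr.1, hr.2⟩),
        Pi.mul_apply, mul_comm]
    · rw [indicator_of_notMem hr, indicator_of_notMem (fun h : (t, r) ∈ Sr => hr ⟨h.2.1, h.2.2⟩)]
  · rw [indicator_of_notMem (show t ∉ Ioi (0 : ℝ) from ht)]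
    have h1 : ∀ r : ℝ, Sr.indicator (wr * K) (t, r) = 0 := fun r =>
      indicator_of_notMem (fun h : (t, r) ∈ Sr => ht h.1) _
    simp only [h1, lintegral_zero]

/-- the map to the pairs -/
noncomputable def Tp (x' : Hs) : ℝ × ℝ := (dH (0, 1) x', Real.log (x'.2 / 1))

theorem meas_left (f : Hs × Hs → ℝ) (h3 : Measurable f) (p : Hs) :
    Measurable fun x' : Hs => f (p, x') := by
  have h2 : Measurable (fun x' : Hs => ((p, x') : Hs × Hs)) := measurable_prodMk_left
  exact h3.comp h2

theorem dH_meas (h1 : S_DIST) (p : Hs) : Measurable fun x' : Hs => dH p x' := by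
  obtain ⟨-, h3⟩ := h1
  exact meas_left (fun q : Hs × Hs => dH q.1 q.2) h3 p

theorem Tp_meas (h1 : S_DIST) : Measurable Tp := by
  unfold Tp
  refine Measurable.prodMk (dH_meas h1 (0, 1)) ?_
  exact Real.measurable_log.comp (measurable_snd.div_const 1)

theorem rho_fin (n : ℕ) : rho (Iic (n : ℝ) ×ˢ univ) ≠ ⊤ := by
  have h0 : rho (Iic (n : ℝ) ×ˢ univ) = ∫⁻ q, (Iic (n : ℝ) ×ˢ univ).indicator 1 q ∂rho := by
    rw [lintegral_indicator_one (measurableSet_Iic.prod MeasurableSet.univ)]
  rw [h0, rho_lint (measurable_one.indicator (measurableSet_Iic.prod MeasurableSet.univ))]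
  have h1 : ∫⁻ t in Ioi (0 : ℝ), ∫⁻ r in Ioo (-t) t,
      (Iic (n : ℝ) ×ˢ univ).indicator 1 (t, r) * wr (t, r) ≤
      ∫⁻ t : ℝ, (Ioc (0 : ℝ) n).indicator (fun _ => ∫⁻ _ in Ioo (-(n : ℝ)) n,
        ENNReal.ofReal (2 * Real.pi * Real.sinh n * Real.exp n)) t := by
    rw [← lintegral_indicator measurableSet_Ioi]
    refine lintegral_mono fun t => ?_
    by_cases ht : 0 < t
    · rw [indicator_of_mem (show t ∈ Ioi (0 : ℝ) from ht)]
      by_cases htn : t ≤ n
      · rw [indicator_of_mem (show t ∈ Ioc (0 : ℝ) n from ⟨ht, htn⟩)]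
        refine (setLIntegral_mono' measurableSet_Ioo fun r hr => ?_).trans
          (lintegral_mono_set (Ioo_subset_Ioo (neg_le_neg htn) htn))
        have h2 : (Iic (n : ℝ) ×ˢ univ).indicator (1 : ℝ × ℝ → ℝ≥0∞) (t, r) ≤ 1 := by
          refine indicator_le_self' (fun _ _ => zero_le) (t, r) |>.trans ?_
          exact le_rfl
        have h3 : wr (t, r) ≤ ENNReal.ofReal (2 * Real.pi * Real.sinh n * Real.exp n) := by
          refine ENNReal.ofReal_le_ofReal ?_
          change 2 * Real.pi * Real.sinh t * Real.exp (-r) ≤ _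
          have h4 : Real.sinh t ≤ Real.sinh n := Real.sinh_le_sinh.2 htn
          have h5 : 0 ≤ Real.sinh t := Real.sinh_nonneg_iff.2 ht.le
          have h6 : Real.exp (-r) ≤ Real.exp n := Real.exp_le_exp.2 (by linarith [hr.1])
          have h7 := Real.pi_pos
          exact mul_le_mul (mul_le_mul_of_nonneg_left h4 (by positivity)) h6
            (Real.exp_pos _).le (by positivity)
        calc (Iic (n : ℝ) ×ˢ univ).indicator (1 : ℝ × ℝ → ℝ≥0∞) (t, r) * wr (t, r)
            ≤ 1 * ENNReal.ofReal (2 * Real.pi * Real.sinh n * Real.exp n) := mul_le_mul' h2 h3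
          _ = _ := one_mul _
      · rw [indicator_of_notMem (fun h : t ∈ Ioc (0 : ℝ) n => htn h.2)]
        have h2 : ∀ r : ℝ, (Iic (n : ℝ) ×ˢ univ).indicator (1 : ℝ × ℝ → ℝ≥0∞) (t, r) = 0 :=
          fun r => indicator_of_notMem (fun h : (t, r) ∈ Iic (n : ℝ) ×ˢ univ => htn h.1) _
        simp only [h2, zero_mul, lintegral_zero, le_refl]
    · rw [indicator_of_notMem (show t ∉ Ioi (0 : ℝ) from ht)]
      exact zero_le
  refine ne_top_of_le_ne_top ?_ h1
  rw [lintegral_indicator measurableSet_Ioc, setLIntegral_const, setLIntegral_const]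
  refine ENNReal.mul_ne_top (ENNReal.mul_ne_top ENNReal.ofReal_ne_top ?_) ?_
  · rw [Real.volume_Ioo]
    exact ENNReal.ofReal_ne_top
  · rw [Real.volume_Ioc]
    exact ENNReal.ofReal_ne_top

/-- the joint law of the distance and the height -/
theorem map_eq (h1 : S_DIST) (h5 : S_RAD) : Measure.map Tp mu = rho := by
  have hT := Tp_meas h1
  symm
  refine Measure.ext_of_generateFrom_of_iUnion _ (fun n : ℕ => Iic (n : ℝ) ×ˢ univ)
    generateFrom_prod.symm isPiSystem_prod ?_ (fun n => ?_) rho_fin ?_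
  · rw [← iUnion_prod_const]
    have h2 : ⋃ i : ℕ, Iic (i : ℝ) = univ := by
      refine eq_univ_of_forall fun x => ?_
      obtain ⟨n, hn⟩ := exists_nat_ge x
      exact mem_iUnion.2 ⟨n, hn⟩
    rw [h2, univ_prod_univ]
  · have h2 : MeasurableSet (Iic (n : ℝ)) := measurableSet_Iic
    have h3 : MeasurableSet (univ : Set ℝ) := MeasurableSet.univ
    exact mem_image2_of_mem h2 h3
  · rintro _ ⟨A, hA, B, hB, rfl⟩
    have hAB : MeasurableSet (A ×ˢ B) := MeasurableSet.prod hA hB
    have h2 := h5 (0, 1) one_pos (A.indicator 1) (B.indicator 1) (measurable_one.indicator hA)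
      (measurable_one.indicator hB)
    have h3 : rho (A ×ˢ B) = ∫⁻ q, (A ×ˢ B).indicator 1 q ∂rho := by
      rw [lintegral_indicator_one hAB]
    have h4 : Measure.map Tp mu (A ×ˢ B) = ∫⁻ q, (A ×ˢ B).indicator 1 q ∂(Measure.map Tp mu) := by
      rw [lintegral_indicator_one hAB]
    change rho (A ×ˢ B) = Measure.map Tp mu (A ×ˢ B)
    rw [h3, h4, rho_lint (measurable_one.indicator hAB),
      lintegral_map (measurable_one.indicator hAB) hT]
    have h6 : ∀ a b : ℝ, (A ×ˢ B).indicator (1 : ℝ × ℝ → ℝ≥0∞) (a, b) =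
        A.indicator 1 a * B.indicator 1 b := fun a b => indicator_prod_one
    simp only [h6]
    exact h2.symm

/-! ### the substitution -/

theorem subst {D t : ℝ} (hD : 0 < D) (ht : 0 < t) (G : ℝ → ℝ≥0∞) :
    ∫⁻ r in Ioo (-t) t, G (ac (Real.exp (-D) * Real.cosh t + Real.sinh D * Real.exp (-r))) *
      ENNReal.ofReal (Real.exp (-r)) =
    ∫⁻ r in Ioo |D - t| (D + t), G r * ENNReal.ofReal (Real.sinh r / Real.sinh D) := by
  obtain ⟨k, hk⟩ : ∃ k, k = Real.exp (-D) * Real.cosh t := ⟨_, rfl⟩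
  rw [← hk]
  have hsD : 0 < Real.sinh D := Real.sinh_pos_iff.2 hD
  have id1 : Real.cosh (D - t) = k + Real.sinh D * Real.exp (-t) := by
    rw [hk, Real.cosh_sub, ← Real.cosh_sub_sinh D, ← Real.cosh_sub_sinh t]
    ring
  have id2 : Real.cosh (D + t) = k + Real.sinh D * Real.exp t := by
    rw [hk, Real.cosh_add, ← Real.cosh_sub_sinh D, ← Real.cosh_add_sinh t]
    ring
  obtain ⟨q, hq⟩ : ∃ q : ℝ → ℝ, q = fun r => (Real.cosh r - k) / Real.sinh D := ⟨_, rfl⟩
  obtain ⟨f, hf⟩ : ∃ f : ℝ → ℝ, f = fun r => -Real.log (q r) := ⟨_, rfl⟩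
  have hpos : ∀ r ∈ Ioo |D - t| (D + t), 0 < r := fun r hr => (abs_nonneg _).trans_lt hr.1
  have hqb : ∀ r ∈ Ioo |D - t| (D + t), Real.exp (-t) < q r ∧ q r < Real.exp t := by
    intro r hr
    have h0 := hpos r hr
    have h1 : Real.cosh (D - t) < Real.cosh r := by
      rw [Real.cosh_lt_cosh, abs_of_pos h0]
      exact hr.1
    have h2 : Real.cosh r < Real.cosh (D + t) := by
      rw [Real.cosh_lt_cosh, abs_of_pos h0, abs_of_pos (by linarith)]
      exact hr.2
    rw [id1] at h1
    rw [id2] at h2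
    rw [hq]
    constructor
    · rw [lt_div_iff₀ hsD]
      linarith
    · rw [div_lt_iff₀ hsD]
      linarith
  have hqpos : ∀ r ∈ Ioo |D - t| (D + t), 0 < q r := fun r hr =>
    (Real.exp_pos _).trans (hqb r hr).1
  have hder : ∀ r ∈ Ioo |D - t| (D + t),
      HasDerivWithinAt f (-((Real.sinh r / Real.sinh D) / q r)) (Ioo |D - t| (D + t)) r := by
    intro r hr
    rw [hf]
    refine (HasDerivAt.neg (HasDerivAt.log ?_ (hqpos r hr).ne')).hasDerivWithinAt
    rw [hq]
    exact ((Real.hasDerivAt_cosh r).sub_const k).div_const _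
  have hinj : InjOn f (Ioo |D - t| (D + t)) := by
    intro r1 hr1 r2 hr2 h
    rw [hf] at h
    have h1 : q r1 = q r2 := Real.log_injOn_pos (hqpos r1 hr1) (hqpos r2 hr2) (neg_injective h)
    rw [hq] at h1
    have h2 : Real.cosh r1 = Real.cosh r2 := by
      have h3 : Real.cosh r1 - k = Real.cosh r2 - k := by
        have h4 : (Real.cosh r1 - k) / Real.sinh D = (Real.cosh r2 - k) / Real.sinh D := h1
        rwa [div_left_inj' hsD.ne'] at h4
      linarith
    have h3 : |r1| = |r2| := le_antisymm (Real.cosh_le_cosh.1 h2.le) (Real.cosh_le_cosh.1 h2.ge)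
    rwa [abs_of_pos (hpos r1 hr1), abs_of_pos (hpos r2 hr2)] at h3
  have himg : f '' Ioo |D - t| (D + t) = Ioo (-t) t := by
    ext r
    constructor
    · rintro ⟨r', hr', rfl⟩
      rw [hf]
      obtain ⟨h1, h2⟩ := hqb r' hr'
      have h3 : -t < Real.log (q r') := by
        rw [Real.lt_log_iff_exp_lt (hqpos r' hr')]
        exact h1
      have h4 : Real.log (q r') < t := by
        rw [Real.log_lt_iff_lt_exp (hqpos r' hr')]
        exact h2
      exact ⟨by linarith, by linarith⟩
    · rintro ⟨h1, h2⟩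
      have e1 : Real.exp (-t) < Real.exp (-r) := Real.exp_lt_exp.2 (by linarith)
      have e2 : Real.exp (-r) < Real.exp t := Real.exp_lt_exp.2 (by linarith)
      have c1 : Real.cosh (D - t) < k + Real.sinh D * Real.exp (-r) := by
        rw [id1]
        have := mul_lt_mul_of_pos_left e1 hsD
        linarith
      have c2 : k + Real.sinh D * Real.exp (-r) < Real.cosh (D + t) := by
        rw [id2]
        have := mul_lt_mul_of_pos_left e2 hsD
        linarith
      have c3 : 1 ≤ k + Real.sinh D * Real.exp (-r) := (Real.one_le_cosh _).trans c1.le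
      have c4 := cosh_ac c3
      have c5 := ac_nonneg (k + Real.sinh D * Real.exp (-r))
      rw [← c4, Real.cosh_lt_cosh, abs_of_nonneg c5] at c1
      rw [← c4, Real.cosh_lt_cosh, abs_of_nonneg c5, abs_of_pos (by linarith)] at c2
      refine ⟨_, ⟨c1, c2⟩, ?_⟩
      have c6 : q (ac (k + Real.sinh D * Real.exp (-r))) = Real.exp (-r) := by
        rw [hq]
        change (Real.cosh (ac (k + Real.sinh D * Real.exp (-r))) - k) / Real.sinh D = _
        rw [c4]
        field_simp
        ring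
      rw [hf]
      change -Real.log (q (ac (k + Real.sinh D * Real.exp (-r)))) = r
      rw [c6, Real.log_exp, neg_neg]
  rw [← himg, lintegral_image_eq_lintegral_abs_deriv_mul measurableSet_Ioo hder hinj]
  refine setLIntegral_congr_fun measurableSet_Ioo fun r hr => ?_
  have h0 := hpos r hr
  have h1 := hqpos r hr
  have h2 : Real.exp (-f r) = q r := by
    rw [hf]
    change Real.exp (- -Real.log (q r)) = q r
    rw [neg_neg, Real.exp_log h1]
  have h3 : k + Real.sinh D * q r = Real.cosh r := by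
    rw [hq]
    change k + Real.sinh D * ((Real.cosh r - k) / Real.sinh D) = _
    field_simp
    ring
  have h4 : 0 < Real.sinh r := Real.sinh_pos_iff.2 h0
  simp only [h2, h3, ac_cosh h0.le]
  rw [abs_neg, abs_of_pos (by positivity), mul_left_comm, ← ENNReal.ofReal_mul (by positivity),
    div_mul_cancel₀ _ h1.ne']

/-! ### points on the vertical line -/

theorem ae_pos : ∀ᵐ x ∂mu, 0 < x.2 := by
  have h : ∀ᵐ x ∂(volume.restrict {x : Hs | 0 < x.2}), 0 < x.2 :=
    ae_restrict_mem (measurableSet_lt measurable_const measurable_snd)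
  exact (withDensity_absolutelyContinuous _ _).ae_le h

theorem ch_vert (h1 : S_DIST) {D : ℝ} {x' : Hs} (hx' : 0 < x'.2) :
    dH (0, Real.exp D) x' = ac (Real.exp (-D) * Real.cosh (dH (0, 1) x') +
      Real.sinh D * Real.exp (-Real.log (x'.2 / 1))) := by
  obtain ⟨h2, -⟩ := h1
  obtain ⟨-, -, h3, -⟩ := h2 (0, 1) x' one_pos hx'
  rw [h3]
  have h4 : Real.exp (-Real.log (x'.2 / 1)) = (x'.2)⁻¹ := by
    rw [div_one, Real.exp_neg, Real.exp_log hx']
  rw [h4]
  have h5 : ch (0, Real.exp D) x' = Real.exp (-D) * ch (0, 1) x' + Real.sinh D * (x'.2)⁻¹ := by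
    have hE := Real.exp_pos D
    rw [Real.sinh_eq, Real.exp_neg]
    unfold ch
    simp only
    field_simp
    ring
  rw [← h5]
  rfl

theorem dist_vert {D : ℝ} (hD : 0 ≤ D) : dH (0, 1) (0, Real.exp D) = D := by
  have h5 : ch (0, 1) (0, Real.exp D) = Real.cosh D := by
    have hE := Real.exp_pos D
    rw [Real.cosh_eq, Real.exp_neg]
    unfold ch
    simp only [sub_self, norm_zero]
    field_simp
    ring
  have h6 : dH (0, 1) (0, Real.exp D) = ac (ch (0, 1) (0, Real.exp D)) := rfl
  rw [h6, h5, ac_cosh hD]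

/-- the case of the vertical line -/
theorem vert (h1 : S_DIST) (h5 : S_RAD) {D : ℝ} (hD : 0 < D) (F G : ℝ → ℝ≥0∞) (hF : Measurable F)
    (hG : Measurable G) :
    ∫⁻ x', F (dH (0, 1) x') * G (dH (0, Real.exp D) x') ∂mu =
      ∫⁻ t in Ioi (0 : ℝ), ∫⁻ r in Ioo |D - t| (D + t),
        F t * G r * ENNReal.ofReal (2 * Real.pi * Real.sinh t * Real.sinh r / Real.sinh D) := by
  have hT := Tp_meas h1
  have hA : Measurable fun q : ℝ × ℝ =>
      ac (Real.exp (-D) * Real.cosh q.1 + Real.sinh D * Real.exp (-q.2)) :=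
    ac_meas.comp (by fun_prop : Continuous fun q : ℝ × ℝ =>
      Real.exp (-D) * Real.cosh q.1 + Real.sinh D * Real.exp (-q.2)).measurable
  have hK : Measurable fun q : ℝ × ℝ => F q.1 *
      G (ac (Real.exp (-D) * Real.cosh q.1 + Real.sinh D * Real.exp (-q.2))) :=
    (hF.comp measurable_fst).mul (hG.comp hA)
  have e1 : ∫⁻ x', F (dH (0, 1) x') * G (dH (0, Real.exp D) x') ∂mu =
      ∫⁻ x', (fun q : ℝ × ℝ => F q.1 *
        G (ac (Real.exp (-D) * Real.cosh q.1 + Real.sinh D * Real.exp (-q.2)))) (Tp x') ∂mu := by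
    refine lintegral_congr_ae ?_
    filter_upwards [ae_pos] with x' hx'
    rw [ch_vert h1 hx']
    rfl
  rw [e1, ← lintegral_map hK hT, map_eq h1 h5, rho_lint hK]
  refine setLIntegral_congr_fun measurableSet_Ioi fun t ht => ?_
  have ht' : 0 < t := ht
  have hs : 0 ≤ 2 * Real.pi * Real.sinh t := by
    have h6 : 0 ≤ Real.sinh t := Real.sinh_nonneg_iff.2 ht'.le
    have := Real.pi_pos
    positivity
  have hA2 : Measurable fun r : ℝ =>
      ac (Real.exp (-D) * Real.cosh t + Real.sinh D * Real.exp (-r)) :=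
    ac_meas.comp (by fun_prop : Continuous fun r : ℝ =>
      Real.exp (-D) * Real.cosh t + Real.sinh D * Real.exp (-r)).measurable
  have hE : Measurable fun r : ℝ => ENNReal.ofReal (Real.exp (-r)) :=
    (by fun_prop : Continuous fun r : ℝ => Real.exp (-r)).measurable.ennreal_ofReal
  have e2 : ∫⁻ r in Ioo (-t) t, F (t, r).1 *
      G (ac (Real.exp (-D) * Real.cosh (t, r).1 + Real.sinh D * Real.exp (-(t, r).2))) *
        wr (t, r) = F t * ENNReal.ofReal (2 * Real.pi * Real.sinh t) *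
      ∫⁻ r in Ioo (-t) t, G (ac (Real.exp (-D) * Real.cosh t + Real.sinh D * Real.exp (-r))) *
        ENNReal.ofReal (Real.exp (-r)) := by
    have hM : Measurable fun r : ℝ => G (ac (Real.exp (-D) * Real.cosh t +
        Real.sinh D * Real.exp (-r))) * ENNReal.ofReal (Real.exp (-r)) := (hG.comp hA2).mul hE
    rw [← lintegral_const_mul _ hM]
    refine lintegral_congr fun r => ?_
    unfold wr
    simp only
    rw [ENNReal.ofReal_mul hs]
    ring
  have e3 : ∫⁻ r in Ioo |D - t| (D + t),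
      F t * G r * ENNReal.ofReal (2 * Real.pi * Real.sinh t * Real.sinh r / Real.sinh D) =
      F t * ENNReal.ofReal (2 * Real.pi * Real.sinh t) *
      ∫⁻ r in Ioo |D - t| (D + t), G r * ENNReal.ofReal (Real.sinh r / Real.sinh D) := by
    have hE2 : Measurable fun r : ℝ => ENNReal.ofReal (Real.sinh r / Real.sinh D) :=
      (by fun_prop : Continuous fun r : ℝ => Real.sinh r / Real.sinh D).measurable.ennreal_ofReal
    have hM : Measurable fun r : ℝ => G r * ENNReal.ofReal (Real.sinh r / Real.sinh D) :=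
      hG.mul hE2
    rw [← lintegral_const_mul _ hM]
    refine lintegral_congr fun r => ?_
    rw [mul_div_assoc, ENNReal.ofReal_mul hs]
    ring
  rw [e2, e3, subst hD ht' G]

end BI

/-- BI: distances from two points -/
theorem t_BI (h1 : S_DIST) (h2 : S_ISO) (h3 : S_INV) (h4 : S_PAIR) (h5 : S_RAD) : S_BI := by
  intro x x₀ hx hx₀ hne F G hF hG
  obtain ⟨g, D, hD, e1, e2⟩ := h4 x x₀ hx hx₀
  have hd : ∀ p : Hs, 0 < p.2 → ∀ x' : Hs, 0 < x'.2 → dH (act g p) (act g x') = dH p x' :=
    fun p hp x' hx' => ((h2.1 g p hp).2.2 x' hx').2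
  have hDd : dH x x₀ = D := by
    rw [← hd x hx x₀ hx₀, e1, e2, BI.dist_vert hD]
  have hDpos : 0 < D := by
    refine lt_of_le_of_ne hD fun h => hne ?_
    obtain ⟨k1, -⟩ := h1
    obtain ⟨-, -, -, -, k2⟩ := k1 x x₀ hx hx₀
    exact k2 (by rw [hDd, ← h])
  have hm := h3 g
  have hmeas : Measurable fun p : Hs => F (dH (0, 1) p) * G (dH (0, Real.exp D) p) :=
    (hF.comp (BI.dH_meas h1 (0, 1))).mul (hG.comp (BI.dH_meas h1 (0, Real.exp D)))
  have e3 : ∫⁻ x', F (dH x x') * G (dH x₀ x') ∂mu =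
      ∫⁻ x', (fun p : Hs => F (dH (0, 1) p) * G (dH (0, Real.exp D) p)) (act g x') ∂mu := by
    refine lintegral_congr_ae ?_
    filter_upwards [BI.ae_pos] with x' hx'
    have k1 := hd x hx x' hx'
    have k2 := hd x₀ hx₀ x' hx'
    rw [e1] at k1
    rw [e2] at k2
    rw [k1, k2]
  rw [e3, hm.lintegral_comp hmeas, BI.vert h1 h5 hDpos F G hF hG, hDd]

end Pool.Agent.N46.HM

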