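import Pool.Agent.N46.HM.Stm

/-!
# HM/BUMP (helper514): radial bumps are superpositions of spherical functions
-/

set_option autoImplicit false

open MeasureTheory Set Filter
open scoped ENNReal Topology ComplexConjugate FourierTransform SchwartzMap

namespace Pool.Agent.N46.HM
namespace BUMP

/-- Fourier inversion for an odd test function -/
theorem fourier_odd (q : ℝ → ℂ) (h2 : ContDiff ℝ (⊤ : ℕ∞) q) (h1 : HasCompactSupport q)
    (hodd : ∀ t, q (-t) = -q t) :
    ∃ b : ℝ → ℂ, ContDiff ℝ (⊤ : ℕ∞) b ∧ Integrable b ∧ b 0 = 0 ∧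
      ∀ t : ℝ, q t = ∫ ξ : ℝ, b ξ * (Complex.sin (ξ * t) / ξ) := by
  set qs : 𝓢(ℝ, ℂ) := h1.toSchwartzMap h2 with hqs
  set f : 𝓢(ℝ, ℂ) := 𝓕 qs with hf
  have hinv : ∀ t : ℝ, q t = ∫ v : ℝ, Complex.exp (((2 * Real.pi * v * t : ℝ) : ℂ) * Complex.I) * f v := by
    intro t
    have e1 : 𝓕⁻ f = qs := by rw [hf, FourierTransform.fourierInv_fourier_eq]
    have e2 : q t = (𝓕⁻ f) t := by rw [e1, hqs]; rfl
    rw [e2, SchwartzMap.fourierInv_coe, Real.fourierInv_eq']
    refine integral_congr_ae (ae_of_all _ fun v => ?_)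
    simp only [smul_eq_mul, RCLike.inner_apply, conj_trivial]
    congr 2
    push_cast
    ring
  have h2pi : (0 : ℝ) < 2 * Real.pi := by positivity
  have hfi : Integrable (fun v : ℝ => f v) := f.integrable
  have hfi1 : Integrable (fun v : ℝ => (v : ℂ) * f v) := by
    have := f.integrable_pow_mul volume 1
    refine this.mono' ?_ (ae_of_all _ fun v => ?_)
    · exact (Complex.continuous_ofReal.mul f.continuous).aestronglyMeasurable
    · rw [norm_mul, Complex.norm_real, pow_one]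
  refine ⟨fun ξ => Complex.I * (((ξ / (2 * Real.pi) : ℝ) : ℂ) * f (ξ / (2 * Real.pi))), ?_, ?_, ?_, ?_⟩
  · have h3 : ContDiff ℝ (⊤ : ℕ∞) (fun ξ : ℝ => ξ / (2 * Real.pi)) := contDiff_id.div_const _
    have h4 : ContDiff ℝ (⊤ : ℕ∞) (fun ξ : ℝ => f (ξ / (2 * Real.pi))) := (f.smooth ⊤).comp h3
    exact contDiff_const.mul ((Complex.ofRealCLM.contDiff.comp h3).mul h4)
  · exact (hfi1.comp_div h2pi.ne').const_mul Complex.I
  · simp
  · intro t
    have hI : ∀ t : ℝ, Integrable (fun v : ℝ => Complex.exp (((2 * Real.pi * v * t : ℝ) : ℂ) * Complex.I) * f v) := by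
      intro t
      refine hfi.norm.mono' ?_ (ae_of_all _ fun v => ?_)
      · apply Continuous.aestronglyMeasurable
        exact (by fun_prop : Continuous fun v : ℝ => Complex.exp (((2 * Real.pi * v * t : ℝ) : ℂ) * Complex.I)).mul f.continuous
      · rw [norm_mul, Complex.norm_exp_ofReal_mul_I, one_mul]
    have e1 : q t = (q t - q (-t)) / 2 := by rw [hodd]; ring
    have e2 : q t = ∫ v : ℝ, Complex.I * (Complex.sin ((2 * Real.pi * v * t : ℝ) : ℂ) * f v) := by
      rw [e1, hinv t, hinv (-t), ← integral_sub (hI t) (hI (-t)), ← integral_div]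
      refine integral_congr_ae (ae_of_all _ fun v => ?_)
      simp only
      rw [Complex.sin]
      have hc : (((2 * Real.pi * v * -t : ℝ) : ℂ) * Complex.I) = -((2 * Real.pi * v * t : ℝ) : ℂ) * Complex.I := by
        push_cast; ring
      rw [hc]
      have hI2 : Complex.I * Complex.I = -1 := Complex.I_mul_I
      have : Complex.I * ((Complex.exp (-((2 * Real.pi * v * t : ℝ) : ℂ) * Complex.I) -
          Complex.exp (((2 * Real.pi * v * t : ℝ) : ℂ) * Complex.I)) * Complex.I / 2 * f v) =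
          (Complex.I * Complex.I) * ((Complex.exp (-((2 * Real.pi * v * t : ℝ) : ℂ) * Complex.I) -
          Complex.exp (((2 * Real.pi * v * t : ℝ) : ℂ) * Complex.I)) / 2 * f v) := by ring
      rw [this, hI2]
      ring
    have e3 := Measure.integral_comp_div (fun v : ℝ => Complex.I * (Complex.sin ((2 * Real.pi * v * t : ℝ) : ℂ) * f v)) (2 * Real.pi)
    have e4 : q t = (2 * Real.pi : ℝ)⁻¹ • ∫ ξ : ℝ, Complex.I * (Complex.sin ((2 * Real.pi * (ξ / (2 * Real.pi)) * t : ℝ) : ℂ) * f (ξ / (2 * Real.pi))) := by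
      rw [e3, abs_of_pos h2pi, smul_smul, inv_mul_cancel₀ h2pi.ne', one_smul, e2]
    rw [e4, ← integral_smul]
    refine integral_congr_ae (ae_of_all _ fun ξ => ?_)
    simp only
    have hxi : 2 * Real.pi * (ξ / (2 * Real.pi)) * t = ξ * t := by field_simp
    rw [hxi]
    by_cases h0 : ξ = 0
    · simp [h0]
    · have h0' : (ξ : ℂ) ≠ 0 := by exact_mod_cast h0
      rw [Complex.real_smul]
      have hpi : (Real.pi : ℂ) ≠ 0 := by exact_mod_cast Real.pi_pos.ne'
      push_cast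
      field_simp

theorem meas (h1 : S_DIST) (x₀ : Hs) : Measurable (fun x : Hs => dH x₀ x) :=
  Measurable.comp (g := fun q : Hs × Hs => dH q.1 q.2) (f := fun x : Hs => (x₀, x)) h1.2
    measurable_prodMk_left

/-- the distance is positive almost everywhere -/
theorem ae_pos (h1 : S_DIST) (h2 : S_RAD) {x₀ : Hs} (hx : 0 < x₀.2) : ∀ᵐ x ∂mu, 0 < dH x₀ x := by
  have hm : Measurable (fun x : Hs => dH x₀ x) := meas h1 x₀
  have hF : Measurable ((Iic (0 : ℝ)).indicator (1 : ℝ → ℝ≥0∞)) := measurable_one.indicator measurableSet_Iic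
  have key := h2 x₀ hx ((Iic (0 : ℝ)).indicator 1) (fun _ => 1) hF measurable_const
  have e0 : ∫⁻ t in Ioi (0 : ℝ), ∫⁻ r in Ioo (-t) t,
      ((Iic (0 : ℝ)).indicator (1 : ℝ → ℝ≥0∞)) t * 1 * ENNReal.ofReal (2 * Real.pi * Real.sinh t * Real.exp (-r)) = 0 := by
    rw [setLIntegral_congr_fun measurableSet_Ioi (g := fun _ => 0)]
    · simp
    · intro t ht
      have : ((Iic (0 : ℝ)).indicator (1 : ℝ → ℝ≥0∞)) t = 0 := by
        rw [indicator_of_notMem]
        simpa using ht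
      simp [this]
  rw [e0] at key
  have h3 := (lintegral_eq_zero_iff ((hF.comp hm).mul measurable_const)).mp key
  filter_upwards [h3] with x hx'
  by_contra hcon
  push Not at hcon
  simp [hcon] at hx'

theorem div_sinh_le {t : ℝ} (ht : 0 < t) : t / Real.sinh t ≤ (1 + 2 * t) * Real.exp (-t) := by
  have hs : 0 < Real.sinh t := Real.sinh_pos_iff.mpr ht
  rw [div_le_iff₀ hs, Real.sinh_eq]
  have h1 : 1 + 2 * t ≤ Real.exp (2 * t) := by
    have := Real.add_one_le_exp (2 * t)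
    linarith
  have h2 : Real.exp (-t) * Real.exp t = 1 := by rw [← Real.exp_add]; simp
  have h3 : Real.exp (-t) * Real.exp (-t) * Real.exp (2 * t) = 1 := by
    rw [← Real.exp_add, ← Real.exp_add]
    have : -t + -t + 2 * t = 0 := by ring
    rw [this, Real.exp_zero]
  have h4 : 0 < Real.exp (-t) * Real.exp (-t) := by positivity
  have e : (1 + 2 * t) * Real.exp (-t) * ((Real.exp t - Real.exp (-t)) / 2) =
      ((1 + 2 * t) * (Real.exp (-t) * Real.exp t) - (1 + 2 * t) * (Real.exp (-t) * Real.exp (-t))) / 2 := by ring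
  rw [e, h2]
  have h5 : (1 + 2 * t) * (Real.exp (-t) * Real.exp (-t)) ≤ Real.exp (2 * t) * (Real.exp (-t) * Real.exp (-t)) :=
    mul_le_mul_of_nonneg_right h1 h4.le
  nlinarith

theorem div_sinh_le' {s t : ℝ} (hs : 0 < s) (hs1 : s < 1) (ht : 0 < t) :
    t / Real.sinh t ≤ 4 / s * Real.exp (-((1 - s / 2) * t)) := by
  refine (div_sinh_le ht).trans ?_
  have h1 : 1 + 2 * t ≤ 4 / s * Real.exp (s / 2 * t) := by
    have h2 := Real.add_one_le_exp (s / 2 * t)
    have h3 : 4 / s * (s / 2 * t + 1) = 2 * t + 4 / s := by field_simp; ring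
    have h4 : 1 ≤ 4 / s := by rw [le_div_iff₀ hs]; linarith
    have h5 : 4 / s * (s / 2 * t + 1) ≤ 4 / s * Real.exp (s / 2 * t) := mul_le_mul_of_nonneg_left h2 (by positivity)
    linarith
  calc (1 + 2 * t) * Real.exp (-t) ≤ 4 / s * Real.exp (s / 2 * t) * Real.exp (-t) :=
        mul_le_mul_of_nonneg_right h1 (Real.exp_pos _).le
    _ = 4 / s * Real.exp (-((1 - s / 2) * t)) := by
        rw [mul_assoc, ← Real.exp_add]
        congr 2
        ring

theorem le_exp' {s t : ℝ} (hs : 0 < s) : 2 * t ≤ 4 / s * Real.exp (s / 2 * t) := by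
  have h2 := Real.add_one_le_exp (s / 2 * t)
  have h3 : 4 / s * (s / 2 * t + 1) = 2 * t + 4 / s := by field_simp; ring
  have h5 : 4 / s * (s / 2 * t + 1) ≤ 4 / s * Real.exp (s / 2 * t) := mul_le_mul_of_nonneg_left h2 (by positivity)
  have h6 : 0 < 4 / s := by positivity
  linarith

theorem sinh_le_exp {t : ℝ} : Real.sinh t ≤ Real.exp t := by
  rw [Real.sinh_eq]
  have := Real.exp_pos t
  have := Real.exp_pos (-t)
  linarith

/-- the bound of the integrand -/
theorem ptw {s t r : ℝ} (hs : 0 < s) (hs1 : s < 1) (ht : 0 < t) (hr : -t < r) :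
    (t / Real.sinh t) ^ (2 / (1 - s)) * (2 * Real.pi * Real.sinh t * Real.exp (-r)) ≤
      (4 / s) ^ (2 / (1 - s)) * (2 * Real.pi) * Real.exp (-(((1 - s / 2) * (2 / (1 - s)) - 2) * t)) := by
  have hsh : 0 < Real.sinh t := Real.sinh_pos_iff.mpr ht
  have hp : 0 < 2 / (1 - s) := div_pos (by norm_num) (by linarith)
  have h1 : (t / Real.sinh t) ^ (2 / (1 - s)) ≤ (4 / s * Real.exp (-((1 - s / 2) * t))) ^ (2 / (1 - s)) :=
    Real.rpow_le_rpow (by positivity) (div_sinh_le' hs hs1 ht) hp.le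
  have h2 : (4 / s * Real.exp (-((1 - s / 2) * t))) ^ (2 / (1 - s)) =
      (4 / s) ^ (2 / (1 - s)) * Real.exp (-((1 - s / 2) * (2 / (1 - s)) * t)) := by
    rw [Real.mul_rpow (by positivity) (Real.exp_pos _).le, ← Real.exp_mul]
    congr 2
    ring
  have h3 : 2 * Real.pi * Real.sinh t * Real.exp (-r) ≤ 2 * Real.pi * Real.exp (2 * t) := by
    have h4 : Real.exp (-r) ≤ Real.exp t := Real.exp_le_exp.mpr (by linarith)
    calc 2 * Real.pi * Real.sinh t * Real.exp (-r) ≤ 2 * Real.pi * Real.exp t * Real.exp t := by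
          have := Real.pi_pos
          apply mul_le_mul _ h4 (Real.exp_pos _).le (by positivity)
          exact mul_le_mul_of_nonneg_left sinh_le_exp (by positivity)
      _ = _ := by rw [mul_assoc, ← Real.exp_add]; congr 2; ring
  calc _ ≤ ((4 / s) ^ (2 / (1 - s)) * Real.exp (-((1 - s / 2) * (2 / (1 - s)) * t))) * (2 * Real.pi * Real.exp (2 * t)) := by
        rw [h2] at h1
        apply mul_le_mul h1 h3 _ (by positivity)
        have := Real.pi_pos
        positivity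
    _ = (4 / s) ^ (2 / (1 - s)) * (2 * Real.pi) * (Real.exp (-((1 - s / 2) * (2 / (1 - s)) * t)) * Real.exp (2 * t)) := by ring
    _ = _ := by
        rw [← Real.exp_add]
        congr 2
        ring

/-- `t / sinh t` is in `L^p` -/
theorem memH (h1 : S_DIST) (h2 : S_RAD) {s : ℝ} (hs : 0 < s) (hs1 : s < 1) {x₀ : Hs} (hx : 0 < x₀.2) :
    MemLp (fun x => dH x₀ x / Real.sinh (dH x₀ x)) (pp s) mu := by
  have hm : Measurable (fun x : Hs => dH x₀ x) := meas h1 x₀
  have hh : Measurable (fun t : ℝ => t / Real.sinh t) := measurable_id.div Real.measurable_sinh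
  have hp : 0 < 2 / (1 - s) := div_pos (by norm_num) (by linarith)
  have hp0 : pp s ≠ 0 := by
    rw [pp, Ne, ENNReal.ofReal_eq_zero, not_le]
    exact hp
  have hpt : pp s ≠ ∞ := ENNReal.ofReal_ne_top
  have hpr : (pp s).toReal = 2 / (1 - s) := ENNReal.toReal_ofReal hp.le
  refine ⟨(hh.comp hm).aestronglyMeasurable, ?_⟩
  rw [eLpNorm_lt_top_iff_lintegral_rpow_enorm_lt_top hp0 hpt, hpr]
  have hF : Measurable (fun t : ℝ => ‖t / Real.sinh t‖ₑ ^ (2 / (1 - s))) := hh.enorm.pow_const _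
  have key := h2 x₀ hx (fun t => ‖t / Real.sinh t‖ₑ ^ (2 / (1 - s))) (fun _ => 1) hF measurable_const
  have e1 : ∫⁻ x, ‖dH x₀ x / Real.sinh (dH x₀ x)‖ₑ ^ (2 / (1 - s)) ∂mu =
      ∫⁻ x', ‖dH x₀ x' / Real.sinh (dH x₀ x')‖ₑ ^ (2 / (1 - s)) * 1 ∂mu := by simp
  rw [e1, key]
  set c : ℝ := (1 - s / 2) * (2 / (1 - s)) - 2 - s / 2 with hc
  have hc0 : 0 < c := by
    have h1s : 0 < 1 - s := by linarith
    have : c = s * (1 + s) / (2 * (1 - s)) := by
      rw [hc]; field_simp; ring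
    rw [this]; positivity
  set C : ℝ := (4 / s) ^ (2 / (1 - s)) * (2 * Real.pi) * (4 / s) with hC
  have hint : IntegrableOn (fun t : ℝ => C * Real.exp (-c * t)) (Ioi 0) :=
    (exp_neg_integrableOn_Ioi 0 hc0).const_mul C
  refine lt_of_le_of_lt ?_ hint.lintegral_lt_top
  apply setLIntegral_mono_ae
  · exact (by fun_prop : Measurable fun t : ℝ => C * Real.exp (-c * t)).ennreal_ofReal.aemeasurable
  · refine ae_of_all _ fun t ht => ?_
    have ht' : 0 < t := ht
    have hsh : 0 < Real.sinh t := Real.sinh_pos_iff.mpr ht'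
    set K : ℝ := (4 / s) ^ (2 / (1 - s)) * (2 * Real.pi) * Real.exp (-(((1 - s / 2) * (2 / (1 - s)) - 2) * t)) with hK
    have hK0 : 0 ≤ K := by have := Real.pi_pos; positivity
    calc ∫⁻ r in Ioo (-t) t, ‖t / Real.sinh t‖ₑ ^ (2 / (1 - s)) * 1 * ENNReal.ofReal (2 * Real.pi * Real.sinh t * Real.exp (-r))
        ≤ ∫⁻ r in Ioo (-t) t, ENNReal.ofReal K := by
          apply setLIntegral_mono_ae measurable_const.aemeasurable
          refine ae_of_all _ fun r hr => ?_
          have h3 := ptw hs hs1 ht' hr.1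
          have h4 : ‖t / Real.sinh t‖ₑ ^ (2 / (1 - s)) = ENNReal.ofReal ((t / Real.sinh t) ^ (2 / (1 - s))) := by
            rw [← ENNReal.ofReal_rpow_of_nonneg (by positivity) hp.le, Real.enorm_eq_ofReal (by positivity)]
          rw [h4, mul_one, ← ENNReal.ofReal_mul (by positivity)]
          exact ENNReal.ofReal_le_ofReal h3
      _ = ENNReal.ofReal (K * (2 * t)) := by
          rw [lintegral_const, Measure.restrict_apply_univ, Real.volume_Ioo, ENNReal.ofReal_mul hK0]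
          congr 2
          ring
      _ ≤ ENNReal.ofReal (C * Real.exp (-c * t)) := by
          apply ENNReal.ofReal_le_ofReal
          have h5 := le_exp' (s := s) (t := t) hs
          calc K * (2 * t) ≤ K * (4 / s * Real.exp (s / 2 * t)) := mul_le_mul_of_nonneg_left h5 hK0
            _ = C * (Real.exp (-(((1 - s / 2) * (2 / (1 - s)) - 2) * t)) * Real.exp (s / 2 * t)) := by
                rw [hK, hC]; ring
            _ = _ := by
                rw [← Real.exp_add]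
                congr 2
                rw [hc]; ring


/-- cutoffs -/
theorem cutoff (b : ℝ → ℂ) (hb : ContDiff ℝ (⊤ : ℕ∞) b) (hi : Integrable b) :
    ∃ B : ℕ → ℝ → ℂ, (∀ n, Tst (B n)) ∧ (∀ n, Integrable (B n)) ∧
      Tendsto (fun n => ∫ ξ, ‖b ξ - B n ξ‖) atTop (𝓝 0) := by
  let χ : ∀ _ : ℕ, ContDiffBump (0 : ℝ) := fun n => ⟨(n : ℝ) + 1, n + 2, by positivity, by linarith⟩
  have hB1 : ∀ n, ContDiff ℝ (⊤ : ℕ∞) (fun ξ : ℝ => ((χ n ξ : ℝ) : ℂ) * b ξ) := fun n =>
    (Complex.ofRealCLM.contDiff.comp (χ n).contDiff).mul hb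
  have hB2 : ∀ n, HasCompactSupport (fun ξ : ℝ => ((χ n ξ : ℝ) : ℂ) * b ξ) := fun n => by
    have h1 : HasCompactSupport (fun ξ : ℝ => ((χ n ξ : ℝ) : ℂ)) :=
      (χ n).hasCompactSupport.comp_left (g := fun r : ℝ => (r : ℂ)) Complex.ofReal_zero
    exact h1.mul_right
  refine ⟨fun n ξ => ((χ n ξ : ℝ) : ℂ) * b ξ, fun n => ⟨hB1 n, hB2 n⟩,
    fun n => (hB1 n).continuous.integrable_of_hasCompactSupport (hB2 n), ?_⟩
  have h0 : 𝓝 (0 : ℝ) = 𝓝 (∫ _ξ : ℝ, (0 : ℝ)) := by simp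
  refine Filter.Tendsto.mono_right ?_ h0.ge
  apply tendsto_integral_of_dominated_convergence (fun ξ => ‖b ξ‖)
  · intro n
    exact (hb.continuous.sub (hB1 n).continuous).norm.aestronglyMeasurable
  · exact hi.norm
  · intro n
    refine ae_of_all _ fun ξ => ?_
    have e : b ξ - ((χ n ξ : ℝ) : ℂ) * b ξ = ((1 - χ n ξ : ℝ) : ℂ) * b ξ := by push_cast; ring
    rw [norm_norm, e, norm_mul, Complex.norm_real, Real.norm_eq_abs,
      abs_of_nonneg (by have := (χ n).le_one (x := ξ); linarith)]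
    have h1 := (χ n).nonneg (x := ξ)
    have h2 := norm_nonneg (b ξ)
    nlinarith
  · refine ae_of_all _ fun ξ => ?_
    apply tendsto_const_nhds.congr'
    filter_upwards [eventually_ge_atTop ⌈|ξ|⌉₊] with n hn
    have h1 : χ n ξ = 1 := by
      apply (χ n).one_of_mem_closedBall
      rw [Metric.mem_closedBall, dist_zero_right, Real.norm_eq_abs]
      have h2 : |ξ| ≤ (n : ℝ) := (Nat.le_ceil _).trans (by exact_mod_cast hn)
      change |ξ| ≤ (n : ℝ) + 1
      linarith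
    simp [h1]

end BUMP

open BUMP in
theorem t_BUMP (h1 : S_DIST) (h2 : S_RAD) (h3 : S_SPH) (h4 : S_MEM) : S_BUMP := by
  intro s hs hs1 _ φ x₀ hx hφ Q hQ hQc hQe
  have hq2 : ContDiff ℝ (⊤ : ℕ∞) (fun t : ℝ => ((Q t * Real.sinh t : ℝ) : ℂ)) :=
    Complex.ofRealCLM.contDiff.comp (hQ.mul Real.contDiff_sinh)
  have hq1 : HasCompactSupport (fun t : ℝ => ((Q t * Real.sinh t : ℝ) : ℂ)) :=
    (hQc.mul_right (f' := Real.sinh)).comp_left (g := fun r : ℝ => (r : ℂ)) Complex.ofReal_zero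
  obtain ⟨b, hb1, hb2, hb0, hb3⟩ := fourier_odd _ hq2 hq1 (by
    intro t
    rw [hQe, Real.sinh_neg]
    push_cast
    ring)
  obtain ⟨B, hB1, hBi, hB2⟩ := cutoff b hb1 hb2
  -- the pointwise estimates
  have hsc : ∀ t : ℝ, Continuous (fun ξ : ℝ => sph ξ t) := fun t =>
    (h3.2.2.2.1 t).continuous.comp Complex.continuous_ofReal
  have hint : ∀ (a : ℝ → ℂ) (t : ℝ), 0 < t → Integrable a → Integrable (fun ξ : ℝ => a ξ * sph ξ t) := by
    intro a t ht ha
    refine (ha.norm.mul_const (t / Real.sinh t)).mono'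
      (ha.aestronglyMeasurable.mul (hsc t).aestronglyMeasurable) (ae_of_all _ fun ξ => ?_)
    rw [norm_mul]
    exact mul_le_mul_of_nonneg_left (h3.2.2.1 ξ t ht) (norm_nonneg _)
  have hbd : ∀ (a : ℝ → ℂ) (t : ℝ), 0 < t → Integrable a →
      ‖∫ ξ : ℝ, a ξ * sph ξ t‖ ≤ (∫ ξ, ‖a ξ‖) * (t / Real.sinh t) := by
    intro a t ht ha
    rw [← integral_mul_const]
    refine norm_integral_le_of_norm_le (ha.norm.mul_const _) (ae_of_all _ fun ξ => ?_)
    rw [norm_mul]
    exact mul_le_mul_of_nonneg_left (h3.2.2.1 ξ t ht) (norm_nonneg _)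
  have hQb : ∀ t : ℝ, 0 < t → (Q t : ℂ) = ∫ ξ : ℝ, b ξ * sph ξ t := by
    intro t ht
    have hsh : 0 < Real.sinh t := Real.sinh_pos_iff.mpr ht
    have hsh' : (Real.sinh t : ℂ) ≠ 0 := by exact_mod_cast hsh.ne'
    have e1 : (fun ξ : ℝ => b ξ * sph ξ t) =
        fun ξ : ℝ => (b ξ * (Complex.sin (ξ * t) / ξ)) / (Real.sinh t : ℂ) := by
      funext ξ
      by_cases h0 : ξ = 0
      · rw [h0, hb0]; simp
      · have h0' : (ξ : ℂ) ≠ 0 := by exact_mod_cast h0
        rw [h3.1 ξ t h0']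
        field_simp
    rw [e1, integral_div, ← hb3 t, eq_div_iff hsh']
    push_cast
    ring
  have hG : ∀ (a : ℝ → ℂ) (t : ℝ), GG a 0 t = ∫ ξ : ℝ, a ξ * sph ξ t := by
    intro a t
    simp only [GG, add_zero]
  have hkey : ∀ t : ℝ, 0 < t → ∀ n, ‖(Q t : ℂ) - GG (B n) 0 t‖ ≤
      (∫ ξ, ‖b ξ - B n ξ‖) * ‖t / Real.sinh t‖ := by
    intro t ht n
    have hsh : 0 < Real.sinh t := Real.sinh_pos_iff.mpr ht
    rw [hG, hQb t ht, ← integral_sub (hint b t ht hb2) (hint (B n) t ht (hBi n)), Real.norm_of_nonneg (by positivity)]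
    have := hbd (fun ξ => b ξ - B n ξ) t ht (hb2.sub (hBi n))
    simpa only [sub_mul] using this
  -- membership
  have hpos := ae_pos h1 h2 hx
  have hH := memH h1 h2 hs hs1 hx
  have hmQ : MemLp (fun x => (Q (dH x₀ x) : ℂ)) (pp s) mu := by
    refine hH.of_le_mul (c := ∫ ξ, ‖b ξ‖) ?_ ?_
    · exact (Complex.measurable_ofReal.comp (hQ.continuous.measurable.comp (meas h1 x₀))).aestronglyMeasurable
    · filter_upwards [hpos] with x hx'
      have hsh : 0 < Real.sinh (dH x₀ x) := Real.sinh_pos_iff.mpr hx'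
      rw [hQb _ hx', Real.norm_of_nonneg (by positivity)]
      exact hbd b _ hx' hb2
  have hmG : ∀ n, MemLp (fun x => GG (B n) 0 (dH x₀ x)) (pp s) mu := fun n =>
    h4 s hs hs1 (B n) (hB1 n) x₀ hx 0 (by simpa using hs.le)
  have hnorm : ∀ n, ‖el (pp s) (fun x => (Q (dH x₀ x) : ℂ)) - el (pp s) (fun x => GG (B n) 0 (dH x₀ x))‖ ≤
      (∫ ξ, ‖b ξ - B n ξ‖) * (eLpNorm (fun x => dH x₀ x / Real.sinh (dH x₀ x)) (pp s) mu).toReal := by
    intro n
    have hε : 0 ≤ ∫ ξ, ‖b ξ - B n ξ‖ := integral_nonneg fun _ => norm_nonneg _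
    rw [el, el, dif_pos hmQ, dif_pos (hmG n), ← MemLp.toLp_sub, Lp.norm_toLp]
    have h5 := eLpNorm_le_mul_eLpNorm_of_ae_le_mul (μ := mu) (c := ∫ ξ, ‖b ξ - B n ξ‖)
      (f := (fun x => (Q (dH x₀ x) : ℂ)) - fun x => GG (B n) 0 (dH x₀ x))
      (g := fun x => dH x₀ x / Real.sinh (dH x₀ x)) (by
        filter_upwards [hpos] with x hx'
        exact hkey _ hx' n) (pp s)
    have h6 := ENNReal.toReal_mono (ENNReal.mul_ne_top ENNReal.ofReal_ne_top hH.2.ne) h5
    rwa [ENNReal.toReal_mul, ENNReal.toReal_ofReal hε] at h6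
  have hlim : Tendsto (fun n => ‖φ‖ * ((∫ ξ, ‖b ξ - B n ξ‖) *
      (eLpNorm (fun x => dH x₀ x / Real.sinh (dH x₀ x)) (pp s) mu).toReal)) atTop (𝓝 0) := by
    have := (hB2.mul_const (eLpNorm (fun x => dH x₀ x / Real.sinh (dH x₀ x)) (pp s) mu).toReal).const_mul ‖φ‖
    simpa using this
  have hle : ∀ n, ‖φ (el (pp s) fun x => (Q (dH x₀ x) : ℂ))‖ ≤ ‖φ‖ * ((∫ ξ, ‖b ξ - B n ξ‖) *
      (eLpNorm (fun x => dH x₀ x / Real.sinh (dH x₀ x)) (pp s) mu).toReal) := by
    intro n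
    have e : φ (el (pp s) fun x => (Q (dH x₀ x) : ℂ)) =
        φ (el (pp s) (fun x => (Q (dH x₀ x) : ℂ)) - el (pp s) (fun x => GG (B n) 0 (dH x₀ x))) := by
      rw [map_sub, hφ (B n) (hB1 n), sub_zero]
    rw [e]
    exact (φ.le_opNorm _).trans (mul_le_mul_of_nonneg_left (hnorm n) (norm_nonneg _))
  have := ge_of_tendsto' hlim hle
  exact norm_le_zero_iff.mp this

end Pool.Agent.N46.HM
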