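import Pool.Agent.N46.HM.Stm

/-!
# Project HM (helper46), part COMM (helper897): the operator commutes with the action
-/

set_option autoImplicit false

open MeasureTheory Set Filter
open scoped ENNReal Topology ComplexConjugate

namespace Pool.Agent.N46.HM

namespace COMM

theorem ae_pos : ∀ᵐ x ∂mu, 0 < x.2 := by
  have h : mu ≪ volume.restrict {x : Hs | 0 < x.2} := withDensity_absolutelyContinuous _ _
  apply h.ae_le
  exact ae_restrict_mem (measurableSet_lt measurable_const measurable_snd)

end COMM

theorem t_COMM (h1 : S_INV) (h2 : S_ISO) : S_COMM := by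
  clear h1
  intro s _ _ _ K hK g h f
  apply Lp.ext
  have a1 := (hK (Lp.compMeasurePreserving (act g) h f)).2
  have a2 := Lp.coeFn_compMeasurePreserving f h
  have a3 := Lp.coeFn_compMeasurePreserving (K f) h
  have a4 := h.quasiMeasurePreserving.ae (hK f).2
  have a5 := h.quasiMeasurePreserving.ae (hK f).1
  have a6 := COMM.ae_pos
  filter_upwards [a1, a3, a4, a5, a6] with x x1 x3 x4 x5 x6
  rw [x1, x3, Function.comp_apply, x4]
  have e1 : ∫ x', (kap s (dH x x') : ℂ) * (Lp.compMeasurePreserving (act g) h f) x' ∂mu =
      ∫ x', (fun y => (kap s (dH (act g x) y) : ℂ) * f y) (act g x') ∂mu := by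
    apply integral_congr_ae
    filter_upwards [a2, a6] with x' y2 y6
    rw [y2]
    simp only [Function.comp_apply]
    rw [((h2.1 g x x6).2.2 x' y6).2]
  have e2 := integral_map (μ := mu) (φ := act g) h.measurable.aemeasurable
    (f := fun y => (kap s (dH (act g x) y) : ℂ) * f y)
    (by rw [h.map_eq]; exact x5.aestronglyMeasurable)
  rw [h.map_eq] at e2
  rw [e1]
  exact e2.symm

end Pool.Agent.N46.HM
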