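import Pool.Agent.N46.HM.Stm

set_option autoImplicit false

/-! Project HM, leaf DISP (helper769): dispersion. -/

open MeasureTheory Set Filter
open scoped ENNReal Topology ComplexConjugate

namespace Pool.Agent.N46.HM

namespace DISP

theorem den_ne {s : ℝ} (hs : 0 < s) (ξ : ℝ) : (ξ : ℂ) + s * Complex.I ≠ 0 := by
  intro h
  have := congrArg Complex.im h
  simp at this
  exact hs.ne' this

theorem smooth_den (s : ℝ) : ContDiff ℝ (⊤ : ℕ∞) fun ξ : ℝ => (ξ : ℂ) + s * Complex.I :=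
  Complex.ofRealCLM.contDiff.add contDiff_const

theorem tst_mod {s : ℝ} (hph : ContDiff ℝ (⊤ : ℕ∞) (ph s)) {a : ℝ → ℂ} (ha : Tst a) (c : ℝ) :
    Tst fun ξ => Complex.exp (Complex.I * ((c * ph s ξ : ℝ) : ℂ)) * a ξ := by
  refine ⟨ContDiff.mul ?_ ha.1, ha.2.mul_left⟩
  exact (contDiff_const.mul (Complex.ofRealCLM.contDiff.comp (contDiff_const.mul hph))).cexp

theorem tst0_div {s : ℝ} (hs : 0 < s) {a : ℝ → ℂ} (ha : Tst0 a) :
    Tst0 fun ξ => a ξ / (ξ + s * Complex.I) := by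
  refine ⟨⟨?_, ?_⟩, ?_⟩
  · have h1 : ContDiff ℝ (⊤ : ℕ∞) fun ξ : ℝ => ((ξ : ℂ) + s * Complex.I)⁻¹ :=
      ContDiff.inv (smooth_den s) (den_ne hs)
    have h2 := ContDiff.mul ha.1.1 h1
    simp only [div_eq_mul_inv]
    exact h2
  · have := ha.1.2.mul_right (f' := fun ξ : ℝ => ((ξ : ℂ) + s * Complex.I)⁻¹)
    exact this
  · refine Subset.trans (closure_mono ?_) ha.2
    intro ξ hξ
    rw [Function.mem_support] at hξ ⊢
    intro h
    apply hξ
    rw [h, zero_div]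

theorem norm_mod {s : ℝ} (c : ℝ) (a : ℝ → ℂ) (ξ : ℝ) :
    ‖Complex.exp (Complex.I * ((c * ph s ξ : ℝ) : ℂ)) * a ξ / (ξ + s * Complex.I)‖ =
      ‖a ξ / (ξ + s * Complex.I)‖ := by
  rw [norm_div, norm_div, norm_mul, Complex.norm_exp]
  have : (Complex.I * ((c * ph s ξ : ℝ) : ℂ)).re = 0 := by simp
  rw [this, Real.exp_zero, one_mul]

end DISP

open DISP in
theorem t_DISP (h1 : S_MS) (h2 : S_VDC) (h3 : S_EST) (h4 : S_MEM) : S_DISP := by
  intro s hs hs1 _ a ha x₀ hx₀ σ hσ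
  have hph : ContDiff ℝ (⊤ : ℕ∞) (ph s) := (h1 s hs).2.2.2.2.2.2
  obtain ⟨q, hq⟩ : ∃ q : ℝ, q = 2 / (1 - s) := ⟨_, rfl⟩
  have hq2 : 2 < q := by
    rw [hq, lt_div_iff₀ (by linarith)]
    linarith
  have hpp : (pp s).toReal = q := by
    unfold pp
    rw [← hq, ENNReal.toReal_ofReal (by linarith)]
  have hpp0 : pp s ≠ 0 := by
    intro h
    rw [h] at hpp
    simp at hpp
    linarith
  have hppt : pp s ≠ ∞ := ENNReal.ofReal_ne_top
  obtain ⟨Fn, hFn⟩ : ∃ Fn : ℕ → Hs → ℂ, Fn = fun (n : ℕ) x =>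
    GG (fun ξ => Complex.exp (Complex.I * ((σ * n * ph s ξ : ℝ) : ℂ)) * a ξ) (s * Complex.I)
      (dH x₀ x) := ⟨_, rfl⟩
  have hmem : ∀ n, MemLp (Fn n) (pp s) mu := by
    intro n
    rw [hFn]
    refine h4 s hs hs1 _ (tst_mod hph ha.1 (σ * n)) x₀ hx₀ (s * Complex.I) ?_
    simp [abs_of_pos hs]
  obtain ⟨C, hC, hEST⟩ := h3 s hs hs1
  obtain ⟨B, hB⟩ : ∃ B : ℝ, B = ∫ ξ : ℝ, ‖a ξ / (ξ + s * Complex.I)‖ ^ 2 := ⟨_, rfl⟩
  have hbound : ∀ M : ℝ, 0 < M → ∃ N : ℕ, ∀ n : ℕ, N ≤ n →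
      ∫⁻ x, ‖Fn n x‖ₑ ^ q ∂mu ≤ ENNReal.ofReal (C * (M ^ q + M ^ (q - 2) * B)) := by
    intro M hM
    obtain ⟨N1, hN1⟩ := h2 s hs a ha σ hσ M hM
    obtain ⟨N2, hN2⟩ := h2 s hs _ (tst0_div hs ha) σ hσ M hM
    refine ⟨max N1 N2, fun n hn => ?_⟩
    have ht := tst_mod hph ha.1 (σ * n)
    have h5 := hEST _ ht.1.continuous ht.2 M hM (fun t => by
      refine le_trans (le_of_eq ?_) (hN1 n ((le_max_left _ _).trans hn) t)
      congr 1
      refine integral_congr_ae (Eventually.of_forall fun ξ => ?_)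
      show Complex.exp (Complex.I * ((σ * n * ph s ξ : ℝ) : ℂ)) * a ξ *
        Complex.exp (Complex.I * ((t * ξ : ℝ) : ℂ)) =
        a ξ * Complex.exp (Complex.I * ((σ * n * ph s ξ + t * ξ : ℝ) : ℂ))
      have : Complex.I * ((σ * n * ph s ξ + t * ξ : ℝ) : ℂ) =
        Complex.I * ((σ * n * ph s ξ : ℝ) : ℂ) + Complex.I * ((t * ξ : ℝ) : ℂ) := by
        push_cast
        ring
      rw [this, Complex.exp_add]
      ring) (fun t => by
      refine le_trans (le_of_eq ?_) (hN2 n ((le_max_right _ _).trans hn) t)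
      congr 1
      refine integral_congr_ae (Eventually.of_forall fun ξ => ?_)
      show Complex.exp (Complex.I * ((σ * n * ph s ξ : ℝ) : ℂ)) * a ξ / (ξ + s * Complex.I) *
        Complex.exp (Complex.I * ((t * ξ : ℝ) : ℂ)) =
        a ξ / (ξ + s * Complex.I) *
          Complex.exp (Complex.I * ((σ * n * ph s ξ + t * ξ : ℝ) : ℂ))
      have : Complex.I * ((σ * n * ph s ξ + t * ξ : ℝ) : ℂ) =
        Complex.I * ((σ * n * ph s ξ : ℝ) : ℂ) + Complex.I * ((t * ξ : ℝ) : ℂ) := by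
        push_cast
        ring
      rw [this, Complex.exp_add]
      ring) x₀ hx₀
    rw [← hq] at h5
    have h6 : ∫ ξ : ℝ, ‖Complex.exp (Complex.I * ((σ * n * ph s ξ : ℝ) : ℂ)) * a ξ /
        (ξ + s * Complex.I)‖ ^ 2 = B := by
      rw [hB]
      refine integral_congr_ae (Eventually.of_forall fun ξ => ?_)
      simp only
      rw [norm_mod]
    rw [h6] at h5
    rw [hFn]
    exact h5
  have hL : Tendsto (fun n => ∫⁻ x, ‖Fn n x‖ₑ ^ q ∂mu) atTop (𝓝 0) := by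
    rw [ENNReal.tendsto_atTop_zero]
    intro e he
    have hg : Tendsto (fun M : ℝ => ENNReal.ofReal (C * (M ^ q + M ^ (q - 2) * B))) (𝓝[>] 0)
        (𝓝 0) := by
      have hcont : ContinuousAt (fun M : ℝ => C * (M ^ q + M ^ (q - 2) * B)) 0 := by
        have c1 : ContinuousAt (fun M : ℝ => M ^ q) 0 :=
          Real.continuousAt_rpow_const _ _ (Or.inr (by linarith))
        have c2 : ContinuousAt (fun M : ℝ => M ^ (q - 2)) 0 :=
          Real.continuousAt_rpow_const _ _ (Or.inr (by linarith))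
        exact continuousAt_const.mul (c1.add (c2.mul continuousAt_const))
      have h0 : C * ((0 : ℝ) ^ q + (0 : ℝ) ^ (q - 2) * B) = 0 := by
        rw [Real.zero_rpow (by linarith), Real.zero_rpow (by linarith)]
        ring
      have h5 : Tendsto (fun M : ℝ => C * (M ^ q + M ^ (q - 2) * B)) (𝓝[>] 0) (𝓝 0) := by
        have h6 := hcont.tendsto
        simp only [h0] at h6
        exact h6.mono_left nhdsWithin_le_nhds
      have h7 := ENNReal.tendsto_ofReal h5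
      rwa [ENNReal.ofReal_zero] at h7
    have h8 : ∀ᶠ M in 𝓝[>] (0 : ℝ), ENNReal.ofReal (C * (M ^ q + M ^ (q - 2) * B)) < e :=
      hg.eventually (gt_mem_nhds he)
    obtain ⟨M, hM1, hM2⟩ := (h8.and self_mem_nhdsWithin).exists
    obtain ⟨N, hN⟩ := hbound M hM2
    exact ⟨N, fun n hn => (hN n hn).trans hM1.le⟩
  have hnorm : Tendsto (fun n => eLpNorm (Fn n) (pp s) mu) atTop (𝓝 0) := by
    have h5 := (ENNReal.continuous_rpow_const (y := 1 / q)).continuousAt.tendsto.comp hL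
    have h6 : (0 : ℝ≥0∞) ^ (1 / q) = 0 := ENNReal.zero_rpow_of_pos (by positivity)
    rw [h6] at h5
    refine h5.congr fun n => ?_
    rw [eLpNorm_eq_lintegral_rpow_enorm_toReal hpp0 hppt, hpp]
    rfl
  rw [tendsto_zero_iff_norm_tendsto_zero]
  have h9 := (ENNReal.tendsto_toReal (ENNReal.zero_ne_top)).comp hnorm
  rw [ENNReal.toReal_zero] at h9
  refine h9.congr fun n => ?_
  have h10 : el (pp s) (Fn n) = (hmem n).toLp (Fn n) := by
    unfold el
    rw [dif_pos (hmem n)]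
  have h11 : (el (pp s) fun x =>
    GG (fun ξ => Complex.exp (Complex.I * ((σ * n * ph s ξ : ℝ) : ℂ)) * a ξ) (s * Complex.I)
      (dH x₀ x)) = el (pp s) (Fn n) := by rw [hFn]
  rw [h11, h10, Lp.norm_toLp]
  rfl

end Pool.Agent.N46.HM
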