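import Mathlib
import Pool.Agent.N46.HM.Stm

/-!
# Project HM (helper46), part DIST (helper866): the distance function
-/

set_option autoImplicit false

open MeasureTheory Set Filter
open scoped ENNReal Topology ComplexConjugate

namespace Pool.Agent.N46.HM

namespace DIST

theorem ch_symm (x x' : Hs) : ch x x' = ch x' x := by
  unfold ch
  rw [norm_sub_rev]
  have h : (x.2 - x'.2) ^ 2 = (x'.2 - x.2) ^ 2 := by ring
  rw [h, mul_right_comm]

theorem ch_meas : Measurable (fun q : Hs × Hs => ch q.1 q.2) := by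
  unfold ch
  fun_prop

end DIST

open DIST

/-- **DIST** -/
theorem t_DIST : S_DIST := by
  refine ⟨fun x x' hx hx' => ?_, ?_⟩
  · have hd : 0 < 2 * x.2 * x'.2 := mul_pos (mul_pos two_pos hx) hx'
    have hnum : 0 ≤ ‖x.1 - x'.1‖ ^ 2 + (x.2 - x'.2) ^ 2 := add_nonneg (sq_nonneg _) (sq_nonneg _)
    have hch : 1 ≤ ch x x' := by
      unfold ch
      have := div_nonneg hnum hd.le
      linarith
    have hu : 0 ≤ √((ch x x' - 1) / 2) := Real.sqrt_nonneg _
    refine ⟨hch, ?_, ?_, ?_, ?_⟩
    · unfold dH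
      have := Real.arsinh_nonneg_iff.2 hu
      linarith
    · unfold dH
      rw [Real.cosh_two_mul, Real.cosh_sq, Real.sinh_arsinh, Real.sq_sqrt (by linarith)]
      ring
    · unfold dH
      rw [ch_symm]
    · intro h
      have h0 : Real.arsinh (√((ch x x' - 1) / 2)) = 0 := by
        unfold dH at h
        linarith
      have h1 : √((ch x x' - 1) / 2) = 0 := Real.arsinh_eq_zero_iff.1 h0
      have h2 : (ch x x' - 1) / 2 = 0 := (Real.sqrt_eq_zero (by linarith)).1 h1
      have h3 : (‖x.1 - x'.1‖ ^ 2 + (x.2 - x'.2) ^ 2) / (2 * x.2 * x'.2) = 0 := by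
        unfold ch at h2
        linarith
      have h4 : ‖x.1 - x'.1‖ ^ 2 + (x.2 - x'.2) ^ 2 = 0 := by
        rcases div_eq_zero_iff.1 h3 with h4 | h4
        · exact h4
        · exact absurd h4 hd.ne'
      have h5 : ‖x.1 - x'.1‖ ^ 2 = 0 := by
        linarith [sq_nonneg (‖x.1 - x'.1‖), sq_nonneg (x.2 - x'.2)]
      have h6 : (x.2 - x'.2) ^ 2 = 0 := by linarith
      refine Prod.ext ?_ ?_
      · exact sub_eq_zero.1 (norm_eq_zero.1 (pow_eq_zero_iff two_ne_zero |>.1 h5))
      · exact sub_eq_zero.1 (pow_eq_zero_iff two_ne_zero |>.1 h6)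
  · unfold dH
    have h : Measurable (fun q : Hs × Hs => √((ch q.1 q.2 - 1) / 2)) :=
      ((ch_meas.sub_const 1).div_const 2).sqrt
    exact (Real.continuous_arsinh.measurable.comp h).const_mul 2

end Pool.Agent.N46.HM
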