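import Mathlib
import Pool.Agent.N46.HM.Stm

/-!
# HM/DOM (helper787, project HM of helper46): a bound of the wave packets
-/

set_option autoImplicit false

open MeasureTheory Set Filter
open scoped ENNReal Topology ComplexConjugate

namespace Pool.Agent.N46.HM

noncomputable section

namespace DOM

/-- the Fourier transform -/
def Af (a : ℝ → ℂ) (r : ℝ) : ℂ := ∫ ξ : ℝ, a ξ * Complex.exp (-(Complex.I * ξ * r))

lemma Af_props {a : ℝ → ℂ} (ha : Tst a) : Continuous (Af a) ∧
    ∃ C, 0 < C ∧ ∀ r, ‖Af a r‖ * (1 + |r|) ^ 3 ≤ C := by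
  let f : SchwartzMap ℝ ℂ := ha.2.toSchwartzMap ha.1
  have h1 : Af a = fun r => (FourierTransform.fourier f) (r / (2 * Real.pi)) := by
    funext r
    rw [SchwartzMap.fourier_coe, Real.fourier_real_eq_integral_exp_smul]
    unfold Af
    refine integral_congr_ae (Eventually.of_forall fun ξ => ?_)
    show a ξ * Complex.exp (-(Complex.I * ξ * r)) =
      Complex.exp (↑(-2 * Real.pi * ξ * (r / (2 * Real.pi))) * Complex.I) • a ξ
    rw [smul_eq_mul, mul_comm]
    congr 2
    push_cast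
    have : (Real.pi : ℂ) ≠ 0 := by exact_mod_cast Real.pi_ne_zero
    field_simp
  refine ⟨?_, ?_⟩
  · rw [h1]
    exact (FourierTransform.fourier f).continuous.comp (by fun_prop)
  · obtain ⟨K, hK⟩ : ∃ K : ℝ, ∀ x : ℝ, (1 + ‖x‖) ^ 3 * ‖(FourierTransform.fourier f) x‖ ≤ K := by
      refine ⟨2 ^ 3 * (Finset.Iic ((3, 0) : ℕ × ℕ)).sup
        (fun m => SchwartzMap.seminorm ℝ m.1 m.2) (FourierTransform.fourier f), fun x => ?_⟩
      have h2 := SchwartzMap.one_add_le_sup_seminorm_apply (𝕜 := ℝ) (m := (3, 0)) (k := 3) (n := 0)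
        le_rfl le_rfl (FourierTransform.fourier f) x
      rw [norm_iteratedFDeriv_zero] at h2
      exact h2
    refine ⟨(2 * Real.pi) ^ 3 * K + 1, ?_, fun r => ?_⟩
    · have h3 := hK 0
      have h4 : 0 ≤ K := le_trans (by positivity) h3
      positivity
    · have h3 := hK (r / (2 * Real.pi))
      have hpi := Real.pi_gt_three
      have h5 : 1 + |r| ≤ 2 * Real.pi * (1 + ‖r / (2 * Real.pi)‖) := by
        rw [Real.norm_eq_abs, abs_div, abs_of_pos (by positivity : 0 < 2 * Real.pi)]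
        have : 2 * Real.pi * (1 + |r| / (2 * Real.pi)) = 2 * Real.pi + |r| := by
          field_simp
        rw [this]
        linarith
      have h6 : (1 + |r|) ^ 3 ≤ (2 * Real.pi * (1 + ‖r / (2 * Real.pi)‖)) ^ 3 :=
        pow_le_pow_left₀ (by positivity) h5 3
      rw [h1]
      show ‖(FourierTransform.fourier f) (r / (2 * Real.pi))‖ * (1 + |r|) ^ 3 ≤ _
      calc ‖(FourierTransform.fourier f) (r / (2 * Real.pi))‖ * (1 + |r|) ^ 3 ≤
          ‖(FourierTransform.fourier f) (r / (2 * Real.pi))‖ *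
            (2 * Real.pi * (1 + ‖r / (2 * Real.pi)‖)) ^ 3 :=
            mul_le_mul_of_nonneg_left h6 (norm_nonneg _)
        _ = (2 * Real.pi) ^ 3 * ((1 + ‖r / (2 * Real.pi)‖) ^ 3 *
            ‖(FourierTransform.fourier f) (r / (2 * Real.pi))‖) := by
            rw [mul_pow]
            ring
        _ ≤ (2 * Real.pi) ^ 3 * K := mul_le_mul_of_nonneg_left h3 (by positivity)
        _ ≤ _ := by linarith

/-- the wave packet as an integral over the interval -/
lemma GG_eq {a : ℝ → ℂ} (ha : Tst a) (z : ℂ) {t : ℝ} (ht : 0 < t) :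
    GG a z t = (2 * Real.sinh t : ℂ)⁻¹ *
      ∫ r in (-t)..t, Complex.exp (-(Complex.I * z * r)) * Af a r := by
  have hac : Continuous a := ha.1.continuous
  have hai : Integrable a := hac.integrable_of_hasCompactSupport ha.2
  have h1 : ∀ ξ : ℝ, a ξ * sph (ξ + z) t = (2 * Real.sinh t : ℂ)⁻¹ *
      ∫ r in (-t)..t, a ξ * Complex.exp (-(Complex.I * (ξ + z) * r)) := by
    intro ξ
    unfold sph
    rw [intervalIntegral.integral_const_mul, div_eq_mul_inv]
    ring
  unfold GG
  simp_rw [h1]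
  rw [integral_const_mul]
  congr 1
  simp_rw [intervalIntegral.integral_of_le (show -t ≤ t by linarith)]
  rw [integral_integral_swap]
  · refine integral_congr_ae (Eventually.of_forall fun r => ?_)
    show ∫ ξ : ℝ, a ξ * Complex.exp (-(Complex.I * (ξ + z) * r)) =
      Complex.exp (-(Complex.I * z * r)) * Af a r
    unfold Af
    rw [← integral_const_mul]
    refine integral_congr_ae (Eventually.of_forall fun ξ => ?_)
    show a ξ * Complex.exp (-(Complex.I * (ξ + z) * r)) =
      Complex.exp (-(Complex.I * z * r)) * (a ξ * Complex.exp (-(Complex.I * ξ * r)))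
    rw [mul_left_comm, ← Complex.exp_add]
    congr 2
    ring
  · have h2 : Integrable (fun q : ℝ × ℝ => ‖a q.1‖ * Real.exp (|z.im| * t))
        (volume.prod (volume.restrict (Ioc (-t) t))) := by
      exact hai.norm.mul_prod (integrable_const _)
    refine h2.mono' ?_ ?_
    · have h3 : Continuous (fun q : ℝ × ℝ => a q.1 *
          Complex.exp (-(Complex.I * (q.1 + z) * q.2))) := by fun_prop
      exact h3.aestronglyMeasurable
    · have h4 : ∀ᵐ q : ℝ × ℝ ∂(volume.prod (volume.restrict (Ioc (-t) t))),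
          q.2 ∈ Ioc (-t) t := by
        have h5 : ∀ᵐ r : ℝ ∂(volume.restrict (Ioc (-t) t)), r ∈ Ioc (-t) t :=
          ae_restrict_mem measurableSet_Ioc
        exact Measure.quasiMeasurePreserving_snd.ae h5
      filter_upwards [h4] with q hq
      show ‖a q.1 * Complex.exp (-(Complex.I * (q.1 + z) * q.2))‖ ≤ _
      rw [norm_mul, Complex.norm_exp]
      refine mul_le_mul_of_nonneg_left (Real.exp_le_exp.2 ?_) (norm_nonneg _)
      have e1 : (-(Complex.I * (q.1 + z) * q.2)).re = z.im * q.2 := by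
        simp [Complex.mul_re, Complex.mul_im]
      rw [e1]
      have hq2 : |q.2| ≤ t := abs_le.2 ⟨hq.1.le, hq.2⟩
      calc z.im * q.2 ≤ |z.im * q.2| := le_abs_self _
        _ = |z.im| * |q.2| := abs_mul _ _
        _ ≤ |z.im| * t := mul_le_mul_of_nonneg_left hq2 (abs_nonneg _)

lemma norm_ker {s : ℝ} {z : ℂ} (hz : |z.im| ≤ s) (r : ℝ) :
    ‖Complex.exp (-(Complex.I * z * r))‖ ≤ Real.exp (s * |r|) := by
  rw [Complex.norm_exp]
  refine Real.exp_le_exp.2 ?_
  have e1 : (-(Complex.I * z * r)).re = z.im * r := by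
    simp [Complex.mul_re, Complex.mul_im]
  rw [e1]
  calc z.im * r ≤ |z.im * r| := le_abs_self _
    _ = |z.im| * |r| := abs_mul _ _
    _ ≤ s * |r| := mul_le_mul_of_nonneg_right hz (abs_nonneg _)

lemma deriv_GG {a : ℝ → ℂ} (ha : Tst a) (z : ℂ) {t : ℝ} (ht : 0 < t) :
    HasDerivAt (fun z => GG a z t) ((2 * Real.sinh t : ℂ)⁻¹ *
      ∫ r in (-t)..t, (-(Complex.I * r)) * Complex.exp (-(Complex.I * z * r)) * Af a r) z := by
  obtain ⟨hc, -⟩ := Af_props ha
  have h1 : (fun z => GG a z t) = fun z => (2 * Real.sinh t : ℂ)⁻¹ *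
      ∫ r in (-t)..t, Complex.exp (-(Complex.I * z * r)) * Af a r :=
    funext fun z => GG_eq ha z ht
  rw [h1]
  refine HasDerivAt.const_mul _ ?_
  refine (intervalIntegral.hasDerivAt_integral_of_dominated_loc_of_deriv_le
    (F := fun z r => Complex.exp (-(Complex.I * z * r)) * Af a r)
    (F' := fun z r => (-(Complex.I * r)) * Complex.exp (-(Complex.I * z * r)) * Af a r)
    (bound := fun r => |r| * Real.exp ((|z.im| + 1) * |r|) * ‖Af a r‖)
    (Metric.ball_mem_nhds z one_pos) ?_ ?_ ?_ ?_ ?_ ?_).2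
  · refine Eventually.of_forall fun w => ?_
    have : Continuous fun r : ℝ => Complex.exp (-(Complex.I * w * r)) * Af a r := by fun_prop
    exact this.aestronglyMeasurable
  · have : Continuous fun r : ℝ => Complex.exp (-(Complex.I * z * r)) * Af a r := by fun_prop
    exact this.intervalIntegrable _ _
  · have : Continuous fun r : ℝ => (-(Complex.I * r)) * Complex.exp (-(Complex.I * z * r)) *
        Af a r := by fun_prop
    exact this.aestronglyMeasurable
  · refine Eventually.of_forall fun r _ w hw => ?_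
    rw [norm_mul, norm_mul, norm_neg, norm_mul, Complex.norm_I, one_mul, Complex.norm_real,
      Real.norm_eq_abs]
    have hw' : |w.im| ≤ |z.im| + 1 := by
      have h2 : |(w - z).im| ≤ ‖w - z‖ := Complex.abs_im_le_norm _
      rw [Metric.mem_ball, dist_eq_norm] at hw
      rw [Complex.sub_im] at h2
      have h3 := abs_sub_abs_le_abs_sub w.im z.im
      linarith
    exact mul_le_mul_of_nonneg_right (mul_le_mul_of_nonneg_left (norm_ker hw' r)
      (abs_nonneg _)) (norm_nonneg _)
  · have : Continuous fun r : ℝ => |r| * Real.exp ((|z.im| + 1) * |r|) * ‖Af a r‖ := by fun_prop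
    exact this.intervalIntegrable _ _
  · refine Eventually.of_forall fun r _ w _ => ?_
    refine HasDerivAt.mul_const ?_ _
    have h2 : HasDerivAt (fun w : ℂ => -(Complex.I * w * r)) (-(Complex.I * r)) w := by
      have h3 : HasDerivAt (fun w : ℂ => -(Complex.I * w * r)) (-(Complex.I * 1 * r)) w :=
        (((hasDerivAt_id w).const_mul Complex.I).mul_const (r : ℂ)).fun_neg
      rwa [mul_one] at h3
    have h4 := h2.cexp
    rw [mul_comm] at h4
    exact h4

/-- the dominating integral -/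
lemma J_le {s : ℝ} (hs : 0 < s) (hs1 : s < 1) {t : ℝ} (ht : 0 < t) :
    ∫ r in (-t)..t, Real.exp (s * |r|) * ((1 + |r|) ^ 2)⁻¹ ≤
      64 / s ^ 3 * (Real.exp (s * t) * ((1 + t) ^ 2)⁻¹) := by
  have hpt : ∀ r ∈ Icc (-t) t, Real.exp (s * |r|) * ((1 + |r|) ^ 2)⁻¹ ≤
      16 / s ^ 2 * (Real.exp (s * t) * ((1 + t) ^ 2)⁻¹) *
        (Real.exp (-(s / 2 * t)) * (Real.exp (s / 2 * r) + Real.exp (-(s / 2) * r))) := by
    intro r hr
    have hrt : |r| ≤ t := abs_le.2 hr
    have hr0 := abs_nonneg r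
    obtain ⟨u, hu⟩ : ∃ u, u = t - |r| := ⟨_, rfl⟩
    have hu0 : 0 ≤ u := by rw [hu]; linarith
    have h1 : 1 + u ≤ 4 / s * Real.exp (s / 4 * u) := by
      have h2 := Real.add_one_le_exp (s / 4 * u)
      have h3 : 4 / s * (s / 4 * u + 1) = u + 4 / s := by field_simp
      have h4 : 1 ≤ 4 / s := by rw [le_div_iff₀ hs]; linarith
      calc 1 + u ≤ 4 / s * (s / 4 * u + 1) := by rw [h3]; linarith
        _ ≤ _ := mul_le_mul_of_nonneg_left h2 (by positivity)
    have h5 : (1 + u) ^ 2 ≤ 16 / s ^ 2 * Real.exp (s / 2 * u) := by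
      calc (1 + u) ^ 2 ≤ (4 / s * Real.exp (s / 4 * u)) ^ 2 :=
            pow_le_pow_left₀ (by positivity) h1 2
        _ = 16 / s ^ 2 * (Real.exp (s / 4 * u) * Real.exp (s / 4 * u)) := by ring
        _ = 16 / s ^ 2 * Real.exp (s / 2 * u) := by
            rw [← Real.exp_add]
            congr 2
            ring
    have h6 : 1 + t ≤ (1 + |r|) * (1 + u) := by
      rw [hu]
      nlinarith
    have h7 : (1 + t) ^ 2 ≤ (1 + |r|) ^ 2 * (1 + u) ^ 2 := by
      rw [← mul_pow]
      exact pow_le_pow_left₀ (by positivity) h6 2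
    have h8 : ((1 + |r|) ^ 2)⁻¹ ≤ 16 / s ^ 2 * Real.exp (s / 2 * u) * ((1 + t) ^ 2)⁻¹ := by
      rw [← div_eq_mul_inv, le_div_iff₀ (by positivity), inv_mul_le_iff₀ (by positivity)]
      exact h7.trans (mul_le_mul_of_nonneg_left h5 (by positivity))
    have h9 : Real.exp (s / 2 * |r|) ≤ Real.exp (s / 2 * r) + Real.exp (-(s / 2) * r) := by
      have e1 := Real.exp_pos (s / 2 * r)
      have e2 := Real.exp_pos (-(s / 2) * r)
      rcases abs_choice r with h | h
      · rw [h]; linarith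
      · rw [h, show s / 2 * -r = -(s / 2) * r by ring]; linarith
    calc Real.exp (s * |r|) * ((1 + |r|) ^ 2)⁻¹ ≤
        Real.exp (s * |r|) * (16 / s ^ 2 * Real.exp (s / 2 * u) * ((1 + t) ^ 2)⁻¹) :=
          mul_le_mul_of_nonneg_left h8 (Real.exp_pos _).le
      _ = 16 / s ^ 2 * ((Real.exp (s * |r|) * Real.exp (s / 2 * u)) * ((1 + t) ^ 2)⁻¹) := by ring
      _ = 16 / s ^ 2 * ((Real.exp (s * t) * (Real.exp (-(s / 2 * t)) * Real.exp (s / 2 * |r|))) *
            ((1 + t) ^ 2)⁻¹) := by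
          rw [← Real.exp_add, ← Real.exp_add, ← Real.exp_add, hu]
          congr 3
          ring_nf
      _ = 16 / s ^ 2 * (Real.exp (s * t) * ((1 + t) ^ 2)⁻¹) *
            (Real.exp (-(s / 2 * t)) * Real.exp (s / 2 * |r|)) := by ring
      _ ≤ _ := by
          refine mul_le_mul_of_nonneg_left ?_ (by positivity)
          exact mul_le_mul_of_nonneg_left h9 (Real.exp_pos _).le
  have hcont1 : Continuous fun r : ℝ => Real.exp (s * |r|) * ((1 + |r|) ^ 2)⁻¹ := by
    refine Continuous.mul (by fun_prop) (Continuous.inv₀ (by fun_prop) fun r => ?_)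
    positivity
  have hcont2 : Continuous fun r : ℝ => 16 / s ^ 2 * (Real.exp (s * t) * ((1 + t) ^ 2)⁻¹) *
        (Real.exp (-(s / 2 * t)) * (Real.exp (s / 2 * r) + Real.exp (-(s / 2) * r))) := by
    fun_prop
  refine (intervalIntegral.integral_mono_on (by linarith) (hcont1.intervalIntegrable _ _)
    (hcont2.intervalIntegrable _ _) hpt).trans ?_
  have hexp : ∀ c : ℝ, c ≠ 0 → ∫ r in (-t)..t, Real.exp (c * r) =
      c⁻¹ * (Real.exp (c * t) - Real.exp (c * -t)) := by
    intro c hc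
    rw [intervalIntegral.integral_comp_mul_left (fun x => Real.exp x) hc, integral_exp, smul_eq_mul]
  rw [intervalIntegral.integral_const_mul, intervalIntegral.integral_const_mul,
    intervalIntegral.integral_add (by
      have : Continuous fun r : ℝ => Real.exp (s / 2 * r) := by fun_prop
      exact this.intervalIntegrable _ _) (by
      have : Continuous fun r : ℝ => Real.exp (-(s / 2) * r) := by fun_prop
      exact this.intervalIntegrable _ _), hexp _ (by positivity), hexp _ (by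
        have : 0 < s / 2 := by positivity
        linarith)]
  have e1 : (s / 2)⁻¹ * (Real.exp (s / 2 * t) - Real.exp (s / 2 * -t)) +
      (-(s / 2))⁻¹ * (Real.exp (-(s / 2) * t) - Real.exp (-(s / 2) * -t)) =
      4 / s * (Real.exp (s / 2 * t) - Real.exp (-(s / 2 * t))) := by
    rw [show s / 2 * -t = -(s / 2 * t) by ring, show -(s / 2) * t = -(s / 2 * t) by ring,
      show -(s / 2) * -t = s / 2 * t by ring]
    field_simp
    ring
  rw [e1]
  have e2 : Real.exp (-(s / 2 * t)) * (4 / s * (Real.exp (s / 2 * t) -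
      Real.exp (-(s / 2 * t)))) ≤ 4 / s := by
    have e3 : Real.exp (-(s / 2 * t)) * Real.exp (s / 2 * t) = 1 := by
      rw [← Real.exp_add, neg_add_cancel, Real.exp_zero]
    have e4 : 0 < Real.exp (-(s / 2 * t)) * Real.exp (-(s / 2 * t)) := by positivity
    calc Real.exp (-(s / 2 * t)) * (4 / s * (Real.exp (s / 2 * t) - Real.exp (-(s / 2 * t)))) =
        4 / s * (Real.exp (-(s / 2 * t)) * Real.exp (s / 2 * t) -
          Real.exp (-(s / 2 * t)) * Real.exp (-(s / 2 * t))) := by ring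
      _ ≤ 4 / s * 1 := mul_le_mul_of_nonneg_left (by linarith) (by positivity)
      _ = 4 / s := mul_one _
  calc _ ≤ 16 / s ^ 2 * (Real.exp (s * t) * ((1 + t) ^ 2)⁻¹) * (4 / s) :=
        mul_le_mul_of_nonneg_left e2 (by positivity)
    _ = _ := by
        field_simp
        norm_num

/-- both norms -/
lemma GG_bd {a : ℝ → ℂ} (ha : Tst a) {C : ℝ} (hC : ∀ r, ‖Af a r‖ * (1 + |r|) ^ 3 ≤ C)
    {s : ℝ} {z : ℂ} (hz : |z.im| ≤ s) {t : ℝ} (ht : 0 < t) :
    ‖GG a z t‖ ≤ (2 * Real.sinh t)⁻¹ *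
      ∫ r in (-t)..t, C * (Real.exp (s * |r|) * ((1 + |r|) ^ 2)⁻¹) ∧
    ‖deriv (fun w => GG a w t) z‖ ≤ (2 * Real.sinh t)⁻¹ *
      ∫ r in (-t)..t, C * (Real.exp (s * |r|) * ((1 + |r|) ^ 2)⁻¹) := by
  have hsinh : 0 < Real.sinh t := Real.sinh_pos_iff.2 ht
  have hn : ‖(2 * Real.sinh t : ℂ)⁻¹‖ = (2 * Real.sinh t)⁻¹ := by
    rw [norm_inv, norm_mul, Complex.norm_real, Real.norm_of_nonneg hsinh.le]
    simp
  have hcont1 : Continuous fun r : ℝ => C * (Real.exp (s * |r|) * ((1 + |r|) ^ 2)⁻¹) := by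
    refine Continuous.mul continuous_const (Continuous.mul (by fun_prop)
      (Continuous.inv₀ (by fun_prop) fun r => ?_))
    positivity
  have hA : ∀ r, ‖Af a r‖ ≤ C * ((1 + |r|) ^ 3)⁻¹ := by
    intro r
    rw [← div_eq_mul_inv, le_div_iff₀ (by positivity)]
    exact hC r
  have hC0 : 0 ≤ C := le_trans (by positivity) (hC 0)
  have hA2 : ∀ r, ‖Af a r‖ ≤ C * ((1 + |r|) ^ 2)⁻¹ := by
    intro r
    refine (hA r).trans (mul_le_mul_of_nonneg_left (inv_anti₀ (by positivity) ?_) hC0)
    exact pow_le_pow_right₀ (by linarith [abs_nonneg r]) (by norm_num)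
  have hA3 : ∀ r, |r| * ‖Af a r‖ ≤ C * ((1 + |r|) ^ 2)⁻¹ := by
    intro r
    have h0 := abs_nonneg r
    calc |r| * ‖Af a r‖ ≤ (1 + |r|) * (C * ((1 + |r|) ^ 3)⁻¹) :=
          mul_le_mul (by linarith) (hA r) (norm_nonneg _) (by positivity)
      _ = C * ((1 + |r|) ^ 2)⁻¹ := by
          field_simp
  constructor
  · rw [GG_eq ha z ht, norm_mul, hn]
    refine mul_le_mul_of_nonneg_left ?_ (by positivity)
    refine intervalIntegral.norm_integral_le_of_norm_le (by linarith)
      (Eventually.of_forall fun r _ => ?_) (hcont1.intervalIntegrable _ _)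
    rw [norm_mul]
    calc ‖Complex.exp (-(Complex.I * z * r))‖ * ‖Af a r‖ ≤
        Real.exp (s * |r|) * (C * ((1 + |r|) ^ 2)⁻¹) :=
          mul_le_mul (norm_ker hz r) (hA2 r) (norm_nonneg _) (Real.exp_pos _).le
      _ = _ := by ring
  · rw [(deriv_GG ha z ht).deriv, norm_mul, hn]
    refine mul_le_mul_of_nonneg_left ?_ (by positivity)
    refine intervalIntegral.norm_integral_le_of_norm_le (by linarith)
      (Eventually.of_forall fun r _ => ?_) (hcont1.intervalIntegrable _ _)
    rw [norm_mul, norm_mul, norm_neg, norm_mul, Complex.norm_I, one_mul, Complex.norm_real,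
      Real.norm_eq_abs]
    calc |r| * ‖Complex.exp (-(Complex.I * z * r))‖ * ‖Af a r‖ =
        ‖Complex.exp (-(Complex.I * z * r))‖ * (|r| * ‖Af a r‖) := by ring
      _ ≤ Real.exp (s * |r|) * (C * ((1 + |r|) ^ 2)⁻¹) :=
          mul_le_mul (norm_ker hz r) (hA3 r) (by positivity) (Real.exp_pos _).le
      _ = _ := by ring

lemma GG_meas (hm : Measurable (fun q : ℂ × ℝ => sph q.1 q.2)) {a : ℝ → ℂ} (ha : Continuous a)
    (z : ℂ) : Measurable (GG a z) := by
  obtain ⟨F, hF⟩ : ∃ F : ℂ × ℝ → ℂ, F = fun q => sph q.1 q.2 := ⟨_, rfl⟩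
  rw [← hF] at hm
  have hφ : Measurable (fun q : ℝ × ℝ => (((q.2 : ℂ) + z, q.1) : ℂ × ℝ)) := by
    refine Measurable.prodMk ?_ measurable_fst
    exact (Complex.measurable_ofReal.comp measurable_snd).add_const z
  have h1a : Measurable (fun q : ℝ × ℝ => a q.2) := ha.measurable.comp measurable_snd
  have h1b : Measurable (fun q : ℝ × ℝ => F ((q.2 : ℂ) + z, q.1)) := hm.comp hφ
  have h2 : StronglyMeasurable fun t : ℝ => ∫ ξ : ℝ, (fun q : ℝ × ℝ => a q.2 *
      F ((q.2 : ℂ) + z, q.1)) (t, ξ) :=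
    (h1a.mul h1b).stronglyMeasurable.integral_prod_right'
  have h3 : GG a z = fun t : ℝ => ∫ ξ : ℝ, (fun q : ℝ × ℝ => a q.2 *
      F ((q.2 : ℂ) + z, q.1)) (t, ξ) := by
    funext t
    rw [hF]
    rfl
  rw [h3]
  exact h2.measurable

end DOM

open DOM in
theorem t_DOM (h : S_SPH) : S_DOM := by
  intro s hs hs1 a ha
  obtain ⟨hAc, C, hC0, hC⟩ := Af_props ha
  obtain ⟨K, hK⟩ : ∃ K : ℝ, K = 2 * (C * (64 / s ^ 3)) := ⟨_, rfl⟩
  have hK0 : 0 < K := by rw [hK]; positivity
  obtain ⟨D, hD⟩ : ∃ D : ℝ → ℝ, D = fun t => if t < 1 then C * Real.exp s else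
    K * (Real.exp (-((1 - s) * t)) * ((1 + t) ^ 2)⁻¹) := ⟨_, rfl⟩
  have hD0 : ∀ t, 0 ≤ D t := by
    intro t
    rw [hD]
    show 0 ≤ (if t < 1 then C * Real.exp s else
      K * (Real.exp (-((1 - s) * t)) * ((1 + t) ^ 2)⁻¹))
    split_ifs <;> positivity
  have hbd : ∀ t, 0 < t → (2 * Real.sinh t)⁻¹ *
      ∫ r in (-t)..t, C * (Real.exp (s * |r|) * ((1 + |r|) ^ 2)⁻¹) ≤ D t := by
    intro t ht
    have hsinh : 0 < Real.sinh t := Real.sinh_pos_iff.2 ht
    rw [hD]
    show _ ≤ (if t < 1 then C * Real.exp s else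
      K * (Real.exp (-((1 - s) * t)) * ((1 + t) ^ 2)⁻¹))
    rw [intervalIntegral.integral_const_mul]
    split_ifs with h1
    · have hcont1 : Continuous fun r : ℝ => Real.exp (s * |r|) * ((1 + |r|) ^ 2)⁻¹ := by
        refine Continuous.mul (by fun_prop) (Continuous.inv₀ (by fun_prop) fun r => ?_)
        positivity
      have h2 : ∫ r in (-t)..t, Real.exp (s * |r|) * ((1 + |r|) ^ 2)⁻¹ ≤
          ∫ _r in (-t)..t, Real.exp s := by
        refine intervalIntegral.integral_mono_on (by linarith) (hcont1.intervalIntegrable _ _)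
          intervalIntegrable_const fun r hr => ?_
        have hrt : |r| ≤ t := abs_le.2 hr
        have hr0 := abs_nonneg r
        calc Real.exp (s * |r|) * ((1 + |r|) ^ 2)⁻¹ ≤ Real.exp s * 1 := by
              refine mul_le_mul (Real.exp_le_exp.2 (by nlinarith)) ?_ (by positivity)
                (Real.exp_pos _).le
              exact inv_le_one_of_one_le₀ (one_le_pow₀ (by linarith))
          _ = Real.exp s := mul_one _
      rw [intervalIntegral.integral_const, smul_eq_mul] at h2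
      have h3 : t ≤ Real.sinh t := Real.self_le_sinh_iff.2 ht.le
      rw [inv_mul_le_iff₀ (by positivity)]
      have h4 := Real.exp_pos s
      calc C * ∫ r in (-t)..t, Real.exp (s * |r|) * ((1 + |r|) ^ 2)⁻¹ ≤
          C * ((t - -t) * Real.exp s) := mul_le_mul_of_nonneg_left h2 hC0.le
        _ = (2 * t) * (C * Real.exp s) := by ring
        _ ≤ 2 * Real.sinh t * (C * Real.exp s) :=
            mul_le_mul_of_nonneg_right (by linarith) (by positivity)
    · have h1' : 1 ≤ t := not_lt.1 h1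
      have h2 := J_le hs hs1 ht
      have h3 : (2 * Real.sinh t)⁻¹ ≤ 2 * Real.exp (-t) := by
        rw [inv_le_iff_one_le_mul₀ (by positivity), Real.sinh_eq]
        have e1 : Real.exp (-t) * Real.exp t = 1 := by
          rw [← Real.exp_add, neg_add_cancel, Real.exp_zero]
        have e2 : Real.exp (-t) * Real.exp (-t) ≤ 1 / 2 := by
          have e3 : Real.exp (-t) ≤ 1 / 2 := by
            have e4 := Real.add_one_le_exp t
            have e5 := Real.exp_pos (-t)
            nlinarith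
          have e5 := Real.exp_pos (-t)
          nlinarith
        nlinarith
      calc (2 * Real.sinh t)⁻¹ * (C * ∫ r in (-t)..t, Real.exp (s * |r|) * ((1 + |r|) ^ 2)⁻¹) ≤
          (2 * Real.exp (-t)) * (C * (64 / s ^ 3 * (Real.exp (s * t) * ((1 + t) ^ 2)⁻¹))) := by
            refine mul_le_mul h3 (mul_le_mul_of_nonneg_left h2 hC0.le) ?_ (by positivity)
            refine mul_nonneg hC0.le (intervalIntegral.integral_nonneg (by linarith) fun r _ => ?_)
            positivity
        _ = K * ((Real.exp (-t) * Real.exp (s * t)) * ((1 + t) ^ 2)⁻¹) := by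
            rw [hK]
            ring
        _ = _ := by
            rw [← Real.exp_add]
            congr 3
            ring_nf
  refine ⟨D, ?_, hD0, ?_, ?_, ?_⟩
  · rw [hD]
    refine Measurable.ite measurableSet_Iio measurable_const ?_
    fun_prop
  · intro t ht
    refine ⟨fun z => (deriv_GG ha z ht).differentiableAt, fun z hz => ?_⟩
    obtain ⟨h1, h2⟩ := GG_bd ha hC hz ht
    exact ⟨h1.trans (hbd t ht), h2.trans (hbd t ht)⟩
  · intro z
    exact GG_meas h.2.2.2.2 ha.1.continuous z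
  · obtain ⟨p, hp⟩ : ∃ p : ℝ, p = 2 / (1 - s) := ⟨_, rfl⟩
    have hs' : 0 < 1 - s := by linarith
    have hp1 : 1 ≤ p := by
      rw [hp, le_div_iff₀ hs']
      linarith
    have hps : (1 - s) * p = 2 := by
      rw [hp]
      field_simp
    rw [← hp]
    obtain ⟨L, hL⟩ : ∃ L : ℝ, L = 4 * Real.exp 1 ^ 2 * (C * Real.exp s) ^ p + K ^ p := ⟨_, rfl⟩
    have hpt : ∀ t ∈ Ioi (0 : ℝ), D t ^ p * Real.sinh t ^ 2 ≤ L * (1 + ‖t‖) ^ (-(2 : ℝ)) := by
      intro t ht
      have ht0 : (0 : ℝ) < t := ht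
      have hw : (1 + ‖t‖) ^ (-(2 : ℝ)) = ((1 + t) ^ 2)⁻¹ := by
        rw [Real.norm_of_nonneg ht0.le, Real.rpow_neg (by positivity)]
        congr 1
        exact_mod_cast Real.rpow_natCast (1 + t) 2
      rw [hw]
      have hw0 : 0 < ((1 + t) ^ 2)⁻¹ := by positivity
      have hw1 : ((1 + t) ^ 2)⁻¹ ≤ 1 := inv_le_one_of_one_le₀ (one_le_pow₀ (by linarith))
      have hsinh : 0 < Real.sinh t := Real.sinh_pos_iff.2 ht0
      have hse : Real.sinh t ≤ Real.exp t := by
        rw [Real.sinh_eq]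
        have e1 := Real.exp_pos t
        have e2 := Real.exp_pos (-t)
        linarith
      have hCp : 0 < (C * Real.exp s) ^ p := by positivity
      have hKp : 0 < K ^ p := by positivity
      rw [hD]
      show (if t < 1 then C * Real.exp s else
        K * (Real.exp (-((1 - s) * t)) * ((1 + t) ^ 2)⁻¹)) ^ p * Real.sinh t ^ 2 ≤ _
      split_ifs with h1
      · have h2 : Real.sinh t ^ 2 ≤ Real.exp 1 ^ 2 :=
          pow_le_pow_left₀ hsinh.le (hse.trans (Real.exp_le_exp.2 h1.le)) 2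
        have h3 : 1 ≤ 4 * ((1 + t) ^ 2)⁻¹ := by
          rw [← div_eq_mul_inv, le_div_iff₀ (by positivity)]
          nlinarith
        calc (C * Real.exp s) ^ p * Real.sinh t ^ 2 ≤
            (C * Real.exp s) ^ p * Real.exp 1 ^ 2 * (4 * ((1 + t) ^ 2)⁻¹) := by
              rw [mul_assoc]
              refine mul_le_mul_of_nonneg_left ?_ hCp.le
              calc Real.sinh t ^ 2 ≤ Real.exp 1 ^ 2 * 1 := by rw [mul_one]; exact h2
                _ ≤ _ := mul_le_mul_of_nonneg_left h3 (by positivity)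
          _ = 4 * Real.exp 1 ^ 2 * (C * Real.exp s) ^ p * ((1 + t) ^ 2)⁻¹ := by ring
          _ ≤ L * ((1 + t) ^ 2)⁻¹ := by
              rw [hL]
              exact mul_le_mul_of_nonneg_right (by linarith) hw0.le
      · rw [Real.mul_rpow hK0.le (by positivity), Real.mul_rpow (Real.exp_pos _).le hw0.le,
          ← Real.exp_mul]
        have e1 : -((1 - s) * t) * p = -(2 * t) := by
          calc -((1 - s) * t) * p = -(((1 - s) * p) * t) := by ring
            _ = _ := by rw [hps]
        rw [e1]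
        have h2 : (((1 + t) ^ 2)⁻¹) ^ p ≤ ((1 + t) ^ 2)⁻¹ := by
          calc (((1 + t) ^ 2)⁻¹) ^ p ≤ (((1 + t) ^ 2)⁻¹) ^ (1 : ℝ) :=
                Real.rpow_le_rpow_of_exponent_ge hw0 hw1 hp1
            _ = _ := Real.rpow_one _
        have h3 : Real.sinh t ^ 2 ≤ Real.exp (2 * t) := by
          calc Real.sinh t ^ 2 ≤ Real.exp t ^ 2 := pow_le_pow_left₀ hsinh.le hse 2
            _ = Real.exp (2 * t) := by
                rw [← Real.exp_nat_mul]
                norm_num
        calc K ^ p * (Real.exp (-(2 * t)) * (((1 + t) ^ 2)⁻¹) ^ p) * Real.sinh t ^ 2 ≤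
            K ^ p * (Real.exp (-(2 * t)) * ((1 + t) ^ 2)⁻¹) * Real.exp (2 * t) := by
              refine mul_le_mul ?_ h3 (by positivity) (by positivity)
              exact mul_le_mul_of_nonneg_left (mul_le_mul_of_nonneg_left h2 (Real.exp_pos _).le)
                hKp.le
          _ = K ^ p * (Real.exp (-(2 * t)) * Real.exp (2 * t)) * ((1 + t) ^ 2)⁻¹ := by ring
          _ = K ^ p * ((1 + t) ^ 2)⁻¹ := by
              rw [← Real.exp_add, neg_add_cancel, Real.exp_zero, mul_one]
          _ ≤ L * ((1 + t) ^ 2)⁻¹ := by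
              rw [hL]
              refine mul_le_mul_of_nonneg_right ?_ hw0.le
              have : 0 < 4 * Real.exp 1 ^ 2 * (C * Real.exp s) ^ p := by positivity
              linarith
    have hint : Integrable (fun t : ℝ => L * (1 + ‖t‖) ^ (-(2 : ℝ))) := by
      refine Integrable.const_mul ?_ _
      exact integrable_one_add_norm (by simp)
    calc ∫⁻ t in Ioi (0 : ℝ), ENNReal.ofReal (D t ^ p * Real.sinh t ^ 2) ≤
        ∫⁻ t in Ioi (0 : ℝ), ENNReal.ofReal (L * (1 + ‖t‖) ^ (-(2 : ℝ))) :=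
          setLIntegral_mono' measurableSet_Ioi fun t ht => ENNReal.ofReal_le_ofReal (hpt t ht)
      _ < ∞ := hint.integrableOn.lintegral_lt_top

end

end Pool.Agent.N46.HM
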