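import Pool.Agent.N46.HM.Stm

/-!
# Project HM (helper46), leaf EIG (helper55): spherical functions are eigenfunctions
-/

set_option autoImplicit false
set_option maxHeartbeats 400000

open MeasureTheory Set Filter
open scoped ENNReal Topology ComplexConjugate

namespace Pool.Agent.N46.HM

noncomputable section

namespace EIG

/-- the numerator of the spherical function -/
def P (l : ℂ) (t : ℝ) : ℂ := if l = 0 then (t : ℂ) else Complex.sin (l * t) / l

theorem sph_eq (h3 : S_SPH) (l : ℂ) (t : ℝ) : sph l t = P l t / (Real.sinh t : ℂ) := by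
  unfold P
  split_ifs with hl
  · subst hl
    unfold sph
    have : (∫ r in (-t)..t, Complex.exp (-(Complex.I * 0 * r))) = 2 * (t : ℂ) := by
      simp
      ring
    rw [this, mul_div_mul_left _ _ two_ne_zero]
  · rw [h3.1 l t hl, div_div]

theorem P_cont (l : ℂ) : Continuous (P l) := by
  unfold P
  split_ifs
  · exact Complex.continuous_ofReal
  · exact (Complex.continuous_sin.comp
      (continuous_const.mul Complex.continuous_ofReal)).div_const _

theorem P_conv (l : ℂ) (D t : ℝ) : ∫ r in |D - t|..(D + t), P l r = 2 * P l D * P l t := by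
  unfold P
  split_ifs with hl
  · rw [intervalIntegral.integral_ofReal, integral_id, sq_abs]
    push_cast
    ring
  · have hd : ∀ r : ℝ, HasDerivAt (fun r : ℝ => -Complex.cos (l * r) / l ^ 2)
        (Complex.sin (l * r) / l) r := by
      intro r
      have h1 : HasDerivAt (fun z : ℂ => -Complex.cos (l * z) / l ^ 2)
          (-(-Complex.sin (l * r) * (l * 1)) / l ^ 2) (r : ℂ) :=
        ((((hasDerivAt_id (r : ℂ)).const_mul l).ccos).neg).div_const _
      have h2 := h1.comp_ofReal
      convert h2 using 1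
      field_simp
    rw [intervalIntegral.integral_eq_sub_of_hasDerivAt (fun r _ => hd r)
      (Continuous.intervalIntegrable ((Complex.continuous_sin.comp
      (continuous_const.mul Complex.continuous_ofReal)).div_const _) _ _)]
    have hc : Complex.cos (l * (|D - t| : ℝ)) = Complex.cos (l * D - l * t) := by
      rcases abs_choice (D - t) with h | h
      · rw [h]; push_cast; rw [mul_sub]
      · rw [h]; push_cast
        rw [show l * -((D : ℂ) - t) = -(l * D - l * t) by ring, Complex.cos_neg]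
    rw [hc]
    push_cast
    rw [mul_add, Complex.cos_sub, Complex.cos_add]
    field_simp
    ring

/-- the region -/
def BB (D : ℝ) : Set (ℝ × ℝ) := {p | 0 < p.1 ∧ |D - p.1| < p.2 ∧ p.2 < D + p.1}

theorem BB_meas (D : ℝ) : MeasurableSet (BB D) := by
  apply IsOpen.measurableSet
  unfold BB
  exact (isOpen_lt continuous_const continuous_fst).inter
    ((isOpen_lt (continuous_const.sub continuous_fst).abs continuous_snd).inter
      (isOpen_lt continuous_snd (continuous_const.add continuous_fst)))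

/-- the density -/
def wR (D : ℝ) (p : ℝ × ℝ) : ℝ :=
  (BB D).indicator (fun p => 2 * Real.pi * Real.sinh p.1 * Real.sinh p.2 / Real.sinh D) p

theorem wR_meas (D : ℝ) : Measurable (wR D) := by
  unfold wR
  refine Measurable.indicator ?_ (BB_meas D)
  exact (((measurable_const.mul (Real.measurable_sinh.comp measurable_fst)).mul
    (Real.measurable_sinh.comp measurable_snd))).div_const _

theorem wR_of {D : ℝ} {p : ℝ × ℝ} (h : p ∈ BB D) :
    wR D p = 2 * Real.pi * Real.sinh p.1 * Real.sinh p.2 / Real.sinh D := by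
  unfold wR
  rw [indicator_of_mem h]

theorem wR_not {D : ℝ} {p : ℝ × ℝ} (h : p ∉ BB D) : wR D p = 0 := by
  unfold wR
  rw [indicator_of_notMem h]

theorem wR_nonneg {D : ℝ} (hD : 0 < D) (p : ℝ × ℝ) : 0 ≤ wR D p := by
  by_cases h : p ∈ BB D
  · rw [wR_of h]
    have h1 := Real.sinh_pos_iff.2 hD
    have h2 := Real.sinh_pos_iff.2 h.1
    have h3 := Real.sinh_pos_iff.2 ((abs_nonneg _).trans_lt h.2.1)
    have := Real.pi_pos
    positivity
  · rw [wR_not h]

theorem bi (h2 : S_BI) {x x₀ : Hs} (hx : 0 < x.2) (hx₀ : 0 < x₀.2) (hne : x ≠ x₀)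
    {F G : ℝ → ℝ≥0∞} (hF : Measurable F) (hG : Measurable G) :
    ∫⁻ x', F (dH x x') * G (dH x₀ x') ∂mu =
      ∫⁻ p, ENNReal.ofReal (wR (dH x x₀) p) * (F p.1 * G p.2)
        ∂((volume : Measure ℝ).prod (volume : Measure ℝ)) := by
  set D := dH x x₀ with hD
  have hm : Measurable fun p : ℝ × ℝ => ENNReal.ofReal (wR D p) * (F p.1 * G p.2) :=
    ((wR_meas D).ennreal_ofReal).mul ((hF.comp measurable_fst).mul (hG.comp measurable_snd))
  rw [h2 x x₀ hx hx₀ hne F G hF hG, lintegral_prod _ hm.aemeasurable,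
    ← lintegral_indicator measurableSet_Ioi]
  congr 1
  funext t
  by_cases ht : t ∈ Ioi (0 : ℝ)
  · rw [indicator_of_mem ht, ← lintegral_indicator measurableSet_Ioo]
    congr 1
    funext r
    by_cases hr : r ∈ Ioo |D - t| (D + t)
    · have hB : (t, r) ∈ BB D := ⟨ht, hr.1, hr.2⟩
      rw [indicator_of_mem hr, wR_of hB, mul_comm]
    · have hB : (t, r) ∉ BB D := fun h => hr ⟨h.2.1, h.2.2⟩
      rw [indicator_of_notMem hr, wR_not hB, ENNReal.ofReal_zero, zero_mul]
  · rw [indicator_of_notMem ht]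
    symm
    rw [lintegral_eq_zero_iff' (by
      exact (hm.comp measurable_prodMk_left).aemeasurable)]
    refine Eventually.of_forall fun r => ?_
    have hB : (t, r) ∉ BB D := fun h => ht h.1
    show ENNReal.ofReal (wR D (t, r)) * (F t * G r) = 0
    rw [wR_not hB, ENNReal.ofReal_zero, zero_mul]

theorem d_meas (h1 : S_DIST) (x : Hs) : Measurable fun x' : Hs => dH x x' := by
  have h := h1.2.comp (measurable_prodMk_left : Measurable (Prod.mk x : Hs → Hs × Hs))
  exact h

theorem T_meas (h1 : S_DIST) (x x₀ : Hs) : Measurable fun x' : Hs => (dH x x', dH x₀ x') :=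
  Measurable.prodMk (d_meas h1 x) (d_meas h1 x₀)

theorem map_eq (h1 : S_DIST) (h2 : S_BI) {x x₀ : Hs} (hx : 0 < x.2) (hx₀ : 0 < x₀.2)
    (hne : x ≠ x₀) (hD : 0 < dH x x₀) :
    mu.map (fun x' => (dH x x', dH x₀ x')) =
      ((volume : Measure ℝ).prod (volume : Measure ℝ)).withDensity
        (fun p => ENNReal.ofReal (wR (dH x x₀) p)) := by
  symm
  refine Measure.ext_of_generateFrom_of_iUnion
    (image2 (· ×ˢ ·) {s : Set ℝ | MeasurableSet s} {t : Set ℝ | MeasurableSet t})
    (fun n : ℕ => Iic (n : ℝ) ×ˢ Iic (n : ℝ)) generateFrom_prod.symm isPiSystem_prod ?_ ?_ ?_ ?_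
  · ext p
    simp only [mem_iUnion, mem_prod, mem_Iic, mem_univ, iff_true]
    obtain ⟨n, hn⟩ := exists_nat_ge (max p.1 p.2)
    exact ⟨n, (le_max_left _ _).trans hn, (le_max_right _ _).trans hn⟩
  · intro n
    exact ⟨Iic (n : ℝ), (show MeasurableSet (Iic (n : ℝ)) from measurableSet_Iic),
      Iic (n : ℝ), (show MeasurableSet (Iic (n : ℝ)) from measurableSet_Iic), rfl⟩
  · intro n
    rw [withDensity_apply _ (measurableSet_Iic.prod measurableSet_Iic)]
    set D := dH x x₀ with hDd
    set K : Set (ℝ × ℝ) := Icc (0:ℝ) n ×ˢ Icc (0:ℝ) n with hK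
    set c : ℝ := 2 * Real.pi * Real.sinh n * Real.sinh n / Real.sinh D with hc
    have hle : ∫⁻ p in Iic (n : ℝ) ×ˢ Iic (n : ℝ), ENNReal.ofReal (wR D p)
          ∂((volume : Measure ℝ).prod (volume : Measure ℝ)) ≤
        ∫⁻ p, K.indicator (fun _ => ENNReal.ofReal c) p
          ∂((volume : Measure ℝ).prod (volume : Measure ℝ)) := by
      rw [← lintegral_indicator (measurableSet_Iic.prod measurableSet_Iic)]
      refine lintegral_mono fun p => ?_
      by_cases hp : p ∈ Iic (n : ℝ) ×ˢ Iic (n : ℝ)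
      · rw [indicator_of_mem hp]
        by_cases hB : p ∈ BB D
        · have hp2 : 0 < p.2 := (abs_nonneg _).trans_lt hB.2.1
          have hpK : p ∈ K := ⟨⟨hB.1.le, hp.1⟩, ⟨hp2.le, hp.2⟩⟩
          rw [indicator_of_mem hpK, wR_of hB]
          apply ENNReal.ofReal_le_ofReal
          rw [hc]
          have s0 := Real.sinh_pos_iff.2 hD
          have s1 := Real.sinh_pos_iff.2 hB.1
          have s2 := Real.sinh_pos_iff.2 hp2
          have s3 := Real.sinh_le_sinh.2 hp.1
          have s4 := Real.sinh_le_sinh.2 hp.2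
          have := Real.pi_pos
          refine div_le_div_of_nonneg_right ?_ s0.le
          exact mul_le_mul (mul_le_mul_of_nonneg_left s3 (by positivity)) s4 s2.le
            (by have := s1.le.trans s3; positivity)
        · rw [wR_not hB, ENNReal.ofReal_zero]
          exact bot_le
      · rw [indicator_of_notMem hp]
        exact bot_le
    refine (lt_of_le_of_lt hle ?_).ne
    rw [lintegral_indicator (measurableSet_Icc.prod measurableSet_Icc), setLIntegral_const,
      Measure.prod_prod, Real.volume_Icc]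
    exact ENNReal.mul_lt_top ENNReal.ofReal_lt_top
      (ENNReal.mul_lt_top ENNReal.ofReal_lt_top ENNReal.ofReal_lt_top)
  · rintro _ ⟨S, hS, S', hS', rfl⟩
    have hSm : MeasurableSet S := hS
    have hSm' : MeasurableSet S' := hS'
    have hprod : MeasurableSet (S ×ˢ S') := hSm.prod hSm'
    show ((volume : Measure ℝ).prod (volume : Measure ℝ)).withDensity _ (S ×ˢ S') = _
    rw [Measure.map_apply (T_meas h1 x x₀) hprod, withDensity_apply _ hprod,
      ← lintegral_indicator_one ((T_meas h1 x x₀) hprod), ← lintegral_indicator hprod]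
    have e1 : ∀ x' : Hs, ((fun x' => (dH x x', dH x₀ x')) ⁻¹' (S ×ˢ S')).indicator
        (1 : Hs → ℝ≥0∞) x' = S.indicator 1 (dH x x') * S'.indicator 1 (dH x₀ x') := by
      intro x'
      by_cases q1 : dH x x' ∈ S <;> by_cases q2 : dH x₀ x' ∈ S' <;>
        simp [indicator, q1, q2]
    have e2 : ∀ p : ℝ × ℝ, (S ×ˢ S').indicator (fun p => ENNReal.ofReal (wR (dH x x₀) p)) p =
        ENNReal.ofReal (wR (dH x x₀) p) * (S.indicator 1 p.1 * S'.indicator 1 p.2) := by
      intro p
      by_cases q1 : p.1 ∈ S <;> by_cases q2 : p.2 ∈ S' <;>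
        simp [indicator, q1, q2]
    simp only [e1, e2]
    exact (bi h2 hx hx₀ hne (measurable_one.indicator hSm) (measurable_one.indicator hSm')).symm

theorem inner (l : ℂ) {D t : ℝ} (hD : 0 < D) (ht : 0 < t) :
    ∫ r in Ioo |D - t| (D + t), P l r = 2 * P l D * P l t := by
  have hle : |D - t| ≤ D + t := abs_le.2 ⟨by linarith, by linarith⟩
  rw [← integral_Ioc_eq_integral_Ioo, ← intervalIntegral.integral_of_le hle, P_conv]

theorem sph_sinh (h3 : S_SPH) (l : ℂ) {r : ℝ} (hr : 0 < r) :
    sph l r * (Real.sinh r : ℂ) = P l r := by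
  rw [sph_eq h3]
  refine div_mul_cancel₀ _ ?_
  exact_mod_cast (Real.sinh_pos_iff.2 hr).ne'

theorem sph_zero (h3 : S_SPH) (l : ℂ) : sph l 0 = 0 := by
  rw [sph_eq h3]
  simp

theorem kap_nonneg (h4 : S_KAP) {s : ℝ} (hs : 0 < s) {t : ℝ} (ht : 0 ≤ t) : 0 ≤ kap s t := by
  rcases ht.eq_or_lt with rfl | ht
  · simp [kap]
  · exact (h4 s hs).2.1 t ht

theorem mu_pos : ∀ᵐ x' ∂mu, 0 < x'.2 := by
  have h : mu ≪ volume.restrict {x : Hs | 0 < x.2} := withDensity_absolutelyContinuous _ _
  apply h.ae_le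
  exact ae_restrict_mem (isOpen_lt continuous_const continuous_snd).measurableSet

theorem sm (h3 : S_SPH) (m : ℂ) : Measurable (fun r : ℝ => sph m r) := by
  have h := h3.2.2.2.2
  have h' := h.comp (measurable_prodMk_left : Measurable (Prod.mk m : ℝ → ℂ × ℝ))
  exact h'

theorem fm (h1 : S_DIST) (h3 : S_SPH) {s : ℝ} (k1 : Measurable (kap s)) (l : ℂ) (x x₀ : Hs) :
    Measurable (fun x' => (kap s (dH x x') : ℂ) * sph l (dH x₀ x')) := by
  have a1 : Measurable fun x' => kap s (dH x x') := k1.comp (d_meas h1 x)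
  have a2 : Measurable fun x' => sph l (dH x₀ x') := (sm h3 l).comp (d_meas h1 x₀)
  have a3 : Measurable fun x' => (kap s (dH x x') : ℂ) := Complex.measurable_ofReal.comp a1
  exact a3.mul a2

theorem ffm (h3 : S_SPH) {s : ℝ} (k1 : Measurable (kap s)) (l : ℂ) :
    Measurable (fun p : ℝ × ℝ => (kap s p.1 : ℂ) * sph l p.2) := by
  have a1 : Measurable fun p : ℝ × ℝ => kap s p.1 := k1.comp measurable_fst
  have a2 : Measurable fun p : ℝ × ℝ => sph l p.2 := (sm h3 l).comp measurable_snd
  have a3 : Measurable fun p : ℝ × ℝ => (kap s p.1 : ℂ) := Complex.measurable_ofReal.comp a1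
  exact a3.mul a2

theorem integ (h1 : S_DIST) (h2 : S_BI) (h3 : S_SPH) (h4 : S_KAP) {s : ℝ} (hs : 0 < s) {l : ℂ}
    (hl : |l.im| < 2 * s) {x x₀ : Hs} (hx : 0 < x.2) (hx₀ : 0 < x₀.2) (hne : x ≠ x₀)
    (hD : 0 < dH x x₀) :
    Integrable (fun x' => (kap s (dH x x') : ℂ) * sph l (dH x₀ x')) mu := by
  obtain ⟨k1, k2, k3, k4⟩ := h4 s hs
  set l' : ℂ := l.im * Complex.I with hl'
  set g : ℝ → ℝ := fun r => (sph l' r).re with hg
  set D := dH x x₀ with hDd
  have hsD := Real.sinh_pos_iff.2 hD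
  have hpi := Real.pi_pos
  have hmeas := fm h1 h3 k1 l x x₀
  have hgb : ∀ r, 0 ≤ r → ‖sph l r‖ ≤ g r := by
    intro r hr
    rcases hr.eq_or_lt with rfl | hr
    · rw [sph_zero h3, hg]
      simp [sph_zero h3]
    · exact (h3.2.1 l r hr).1
  have hgm : Measurable g := Complex.measurable_re.comp (sm h3 l')
  refine ⟨hmeas.aestronglyMeasurable, ?_⟩
  have hb1 : ∫⁻ x', ‖(kap s (dH x x') : ℂ) * sph l (dH x₀ x')‖ₑ ∂mu ≤
      ∫⁻ x', ENNReal.ofReal (kap s (dH x x')) * ENNReal.ofReal (g (dH x₀ x')) ∂mu := by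
    refine lintegral_mono_ae ?_
    filter_upwards [mu_pos] with x' hx'
    have q1 := (h1.1 x x' hx hx').2.1
    have q2 := (h1.1 x₀ x' hx₀ hx').2.1
    have q3 := kap_nonneg h4 hs q1
    rw [← ofReal_norm_eq_enorm, norm_mul, Complex.norm_real, Real.norm_eq_abs,
      abs_of_nonneg q3, ENNReal.ofReal_mul q3]
    exact mul_le_mul_right (ENNReal.ofReal_le_ofReal (hgb _ q2)) _
  refine lt_of_le_of_lt hb1 ?_
  rw [h2 x x₀ hx hx₀ hne (fun t => ENNReal.ofReal (kap s t)) (fun r => ENNReal.ofReal (g r))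
    k1.ennreal_ofReal hgm.ennreal_ofReal]
  -- the function of `t`
  have hl'im : |l'.im| < 2 * s := by
    rw [hl']
    simpa using hl
  obtain ⟨i1, -⟩ := k4 l' hl'im
  set c : ℂ := 4 * Real.pi * P l' D / (Real.sinh D : ℂ) with hc
  have i2 := (i1.const_mul c).re
  refine lt_of_le_of_lt ?_ i2.lintegral_lt_top
  refine setLIntegral_mono' measurableSet_Ioi fun t ht => ?_
  have ht0 : 0 < t := ht
  have hst := Real.sinh_pos_iff.2 ht0
  have hk := k2 t ht0
  set C : ℝ := kap s t * (2 * Real.pi * Real.sinh t / Real.sinh D) with hC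
  have hC0 : 0 ≤ C := by positivity
  have e1 : ∫⁻ r in Ioo |D - t| (D + t), ENNReal.ofReal (kap s t) * ENNReal.ofReal (g r) *
        ENNReal.ofReal (2 * Real.pi * Real.sinh t * Real.sinh r / Real.sinh D) =
      ∫⁻ r in Ioo |D - t| (D + t), ENNReal.ofReal (C * (P l' r).re) := by
    refine setLIntegral_congr_fun measurableSet_Ioo fun r hr => ?_
    have hr0 : 0 < r := (abs_nonneg _).trans_lt hr.1
    have hsr := Real.sinh_pos_iff.2 hr0
    have hgr : 0 ≤ g r := (norm_nonneg _).trans (hgb r hr0.le)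
    have hP : (P l' r).re = g r * Real.sinh r := by
      rw [← sph_sinh h3 l' hr0, Complex.re_mul_ofReal]
    show _ = ENNReal.ofReal (C * (P l' r).re)
    rw [← ENNReal.ofReal_mul hk, ← ENNReal.ofReal_mul (mul_nonneg hk hgr), hP, hC]
    congr 1
    ring
  rw [e1]
  have hPc : Continuous fun r => C * (P l' r).re :=
    continuous_const.mul (Complex.continuous_re.comp (P_cont l'))
  have hint : Integrable (fun r => C * (P l' r).re) (volume.restrict (Ioo |D - t| (D + t))) :=
    (hPc.integrableOn_Icc).mono_set Ioo_subset_Icc_self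
  rw [← ofReal_integral_eq_lintegral_ofReal hint (by
    filter_upwards [ae_restrict_mem measurableSet_Ioo] with r hr
    have hr0 : 0 < r := (abs_nonneg _).trans_lt hr.1
    have hP : (P l' r).re = g r * Real.sinh r := by
      rw [← sph_sinh h3 l' hr0, Complex.re_mul_ofReal]
    show 0 ≤ C * (P l' r).re
    rw [hP]
    have := (norm_nonneg _).trans (hgb r hr0.le)
    have := (Real.sinh_pos_iff.2 hr0).le
    positivity)]
  apply ENNReal.ofReal_le_ofReal
  apply le_of_eq
  have e2 : ∫ r in Ioo |D - t| (D + t), (P l' r).re = (2 * P l' D * P l' t).re := by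
    rw [← inner l' hD ht0]
    have hPi : Integrable (P l') (volume.restrict (Ioo |D - t| (D + t))) :=
      ((P_cont l').integrableOn_Icc).mono_set Ioo_subset_Icc_self
    exact integral_re hPi
  rw [integral_const_mul, e2]
  show C * (2 * P l' D * P l' t).re =
    (c * (((kap s t * Real.sinh t ^ 2 : ℝ) : ℂ) * sph l' t)).re
  have e3 : c * (((kap s t * Real.sinh t ^ 2 : ℝ) : ℂ) * sph l' t) =
      (C : ℂ) * (2 * P l' D * P l' t) := by
    rw [← sph_sinh h3 l' ht0, hc, hC]
    push_cast
    have : (Complex.sinh D) ≠ 0 := by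
      rw [← Complex.ofReal_sinh]
      exact_mod_cast hsD.ne'
    field_simp
    ring
  rw [e3, Complex.re_ofReal_mul]

theorem value (h1 : S_DIST) (h2 : S_BI) (h3 : S_SPH) (h4 : S_KAP) {s : ℝ} (hs : 0 < s) {l : ℂ}
    (hl : |l.im| < 2 * s) {x x₀ : Hs} (hx : 0 < x.2) (hx₀ : 0 < x₀.2) (hne : x ≠ x₀)
    (hD : 0 < dH x x₀) :
    ∫ x', (kap s (dH x x') : ℂ) * sph l (dH x₀ x') ∂mu = sec s l * sph l (dH x x₀) := by
  have hI := integ h1 h2 h3 h4 hs hl hx hx₀ hne hD
  obtain ⟨k1, k2, k3, k4⟩ := h4 s hs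
  have hmap := map_eq h1 h2 hx hx₀ hne hD
  set D := dH x x₀ with hDd
  have hsD := Real.sinh_pos_iff.2 hD
  have hsD' : (Complex.sinh D) ≠ 0 := by
    rw [← Complex.ofReal_sinh]
    exact_mod_cast hsD.ne'
  set ff : ℝ × ℝ → ℂ := fun p => (kap s p.1 : ℂ) * sph l p.2 with hff
  have hffm : Measurable ff := ffm h3 k1 l
  have hT := T_meas h1 x x₀
  have hwm : Measurable fun p : ℝ × ℝ => ENNReal.ofReal (wR D p) := (wR_meas D).ennreal_ofReal
  have e1 : ∫ x', (kap s (dH x x') : ℂ) * sph l (dH x₀ x') ∂mu =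
      ∫ p, ff p ∂(mu.map fun x' => (dH x x', dH x₀ x')) :=
    (integral_map hT.aemeasurable hffm.aestronglyMeasurable).symm
  have i1 : Integrable ff (mu.map fun x' => (dH x x', dH x₀ x')) :=
    (integrable_map_measure hffm.aestronglyMeasurable hT.aemeasurable).2 hI
  rw [hmap] at i1
  rw [e1, hmap, integral_withDensity_eq_integral_toReal_smul hwm
    (ae_of_all _ fun _ => ENNReal.ofReal_lt_top)]
  have i2 : Integrable (fun p => (ENNReal.ofReal (wR D p)).toReal • ff p)
      ((volume : Measure ℝ).prod (volume : Measure ℝ)) :=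
    (integrable_withDensity_iff_integrable_smul' hwm
      (ae_of_all _ fun _ => ENNReal.ofReal_lt_top)).1 i1
  rw [integral_prod _ i2]
  set c : ℂ := 4 * Real.pi * P l D / (Real.sinh D : ℂ) with hc
  have e2 : ∀ t : ℝ, ∫ r, (ENNReal.ofReal (wR D (t, r))).toReal • ff (t, r) =
      (Ioi (0 : ℝ)).indicator
        (fun t => c * (((kap s t * Real.sinh t ^ 2 : ℝ) : ℂ) * sph l t)) t := by
    intro t
    by_cases ht : t ∈ Ioi (0 : ℝ)
    · have ht0 : 0 < t := ht
      rw [indicator_of_mem ht]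
      set C : ℂ := kap s t * (2 * Real.pi * Real.sinh t / Real.sinh D) with hC
      have e3 : ∀ r : ℝ, (ENNReal.ofReal (wR D (t, r))).toReal • ff (t, r) =
          (Ioo |D - t| (D + t)).indicator (fun r => C * P l r) r := by
        intro r
        rw [ENNReal.toReal_ofReal (wR_nonneg hD _)]
        by_cases hr : r ∈ Ioo |D - t| (D + t)
        · have hB : (t, r) ∈ BB D := ⟨ht0, hr.1, hr.2⟩
          have hr0 : 0 < r := (abs_nonneg _).trans_lt hr.1
          rw [indicator_of_mem hr, wR_of hB, ← sph_sinh h3 l hr0, hff, hC, Complex.real_smul]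
          push_cast
          ring
        · have hB : (t, r) ∉ BB D := fun h => hr ⟨h.2.1, h.2.2⟩
          rw [indicator_of_notMem hr, wR_not hB, zero_smul]
      simp only [e3]
      rw [integral_indicator measurableSet_Ioo, integral_const_mul, inner l hD ht0,
        ← sph_sinh h3 l ht0, hc, hC]
      push_cast
      field_simp
      ring
    · rw [indicator_of_notMem ht]
      have e3 : ∀ r : ℝ, (ENNReal.ofReal (wR D (t, r))).toReal • ff (t, r) = 0 := by
        intro r
        have hB : (t, r) ∉ BB D := fun h => ht h.1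
        rw [wR_not hB, ENNReal.ofReal_zero, ENNReal.toReal_zero, zero_smul]
      simp only [e3, integral_zero]
  simp only [e2]
  rw [integral_indicator measurableSet_Ioi, integral_const_mul, ← (k4 l hl).2,
    ← sph_sinh h3 l hD] at *
  rw [hc]
  push_cast
  field_simp

end EIG

open EIG in
/-- **EIG**: spherical functions are eigenfunctions -/
theorem t_EIG (h1 : S_DIST) (h2 : S_BI) (h3 : S_SPH) (h4 : S_KAP) : S_EIG := by
  intro s hs l hl x x₀ hx hx₀ hne
  obtain ⟨q1, q2, q3, q4, q5⟩ := h1.1 x x₀ hx hx₀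
  have hD : 0 < dH x x₀ := lt_of_le_of_ne q2 fun h => hne (q5 h.symm)
  refine ⟨integ h1 h2 h3 h4 hs hl hx hx₀ hne hD, ?_⟩
  rw [value h1 h2 h3 h4 hs hl hx hx₀ hne hD, q4]

end

end Pool.Agent.N46.HM
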