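import Pool.Agent.N46.HM.Stm

/-!
Project HM (helper46), part EST: the `L^p` norm of a wave packet on the line `ℝ + i s` (helper353).
-/

set_option autoImplicit false

open MeasureTheory Set Filter
open scoped ENNReal Topology ComplexConjugate

namespace Pool.Agent.N46.HM

noncomputable section

namespace EST

/-- the Fourier integral -/
def Fc (c : ℝ → ℂ) (t : ℝ) : ℂ := ∫ ξ : ℝ, c ξ * Complex.exp (Complex.I * ((t * ξ : ℝ) : ℂ))

theorem Fc_meas {c : ℝ → ℂ} (hc : Continuous c) : Measurable (Fc c) := by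
  have h : StronglyMeasurable (fun q : ℝ × ℝ =>
      c q.2 * Complex.exp (Complex.I * ((q.1 * q.2 : ℝ) : ℂ))) := by
    apply Continuous.stronglyMeasurable
    fun_prop
  exact (h.integral_prod_right' (ν := volume)).measurable

theorem GG_meas (h3 : S_SPH) {a : ℝ → ℂ} (ha : Continuous a) (z : ℂ) : Measurable (GG a z) := by
  have hm : Measurable (fun q : ℂ × ℝ => sph q.1 q.2) := h3.2.2.2.2
  have h0 : Measurable (fun q : ℝ × ℝ => (((q.2 : ℂ) + z, q.1) : ℂ × ℝ)) := by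
    have h00 : Measurable (fun q : ℝ × ℝ => (q.2 : ℂ)) :=
      Complex.measurable_ofReal.comp measurable_snd
    exact (h00.add_const z).prodMk measurable_fst
  have h1 : Measurable (fun q : ℝ × ℝ => sph ((q.2 : ℂ) + z) q.1) := by
    have h11 := hm.comp h0
    simp only [Function.comp_def] at h11
    exact h11
  have h2 : Measurable (fun q : ℝ × ℝ => a q.2) := ha.measurable.comp measurable_snd
  have h : StronglyMeasurable (fun q : ℝ × ℝ => a q.2 * sph ((q.2 : ℂ) + z) q.1) :=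
    (h2.mul h1).stronglyMeasurable
  exact (h.integral_prod_right' (ν := volume)).measurable

/-- small `t` -/
theorem GG_small {s : ℝ} (hs : 0 < s) (hs1 : s < 1) {a : ℝ → ℂ} (ha : Continuous a)
    (hac : HasCompactSupport a) {M : ℝ} (hM : ∀ t, ‖Fc a t‖ ≤ M) {t : ℝ} (ht : 0 < t)
    (ht1 : t ≤ 1) : ‖GG a (s * Complex.I) t‖ ≤ Real.exp 1 * M := by
  have hai : Integrable a := ha.integrable_of_hasCompactSupport hac
  have hM0 : 0 ≤ M := (norm_nonneg _).trans (hM 0)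
  have hsh : 0 < Real.sinh t := Real.sinh_pos_iff.2 ht
  have e1 : GG a (s * Complex.I) t = (∫ ξ : ℝ, ∫ r in (-t)..t,
      a ξ * Complex.exp (-(Complex.I * (ξ + s * Complex.I) * r))) / (2 * Real.sinh t) := by
    unfold GG sph
    rw [← integral_div]
    congr 1
    funext ξ
    rw [intervalIntegral.integral_const_mul, mul_div_assoc]
  have e2 : ∫ ξ : ℝ, ∫ r in (-t)..t,
      a ξ * Complex.exp (-(Complex.I * (ξ + s * Complex.I) * r)) =
      ∫ r in (-t)..t, ∫ ξ : ℝ, a ξ * Complex.exp (-(Complex.I * (ξ + s * Complex.I) * r)) := by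
    simp only [intervalIntegral.integral_of_le (by linarith : -t ≤ t)]
    apply integral_integral_swap
    have hexp : Integrable (fun r : ℝ => Real.exp (s * r)) (volume.restrict (Ioc (-t) t)) :=
      (by fun_prop : Continuous fun r : ℝ => Real.exp (s * r)).integrableOn_Ioc
    refine Integrable.mono' (hai.norm.mul_prod hexp) ?_ ?_
    · apply Continuous.aestronglyMeasurable
      simp only [Function.uncurry_def]
      fun_prop
    · refine Eventually.of_forall fun q => ?_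
      simp only [Function.uncurry_def]
      rw [norm_mul, Complex.norm_exp]
      apply le_of_eq
      congr 2
      simp
  have e3 : ∀ r : ℝ, ∫ ξ : ℝ, a ξ * Complex.exp (-(Complex.I * (ξ + s * Complex.I) * r)) =
      (Real.exp (s * r) : ℂ) * Fc a (-r) := by
    intro r
    unfold Fc
    rw [← integral_const_mul]
    congr 1
    funext ξ
    have : Complex.exp (-(Complex.I * (ξ + s * Complex.I) * r)) =
        (Real.exp (s * r) : ℂ) * Complex.exp (Complex.I * ((-r * ξ : ℝ) : ℂ)) := by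
      rw [Complex.ofReal_exp, ← Complex.exp_add]
      congr 1
      push_cast
      linear_combination (-(s : ℂ) * r) * Complex.I_mul_I
    rw [this]
    ring
  have e4 : ‖∫ r in (-t)..t, ∫ ξ : ℝ,
      a ξ * Complex.exp (-(Complex.I * (ξ + s * Complex.I) * r))‖ ≤
      (Real.exp 1 * M) * |t - -t| := by
    apply intervalIntegral.norm_integral_le_of_norm_le_const
    intro r hr
    rw [Set.uIoc_of_le (by linarith)] at hr
    rw [e3, norm_mul, Complex.norm_real, Real.norm_eq_abs, abs_of_pos (Real.exp_pos _)]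
    refine mul_le_mul (Real.exp_le_exp.2 ?_) (hM _) (norm_nonneg _) (Real.exp_pos _).le
    nlinarith [hr.2]
  rw [e1, e2, norm_div]
  have e5 : ‖(2 * (Real.sinh t : ℂ))‖ = 2 * Real.sinh t := by
    rw [norm_mul, Complex.norm_real, Real.norm_eq_abs, abs_of_pos hsh]
    simp
  rw [e5, div_le_iff₀ (by positivity)]
  refine e4.trans ?_
  have e6 : |t - -t| = 2 * t := by
    rw [abs_of_pos (by linarith)]
    ring
  rw [e6]
  have e7 : t ≤ Real.sinh t := Real.self_le_sinh_iff.2 ht.le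
  have e8 : 0 ≤ Real.exp 1 * M := mul_nonneg (Real.exp_pos _).le hM0
  nlinarith

/-- large `t` -/
theorem GG_large (h3 : S_SPH) {s : ℝ} (hs : 0 < s) {a : ℝ → ℂ} {c : ℝ → ℂ}
    (hcd : ∀ ξ : ℝ, c ξ = a ξ / (ξ + s * Complex.I)) (hc : Continuous c)
    (hcc : HasCompactSupport c) {t : ℝ} (ht : 1 ≤ t) :
    ‖GG a (s * Complex.I) t‖ ≤ 2 * Real.exp ((s - 1) * t) * (‖Fc c t‖ + ‖Fc c (-t)‖) := by
  obtain ⟨hsph, -⟩ := h3
  have hsh : 0 < Real.sinh t := Real.sinh_pos_iff.2 (by linarith)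
  have hne : ∀ ξ : ℝ, (ξ : ℂ) + s * Complex.I ≠ 0 := by
    intro ξ h
    have := congrArg Complex.im h
    simp at this
    linarith
  have hint : ∀ u : ℝ, Integrable fun ξ : ℝ =>
      c ξ * Complex.exp (Complex.I * ((u * ξ : ℝ) : ℂ)) := by
    intro u
    apply Continuous.integrable_of_hasCompactSupport
    · fun_prop
    · exact hcc.mul_right
  have hshc : (Real.sinh t : ℂ) ≠ 0 := by exact_mod_cast hsh.ne'
  have e1 : GG a (s * Complex.I) t = (Complex.I / (2 * Real.sinh t)) *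
      ((Real.exp (s * t) : ℂ) * Fc c (-t) - (Real.exp (-(s * t)) : ℂ) * Fc c t) := by
    unfold GG Fc
    rw [← integral_const_mul, ← integral_const_mul, ← integral_sub
      ((hint (-t)).const_mul _) ((hint t).const_mul _), ← integral_const_mul]
    congr 1
    funext ξ
    rw [hsph _ _ (hne ξ), hcd ξ, Complex.sin]
    have f1 : Complex.exp (-((ξ + s * Complex.I) * t) * Complex.I) =
        (Real.exp (s * t) : ℂ) * Complex.exp (Complex.I * ((-t * ξ : ℝ) : ℂ)) := by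
      rw [Complex.ofReal_exp, ← Complex.exp_add]
      congr 1
      push_cast
      linear_combination (-(s : ℂ) * t) * Complex.I_mul_I
    have f2 : Complex.exp ((ξ + s * Complex.I) * t * Complex.I) =
        (Real.exp (-(s * t)) : ℂ) * Complex.exp (Complex.I * ((t * ξ : ℝ) : ℂ)) := by
      rw [Complex.ofReal_exp, ← Complex.exp_add]
      congr 1
      push_cast
      linear_combination ((s : ℂ) * t) * Complex.I_mul_I
    rw [f1, f2]
    have := hne ξ
    field_simp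
  rw [e1, norm_mul]
  have e5 : ‖Complex.I / (2 * (Real.sinh t : ℂ))‖ = 1 / (2 * Real.sinh t) := by
    rw [norm_div, norm_mul, Complex.norm_real, Real.norm_eq_abs, abs_of_pos hsh]
    simp
  rw [e5]
  have e6 : ‖(Real.exp (s * t) : ℂ) * Fc c (-t) - (Real.exp (-(s * t)) : ℂ) * Fc c t‖ ≤
      Real.exp (s * t) * (‖Fc c t‖ + ‖Fc c (-t)‖) := by
    refine (norm_sub_le _ _).trans ?_
    rw [norm_mul, norm_mul, Complex.norm_real, Complex.norm_real, Real.norm_eq_abs,
      Real.norm_eq_abs, abs_of_pos (Real.exp_pos _), abs_of_pos (Real.exp_pos _)]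
    have h1 : Real.exp (-(s * t)) ≤ Real.exp (s * t) := by
      apply Real.exp_le_exp.2
      nlinarith
    have h2 := mul_le_mul_of_nonneg_right h1 (norm_nonneg (Fc c t))
    linarith
  have e7 : 1 / (2 * Real.sinh t) ≤ 2 * Real.exp (-t) := by
    rw [div_le_iff₀ (by positivity)]
    have h1 : Real.sinh t = (Real.exp t - Real.exp (-t)) / 2 := Real.sinh_eq t
    have h2 : Real.exp (-t) * Real.exp t = 1 := by
      rw [← Real.exp_add]
      simp
    have h3 : Real.exp (-t) ≤ 1 / 2 := by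
      have h4 : Real.exp (-t) ≤ Real.exp (-1) := Real.exp_le_exp.2 (by linarith)
      have h5 := Real.exp_neg_one_lt_half
      linarith
    have h6 := Real.exp_pos (-t)
    rw [h1]
    nlinarith
  calc 1 / (2 * Real.sinh t) *
        ‖(Real.exp (s * t) : ℂ) * Fc c (-t) - (Real.exp (-(s * t)) : ℂ) * Fc c t‖
      ≤ (2 * Real.exp (-t)) * (Real.exp (s * t) * (‖Fc c t‖ + ‖Fc c (-t)‖)) :=
        mul_le_mul e7 e6 (norm_nonneg _) (by positivity)
    _ = 2 * (Real.exp (-t) * Real.exp (s * t)) * (‖Fc c t‖ + ‖Fc c (-t)‖) := by ring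
    _ = 2 * Real.exp ((s - 1) * t) * (‖Fc c t‖ + ‖Fc c (-t)‖) := by
        rw [← Real.exp_add]
        congr 3
        ring

/-- powers -/
theorem pow_sum {p x y M : ℝ} (hp : 2 < p) (hx : 0 ≤ x) (hy : 0 ≤ y) (hxM : x ≤ M) (hyM : y ≤ M) :
    (x + y) ^ p ≤ 2 ^ p * (M ^ (p - 2) * (x ^ 2 + y ^ 2)) := by
  have h1 : ∀ u : ℝ, 0 ≤ u → u ≤ M → u ^ p ≤ M ^ (p - 2) * u ^ 2 := by
    intro u hu huM
    have e : u ^ p = u ^ (p - 2) * u ^ 2 := by
      have h2 := Real.rpow_add_of_nonneg hu (by linarith : 0 ≤ p - 2) (by norm_num : (0 : ℝ) ≤ 2)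
      rw [sub_add_cancel] at h2
      rw [h2]
      norm_num
    rw [e]
    exact mul_le_mul_of_nonneg_right (Real.rpow_le_rpow hu huM (by linarith)) (sq_nonneg u)
  have h2 : (x + y) ^ p ≤ (2 * max x y) ^ p := by
    apply Real.rpow_le_rpow (by positivity) _ (by linarith)
    linarith [le_max_left x y, le_max_right x y]
  rw [Real.mul_rpow (by norm_num) (le_max_of_le_left hx)] at h2
  refine h2.trans (mul_le_mul_of_nonneg_left ?_ (by positivity))
  have hM0 : 0 ≤ M := hx.trans hxM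
  have h3 := h1 x hx hxM
  have h4 := h1 y hy hyM
  have h5 : 0 ≤ M ^ (p - 2) * x ^ 2 := by positivity
  have h6 : 0 ≤ M ^ (p - 2) * y ^ 2 := by positivity
  rcases max_cases x y with ⟨h, -⟩ | ⟨h, -⟩
  · rw [h, mul_add]
    linarith
  · rw [h, mul_add]
    linarith

/-- the pointwise bound -/
theorem point (h3 : S_SPH) {s p : ℝ} (hs : 0 < s) (hs1 : s < 1) (hp : 2 < p)
    (hsp : (s - 1) * p = -2) {a : ℝ → ℂ} (ha : Continuous a) (hac : HasCompactSupport a)
    {c : ℝ → ℂ} (hcd : ∀ ξ : ℝ, c ξ = a ξ / (ξ + s * Complex.I)) (hc : Continuous c)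
    (hcc : HasCompactSupport c) {M : ℝ} (hM0 : 0 < M) (hM : ∀ t, ‖Fc a t‖ ≤ M)
    (hM2 : ∀ t, ‖Fc c t‖ ≤ M) {t : ℝ} (ht : 0 < t) :
    ‖GG a (s * Complex.I) t‖ ^ p * (4 * Real.pi * Real.sinh t ^ 2) ≤
      (if t ≤ 1 then 4 * Real.pi * Real.sinh 1 ^ 2 * (Real.exp 1 * M) ^ p else 0) +
      4 * Real.pi * 4 ^ p * M ^ (p - 2) * (‖Fc c t‖ ^ 2 + ‖Fc c (-t)‖ ^ 2) := by
  have hpi := Real.pi_pos
  have hsh : 0 < Real.sinh t := Real.sinh_pos_iff.2 ht
  have hn : 0 ≤ 4 * Real.pi * 4 ^ p * M ^ (p - 2) * (‖Fc c t‖ ^ 2 + ‖Fc c (-t)‖ ^ 2) := by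
    positivity
  split_ifs with h1
  · have h2 := GG_small hs hs1 ha hac hM ht h1
    have h4 : ‖GG a (s * Complex.I) t‖ ^ p ≤ (Real.exp 1 * M) ^ p :=
      Real.rpow_le_rpow (norm_nonneg _) h2 (by linarith)
    have h5 : Real.sinh t ^ 2 ≤ Real.sinh 1 ^ 2 :=
      pow_le_pow_left₀ hsh.le (Real.sinh_le_sinh.2 h1) 2
    have h6 : ‖GG a (s * Complex.I) t‖ ^ p * (4 * Real.pi * Real.sinh t ^ 2) ≤
        (Real.exp 1 * M) ^ p * (4 * Real.pi * Real.sinh 1 ^ 2) := by
      gcongr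
    linarith
  · rw [zero_add]
    have h2 := GG_large h3 hs hcd hc hcc (not_le.1 h1).le
    have h4 : ‖GG a (s * Complex.I) t‖ ^ p ≤
        (2 * Real.exp ((s - 1) * t) * (‖Fc c t‖ + ‖Fc c (-t)‖)) ^ p :=
      Real.rpow_le_rpow (norm_nonneg _) h2 (by linarith)
    have h5 : (2 * Real.exp ((s - 1) * t) * (‖Fc c t‖ + ‖Fc c (-t)‖)) ^ p =
        2 ^ p * Real.exp (-(2 * t)) * (‖Fc c t‖ + ‖Fc c (-t)‖) ^ p := by
      rw [Real.mul_rpow (by positivity) (by positivity),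
        Real.mul_rpow (by norm_num) (Real.exp_pos _).le, ← Real.exp_mul]
      congr 3
      linear_combination t * hsp
    have h6 := pow_sum hp (norm_nonneg (Fc c t)) (norm_nonneg (Fc c (-t))) (hM2 t) (hM2 (-t))
    have h7 : Real.sinh t ^ 2 ≤ Real.exp (2 * t) := by
      have e1 : Real.sinh t ≤ Real.exp t := by
        rw [Real.sinh_eq]
        linarith [Real.exp_pos t, Real.exp_pos (-t)]
      have e2 : Real.exp (2 * t) = Real.exp t ^ 2 := by
        rw [← Real.exp_nat_mul]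
        norm_num
      rw [e2]
      exact pow_le_pow_left₀ hsh.le e1 2
    have h8 : Real.exp (-(2 * t)) * Real.exp (2 * t) = 1 := by
      rw [← Real.exp_add]
      simp
    have h9 : (2 : ℝ) ^ p * 2 ^ p = 4 ^ p := by
      rw [← Real.mul_rpow (by norm_num) (by norm_num)]
      norm_num
    calc ‖GG a (s * Complex.I) t‖ ^ p * (4 * Real.pi * Real.sinh t ^ 2)
        ≤ (2 ^ p * Real.exp (-(2 * t)) * (‖Fc c t‖ + ‖Fc c (-t)‖) ^ p) *
          (4 * Real.pi * Real.exp (2 * t)) := by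
          rw [← h5]
          gcongr
      _ = 4 * Real.pi * 2 ^ p * (Real.exp (-(2 * t)) * Real.exp (2 * t)) *
          (‖Fc c t‖ + ‖Fc c (-t)‖) ^ p := by ring
      _ ≤ 4 * Real.pi * 2 ^ p * (Real.exp (-(2 * t)) * Real.exp (2 * t)) *
          (2 ^ p * (M ^ (p - 2) * (‖Fc c t‖ ^ 2 + ‖Fc c (-t)‖ ^ 2))) := by
          gcongr
      _ = 4 * Real.pi * (2 ^ p * 2 ^ p) * M ^ (p - 2) * (‖Fc c t‖ ^ 2 + ‖Fc c (-t)‖ ^ 2) := by
          rw [h8]
          ring
      _ = _ := by rw [h9]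

theorem inner_int {t : ℝ} (ht : 0 < t) :
    ∫⁻ r in Ioo (-t) t, ENNReal.ofReal (2 * Real.pi * Real.sinh t * Real.exp (-r)) =
      ENNReal.ofReal (4 * Real.pi * Real.sinh t ^ 2) := by
  have hpi := Real.pi_pos
  have hsh : 0 < Real.sinh t := Real.sinh_pos_iff.2 ht
  have hI : IntegrableOn (fun r : ℝ => 2 * Real.pi * Real.sinh t * Real.exp (-r)) (Ioo (-t) t) :=
    ((by fun_prop : Continuous fun r : ℝ =>
      2 * Real.pi * Real.sinh t * Real.exp (-r)).integrableOn_Icc).mono_set Ioo_subset_Icc_self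
  rw [← ofReal_integral_eq_lintegral_ofReal hI
    (Eventually.of_forall fun r => by positivity)]
  congr 1
  rw [← integral_Ioc_eq_integral_Ioo, ← intervalIntegral.integral_of_le (by linarith),
    intervalIntegral.integral_const_mul]
  have h1 : ∫ r in (-t)..t, Real.exp (-r) = 2 * Real.sinh t := by
    rw [intervalIntegral.integral_comp_neg (fun r => Real.exp r), integral_exp, Real.sinh_eq]
    ring_nf
  rw [h1]
  ring

end EST

open Pool.Agent.N46.HM.EST in
theorem t_EST (h1 : S_DIST) (h2 : S_RAD) (h3 : S_SPH) (h4 : S_PLA) : S_EST := by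
  intro s hs hs1
  have hpi := Real.pi_pos
  obtain ⟨p, hp⟩ : ∃ p, p = 2 / (1 - s) := ⟨_, rfl⟩
  rw [← hp]
  have h1s : 0 < 1 - s := by linarith
  have hp2 : 2 < p := by
    rw [hp, lt_div_iff₀ h1s]
    linarith
  have hsp : (s - 1) * p = -2 := by
    rw [hp]
    field_simp
    ring
  have hp0 : 0 ≤ p := by linarith
  have hsh1 : 0 < Real.sinh 1 := Real.sinh_pos_iff.2 one_pos
  refine ⟨4 * Real.pi * Real.sinh 1 ^ 2 * Real.exp 1 ^ p + 16 * Real.pi ^ 2 * 4 ^ p,
    by positivity, ?_⟩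
  intro a ha hac M hM0 hM hM2 x₀ hx₀
  obtain ⟨c, hcd⟩ : ∃ c : ℝ → ℂ, c = fun ξ : ℝ => a ξ / (ξ + s * Complex.I) := ⟨_, rfl⟩
  have hcd' : ∀ ξ : ℝ, c ξ = a ξ / (ξ + s * Complex.I) := fun ξ => by rw [hcd]
  have hne : ∀ ξ : ℝ, (ξ : ℂ) + s * Complex.I ≠ 0 := by
    intro ξ h
    have := congrArg Complex.im h
    simp at this
    linarith
  have hc : Continuous c := by
    rw [hcd]
    exact ha.div (by fun_prop) hne
  have hcc : HasCompactSupport c := by
    have e : c = fun ξ => a ξ * ((ξ : ℂ) + s * Complex.I)⁻¹ := by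
      rw [hcd]
      funext ξ
      rw [div_eq_mul_inv]
    rw [e]
    exact hac.mul_right
  have hM' : ∀ t, ‖Fc a t‖ ≤ M := hM
  have hM2' : ∀ t, ‖Fc c t‖ ≤ M := by
    rw [hcd]
    exact hM2
  have hJ : ∫ ξ : ℝ, ‖a ξ / (ξ + s * Complex.I)‖ ^ 2 = ∫ ξ : ℝ, ‖c ξ‖ ^ 2 := by rw [hcd]
  rw [hJ]
  obtain ⟨J, hJd⟩ : ∃ J, J = ∫ ξ : ℝ, ‖c ξ‖ ^ 2 := ⟨_, rfl⟩
  have hJ0 : 0 ≤ J := by
    rw [hJd]
    exact integral_nonneg fun ξ => by positivity
  have hPla : ∫⁻ t : ℝ, (‖Fc c t‖ₑ) ^ 2 ≤ ENNReal.ofReal (2 * Real.pi * J) := by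
    rw [hJd]
    exact h4 c hc hcc
  rw [← hJd]
  have hGm := GG_meas h3 ha (s * Complex.I)
  have hFm := Fc_meas hc
  have hRad := h2 x₀ hx₀ (fun t => (‖GG a (s * Complex.I) t‖ₑ) ^ p) (fun _ => 1)
    (hGm.enorm.pow_const p) measurable_const
  simp only [mul_one] at hRad
  rw [hRad]
  obtain ⟨A, hA⟩ : ∃ A, A = 4 * Real.pi * Real.sinh 1 ^ 2 * (Real.exp 1 * M) ^ p := ⟨_, rfl⟩
  obtain ⟨B, hB⟩ : ∃ B, B = 4 * Real.pi * 4 ^ p * M ^ (p - 2) := ⟨_, rfl⟩
  have hA0 : 0 ≤ A := by rw [hA]; positivity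
  have hB0 : 0 ≤ B := by rw [hB]; positivity
  have hpt : ∀ t ∈ Ioi (0 : ℝ), ∫⁻ r in Ioo (-t) t, (‖GG a (s * Complex.I) t‖ₑ) ^ p *
      ENNReal.ofReal (2 * Real.pi * Real.sinh t * Real.exp (-r)) ≤
      (Iic (1 : ℝ)).indicator (fun _ => ENNReal.ofReal A) t +
        ENNReal.ofReal B * ((‖Fc c t‖ₑ) ^ 2 + (‖Fc c (-t)‖ₑ) ^ 2) := by
    intro t ht
    have ht0 : 0 < t := ht
    rw [lintegral_const_mul _ (by fun_prop), inner_int ht0]
    have e1 : (‖GG a (s * Complex.I) t‖ₑ) ^ p = ENNReal.ofReal (‖GG a (s * Complex.I) t‖ ^ p) := by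
      rw [← ofReal_norm, ENNReal.ofReal_rpow_of_nonneg (norm_nonneg _) hp0]
    have e2 : ∀ u : ℝ, (‖Fc c u‖ₑ) ^ 2 = ENNReal.ofReal (‖Fc c u‖ ^ 2) := by
      intro u
      rw [← ofReal_norm, ENNReal.ofReal_pow (norm_nonneg _)]
    have e3 : (Iic (1 : ℝ)).indicator (fun _ => ENNReal.ofReal A) t =
        ENNReal.ofReal (if t ≤ 1 then A else 0) := by
      by_cases h : t ≤ 1
      · rw [indicator_of_mem (by exact h), if_pos h]
      · rw [indicator_of_notMem (by exact h), if_neg h, ENNReal.ofReal_zero]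
    rw [e1, e2, e2, e3, ← ENNReal.ofReal_mul (by positivity),
      ← ENNReal.ofReal_add (by positivity) (by positivity), ← ENNReal.ofReal_mul hB0,
      ← ENNReal.ofReal_add (by split_ifs <;> positivity) (by positivity)]
    apply ENNReal.ofReal_le_ofReal
    rw [hA, hB]
    exact point h3 hs hs1 hp2 hsp ha hac hcd' hc hcc hM0 hM' hM2' ht0
  refine (setLIntegral_mono' measurableSet_Ioi hpt).trans ?_
  have hm1 : Measurable ((Iic (1 : ℝ)).indicator (fun _ : ℝ => ENNReal.ofReal A)) :=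
    measurable_const.indicator measurableSet_Iic
  rw [lintegral_add_left hm1, lintegral_indicator_const measurableSet_Iic,
    Measure.restrict_apply measurableSet_Iic]
  have hvol : volume (Iic (1 : ℝ) ∩ Ioi 0) = 1 := by
    rw [inter_comm, Ioi_inter_Iic, Real.volume_Ioc]
    norm_num
  rw [hvol, mul_one]
  have hm2 : Measurable fun t : ℝ => (‖Fc c t‖ₑ) ^ 2 := hFm.enorm.pow_const 2
  have hm3 : Measurable fun t : ℝ => (‖Fc c (-t)‖ₑ) ^ 2 := hm2.comp measurable_neg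
  have hsec : ∫⁻ t in Ioi (0 : ℝ), ENNReal.ofReal B * ((‖Fc c t‖ₑ) ^ 2 + (‖Fc c (-t)‖ₑ) ^ 2) ≤
      ENNReal.ofReal B * (ENNReal.ofReal (2 * Real.pi * J) + ENNReal.ofReal (2 * Real.pi * J)) := by
    have hm4 : Measurable fun t : ℝ => (‖Fc c t‖ₑ) ^ 2 + (‖Fc c (-t)‖ₑ) ^ 2 := hm2.add hm3
    rw [lintegral_const_mul _ hm4]
    gcongr
    refine (setLIntegral_le_lintegral _ _).trans ?_
    rw [lintegral_add_left hm2, lintegral_neg_eq_self (fun t : ℝ => (‖Fc c t‖ₑ) ^ 2)]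
    gcongr
  refine (add_le_add le_rfl hsec).trans ?_
  rw [← ENNReal.ofReal_add (by positivity) (by positivity), ← ENNReal.ofReal_mul hB0,
    ← ENNReal.ofReal_add hA0 (by positivity)]
  apply ENNReal.ofReal_le_ofReal
  rw [hA, hB, Real.mul_rpow (Real.exp_pos _).le hM0.le]
  have hMp : 0 ≤ M ^ p := by positivity
  have hMp2 : 0 ≤ M ^ (p - 2) * J := by positivity
  have f1 : 0 ≤ 16 * Real.pi ^ 2 * 4 ^ p * M ^ p := by positivity
  have f2 : 0 ≤ 4 * Real.pi * Real.sinh 1 ^ 2 * Real.exp 1 ^ p * (M ^ (p - 2) * J) := by positivity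
  nlinarith

end

end Pool.Agent.N46.HM
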