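import Pool.Agent.N46.HM.Stm

/-!
# EUC: hyperbolic balls are Euclidean balls
-/

set_option autoImplicit false

open Set

namespace Pool.Agent.N46.HM

namespace EUC

/-- the comparison of the two inequalities -/
theorem key (A c y y0 R : ℝ) (hy : 0 < y) (hy0 : 0 < y0) (h0 : y0 ^ 2 = c ^ 2 - R ^ 2) :
    1 + (A + (y0 - y) ^ 2) / (2 * y0 * y) ≤ c / y0 ↔ A + (y - c) ^ 2 ≤ R ^ 2 := by
  have h1 : c / y0 - (1 + (A + (y0 - y) ^ 2) / (2 * y0 * y)) =
      (R ^ 2 - (A + (y - c) ^ 2)) / (2 * y0 * y) := by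
    have h2 : y0 ≠ 0 := hy0.ne'
    have h3 : y ≠ 0 := hy.ne'
    field_simp
    linear_combination (-1 : ℝ) * h0
  have h4 : 0 < 2 * y0 * y := by positivity
  rw [← sub_nonneg, h1, ← sub_nonneg (b := A + (y - c) ^ 2)]
  constructor
  · intro h
    have h5 := mul_nonneg h h4.le
    rwa [div_mul_cancel₀ _ h4.ne'] at h5
  · intro h
    exact div_nonneg h h4.le

/-- the height of a point of a Euclidean ball -/
theorem pos_of_mem (A c y R : ℝ) (hA : 0 ≤ A) (hR : 0 < R) (hc : R < c)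
    (h : A + (y - c) ^ 2 ≤ R ^ 2) : 0 < y := by
  have h1 : (y - c) ^ 2 ≤ R ^ 2 := by linarith
  have h2 : |y - c| ≤ R := abs_le_of_sq_le_sq h1 hR.le
  have h3 := (abs_le.1 h2).1
  linarith

end EUC

theorem t_EUC (h : S_DIST) : S_EUC := by
  intro c R hR hRc
  have hc : 0 < c.2 := hR.trans hRc
  have hpos : 0 < c.2 ^ 2 - R ^ 2 := by nlinarith
  obtain ⟨y0, hy0def⟩ : ∃ y0, y0 = √(c.2 ^ 2 - R ^ 2) := ⟨_, rfl⟩
  have hy0 : 0 < y0 := hy0def ▸ Real.sqrt_pos.2 hpos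
  have hsq : y0 ^ 2 = c.2 ^ 2 - R ^ 2 := by rw [hy0def, Real.sq_sqrt hpos.le]
  have hr : 0 < Real.arsinh (R / y0) := Real.arsinh_pos_iff.2 (by positivity)
  have hcosh : Real.cosh (Real.arsinh (R / y0)) = c.2 / y0 := by
    have h1 : Real.cosh (Real.arsinh (R / y0)) ^ 2 = (c.2 / y0) ^ 2 := by
      rw [Real.cosh_sq, Real.sinh_arsinh]
      have h2 : y0 ≠ 0 := hy0.ne'
      field_simp
      linear_combination hsq
    exact (sq_eq_sq₀ (Real.cosh_pos _).le (by positivity)).1 h1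
  refine ⟨(c.1, y0), Real.arsinh (R / y0), hy0, hr, ?_⟩
  ext x
  simp only [Set.mem_ofPred_eq]
  have key : ∀ hx : 0 < x.2, dH (c.1, y0) x ≤ Real.arsinh (R / y0) ↔
      ‖x.1 - c.1‖ ^ 2 + (x.2 - c.2) ^ 2 ≤ R ^ 2 := by
    intro hx
    obtain ⟨-, hd0, hd, -, -⟩ := h.1 (c.1, y0) x hy0 hx
    have h1 : dH (c.1, y0) x ≤ Real.arsinh (R / y0) ↔
        Real.cosh (dH (c.1, y0) x) ≤ Real.cosh (Real.arsinh (R / y0)) := by
      rw [Real.cosh_le_cosh, abs_of_nonneg hd0, abs_of_nonneg hr.le]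
    rw [h1, hd, hcosh]
    unfold ch
    simp only
    rw [norm_sub_rev c.1 x.1]
    exact EUC.key _ _ _ _ _ hx hy0 hsq
  constructor
  · intro hx
    have hx2 : 0 < x.2 := EUC.pos_of_mem _ _ _ _ (by positivity) hR hRc hx
    exact ⟨hx2, (key hx2).2 hx⟩
  · rintro ⟨hx2, hx⟩
    exact (key hx2).1 hx

end Pool.Agent.N46.HM
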