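import Mathlib
import Pool.Agent.N46.HM.Stm

/-!
Project HM of helper46, leaf FT: a Fourier transform (helper519).
-/

set_option autoImplicit false

open MeasureTheory Set Filter
open scoped ENNReal Topology ComplexConjugate

namespace Pool.Agent.N46.HM

namespace FT

theorem mem_compl (y : ℂ) (h0 : y.re ≠ 0) (h1 : |y.re| < 1) :
    y ∈ Complex.integerComplement := by
  rw [Complex.mem_integerComplement_iff]
  rintro ⟨n, hn⟩
  rw [← hn, Complex.intCast_re] at h0 h1
  have h2 : |n| < 1 := by exact_mod_cast h1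
  have h3 := Int.abs_lt_one_iff.1 h2
  exact h0 (by rw [h3]; norm_num)

theorem norm_lb (y : ℂ) (ρ : ℝ) (_hρ : ρ < 1) (hρ0 : 0 ≤ ρ) (hy : |y.re| ≤ ρ) (n : ℕ) :
    (1 - ρ) * ((n : ℝ) + 1) ≤ ‖y - ((n : ℂ) + 1)‖ ∧
      (1 - ρ) * ((n : ℝ) + 1) ≤ ‖y + ((n : ℂ) + 1)‖ := by
  obtain ⟨hy1, hy2⟩ := abs_le.1 hy
  have hn : (0 : ℝ) ≤ n := Nat.cast_nonneg n
  constructor
  · have h1 := Complex.abs_re_le_norm (y - ((n : ℂ) + 1))
    have h2 : (y - ((n : ℂ) + 1)).re = y.re - (n + 1) := by simp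
    rw [h2] at h1
    have h3 := neg_abs_le (y.re - ((n : ℝ) + 1))
    nlinarith
  · have h1 := Complex.abs_re_le_norm (y + ((n : ℂ) + 1))
    have h2 : (y + ((n : ℂ) + 1)).re = y.re + (n + 1) := by simp
    rw [h2] at h1
    have h3 := le_abs_self (y.re + ((n : ℝ) + 1))
    nlinarith

theorem summ_sq (c : ℝ) : Summable (fun n : ℕ => c / ((n : ℝ) + 1) ^ 2) := by
  have h1 := (Real.summable_nat_pow_inv (p := 2)).2 (by norm_num)
  have h2 := ((summable_nat_add_iff 1).2 h1).mul_left c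
  refine h2.congr fun n => ?_
  push_cast
  rw [div_eq_mul_inv]

theorem inv_sq_le (w : ℂ) (r : ℝ) (n : ℕ) (hr : 0 < r) (h : r * ((n : ℝ) + 1) ≤ ‖w‖) :
    ‖1 / w ^ 2‖ ≤ (1 / r ^ 2) / ((n : ℝ) + 1) ^ 2 := by
  have hn : (0 : ℝ) < (n : ℝ) + 1 := by positivity
  rw [norm_div, norm_one, norm_pow, div_div, ← mul_pow]
  exact one_div_le_one_div_of_le (by positivity) (pow_le_pow_left₀ (by positivity) h 2)

/-- the series of `π² / sin² (π x)` -/
theorem sin_series (x : ℂ) (h0 : 0 < x.re) (h1 : x.re < 1) :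
    (Real.pi : ℂ) ^ 2 / Complex.sin (Real.pi * x) ^ 2 =
      1 / x ^ 2 + ∑' n : ℕ, (1 / (x - ((n : ℂ) + 1)) ^ 2 + 1 / (x + ((n : ℂ) + 1)) ^ 2) := by
  obtain ⟨ρ, hρ⟩ : ∃ ρ, ρ = (1 + x.re) / 2 := ⟨_, rfl⟩
  have hρ1 : ρ < 1 := by rw [hρ]; linarith
  have hρx : x.re < ρ := by rw [hρ]; linarith
  have hρ0 : 0 < ρ := by linarith
  have hr : 0 < 1 - ρ := by linarith
  have hx : x ∈ Complex.integerComplement := mem_compl x h0.ne' (by rw [abs_of_pos h0]; exact h1)
  -- the derivative of the series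
  have hS : HasDerivAt (fun y : ℂ => ∑' n : ℕ, (1 / (y - ((n : ℂ) + 1)) + 1 / (y + ((n : ℂ) + 1))))
      (∑' n : ℕ, (-1 / (x - ((n : ℂ) + 1)) ^ 2 + -1 / (x + ((n : ℂ) + 1)) ^ 2)) x := by
    have hopen : IsOpen {y : ℂ | -ρ < y.re ∧ y.re < ρ} :=
      (isOpen_lt continuous_const Complex.continuous_re).inter
        (isOpen_lt Complex.continuous_re continuous_const)
    have hconv : Convex ℝ {y : ℂ | -ρ < y.re ∧ y.re < ρ} :=
      (convex_halfSpace_re_gt (-ρ)).inter (convex_halfSpace_re_lt ρ)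
    refine hasDerivAt_tsum_of_isPreconnected (𝕜 := ℂ) (F := ℂ)
      (g := fun (n : ℕ) (y : ℂ) => 1 / (y - ((n : ℂ) + 1)) + 1 / (y + ((n : ℂ) + 1)))
      (g' := fun (n : ℕ) (y : ℂ) => -1 / (y - ((n : ℂ) + 1)) ^ 2 + -1 / (y + ((n : ℂ) + 1)) ^ 2)
      (u := fun n : ℕ => (1 / (1 - ρ) ^ 2 + 1 / (1 - ρ) ^ 2) / ((n : ℝ) + 1) ^ 2)
      (t := {y : ℂ | -ρ < y.re ∧ y.re < ρ}) (y₀ := x)
      (summ_sq _) hopen hconv.isPreconnected ?_ ?_ ⟨by linarith, hρx⟩ ?_ ⟨by linarith, hρx⟩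
    · intro n y hy
      have h2 := norm_lb y ρ hρ1 hρ0.le (abs_le.2 ⟨hy.1.le, hy.2.le⟩) n
      have h3 : 0 < (1 - ρ) * ((n : ℝ) + 1) := by positivity
      have h4 : y - ((n : ℂ) + 1) ≠ 0 := norm_pos_iff.1 (lt_of_lt_of_le h3 h2.1)
      have h5 : y + ((n : ℂ) + 1) ≠ 0 := norm_pos_iff.1 (lt_of_lt_of_le h3 h2.2)
      have h6 := ((hasDerivAt_id y).sub_const ((n : ℂ) + 1)).inv h4
      have h7 := ((hasDerivAt_id y).add_const ((n : ℂ) + 1)).inv h5
      have h8 := h6.add h7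
      simp only [id] at h8
      refine h8.congr_of_eventuallyEq ?_
      filter_upwards with z
      simp [one_div]
    · intro n y hy
      have h2 := norm_lb y ρ hρ1 hρ0.le (abs_le.2 ⟨hy.1.le, hy.2.le⟩) n
      refine (norm_add_le _ _).trans ?_
      have h3 := inv_sq_le _ _ n hr h2.1
      have h4 := inv_sq_le _ _ n hr h2.2
      rw [neg_div, neg_div, norm_neg, norm_neg, add_div]
      exact add_le_add h3 h4
    · exact summable_cotTerm hx
  -- the derivative of the cotangent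
  have hne : Complex.sin (Real.pi * x) ≠ 0 := sin_pi_mul_ne_zero hx
  have hx0 : x ≠ 0 := by
    rintro rfl
    simp at h0
  have hC : HasDerivAt (fun y : ℂ => (Real.pi : ℂ) * (Complex.cos (Real.pi * y) /
      Complex.sin (Real.pi * y)) - y⁻¹)
      (Real.pi * ((-Complex.sin (Real.pi * x) * Real.pi) * Complex.sin (Real.pi * x) -
        Complex.cos (Real.pi * x) * (Complex.cos (Real.pi * x) * Real.pi)) /
        Complex.sin (Real.pi * x) ^ 2 - (-(x ^ 2)⁻¹)) x := by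
    have h2 : HasDerivAt (fun y : ℂ => (Real.pi : ℂ) * y) Real.pi x := by
      simpa using (hasDerivAt_id x).const_mul (Real.pi : ℂ)
    have h3 := ((h2.ccos).div h2.csin hne).const_mul (Real.pi : ℂ)
    have h4 := h3.sub (hasDerivAt_inv hx0)
    refine h4.congr_deriv ?_
    ring
  have hE : (fun y : ℂ => ∑' n : ℕ, (1 / (y - ((n : ℂ) + 1)) + 1 / (y + ((n : ℂ) + 1)))) =ᶠ[𝓝 x]
      (fun y : ℂ => (Real.pi : ℂ) * (Complex.cos (Real.pi * y) /
      Complex.sin (Real.pi * y)) - y⁻¹) := by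
    have hopen : IsOpen {y : ℂ | 0 < y.re ∧ y.re < 1} :=
      (isOpen_lt continuous_const Complex.continuous_re).inter
        (isOpen_lt Complex.continuous_re continuous_const)
    filter_upwards [hopen.mem_nhds (show x ∈ {y : ℂ | 0 < y.re ∧ y.re < 1} from ⟨h0, h1⟩)] with y hy
    have hy' : y ∈ Complex.integerComplement :=
      mem_compl y hy.1.ne' (by rw [abs_of_pos hy.1]; exact hy.2)
    rw [← cot_series_rep' hy', Complex.cot, one_div]
  have hD := (hC.congr_of_eventuallyEq hE).unique hS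
  have h5 : ∑' n : ℕ, (-1 / (x - ((n : ℂ) + 1)) ^ 2 + -1 / (x + ((n : ℂ) + 1)) ^ 2) =
      -∑' n : ℕ, (1 / (x - ((n : ℂ) + 1)) ^ 2 + 1 / (x + ((n : ℂ) + 1)) ^ 2) := by
    rw [← tsum_neg]
    refine tsum_congr fun n => ?_
    ring
  rw [h5] at hD
  have h6 : ∑' n : ℕ, (1 / (x - ((n : ℂ) + 1)) ^ 2 + 1 / (x + ((n : ℂ) + 1)) ^ 2) =
      -(Real.pi * ((-Complex.sin (Real.pi * x) * Real.pi) * Complex.sin (Real.pi * x) -
        Complex.cos (Real.pi * x) * (Complex.cos (Real.pi * x) * Real.pi)) /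
        Complex.sin (Real.pi * x) ^ 2 - (-(x ^ 2)⁻¹)) := by
    rw [hD, neg_neg]
  rw [h6]
  have h7 := Complex.sin_sq_add_cos_sq (Real.pi * x)
  have h8 : Complex.cos (Real.pi * x) ^ 2 = 1 - Complex.sin (Real.pi * x) ^ 2 := by
    rw [← h7]; ring
  field_simp
  linear_combination (-((Real.pi : ℂ) ^ 2 * x ^ 2)) * h7

/-- the integral of `t exp (- z t)` -/
theorem int_te (z : ℂ) (hz : 0 < z.re) :
    IntegrableOn (fun t : ℝ => (t : ℂ) * Complex.exp (-(z * t))) (Ioi 0) ∧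
      ∫ t in Ioi (0 : ℝ), (t : ℂ) * Complex.exp (-(z * t)) = 1 / z ^ 2 ∧
      ∫ t in Ioi (0 : ℝ), ‖(t : ℂ) * Complex.exp (-(z * t))‖ = 1 / z.re ^ 2 := by
  have hz0 : z ≠ 0 := by
    rintro rfl
    simp at hz
  have hR : ∫ t in Ioi (0 : ℝ), t * Real.exp (-(z.re * t)) = 1 / z.re ^ 2 := by
    have h1 := Real.integral_rpow_mul_exp_neg_mul_Ioi (a := 2) (r := z.re) (by norm_num) hz
    have h2 : Real.Gamma 2 = 1 := by norm_num
    rw [h2, mul_one] at h1
    have h3 : (1 / z.re) ^ (2 : ℝ) = 1 / z.re ^ 2 := by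
      rw [show (2 : ℝ) = ((2 : ℕ) : ℝ) by norm_num, Real.rpow_natCast, one_div_pow]
    rw [h3] at h1
    rw [← h1]
    refine setIntegral_congr_fun measurableSet_Ioi fun t _ => ?_
    have h4 : t ^ ((2 : ℝ) - 1) = t := by
      rw [show (2 : ℝ) - 1 = 1 by norm_num, Real.rpow_one]
    simp only [h4]
  have hRI : IntegrableOn (fun t : ℝ => t * Real.exp (-(z.re * t))) (Ioi 0) :=
    Integrable.of_integral_ne_zero (by rw [hR]; positivity)
  have hnorm : ∀ t ∈ Ioi (0 : ℝ), ‖(t : ℂ) * Complex.exp (-(z * t))‖ =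
      t * Real.exp (-(z.re * t)) := by
    intro t ht
    rw [norm_mul, Complex.norm_exp, Complex.norm_real, Real.norm_of_nonneg (le_of_lt ht)]
    congr 2
    simp
  have hI : IntegrableOn (fun t : ℝ => (t : ℂ) * Complex.exp (-(z * t))) (Ioi 0) := by
    refine Integrable.mono' hRI ?_ ?_
    · exact (Continuous.aestronglyMeasurable (by fun_prop))
    · rw [ae_restrict_iff' measurableSet_Ioi]
      exact ae_of_all _ fun t ht => (hnorm t ht).le
  refine ⟨hI, ?_, ?_⟩
  · have hd : ∀ t ∈ Ici (0 : ℝ), HasDerivAt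
        (fun t : ℝ => -((t : ℂ) / z + 1 / z ^ 2) * Complex.exp (-(z * t)))
        ((t : ℂ) * Complex.exp (-(z * t))) t := by
      intro t _
      have h1 : HasDerivAt (fun t : ℝ => (t : ℂ)) 1 t := Complex.ofRealCLM.hasDerivAt
      have h2 : HasDerivAt (fun t : ℝ => -((t : ℂ) / z + 1 / z ^ 2)) (-(1 / z)) t :=
        ((h1.div_const z).add_const _).neg
      have h3 : HasDerivAt (fun t : ℝ => Complex.exp (-(z * t)))
          (Complex.exp (-(z * t)) * (-(z * 1))) t := ((h1.const_mul z).neg).cexp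
      have h4 := h2.mul h3
      refine h4.congr_deriv ?_
      field_simp
      ring
    have ht : Tendsto (fun t : ℝ => -((t : ℂ) / z + 1 / z ^ 2) * Complex.exp (-(z * t)))
        atTop (𝓝 0) := by
      rw [tendsto_zero_iff_norm_tendsto_zero]
      have h1 : Tendsto (fun t : ℝ => t * Real.exp (-z.re * t)) atTop (𝓝 0) := by
        have := tendsto_rpow_mul_exp_neg_mul_atTop_nhds_zero 1 z.re hz
        simpa using this
      have h2 : Tendsto (fun t : ℝ => Real.exp (-z.re * t)) atTop (𝓝 0) := by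
        have := tendsto_rpow_mul_exp_neg_mul_atTop_nhds_zero 0 z.re hz
        simpa using this
      have h3 := (h1.mul_const (1 / ‖z‖)).add (h2.mul_const (1 / ‖z‖ ^ 2))
      rw [zero_mul, zero_mul, add_zero] at h3
      refine squeeze_zero' (Eventually.of_forall fun t => norm_nonneg _) ?_ h3
      filter_upwards [eventually_ge_atTop (0 : ℝ)] with t ht
      rw [norm_mul, Complex.norm_exp, norm_neg]
      have h4 : (-(z * t)).re = -z.re * t := by simp
      rw [h4]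
      have h5 : ‖(t : ℂ) / z + 1 / z ^ 2‖ ≤ t * (1 / ‖z‖) + 1 / ‖z‖ ^ 2 := by
        refine (norm_add_le _ _).trans (le_of_eq ?_)
        rw [norm_div, norm_div, norm_one, norm_pow, Complex.norm_real, Real.norm_of_nonneg ht]
        ring
      calc ‖(t : ℂ) / z + 1 / z ^ 2‖ * Real.exp (-z.re * t)
          ≤ (t * (1 / ‖z‖) + 1 / ‖z‖ ^ 2) * Real.exp (-z.re * t) :=
            mul_le_mul_of_nonneg_right h5 (Real.exp_pos _).le
        _ = t * Real.exp (-z.re * t) * (1 / ‖z‖) + Real.exp (-z.re * t) * (1 / ‖z‖ ^ 2) := by ring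
    rw [integral_Ioi_of_hasDerivAt_of_tendsto' hd hI ht]
    simp
  · rw [← hR]
    exact setIntegral_congr_fun measurableSet_Ioi hnorm

/-- the series of `t cos (l t) / sinh (b t)` -/
theorem ptw (b : ℝ) (hb : 0 < b) (l : ℂ) (t : ℝ) (ht : 0 < t) :
    HasSum (fun k : ℕ => (t : ℂ) * Complex.exp (-(((2 * (k : ℂ) + 1) * b - Complex.I * l) * t)) +
      (t : ℂ) * Complex.exp (-(((2 * (k : ℂ) + 1) * b + Complex.I * l) * t)))
      ((t : ℂ) * Complex.cos (l * t) / (Real.sinh (b * t) : ℂ)) := by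
  have hbt : 0 < b * t := mul_pos hb ht
  have h1 : ‖Complex.exp (-(2 * (b * t)))‖ < 1 := by
    rw [Complex.norm_exp]
    have : (-(2 * ((b : ℂ) * t))).re = -(2 * (b * t)) := by simp
    rw [this, Real.exp_lt_one_iff]
    linarith
  have h2 := (hasSum_geometric_of_norm_lt_one h1).mul_left
    ((t : ℂ) * (Complex.exp (Complex.I * l * t) + Complex.exp (-(Complex.I * l * t))) *
      Complex.exp (-(b * t)))
  have hE0 : Complex.exp (b * t) ≠ 0 := Complex.exp_ne_zero _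
  have hEn : Complex.exp (-(b * t)) = (Complex.exp (b * t))⁻¹ := Complex.exp_neg _
  have hE2 : Complex.exp (-(2 * (b * t))) = ((Complex.exp (b * t))⁻¹) ^ 2 := by
    rw [← hEn, ← Complex.exp_nat_mul]
    congr 1
    push_cast
    ring
  have hsh : (Real.sinh (b * t) : ℂ) = (Complex.exp (b * t) - (Complex.exp (b * t))⁻¹) / 2 := by
    rw [Complex.ofReal_sinh, Complex.sinh, ← Complex.exp_neg]
    push_cast
    rfl
  have hcos : Complex.exp (Complex.I * l * t) + Complex.exp (-(Complex.I * l * t)) =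
      2 * Complex.cos (l * t) := by
    rw [Complex.cos]
    have e1 : l * t * Complex.I = Complex.I * l * t := by ring
    have e2 : -(l * t) * Complex.I = -(Complex.I * l * t) := by ring
    rw [e1, e2]
    ring
  have hden : Complex.exp (b * t) - (Complex.exp (b * t))⁻¹ ≠ 0 := by
    intro h
    have h3 : (Real.sinh (b * t) : ℂ) = 0 := by rw [hsh, h, zero_div]
    have h4 : Real.sinh (b * t) = 0 := by exact_mod_cast h3
    have h5 := Real.sinh_pos_iff.2 hbt
    linarith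
  have hval : (t : ℂ) * Complex.cos (l * t) / (Real.sinh (b * t) : ℂ) =
      (t : ℂ) * (Complex.exp (Complex.I * l * t) + Complex.exp (-(Complex.I * l * t))) *
      Complex.exp (-(b * t)) * (1 - Complex.exp (-(2 * (b * t))))⁻¹ := by
    rw [hcos, hsh, hE2, hEn]
    have h6 : 1 - ((Complex.exp (b * t))⁻¹) ^ 2 ≠ 0 := by
      intro h
      apply hden
      have h7 : Complex.exp (b * t) - (Complex.exp (b * t))⁻¹ =
          Complex.exp (b * t) * (1 - ((Complex.exp (b * t))⁻¹) ^ 2) := by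
        field_simp
      rw [h7, h, mul_zero]
    have h7 : Complex.exp (b * t) - (Complex.exp (b * t))⁻¹ =
          Complex.exp (b * t) * (1 - ((Complex.exp (b * t))⁻¹) ^ 2) := by
        field_simp
    rw [h7]
    generalize 1 - ((Complex.exp (b * t))⁻¹) ^ 2 = D at h6
    field_simp
  rw [hval]
  have hfun : (fun k : ℕ => (t : ℂ) * Complex.exp (-(((2 * (k : ℂ) + 1) * b - Complex.I * l) * t)) +
      (t : ℂ) * Complex.exp (-(((2 * (k : ℂ) + 1) * b + Complex.I * l) * t))) =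
      fun k : ℕ => (t : ℂ) * (Complex.exp (Complex.I * l * t) +
        Complex.exp (-(Complex.I * l * t))) * Complex.exp (-(b * t)) *
        Complex.exp (-(2 * (b * t))) ^ k := by
    funext k
    rw [← Complex.exp_nat_mul]
    have e1 : Complex.exp (-(((2 * (k : ℂ) + 1) * b - Complex.I * l) * t)) =
        Complex.exp (Complex.I * l * t) * Complex.exp (-(b * t)) *
          Complex.exp ((k : ℂ) * -(2 * (b * t))) := by
      rw [← Complex.exp_add, ← Complex.exp_add]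
      congr 1
      ring
    have e2 : Complex.exp (-(((2 * (k : ℂ) + 1) * b + Complex.I * l) * t)) =
        Complex.exp (-(Complex.I * l * t)) * Complex.exp (-(b * t)) *
          Complex.exp ((k : ℂ) * -(2 * (b * t))) := by
      rw [← Complex.exp_add, ← Complex.exp_add]
      congr 1
      ring
    rw [e1, e2]
    ring
  rw [hfun]
  exact h2

/-- the value of the sum -/
theorem value (b : ℝ) (hb : 0 < b) (l : ℂ) (hl : |l.im| < b) :
    HasSum (fun k : ℕ => 1 / ((2 * (k : ℂ) + 1) * b - Complex.I * l) ^ 2 +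
      1 / ((2 * (k : ℂ) + 1) * b + Complex.I * l) ^ 2)
      (Real.pi ^ 2 / (4 * b ^ 2) * (Complex.cosh (Real.pi * l / (2 * b)) ^ 2)⁻¹) := by
  obtain ⟨x, hx⟩ : ∃ x : ℂ, x = (b + Complex.I * l) / (2 * b) := ⟨_, rfl⟩
  have hbC : (b : ℂ) ≠ 0 := by exact_mod_cast hb.ne'
  obtain ⟨hl1, hl2⟩ := abs_lt.1 hl
  have hxre : x.re = (b - l.im) / (2 * b) := by
    have h1 : x = (b + Complex.I * l) / ((2 * b : ℝ) : ℂ) := by rw [hx]; push_cast; ring
    rw [h1, Complex.div_ofReal_re]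
    congr 1
    simp [sub_eq_add_neg]
  have hx0 : 0 < x.re := by
    rw [hxre]
    exact div_pos (by linarith) (by linarith)
  have hx1 : x.re < 1 := by
    rw [hxre, div_lt_one (by linarith)]
    linarith
  have hS := sin_series x hx0 hx1
  have hsin : Complex.sin (Real.pi * x) = Complex.cosh (Real.pi * l / (2 * b)) := by
    have h1 : (Real.pi : ℂ) * x = Real.pi / 2 - (-(Real.pi * l / (2 * b)) * Complex.I) := by
      rw [hx]
      field_simp
      ring
    rw [h1, Complex.sin_pi_div_two_sub, Complex.cos_mul_I, Complex.cosh_neg]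
  rw [hsin] at hS
  -- summability
  have hxa : |x.re| ≤ x.re := (abs_of_pos hx0).le
  have hr : 0 < 1 - x.re := by linarith
  have hsA : Summable (fun n : ℕ => 1 / (x - ((n : ℂ) + 1)) ^ 2) :=
    Summable.of_norm_bounded (summ_sq (1 / (1 - x.re) ^ 2))
      fun n => inv_sq_le _ _ n hr (norm_lb x x.re hx1 hx0.le hxa n).1
  have hsB : Summable (fun n : ℕ => 1 / (x + ((n : ℂ) + 1)) ^ 2) :=
    Summable.of_norm_bounded (summ_sq (1 / (1 - x.re) ^ 2))
      fun n => inv_sq_le _ _ n hr (norm_lb x x.re hx1 hx0.le hxa n).2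
  have hsB' : Summable (fun n : ℕ => 1 / (x + (n : ℂ)) ^ 2) := by
    rw [← summable_nat_add_iff 1]
    refine hsB.congr fun n => ?_
    push_cast
    rfl
  have hB0 : ∑' n : ℕ, 1 / (x + (n : ℂ)) ^ 2 = 1 / x ^ 2 + ∑' n : ℕ, 1 / (x + ((n : ℂ) + 1)) ^ 2 := by
    rw [hsB'.tsum_eq_zero_add]
    congr 1
    · simp
    · refine tsum_congr fun n => ?_
      push_cast
      rfl
  have hT : ∑' n : ℕ, (1 / (x - ((n : ℂ) + 1)) ^ 2 + 1 / (x + (n : ℂ)) ^ 2) =
      (Real.pi : ℂ) ^ 2 / Complex.cosh (Real.pi * l / (2 * b)) ^ 2 := by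
    rw [hS, hsA.tsum_add hsB', hB0, hsA.tsum_add hsB]
    ring
  have hH : HasSum (fun n : ℕ => 1 / (x - ((n : ℂ) + 1)) ^ 2 + 1 / (x + (n : ℂ)) ^ 2)
      ((Real.pi : ℂ) ^ 2 / Complex.cosh (Real.pi * l / (2 * b)) ^ 2) := by
    rw [← hT]
    exact (hsA.add hsB').hasSum
  have hH2 := hH.mul_left (1 / (4 * (b : ℂ) ^ 2))
  have hv : 1 / (4 * (b : ℂ) ^ 2) * ((Real.pi : ℂ) ^ 2 / Complex.cosh (Real.pi * l / (2 * b)) ^ 2) =
      Real.pi ^ 2 / (4 * b ^ 2) * (Complex.cosh (Real.pi * l / (2 * b)) ^ 2)⁻¹ := by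
    rw [div_eq_mul_inv ((Real.pi : ℂ) ^ 2)]
    ring
  rw [hv] at hH2
  have hfun : (fun k : ℕ => 1 / ((2 * (k : ℂ) + 1) * b - Complex.I * l) ^ 2 +
      1 / ((2 * (k : ℂ) + 1) * b + Complex.I * l) ^ 2) =
      fun k : ℕ => 1 / (4 * (b : ℂ) ^ 2) * (1 / (x - ((k : ℂ) + 1)) ^ 2 + 1 / (x + (k : ℂ)) ^ 2) := by
    funext k
    have e1 : (2 * (k : ℂ) + 1) * b - Complex.I * l = -(2 * b * (x - ((k : ℂ) + 1))) := by
      rw [hx]
      field_simp
      ring
    have e2 : (2 * (k : ℂ) + 1) * b + Complex.I * l = 2 * b * (x + (k : ℂ)) := by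
      rw [hx]
      field_simp
      ring
    have e3 : (2 * (b : ℂ) * (x - ((k : ℂ) + 1))) ^ 2 = 4 * (b : ℂ) ^ 2 * (x - ((k : ℂ) + 1)) ^ 2 := by
      ring
    have e4 : (2 * (b : ℂ) * (x + (k : ℂ))) ^ 2 = 4 * (b : ℂ) ^ 2 * (x + (k : ℂ)) ^ 2 := by
      ring
    rw [e1, e2, neg_sq, e3, e4]
    simp only [one_div, mul_inv]
    ring
  rw [hfun]
  exact hH2

end FT

/-- a Fourier transform -/
theorem t_FT : S_FT := by
  intro b hb l hl
  have hv := FT.value b hb l hl
  obtain ⟨hl1, hl2⟩ := abs_lt.1 hl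
  have hre1 : ∀ k : ℕ, ((2 * (k : ℂ) + 1) * b - Complex.I * l).re = (2 * k + 1) * b + l.im := by
    intro k
    simp
  have hre2 : ∀ k : ℕ, ((2 * (k : ℂ) + 1) * b + Complex.I * l).re = (2 * k + 1) * b - l.im := by
    intro k
    simp [sub_eq_add_neg]
  obtain ⟨c, hc⟩ : ∃ c, c = b - |l.im| := ⟨_, rfl⟩
  have hc0 : 0 < c := by rw [hc]; linarith
  have hcb : c ≤ b := by rw [hc]; have := abs_nonneg l.im; linarith
  have hlb : ∀ k : ℕ, c * ((k : ℝ) + 1) ≤ (2 * k + 1) * b + l.im ∧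
      c * ((k : ℝ) + 1) ≤ (2 * k + 1) * b - l.im := by
    intro k
    have hk : (0 : ℝ) ≤ k := Nat.cast_nonneg k
    have h1 := neg_abs_le l.im
    have h2 := le_abs_self l.im
    have h3 : c * k ≤ b * k := mul_le_mul_of_nonneg_right hcb hk
    have h4 : 0 ≤ b * k := by positivity
    constructor <;> nlinarith
  have hpos1 : ∀ k : ℕ, 0 < ((2 * (k : ℂ) + 1) * b - Complex.I * l).re := by
    intro k
    rw [hre1]
    exact lt_of_lt_of_le (by positivity) (hlb k).1
  have hpos2 : ∀ k : ℕ, 0 < ((2 * (k : ℂ) + 1) * b + Complex.I * l).re := by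
    intro k
    rw [hre2]
    exact lt_of_lt_of_le (by positivity) (hlb k).2
  have hF : ∀ k : ℕ, IntegrableOn (fun t : ℝ =>
      (t : ℂ) * Complex.exp (-(((2 * (k : ℂ) + 1) * b - Complex.I * l) * t)) +
      (t : ℂ) * Complex.exp (-(((2 * (k : ℂ) + 1) * b + Complex.I * l) * t))) (Ioi 0) :=
    fun k => (FT.int_te _ (hpos1 k)).1.add (FT.int_te _ (hpos2 k)).1
  have hsum : Summable fun k : ℕ => ∫ t in Ioi (0 : ℝ),
      ‖(t : ℂ) * Complex.exp (-(((2 * (k : ℂ) + 1) * b - Complex.I * l) * t)) +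
      (t : ℂ) * Complex.exp (-(((2 * (k : ℂ) + 1) * b + Complex.I * l) * t))‖ := by
    refine Summable.of_nonneg_of_le (fun k => integral_nonneg fun t => norm_nonneg _) (fun k => ?_)
      (FT.summ_sq (2 / c ^ 2))
    have h1 := (FT.int_te _ (hpos1 k))
    have h2 := (FT.int_te _ (hpos2 k))
    have hk : (0 : ℝ) < (k : ℝ) + 1 := by positivity
    calc ∫ t in Ioi (0 : ℝ),
          ‖(t : ℂ) * Complex.exp (-(((2 * (k : ℂ) + 1) * b - Complex.I * l) * t)) +
          (t : ℂ) * Complex.exp (-(((2 * (k : ℂ) + 1) * b + Complex.I * l) * t))‖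
        ≤ ∫ t in Ioi (0 : ℝ),
          (‖(t : ℂ) * Complex.exp (-(((2 * (k : ℂ) + 1) * b - Complex.I * l) * t))‖ +
          ‖(t : ℂ) * Complex.exp (-(((2 * (k : ℂ) + 1) * b + Complex.I * l) * t))‖) :=
          integral_mono (hF k).norm (h1.1.norm.add h2.1.norm) fun t => norm_add_le _ _
      _ = 1 / ((2 * (k : ℂ) + 1) * b - Complex.I * l).re ^ 2 +
          1 / ((2 * (k : ℂ) + 1) * b + Complex.I * l).re ^ 2 := by
          rw [integral_add h1.1.norm h2.1.norm, h1.2.2, h2.2.2]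
      _ ≤ 1 / (c * ((k : ℝ) + 1)) ^ 2 + 1 / (c * ((k : ℝ) + 1)) ^ 2 := by
          rw [hre1, hre2]
          exact add_le_add
            (one_div_le_one_div_of_le (by positivity) (pow_le_pow_left₀ (by positivity) (hlb k).1 2))
            (one_div_le_one_div_of_le (by positivity) (pow_le_pow_left₀ (by positivity) (hlb k).2 2))
      _ = 2 / c ^ 2 / ((k : ℝ) + 1) ^ 2 := by
          rw [mul_pow, div_div]
          ring
  have hH := hasSum_integral_of_summable_integral_norm hF hsum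
  have hI : ∫ t in Ioi (0 : ℝ), (∑' k : ℕ,
      ((t : ℂ) * Complex.exp (-(((2 * (k : ℂ) + 1) * b - Complex.I * l) * t)) +
      (t : ℂ) * Complex.exp (-(((2 * (k : ℂ) + 1) * b + Complex.I * l) * t)))) =
      ∫ t in Ioi (0 : ℝ), (t : ℂ) * Complex.cos (l * t) / (Real.sinh (b * t) : ℂ) :=
    setIntegral_congr_fun measurableSet_Ioi fun t ht => (FT.ptw b hb l t ht).tsum_eq
  rw [hI] at hH
  have hfun : (fun k : ℕ => ∫ t in Ioi (0 : ℝ),
      ((t : ℂ) * Complex.exp (-(((2 * (k : ℂ) + 1) * b - Complex.I * l) * t)) +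
      (t : ℂ) * Complex.exp (-(((2 * (k : ℂ) + 1) * b + Complex.I * l) * t)))) =
      fun k : ℕ => 1 / ((2 * (k : ℂ) + 1) * b - Complex.I * l) ^ 2 +
      1 / ((2 * (k : ℂ) + 1) * b + Complex.I * l) ^ 2 := by
    funext k
    rw [integral_add (FT.int_te _ (hpos1 k)).1 (FT.int_te _ (hpos2 k)).1,
      (FT.int_te _ (hpos1 k)).2.1, (FT.int_te _ (hpos2 k)).2.1]
  rw [hfun] at hH
  have hval := hH.unique hv
  refine ⟨?_, hval⟩
  refine Integrable.of_integral_ne_zero ?_
  rw [hval]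
  -- the value is not zero
  have hbC : (b : ℂ) ≠ 0 := by exact_mod_cast hb.ne'
  have hpi : (Real.pi : ℂ) ≠ 0 := by exact_mod_cast Real.pi_ne_zero
  have hcosh : Complex.cosh (Real.pi * l / (2 * b)) ≠ 0 := by
    have h1 : (Real.pi : ℂ) * ((b + Complex.I * l) / (2 * b)) =
        Real.pi / 2 - (-(Real.pi * l / (2 * b)) * Complex.I) := by
      field_simp
      ring
    have hxre : ((b + Complex.I * l) / (2 * b)).re = (b - l.im) / (2 * b) := by
      have h1 : (b + Complex.I * l) / (2 * b) = (b + Complex.I * l) / ((2 * b : ℝ) : ℂ) := by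
        push_cast; ring
      rw [h1, Complex.div_ofReal_re]
      congr 1
      simp [sub_eq_add_neg]
    have hx0 : 0 < ((b + Complex.I * l) / (2 * b)).re := by
      rw [hxre]
      exact div_pos (by linarith) (by linarith)
    have hx1 : ((b + Complex.I * l) / (2 * b)).re < 1 := by
      rw [hxre, div_lt_one (by linarith)]
      linarith
    have h2 := sin_pi_mul_ne_zero (FT.mem_compl ((b + Complex.I * l) / (2 * b)) hx0.ne'
      (by rw [abs_of_pos hx0]; exact hx1))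
    rw [h1, Complex.sin_pi_div_two_sub, Complex.cos_mul_I, Complex.cosh_neg] at h2
    exact h2
  exact mul_ne_zero (div_ne_zero (pow_ne_zero _ hpi) (mul_ne_zero (by norm_num) (pow_ne_zero _ hbC)))
    (inv_ne_zero (pow_ne_zero _ hcosh))


end Pool.Agent.N46.HM
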