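import Pool.Agent.N46.HM.Stm

/-!
Project HM (helper46), MP_e4fe74_an: the symbol of the operator by Fubini (helper624).
-/

set_option autoImplicit false

open MeasureTheory Set Filter
open scoped ENNReal Topology ComplexConjugate

namespace Pool.Agent.N46.HM.FUB

theorem sinh_le (x : ℝ) (hx : 0 ≤ x) : Real.sinh x ≤ x * Real.cosh x := by
  have hd : ∀ t : ℝ, HasDerivAt (fun t => t * Real.cosh t - Real.sinh t) (t * Real.sinh t) t := by
    intro t
    have h := ((hasDerivAt_id t).mul (Real.hasDerivAt_cosh t)).sub (Real.hasDerivAt_sinh t)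
    refine h.congr_deriv ?_
    simp
  have hm : MonotoneOn (fun t => t * Real.cosh t - Real.sinh t) (Ici 0) := by
    apply monotoneOn_of_deriv_nonneg (convex_Ici 0)
    · exact fun t _ => (hd t).continuousAt.continuousWithinAt
    · exact fun t _ => (hd t).differentiableAt.differentiableWithinAt
    · intro t ht
      rw [interior_Ici] at ht
      rw [(hd t).deriv]
      exact mul_nonneg (le_of_lt ht) (Real.sinh_nonneg_iff.2 (le_of_lt ht))
  have h := hm (show (0:ℝ) ∈ Ici 0 from self_mem_Ici) (show x ∈ Ici 0 from hx) hx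
  simp at h
  exact h

theorem kap_nonneg (s t : ℝ) (hs : 0 ≤ s) (ht : 0 ≤ t) : 0 ≤ kap s t := by
  unfold kap
  have h1 : 0 ≤ 2 * s * t := by positivity
  have h2 := sinh_le _ h1
  have h3 : 0 ≤ Real.sinh t := Real.sinh_nonneg_iff.2 ht
  have hpi := Real.pi_pos
  refine mul_nonneg (by positivity) (div_nonneg (by linarith) (by positivity))

theorem meas_kap (s : ℝ) : Measurable (kap s) := by
  unfold kap
  refine Measurable.const_mul ?_ _
  refine Measurable.div ?_ ?_
  · exact Continuous.measurable (by fun_prop)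
  · exact Continuous.measurable (by fun_prop)

theorem ae_pos : ∀ᵐ x ∂mu, 0 < x.2 := by
  have hm : MeasurableSet {x : Hs | 0 < x.2} := measurableSet_lt measurable_const measurable_snd
  have h : ∀ᵐ x ∂((volume : Measure Hs).restrict {x : Hs | 0 < x.2}), 0 < x.2 :=
    ae_restrict_mem hm
  exact (withDensity_absolutelyContinuous _ _).ae_le h

theorem PK_pos (b : Option ℂ) (x : Hs) (hx : 0 < x.2) : 0 < PK b x := by
  cases b with
  | none => exact hx
  | some ζ =>
    show 0 < x.2 * (1 + ‖ζ‖ ^ 2) / (x.2 ^ 2 + ‖x.1 - ζ‖ ^ 2)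
    positivity

theorem meas_PK (b : Option ℂ) : Measurable (PK b) := by
  cases b with
  | none => exact measurable_snd
  | some ζ =>
    show Measurable fun x : Hs => x.2 * (1 + ‖ζ‖ ^ 2) / (x.2 ^ 2 + ‖x.1 - ζ‖ ^ 2)
    refine Measurable.div (Continuous.measurable (by fun_prop)) (Continuous.measurable (by fun_prop))

theorem cont_PK (b : Option ℂ) (x : Hs) (hx : 0 < x.2) : ContinuousAt (PK b) x := by
  cases b with
  | none => exact continuous_snd.continuousAt
  | some ζ =>
    show ContinuousAt (fun x : Hs => x.2 * (1 + ‖ζ‖ ^ 2) / (x.2 ^ 2 + ‖x.1 - ζ‖ ^ 2)) x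
    refine ContinuousAt.div (Continuous.continuousAt (by fun_prop))
      (Continuous.continuousAt (by fun_prop)) ?_
    have : 0 < x.2 ^ 2 + ‖x.1 - ζ‖ ^ 2 := by positivity
    exact this.ne'

theorem meas_EE (l : ℂ) (b : Option ℂ) : Measurable (EE l b) := by
  unfold EE
  exact (Complex.measurable_ofReal.comp (meas_PK b)).pow_const _

theorem cont_EE (l : ℂ) (b : Option ℂ) (x : Hs) (hx : 0 < x.2) : ContinuousAt (EE l b) x := by
  unfold EE
  have h1 : ContinuousAt (fun x => (PK b x : ℂ)) x :=
    Complex.continuous_ofReal.continuousAt.comp (cont_PK b x hx)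
  exact h1.cpow continuousAt_const (Or.inl (by simpa using PK_pos b x hx))

theorem EE_im (l : ℂ) (b : Option ℂ) (x : Hs) (hx : 0 < x.2) :
    EE (l.im * Complex.I) b x = (‖EE l b x‖ : ℂ) := by
  unfold EE
  rw [Complex.norm_cpow_eq_rpow_re_of_pos (PK_pos b x hx), Complex.ofReal_cpow (PK_pos b x hx).le]
  congr 1
  apply Complex.ext <;> simp

theorem int_u (u : Hs → ℂ) (hu : Continuous u) (hc : HasCompactSupport u)
    (ht : tsupport u ⊆ {x | 0 < x.2}) (l : ℂ) (b : Option ℂ) :
    Integrable (fun x => u x * EE l b x) mu := by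
  unfold mu
  rw [integrable_withDensity_iff_integrable_smul₀']
  · have hcont : Continuous fun x : Hs => (x.2 ^ 3)⁻¹ • (u x * EE l b x) := by
      apply continuous_of_tsupport
      intro x hx
      have hsub : tsupport (fun x : Hs => (x.2 ^ 3)⁻¹ • (u x * EE l b x)) ⊆ tsupport u := by
        apply closure_mono
        intro y hy
        rw [Function.mem_support] at hy ⊢
        intro h0
        apply hy
        simp [h0]
      have hx2 : 0 < x.2 := ht (hsub hx)
      have h1 : ContinuousAt (fun x : Hs => (x.2 ^ 3)⁻¹) x :=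
        ContinuousAt.inv₀ (Continuous.continuousAt (by fun_prop)) (by positivity)
      exact h1.smul (hu.continuousAt.mul (cont_EE l b x hx2))
    have hcs : HasCompactSupport fun x : Hs => (x.2 ^ 3)⁻¹ • (u x * EE l b x) := by
      apply hc.mono
      intro y hy
      rw [Function.mem_support] at hy ⊢
      intro h0
      apply hy
      simp [h0]
    have hi : Integrable (fun x : Hs => (x.2 ^ 3)⁻¹ • (u x * EE l b x))
        (volume.restrict {x : Hs | 0 < x.2}) :=
      (hcont.integrable_of_hasCompactSupport hcs).restrict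
    refine hi.congr ?_
    have hm : MeasurableSet {x : Hs | 0 < x.2} := measurableSet_lt measurable_const measurable_snd
    filter_upwards [ae_restrict_mem hm] with x hx
    have hx' : 0 < x.2 := hx
    rw [ENNReal.toReal_ofReal (by positivity)]
  · exact (Measurable.ennreal_ofReal (Measurable.inv (Continuous.measurable (by fun_prop)))).aemeasurable
  · exact ae_of_all _ fun _ => ENNReal.ofReal_lt_top

end Pool.Agent.N46.HM.FUB

namespace Pool.Agent.N46.HM

open FUB in
theorem t_FUB (h1 : S_DIST) (h2 : S_SYM) : S_FUB := by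
  intro s hs hs1 _ K hK f u hu hc ht hfu l hl b
  have : SFinite mu := by unfold mu; infer_instance
  have hgu := int_u u hu hc ht l b
  obtain ⟨hint, hKf⟩ := hK f
  obtain ⟨hdist, hmd⟩ := h1
  -- measurability
  have hFm : AEStronglyMeasurable
      (fun q : Hs × Hs => (kap s (dH q.1 q.2) : ℂ) * u q.2 * EE l b q.1) (mu.prod mu) := by
    apply Measurable.aestronglyMeasurable
    refine Measurable.mul (Measurable.mul ?_ ?_) ?_
    · exact Complex.measurable_ofReal.comp ((meas_kap s).comp hmd)
    · exact hu.measurable.comp measurable_snd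
    · exact (meas_EE l b).comp measurable_fst
  have him : |((l.im * Complex.I : ℂ)).im| < 2 * s := by simpa using hl
  -- integral over x
  have hx1 : ∀ x' : Hs, 0 < x'.2 →
      Integrable (fun x => (kap s (dH x x') : ℂ) * u x' * EE l b x) mu ∧
      ∫ x, (kap s (dH x x') : ℂ) * u x' * EE l b x ∂mu = sec s l * (u x' * EE l b x') ∧
      ∫ x, ‖(kap s (dH x x') : ℂ) * u x' * EE l b x‖ ∂mu =
        ‖sec s (l.im * Complex.I)‖ * ‖u x' * EE l b x'‖ := by
    intro x' hx'
    obtain ⟨i1, i2⟩ := h2 s hs l hl b x' hx'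
    obtain ⟨i3, i4⟩ := h2 s hs (l.im * Complex.I) him b x' hx'
    have e1 : (fun x => u x' * ((kap s (dH x' x) : ℂ) * EE l b x)) =ᵐ[mu]
        fun x => (kap s (dH x x') : ℂ) * u x' * EE l b x := by
      filter_upwards [ae_pos] with x hx
      rw [(hdist x x' hx hx').2.2.2.1]; ring
    refine ⟨(i1.const_mul (u x')).congr e1, ?_, ?_⟩
    · rw [← integral_congr_ae e1, integral_const_mul, i2]; ring
    · have e2 : (fun x => ‖(kap s (dH x x') : ℂ) * u x' * EE l b x‖) =ᵐ[mu]
          fun x => ‖u x'‖ * ‖(kap s (dH x' x) : ℂ) * EE (l.im * Complex.I) b x‖ := by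
        filter_upwards [ae_pos] with x hx
        rw [(hdist x x' hx hx').2.2.2.1, EE_im l b x hx]
        simp only [norm_mul, Complex.norm_real, norm_norm]
        ring
      have e3 : ∫ x, ‖(kap s (dH x' x) : ℂ) * EE (l.im * Complex.I) b x‖ ∂mu =
          ‖∫ x, (kap s (dH x' x) : ℂ) * EE (l.im * Complex.I) b x ∂mu‖ := by
        have e4 : ∀ᵐ x ∂mu, (kap s (dH x' x) : ℂ) * EE (l.im * Complex.I) b x =
            ((‖(kap s (dH x' x) : ℂ) * EE (l.im * Complex.I) b x‖ : ℝ) : ℂ) := by
          filter_upwards [ae_pos] with x hx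
          have hk : 0 ≤ kap s (dH x' x) := kap_nonneg s _ hs.le (hdist x' x hx' hx).2.1
          rw [EE_im l b x hx]
          simp only [norm_mul, Complex.norm_real, norm_norm, Real.norm_of_nonneg hk]
          push_cast
          rfl
        rw [integral_congr_ae e4, integral_complex_ofReal, Complex.norm_real, Real.norm_of_nonneg]
        exact integral_nonneg fun _ => norm_nonneg _
      rw [integral_congr_ae e2, integral_const_mul, e3, i4, norm_mul, norm_mul, EE_im l b x' hx',
        Complex.norm_real, norm_norm]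
      ring
  have hFi : Integrable
      (fun q : Hs × Hs => (kap s (dH q.1 q.2) : ℂ) * u q.2 * EE l b q.1) (mu.prod mu) := by
    rw [integrable_prod_iff' hFm]
    refine ⟨?_, ?_⟩
    · filter_upwards [ae_pos] with x' hx'
      exact (hx1 x' hx').1
    · refine (hgu.norm.const_mul ‖sec s (l.im * Complex.I)‖).congr ?_
      filter_upwards [ae_pos] with x' hx'
      exact (hx1 x' hx').2.2.symm
  have hKe : (fun x => ∫ x', (kap s (dH x x') : ℂ) * u x' * EE l b x ∂mu) =ᵐ[mu]
      fun x => K f x * EE l b x := by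
    filter_upwards [hKf] with x hx
    rw [hx, ← integral_mul_const]
    apply integral_congr_ae
    filter_upwards [hfu] with x' hx'
    rw [hx']
  refine ⟨hFi.integral_prod_left.congr hKe, hgu, ?_⟩
  rw [← integral_congr_ae hKe, integral_integral_swap hFi, ← integral_const_mul]
  apply integral_congr_ae
  filter_upwards [ae_pos] with x' hx'
  exact (hx1 x' hx').2.1

end Pool.Agent.N46.HM
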