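import Pool.Agent.N46.HM.Stm

/-!
# Project HM (helper46): assembly
-/

set_option autoImplicit false

open MeasureTheory Set Filter
open scoped ENNReal Topology ComplexConjugate

namespace Pool.Agent.N46.HM

noncomputable section

namespace Fin

theorem el_of {p : ℝ≥0∞} {F : Hs → ℂ} (h : MemLp F p mu) : el p F = h.toLp F := by
  unfold el; rw [dif_pos h]

theorem el_sub {p : ℝ≥0∞} {F G : Hs → ℂ} (h : MemLp F p mu) (h' : MemLp G p mu) :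
    el p F - el p G = el p (fun x => F x - G x) := by
  rw [el_of h, el_of h', ← MemLp.toLp_sub h h']
  have h2 : MemLp (fun x => F x - G x) p mu := h.sub h'
  rw [el_of h2]
  rfl

instance : SigmaFinite mu := by
  unfold mu
  exact SigmaFinite.withDensity_ofReal _

theorem tst_cont {a : ℝ → ℂ} (h : Tst a) : Continuous a := h.1.continuous

theorem tst_mul {a c : ℝ → ℂ} (h : Tst a) (hc : ContDiff ℝ (⊤ : ℕ∞) c) :
    Tst (fun ξ => c ξ * a ξ) := by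
  refine ⟨hc.mul h.1, ?_⟩
  exact h.2.mul_left (f' := a) (f := c)

theorem tst0_mul {a c : ℝ → ℂ} (h : Tst0 a) (hc : ContDiff ℝ (⊤ : ℕ∞) c) :
    Tst0 (fun ξ => c ξ * a ξ) := by
  refine ⟨tst_mul h.1 hc, ?_⟩
  refine Subset.trans ?_ h.2
  exact tsupport_mul_subset_right (f := c) (g := a)

theorem cd_exp {s : ℝ} (hph : ContDiff ℝ (⊤ : ℕ∞) (ph s)) (σ : ℝ) :
    ContDiff ℝ (⊤ : ℕ∞) (fun ξ => Complex.exp (Complex.I * ((σ * ph s ξ : ℝ) : ℂ))) := by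
  apply ContDiff.cexp
  apply ContDiff.mul contDiff_const
  exact Complex.ofRealCLM.contDiff.comp (contDiff_const.mul hph)

theorem int_GG (hS : S_SPH) {a : ℝ → ℂ} (ha : Continuous a) (hc : HasCompactSupport a) (z : ℂ)
    (t : ℝ) : Integrable (fun ξ : ℝ => a ξ * sph (ξ + z) t) := by
  apply Continuous.integrable_of_hasCompactSupport
  · refine ha.mul ?_
    exact (hS.2.2.2.1 t).continuous.comp (Complex.continuous_ofReal.add continuous_const)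
  · exact hc.mul_right


/-- the vector given by a wave packet on the line `ℝ + i s` -/
def e (s : ℝ) (a : ℝ → ℂ) (x₀ : Hs) : Lp ℂ (pp s) mu :=
  el (pp s) fun x => GG a (s * Complex.I) (dH x₀ x)

/-- the operator -/
def TT {p : ℝ≥0∞} [Fact (1 ≤ p)] (K : Lp ℂ p mu →L[ℂ] Lp ℂ p mu) :
    Lp ℂ p mu →L[ℂ] Lp ℂ p mu :=
  ContinuousLinearMap.id ℂ (Lp ℂ p mu) - K

theorem TT_apply {p : ℝ≥0∞} [Fact (1 ≤ p)] (K : Lp ℂ p mu →L[ℂ] Lp ℂ p mu) (f : Lp ℂ p mu) :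
    TT K f = f - K f := rfl

theorem im_sI (s : ℝ) (hs : 0 < s) : |((s : ℂ) * Complex.I).im| ≤ s := by
  simp [abs_of_pos hs]

theorem im_line (s ξ : ℝ) (hs : 0 < s) : |((ξ : ℂ) + s * Complex.I).im| = s := by
  simp [abs_of_pos hs]

/-- the symbol on the line is smooth -/
theorem sec_line (hMS : S_MS) {s : ℝ} (hs : 0 < s) :
    ContDiff ℝ (⊤ : ℕ∞) (fun ξ : ℝ => sec s (ξ + s * Complex.I)) := by
  obtain ⟨-, h2, -, -, -, h6, h7⟩ := hMS s hs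
  have : (fun ξ : ℝ => sec s (ξ + s * Complex.I)) =
      fun ξ : ℝ => 1 - Complex.exp (Complex.I * ((1 * ph s ξ : ℝ) : ℂ)) := by
    funext ξ
    have h := h2 (ξ + s * Complex.I) (by rw [im_line s ξ hs]; linarith)
    rw [h6] at h
    rw [one_mul, h]; ring
  rw [this]
  exact contDiff_const.sub (cd_exp h7 1)

theorem T_e (hSPH : S_SPH) (hMS : S_MS) (hMEM : S_MEM) (hKG : S_KG) {s : ℝ} (hs : 0 < s)
    (hs1 : s < 1) [Fact (1 ≤ pp s)] (K : Lp ℂ (pp s) mu →L[ℂ] Lp ℂ (pp s) mu)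
    (hK : IsK s (pp s) K) {a : ℝ → ℂ} (ha : Tst a) {x₀ : Hs} (hx : 0 < x₀.2) :
    (TT K) (e s a x₀) =
      e s (fun ξ => Complex.exp (Complex.I * ((1 * ph s ξ : ℝ) : ℂ)) * a ξ) x₀ := by
  have h1 := hKG s hs hs1 K hK a ha x₀ hx
  have hsec : Tst (fun ξ : ℝ => sec s (ξ + s * Complex.I) * a ξ) := tst_mul ha (sec_line hMS hs)
  have h2 : (TT K) (e s a x₀) =
      e s a x₀ - e s (fun ξ : ℝ => sec s (ξ + s * Complex.I) * a ξ) x₀ := by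
    rw [TT_apply]
    unfold e
    rw [h1]
  rw [h2]
  unfold e
  rw [el_sub (hMEM s hs hs1 a ha x₀ hx _ (im_sI s hs)) (hMEM s hs hs1 _ hsec x₀ hx _ (im_sI s hs))]
  congr 1
  funext x
  unfold GG
  rw [← integral_sub (int_GG hSPH (tst_cont ha) ha.2 _ _)
    (int_GG hSPH (tst_cont hsec) hsec.2 _ _)]
  congr 1
  funext ξ
  obtain ⟨-, h2, -, -, -, h6, h7⟩ := hMS s hs
  have h := h2 (ξ + s * Complex.I) (by rw [im_line s ξ hs]; linarith)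
  rw [h6] at h
  show a ξ * sph (ξ + s * Complex.I) (dH x₀ x) -
    sec s (ξ + s * Complex.I) * a ξ * sph (ξ + s * Complex.I) (dH x₀ x) =
    Complex.exp (Complex.I * ((1 * ph s ξ : ℝ) : ℂ)) * a ξ * sph (ξ + s * Complex.I) (dH x₀ x)
  rw [one_mul, h]; ring

theorem Tn_e (hSPH : S_SPH) (hMS : S_MS) (hMEM : S_MEM) (hKG : S_KG) {s : ℝ} (hs : 0 < s)
    (hs1 : s < 1) [Fact (1 ≤ pp s)] (K : Lp ℂ (pp s) mu →L[ℂ] Lp ℂ (pp s) mu)
    (hK : IsK s (pp s) K) {a : ℝ → ℂ} (ha : Tst a) {x₀ : Hs} (hx : 0 < x₀.2) (n : ℕ) :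
    ((TT K) ^ n) (e s a x₀) =
      e s (fun ξ => Complex.exp (Complex.I * ((1 * n * ph s ξ : ℝ) : ℂ)) * a ξ) x₀ := by
  induction n with
  | zero =>
    simp
  | succ n ih =>
    rw [pow_succ', ContinuousLinearMap.mul_apply, ih]
    have h7 := (hMS s hs).2.2.2.2.2.2
    have hT : Tst (fun ξ => Complex.exp (Complex.I * ((1 * n * ph s ξ : ℝ) : ℂ)) * a ξ) :=
      tst_mul ha (cd_exp h7 (1 * n))
    rw [T_e hSPH hMS hMEM hKG hs hs1 K hK hT hx]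
    congr 1
    funext ξ
    rw [← mul_assoc, ← Complex.exp_add]
    congr 2
    push_cast
    ring

theorem back (hSPH : S_SPH) (hMS : S_MS) (hMEM : S_MEM) (hKG : S_KG) {s : ℝ} (hs : 0 < s)
    (hs1 : s < 1) [Fact (1 ≤ pp s)] (K : Lp ℂ (pp s) mu →L[ℂ] Lp ℂ (pp s) mu)
    (hK : IsK s (pp s) K) {a : ℝ → ℂ} (ha : Tst a) {x₀ : Hs} (hx : 0 < x₀.2) (n : ℕ) :
    ((TT K) ^ n)
      (e s (fun ξ => Complex.exp (Complex.I * (((-1) * n * ph s ξ : ℝ) : ℂ)) * a ξ) x₀) =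
      e s a x₀ := by
  have h7 := (hMS s hs).2.2.2.2.2.2
  have hT : Tst (fun ξ => Complex.exp (Complex.I * (((-1) * n * ph s ξ : ℝ) : ℂ)) * a ξ) :=
    tst_mul ha (cd_exp h7 ((-1) * n))
  rw [Tn_e hSPH hMS hMEM hKG hs hs1 K hK hT hx]
  congr 1
  funext ξ
  rw [← mul_assoc, ← Complex.exp_add]
  have : Complex.I * ((1 * n * ph s ξ : ℝ) : ℂ) + Complex.I * (((-1) * n * ph s ξ : ℝ) : ℂ) = 0 := by
    push_cast; ring
  rw [this, Complex.exp_zero, one_mul]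

/-! ### Density -/

theorem GG_shift (b : ℝ → ℂ) (τ : ℝ) (z : ℂ) (t : ℝ) :
    GG (fun ξ => b (ξ - τ)) z t = GG b (z + τ) t := by
  unfold GG
  have h := integral_sub_right_eq_self (μ := (volume : Measure ℝ))
    (fun ξ : ℝ => b ξ * sph (ξ + (z + τ)) t) τ
  rw [← h]
  congr 1
  funext ξ
  congr 2
  push_cast
  ring

theorem tst_shift {b : ℝ → ℂ} (h : Tst b) (τ : ℝ) : Tst (fun ξ => b (ξ - τ)) := by
  refine ⟨h.1.comp (contDiff_id.sub contDiff_const), ?_⟩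
  exact h.2.comp_homeomorph (Homeomorph.subRight τ)

theorem shift_supp {b : ℝ → ℂ} {R : ℝ} (hR : ∀ ξ, b ξ ≠ 0 → -R < ξ) {τ : ℝ} (hτ : R + 1 ≤ τ) :
    tsupport (fun ξ => b (ξ - τ)) ⊆ Ioi 0 := by
  have h1 : tsupport (fun ξ => b (ξ - τ)) ⊆ Ici 1 := by
    apply closure_minimal _ isClosed_Ici
    intro ξ hξ
    have := hR (ξ - τ) hξ
    simp only [mem_Ici]
    linarith
  refine h1.trans ?_
  intro ξ hξ
  simp only [mem_Ici] at hξ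
  simp only [mem_Ioi]
  linarith

theorem dens0 (hHOLV : S_HOLV) (hUNQ : S_UNQ) {s : ℝ} (hs : 0 < s) (hs1 : s < 1)
    [Fact (1 ≤ pp s)] (φ : Lp ℂ (pp s) mu →L[ℂ] ℂ)
    (hφ : ∀ a, Tst0 a → ∀ x₀ : Hs, 0 < x₀.2 → φ (e s a x₀) = 0) (x₀ : Hs) (hx : 0 < x₀.2)
    (b : ℝ → ℂ) (hb : Tst b) : φ (el (pp s) fun x => GG b 0 (dH x₀ x)) = 0 := by
  obtain ⟨R, hR⟩ : ∃ R : ℝ, ∀ ξ, b ξ ≠ 0 → -R < ξ := by
    obtain ⟨R, hR⟩ := hb.2.isBounded.subset_closedBall 0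
    refine ⟨R + 1, fun ξ hξ => ?_⟩
    have h1 : ξ ∈ Metric.closedBall (0 : ℝ) R := hR (subset_tsupport _ hξ)
    rw [Metric.mem_closedBall, dist_zero_right, Real.norm_eq_abs, abs_le] at h1
    linarith
  set τ₀ : ℝ := R + 2 with hτ₀
  have hb' : Tst (fun ξ => b (ξ - τ₀)) := tst_shift hb τ₀
  obtain ⟨h1, h2⟩ := hHOLV s hs hs1 (fun ξ => b (ξ - τ₀)) hb' x₀ hx φ
  have h3 := hUNQ s _ hs h1 h2 ⟨1, one_pos, fun τ hτ => ?_⟩ (-τ₀) (by simp [hs.le])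
  · have h4 : (fun x => GG (fun ξ => b (ξ - τ₀)) (-τ₀ : ℂ) (dH x₀ x)) =
        fun x => GG b 0 (dH x₀ x) := by
      funext x
      rw [GG_shift]
      congr 1
      ring
    rw [h4] at h3
    exact h3
  · have h5 : Tst0 (fun ξ => b (ξ - (τ₀ + τ))) := by
      refine ⟨tst_shift hb _, shift_supp hR ?_⟩
      rw [abs_lt] at hτ
      rw [hτ₀]
      linarith
    have h6 := hφ _ h5 x₀ hx
    unfold e at h6
    convert h6 using 3
    funext x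
    rw [GG_shift, GG_shift]
    congr 1
    push_cast
    ring

theorem dens (hHOLV : S_HOLV) (hUNQ : S_UNQ) (hBUMP : S_BUMP) (hBALL : S_BALL) (hEUC : S_EUC)
    (hVIT : S_VIT) {s : ℝ} (hs : 0 < s) (hs1 : s < 1)
    [Fact (1 ≤ pp s)] (φ : Lp ℂ (pp s) mu →L[ℂ] ℂ)
    (hφ : ∀ a, Tst0 a → ∀ x₀ : Hs, 0 < x₀.2 → φ (e s a x₀) = 0) : φ = 0 := by
  apply hVIT s hs hs1
  intro c R hR hRc
  obtain ⟨x₀, r, hx, hr, hset⟩ := hEUC c R hR hRc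
  rw [hset]
  exact hBALL s hs hs1 φ x₀ hx (hBUMP s hs hs1 φ x₀ hx (dens0 hHOLV hUNQ hs hs1 φ hφ x₀ hx)) r hr

theorem pp_gt {s : ℝ} (hs : 0 < s) (hs1 : s < 1) : 1 ≤ pp s ∧ pp s ≠ ∞ := by
  unfold pp
  refine ⟨?_, ENNReal.ofReal_ne_top⟩
  rw [ENNReal.one_le_ofReal, le_div_iff₀ (by linarith)]
  linarith

theorem hyp (hSPH : S_SPH) (hMS : S_MS) (hMEM : S_MEM) (hKG : S_KG) (hDISP : S_DISP)
    (hHOLV : S_HOLV) (hUNQ : S_UNQ) (hBUMP : S_BUMP) (hBALL : S_BALL) (hEUC : S_EUC)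
    (hVIT : S_VIT) (hKIT : S_KIT) {s : ℝ} (hs : 0 < s)
    (hs1 : s < 1) [Fact (1 ≤ pp s)] (K : Lp ℂ (pp s) mu →L[ℂ] Lp ℂ (pp s) mu)
    (hK : IsK s (pp s) K) :
    ∃ f : Lp ℂ (pp s) mu,
      Dense (range fun n : ℕ => ((TT K) ^ n) f) := by
  haveI : Fact (pp s ≠ ∞) := ⟨(pp_gt hs hs1).2⟩
  have h7 := (hMS s hs).2.2.2.2.2.2
  apply hKIT (Lp ℂ (pp s) mu) (TT K)
    {v | ∃ a x₀, Tst0 a ∧ 0 < x₀.2 ∧ v = e s a x₀}
  · intro φ hφ
    apply dens hHOLV hUNQ hBUMP hBALL hEUC hVIT hs hs1 φ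
    intro a ha x₀ hx
    exact hφ _ ⟨a, x₀, ha, hx, rfl⟩
  · rintro _ ⟨a, x₀, ha, hx, rfl⟩
    have h := hDISP s hs hs1 a ha x₀ hx 1 (Or.inl rfl)
    refine h.congr fun n => ?_
    rw [Tn_e hSPH hMS hMEM hKG hs hs1 K hK ha.1 hx n]
    rfl
  · rintro _ ⟨a, x₀, ha, hx, rfl⟩
    refine ⟨fun n : ℕ => e s (fun ξ => Complex.exp (Complex.I * (((-1) * n * ph s ξ : ℝ) : ℂ)) *
      a ξ) x₀, hDISP s hs hs1 a ha x₀ hx (-1) (Or.inr rfl), fun n => ?_⟩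
    exact back hSPH hMS hMEM hKG hs hs1 K hK ha.1 hx n

end Fin

end

end Pool.Agent.N46.HM
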