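import Pool.Agent.N46.HM.Stm

/-!
# Project HM (helper46), MP_e4fe74_an: functionals of wave packets are holomorphic (HOLV)
-/

set_option autoImplicit false

open MeasureTheory Set Filter
open scoped ENNReal Topology ComplexConjugate

namespace Pool.Agent.N46.HM

noncomputable section

namespace HOLV

theorem gl {α : Type} [MeasurableSpace α] {μ : Measure α} {p : ℝ≥0∞} (hp0 : p ≠ 0) (hp : p ≠ ∞)
    {ι : Type} {l : Filter ι} [l.IsCountablyGenerated] {f : ι → α → ℂ} {g : α → ℂ} {B : α → ℝ}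
    (hf : ∀ᶠ i in l, Measurable (f i)) (hg : Measurable g)
    (hB : MemLp B p μ) (hb : ∀ᶠ i in l, ∀ᵐ x ∂μ, ‖f i x - g x‖ ≤ B x)
    (ht : ∀ᵐ x ∂μ, Tendsto (fun i => f i x) l (𝓝 (g x))) :
    Tendsto (fun i => eLpNorm (f i - g) p μ) l (𝓝 0) := by
  have hp1 : 0 < p.toReal := ENNReal.toReal_pos hp0 hp
  have h1 : Tendsto (fun i => ∫⁻ x, ‖f i x - g x‖ₑ ^ p.toReal ∂μ) l (𝓝 (∫⁻ _, 0 ∂μ)) := by
    refine tendsto_lintegral_filter_of_dominated_convergence (fun x => ‖B x‖ₑ ^ p.toReal)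
      ?_ ?_ ?_ ?_
    · filter_upwards [hf] with i hi
      exact (hi.sub hg).enorm.pow_const _
    · filter_upwards [hb] with i hi
      filter_upwards [hi] with x hx
      refine ENNReal.rpow_le_rpow ?_ hp1.le
      rw [← ofReal_norm, ← ofReal_norm]
      exact ENNReal.ofReal_le_ofReal (hx.trans (le_abs_self _))
    · exact (lintegral_rpow_enorm_lt_top_of_eLpNorm_lt_top hp0 hp hB.2).ne
    · filter_upwards [ht] with x hx
      have h2 : Tendsto (fun i => ‖f i x - g x‖ₑ) l (𝓝 0) := by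
        have h3 : Tendsto (fun i => f i x - g x) l (𝓝 0) := by
          simpa using hx.sub_const (g x)
        have := h3.enorm
        simpa using this
      have h3 := ((ENNReal.continuous_rpow_const (y := p.toReal)).tendsto 0).comp h2
      rw [ENNReal.zero_rpow_of_pos hp1] at h3
      exact h3
  rw [lintegral_zero] at h1
  have h2 := ((ENNReal.continuous_rpow_const (y := 1 / p.toReal)).tendsto 0).comp h1
  rw [ENNReal.zero_rpow_of_pos (by positivity)] at h2
  refine h2.congr fun i => ?_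
  rw [eLpNorm_eq_lintegral_rpow_enorm_toReal hp0 hp]
  rfl

theorem inner_int (t : ℝ) (ht : 0 < t) :
    ∫⁻ r in Ioo (-t) t, ENNReal.ofReal (2 * Real.pi * Real.sinh t * Real.exp (-r)) =
      ENNReal.ofReal (4 * Real.pi * Real.sinh t ^ 2) := by
  have hs := Real.sinh_pos_iff.2 ht
  have hc : Continuous fun r : ℝ => 2 * Real.pi * Real.sinh t * Real.exp (-r) := by fun_prop
  rw [← ofReal_integral_eq_lintegral_ofReal
    ((hc.integrableOn_Icc (a := -t) (b := t)).mono_set Ioo_subset_Icc_self)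
    (Eventually.of_forall fun r => by positivity)]
  congr 1
  rw [← integral_Ioc_eq_integral_Ioo, ← intervalIntegral.integral_of_le (by linarith),
    intervalIntegral.integral_const_mul]
  have : ∫ r in (-t)..t, Real.exp (-r) = Real.exp t - Real.exp (-t) := by
    rw [intervalIntegral.integral_comp_neg (fun r => Real.exp r), integral_exp, neg_neg]
  rw [this, Real.sinh_eq]
  ring

theorem ae_pos (h1 : S_DIST) {x₀ : Hs} (h0 : 0 < x₀.2) : ∀ᵐ x ∂mu, 0 < dH x₀ x := by
  have e1 : ∀ᵐ x ∂mu, 0 < x.2 :=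
    (withDensity_absolutelyContinuous _ _).ae_le
      (ae_restrict_mem (measurableSet_lt measurable_const measurable_snd))
  have e2 : ∀ᵐ x ∂mu, x ≠ x₀ := by
    have h3 : ∀ᵐ x ∂(volume : Measure Hs), x ≠ x₀ := by
      rw [Measure.volume_eq_prod]
      exact Measure.ae_ne _ x₀
    exact (withDensity_absolutelyContinuous _ _).ae_le (ae_restrict_of_ae h3)
  filter_upwards [e1, e2] with x hx hx'
  obtain ⟨-, h2, -, -, h5⟩ := h1.1 x₀ x h0 hx
  exact lt_of_le_of_ne h2 fun h => hx' (h5 h.symm).symm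

theorem meas_dH (h1 : S_DIST) (x₀ : Hs) : Measurable (fun x : Hs => dH x₀ x) := by
  obtain ⟨-, h2⟩ := h1
  have h : Measurable fun x : Hs => ((x₀, x) : Hs × Hs) := measurable_const.prodMk measurable_id
  have h3 := Measurable.comp h2 h
  simp only [Function.comp_def] at h3
  exact h3

theorem pp_ne {s : ℝ} (hs1 : s < 1) : pp s ≠ 0 ∧ pp s ≠ ∞ ∧ (pp s).toReal = 2 / (1 - s) := by
  have h : 0 < 2 / (1 - s) := div_pos two_pos (by linarith)
  exact ⟨(ENNReal.ofReal_pos.2 h).ne', ENNReal.ofReal_ne_top, ENNReal.toReal_ofReal h.le⟩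

theorem dom_mem (h1 : S_DIST) (h2 : S_RAD) {s : ℝ} (hs1 : s < 1) {x₀ : Hs} (h0 : 0 < x₀.2)
    {D : ℝ → ℝ} (hDm : Measurable D) (hD0 : ∀ t, 0 ≤ D t)
    (hDi : ∫⁻ t in Ioi (0 : ℝ), ENNReal.ofReal (D t ^ (2 / (1 - s)) * Real.sinh t ^ 2) < ∞) :
    MemLp (fun x => D (dH x₀ x)) (pp s) mu := by
  obtain ⟨p1, p2, p3⟩ := pp_ne hs1
  have hq : 0 < 2 / (1 - s) := div_pos two_pos (by linarith)
  refine ⟨(hDm.comp (meas_dH h1 x₀)).aestronglyMeasurable, ?_⟩
  rw [eLpNorm_lt_top_iff_lintegral_rpow_enorm_lt_top p1 p2, p3]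
  have hF : Measurable fun t : ℝ => ‖D t‖ₑ ^ (2 / (1 - s)) := hDm.enorm.pow_const _
  have h3 := h2 x₀ h0 (fun t => ‖D t‖ₑ ^ (2 / (1 - s))) (fun _ => 1) hF measurable_const
  simp only [mul_one] at h3
  rw [h3]
  have h4 : ∀ t ∈ Ioi (0 : ℝ), ∫⁻ r in Ioo (-t) t, ‖D t‖ₑ ^ (2 / (1 - s)) *
      ENNReal.ofReal (2 * Real.pi * Real.sinh t * Real.exp (-r)) =
      ENNReal.ofReal (4 * Real.pi) *
        ENNReal.ofReal (D t ^ (2 / (1 - s)) * Real.sinh t ^ 2) := by
    intro t ht
    rw [lintegral_const_mul _ (by fun_prop), inner_int t ht, ← ofReal_norm, Real.norm_eq_abs,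
      abs_of_nonneg (hD0 t), ENNReal.ofReal_rpow_of_nonneg (hD0 t) hq.le,
      ← ENNReal.ofReal_mul (by positivity [Real.rpow_nonneg (hD0 t) (2 / (1 - s))]),
      ← ENNReal.ofReal_mul (by positivity)]
    congr 1
    ring
  rw [setLIntegral_congr_fun measurableSet_Ioi h4, lintegral_const_mul]
  · exact ENNReal.mul_lt_top ENNReal.ofReal_lt_top hDi
  · exact ((hDm.pow_const _).mul (Real.continuous_sinh.measurable.pow_const _)).ennreal_ofReal

theorem strip_convex (s : ℝ) : Convex ℝ {z : ℂ | |z.im| ≤ s} := by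
  have : {z : ℂ | |z.im| ≤ s} = Complex.imLm ⁻¹' Icc (-s) s := by
    ext z
    simp [abs_le]
  rw [this]
  exact (convex_Icc (-s) s).linear_preimage _

end HOLV

open HOLV

theorem t_HOLV (h1 : S_DIST) (h2 : S_RAD) (h3 : S_DOM) (h4 : S_MEM) : S_HOLV := by
  intro s hs hs1 _ a ha x₀ hx₀ φ
  obtain ⟨D, hDm, hD0, hD, hGm, hDi⟩ := h3 s hs hs1 a ha
  obtain ⟨p1, p2, p3⟩ := pp_ne hs1
  have hd := meas_dH h1 x₀
  have hae := ae_pos h1 hx₀
  have hDL := dom_mem h1 h2 hs1 hx₀ hDm hD0 hDi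
  have hB : MemLp (fun x => 2 * D (dH x₀ x)) (pp s) mu := hDL.const_mul 2
  have hE : ∀ z : ℂ, ∀ hz : |z.im| ≤ s, el (pp s) (fun x => GG a z (dH x₀ x)) =
      (h4 s hs hs1 a ha x₀ hx₀ z hz).toLp _ := fun z hz => dif_pos _
  have hF : ∀ z : ℂ, Measurable fun x => GG a z (dH x₀ x) := fun z => (hGm z).comp hd
  have hc : ContinuousOn (fun z => el (pp s) fun x => GG a z (dH x₀ x)) {z : ℂ | |z.im| ≤ s} := by
    intro z hz
    rw [ContinuousWithinAt, tendsto_iff_edist_tendsto_0]
    have k1 := gl (l := 𝓝[{z : ℂ | |z.im| ≤ s}] z) p1 p2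
      (f := fun w x => GG a w (dH x₀ x)) (g := fun x => GG a z (dH x₀ x))
      (B := fun x => 2 * D (dH x₀ x)) (μ := mu) (Eventually.of_forall hF) (hF z) hB
      (by
        filter_upwards [self_mem_nhdsWithin] with w hw
        filter_upwards [hae] with x hx
        have e1 := ((hD _ hx).2 w hw).1
        have e2 := ((hD _ hx).2 z hz).1
        refine (norm_sub_le _ _).trans ?_
        linarith)
      (by
        filter_upwards [hae] with x hx
        exact ((hD _ hx).1.continuous.tendsto z).mono_left nhdsWithin_le_nhds)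
    refine k1.congr' ?_
    filter_upwards [self_mem_nhdsWithin] with w hw
    rw [hE w hw, hE z hz, Lp.edist_toLp_toLp]
  refine ⟨φ.continuous.comp_continuousOn hc, ?_⟩
  suffices hdiff : DifferentiableOn ℂ (fun z => el (pp s) fun x => GG a z (dH x₀ x))
      {z : ℂ | |z.im| < s} from φ.differentiable.comp_differentiableOn hdiff
  intro z hz
  have hz' : |z.im| ≤ s := le_of_lt hz
  refine DifferentiableAt.differentiableWithinAt ?_
  -- the derivative
  let g : Hs → ℂ := fun x => if 0 < dH x₀ x then deriv (fun w => GG a w (dH x₀ x)) z else 0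
  have hmp : MeasurableSet {x : Hs | 0 < dH x₀ x} := measurableSet_lt measurable_const hd
  have hsl : ∀ t, 0 < t → Tendsto (fun w => (w - z)⁻¹ * (GG a w t - GG a z t)) (𝓝[≠] z)
      (𝓝 (deriv (fun w => GG a w t) z)) := by
    intro t ht
    have := ((hD t ht).1 z).hasDerivAt
    rw [hasDerivAt_iff_tendsto_slope] at this
    refine this.congr fun w => ?_
    rw [slope_def_module, smul_eq_mul]
  have hseq : Tendsto (fun n : ℕ => z + (1 / ((n : ℂ) + 1))) atTop (𝓝[≠] z) := by
    rw [tendsto_nhdsWithin_iff]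
    constructor
    · have := (tendsto_one_div_add_atTop_nhds_zero_nat (𝕜 := ℂ)).const_add z
      simpa using this
    · refine Eventually.of_forall fun n => ?_
      have h0 : ((n : ℂ) + 1) ≠ 0 := Nat.cast_add_one_ne_zero n
      simp only [mem_compl_iff, mem_singleton_iff, add_eq_left, one_div, inv_eq_zero]
      exact h0
  have hg : Measurable g := by
    have hfn : ∀ n : ℕ, Measurable fun x : Hs => if 0 < dH x₀ x then
        ((z + (1 / ((n : ℂ) + 1))) - z)⁻¹ * (GG a (z + (1 / ((n : ℂ) + 1))) (dH x₀ x) -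
          GG a z (dH x₀ x)) else 0 := fun n =>
      Measurable.ite hmp (((hF _).sub (hF z)).const_mul _) measurable_const
    refine measurable_of_tendsto_metrizable hfn (tendsto_pi_nhds.2 fun x => ?_)
    by_cases hx : 0 < dH x₀ x
    · simp only [g, hx, if_true]
      exact (hsl _ hx).comp hseq
    · simp only [g, hx, if_false]
      exact tendsto_const_nhds
  have hgb : ∀ x, ‖g x‖ ≤ D (dH x₀ x) := by
    intro x
    by_cases hx : 0 < dH x₀ x
    · simp only [g, hx, if_true]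
      exact ((hD _ hx).2 z hz').2
    · simp only [g, hx, if_false, norm_zero]
      exact hD0 _
  have hgL : MemLp g (pp s) mu :=
    hDL.mono hg.aestronglyMeasurable (Eventually.of_forall fun x =>
      (hgb x).trans (le_abs_self _))
  have hnb : ∀ᶠ w in 𝓝[≠] z, |w.im| ≤ s := by
    have : {w : ℂ | |w.im| < s} ∈ 𝓝 z :=
      (isOpen_lt (by fun_prop) continuous_const).mem_nhds hz
    filter_upwards [mem_nhdsWithin_of_mem_nhds this] with w hw
    exact le_of_lt hw
  refine HasDerivAt.differentiableAt (f' := hgL.toLp g) ?_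
  rw [hasDerivAt_iff_tendsto_slope, tendsto_iff_edist_tendsto_0]
  have k1 := gl (l := 𝓝[≠] z) p1 p2
    (f := fun w x => (w - z)⁻¹ * (GG a w (dH x₀ x) - GG a z (dH x₀ x))) (g := g)
    (B := fun x => 2 * D (dH x₀ x)) (μ := mu)
    (Eventually.of_forall fun w => ((hF w).sub (hF z)).const_mul _) hg hB
    (by
      filter_upwards [hnb, self_mem_nhdsWithin] with w hw hwz
      filter_upwards [hae] with x hx
      have e1 : ‖GG a w (dH x₀ x) - GG a z (dH x₀ x)‖ ≤ D (dH x₀ x) * ‖w - z‖ :=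
        (strip_convex s).norm_image_sub_le_of_norm_deriv_le (f := fun w => GG a w (dH x₀ x))
          (fun u _ => (hD _ hx).1 u) (fun u hu => ((hD _ hx).2 u hu).2) hz' hw
      have e2 : 0 < ‖w - z‖ := norm_pos_iff.2 (sub_ne_zero.2 hwz)
      have e3 : ‖(w - z)⁻¹ * (GG a w (dH x₀ x) - GG a z (dH x₀ x))‖ ≤ D (dH x₀ x) := by
        rw [norm_mul, norm_inv, inv_mul_le_iff₀ e2, mul_comm]
        exact e1
      refine (norm_sub_le _ _).trans ?_
      linarith [hgb x])
    (by
      filter_upwards [hae] with x hx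
      have e1 : g x = deriv (fun w => GG a w (dH x₀ x)) z := if_pos hx
      rw [e1]
      exact hsl _ hx)
  refine k1.congr' ?_
  filter_upwards [hnb] with w hw
  have hm := ((h4 s hs hs1 a ha x₀ hx₀ w hw).sub (h4 s hs hs1 a ha x₀ hx₀ z hz')).const_smul
    ((w - z)⁻¹)
  have e1 : slope (fun z => el (pp s) fun x => GG a z (dH x₀ x)) z w = hm.toLp _ := by
    rw [slope_def_module, hE w hw, hE z hz', ← MemLp.toLp_sub, ← MemLp.toLp_const_smul]
  rw [e1, Lp.edist_toLp_toLp]
  rfl

end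

end Pool.Agent.N46.HM
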