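import Pool.Agent.N46.HM.Stm

/-!
# Project HM (helper46): leaf INV, the measure of hyperbolic three-space is invariant (helper901)
-/

set_option autoImplicit false

open MeasureTheory Set Filter
open scoped ENNReal Topology ComplexConjugate

namespace Pool.Agent.N46.HM

namespace INV

lemma hs_meas : MeasurableSet {x : Hs | 0 < x.2} :=
  measurableSet_lt measurable_const measurable_snd

lemma mu_apply (B : Set Hs) (hB : MeasurableSet B) :
    mu B = ∫⁻ x in {x : Hs | 0 < x.2}, ENNReal.ofReal ((x.2 ^ 3)⁻¹) * B.indicator 1 x := by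
  rw [mu, withDensity_apply _ hB, ← lintegral_indicator hB]
  congr 1
  ext x
  by_cases hx : x ∈ B <;> simp [hx]

/-- a criterion with the Jacobian determinant -/
lemma pres_of_jac (F : Hs → Hs) (F' : Hs → Hs →L[ℝ] Hs) (hmeas : Measurable F)
    (hF : ∀ x : Hs, 0 < x.2 → HasFDerivAt F (F' x) x)
    (hinj : InjOn F {x | 0 < x.2}) (himg : F '' {x | 0 < x.2} = {x | 0 < x.2})
    (hdet : ∀ x : Hs, 0 < x.2 → |(F' x).det| * ((F x).2 ^ 3)⁻¹ = (x.2 ^ 3)⁻¹) :
    MeasurePreserving F mu mu := by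
  have : (volume : Measure Hs).IsAddHaarMeasure :=
    Measure.prod.instIsAddHaarMeasure volume volume
  refine ⟨hmeas, ?_⟩
  ext A hA
  rw [Measure.map_apply hmeas hA, mu_apply _ (hmeas hA), mu_apply _ hA]
  conv_rhs => rw [← himg]
  rw [lintegral_image_eq_lintegral_abs_det_fderiv_mul volume hs_meas
    (fun x hx => (hF x hx).hasFDerivWithinAt) hinj]
  apply setLIntegral_congr_fun hs_meas
  intro x hx
  simp only
  rw [← mul_assoc, ← ENNReal.ofReal_mul (abs_nonneg _), hdet x hx]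
  rfl

/-! ### The inversion -/

/-- square of the Euclidean norm -/
noncomputable def nr (x : Hs) : ℝ := x.1.re ^ 2 + x.1.im ^ 2 + x.2 ^ 2

/-- its derivative -/
noncomputable def nr' (x : Hs) : Hs →L[ℝ] ℝ :=
  (2 * x.1.re) • (Complex.reCLM.comp (ContinuousLinearMap.fst ℝ ℂ ℝ)) +
  (2 * x.1.im) • (Complex.imCLM.comp (ContinuousLinearMap.fst ℝ ℂ ℝ)) +
  (2 * x.2) • ContinuousLinearMap.snd ℝ ℂ ℝ

lemma nr_deriv (x : Hs) : HasFDerivAt nr (nr' x) x := by
  have h1 : HasFDerivAt (fun x : Hs => x.1.re)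
      (Complex.reCLM.comp (ContinuousLinearMap.fst ℝ ℂ ℝ)) x :=
    (Complex.reCLM.comp (ContinuousLinearMap.fst ℝ ℂ ℝ)).hasFDerivAt
  have h2 : HasFDerivAt (fun x : Hs => x.1.im)
      (Complex.imCLM.comp (ContinuousLinearMap.fst ℝ ℂ ℝ)) x :=
    (Complex.imCLM.comp (ContinuousLinearMap.fst ℝ ℂ ℝ)).hasFDerivAt
  have h3 : HasFDerivAt (fun x : Hs => x.2) (ContinuousLinearMap.snd ℝ ℂ ℝ) x :=
    (ContinuousLinearMap.snd ℝ ℂ ℝ).hasFDerivAt
  have h4 := ((h1.pow 2).add (h2.pow 2)).add (h3.pow 2)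
  refine h4.congr_fderiv ?_
  ext v <;> simp [nr']

lemma nr_pos (x : Hs) (hx : 0 < x.2) : 0 < nr x := by
  unfold nr
  positivity

/-- the linear part -/
noncomputable def Lc : Hs →L[ℝ] Hs :=
  (-(Complex.conjCLE : ℂ →L[ℝ] ℂ)).prodMap (ContinuousLinearMap.id ℝ ℝ)

lemma Lc_apply (x : Hs) : Lc x = (-conj x.1, x.2) := rfl

lemma Lc_Lc (x : Hs) : Lc (Lc x) = x := by
  simp [Lc_apply]

lemma Lc_det : |LinearMap.det (Lc : Hs →ₗ[ℝ] Hs)| = 1 := by
  have h1 : (Lc : Hs →ₗ[ℝ] Hs) ∘ₗ (Lc : Hs →ₗ[ℝ] Hs) = LinearMap.id := by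
    ext x <;> simp [Lc_apply]
  have h2 : LinearMap.det (Lc : Hs →ₗ[ℝ] Hs) * LinearMap.det (Lc : Hs →ₗ[ℝ] Hs) = 1 := by
    rw [← LinearMap.det_comp, h1, LinearMap.det_id]
  have h3 : |LinearMap.det (Lc : Hs →ₗ[ℝ] Hs)| * |LinearMap.det (Lc : Hs →ₗ[ℝ] Hs)| = 1 := by
    rw [← abs_mul, h2, abs_one]
  nlinarith [abs_nonneg (LinearMap.det (Lc : Hs →ₗ[ℝ] Hs))]

/-- the inversion -/
noncomputable def Fi (x : Hs) : Hs := (nr x)⁻¹ • Lc x

/-- its derivative -/
noncomputable def Fi' (x : Hs) : Hs →L[ℝ] Hs :=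
  (nr x)⁻¹ • Lc + (-(nr x ^ 2)⁻¹ • nr' x).smulRight (Lc x)

lemma Fi_deriv (x : Hs) (hx : 0 < x.2) : HasFDerivAt Fi (Fi' x) x := by
  have h0 : nr x ≠ 0 := (nr_pos x hx).ne'
  have h1 : HasFDerivAt (fun x => (nr x)⁻¹) (-(nr x ^ 2)⁻¹ • nr' x) x :=
    (hasDerivAt_inv h0).comp_hasFDerivAt x (nr_deriv x)
  exact h1.smul (Lc.hasFDerivAt (x := x))

lemma nr'_self (x : Hs) : nr' x x = 2 * nr x := by
  simp only [nr', nr, add_apply, smul_apply, ContinuousLinearMap.comp_apply, Complex.reCLM_apply, Complex.imCLM_apply,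
    ContinuousLinearMap.coe_fst', ContinuousLinearMap.coe_snd', smul_eq_mul]
  ring

lemma Fi_det (x : Hs) (hx : 0 < x.2) : |(Fi' x).det| = ((nr x)⁻¹) ^ 3 := by
  have h0 : nr x ≠ 0 := (nr_pos x hx).ne'
  have h1 : (Fi' x : Hs →ₗ[ℝ] Hs) = (nr x)⁻¹ • ((Lc : Hs →ₗ[ℝ] Hs) ∘ₗ
      LinearMap.transvection (nr' x : Hs →ₗ[ℝ] ℝ) (-(nr x)⁻¹ • x)) := by
    apply LinearMap.ext
    intro w
    have h2 : (LinearMap.transvection (nr' x : Hs →ₗ[ℝ] ℝ) (-(nr x)⁻¹ • x)) w =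
        w + (nr' x w) • (-(nr x)⁻¹ • x) := rfl
    have h3 : (Fi' x : Hs →ₗ[ℝ] Hs) w = (nr x)⁻¹ • Lc w + (-(nr x ^ 2)⁻¹ • nr' x w) • Lc x := rfl
    rw [h3, LinearMap.smul_apply, LinearMap.comp_apply, h2]
    have h4 : (Lc : Hs →ₗ[ℝ] Hs) (w + (nr' x w) • (-(nr x)⁻¹ • x)) =
        Lc w + (nr' x w) • (-(nr x)⁻¹ • Lc x) := by
      change Lc _ = _
      rw [map_add, map_smul, map_smul]
    rw [h4, smul_add, smul_smul, smul_smul]
    congr 2
    rw [smul_eq_mul]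
    ring
  have hrank : Module.finrank ℝ Hs = 3 := by
    rw [Module.finrank_prod, Complex.finrank_real_complex, Module.finrank_self]
  have h5 : (Fi' x).det = LinearMap.det (Fi' x : Hs →ₗ[ℝ] Hs) := rfl
  rw [h5, h1, LinearMap.det_smul, hrank, LinearMap.det_comp, LinearMap.transvection.det]
  have h6 : (nr' x : Hs →ₗ[ℝ] ℝ) (-(nr x)⁻¹ • x) = -2 := by
    rw [map_smul]
    change -(nr x)⁻¹ • nr' x x = -2
    rw [nr'_self, smul_eq_mul]
    field_simp
  rw [h6, abs_mul, abs_mul, Lc_det, abs_of_pos (by have := nr_pos x hx; positivity)]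
  norm_num

lemma nr_Fi (x : Hs) (hx : 0 < x.2) : nr (Fi x) = (nr x)⁻¹ := by
  have h0 : nr x ≠ 0 := (nr_pos x hx).ne'
  have h1 : nr (Fi x) = ((nr x)⁻¹) ^ 2 * nr x := by
    rw [Fi, Lc_apply]
    simp only [nr, Prod.smul_mk, Complex.smul_re, Complex.smul_im, Complex.neg_re, Complex.neg_im,
      Complex.conj_re, Complex.conj_im, smul_eq_mul]
    ring
  rw [h1]
  field_simp

lemma Fi_pos (x : Hs) (hx : 0 < x.2) : 0 < (Fi x).2 := by
  have h0 := nr_pos x hx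
  rw [Fi, Lc_apply]
  simp only [Prod.smul_mk, smul_eq_mul]
  positivity

lemma Fi_Fi (x : Hs) (hx : 0 < x.2) : Fi (Fi x) = x := by
  have h0 : nr x ≠ 0 := (nr_pos x hx).ne'
  rw [Fi, nr_Fi x hx, inv_inv, Fi, map_smul, Lc_Lc, smul_smul, mul_inv_cancel₀ h0, one_smul]

lemma nr_meas : Measurable nr := by
  unfold nr
  fun_prop

lemma Fi_pres : MeasurePreserving Fi mu mu := by
  refine pres_of_jac Fi Fi' (nr_meas.inv.smul Lc.continuous.measurable) Fi_deriv ?_ ?_ ?_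
  · intro x hx y hy hxy
    rw [← Fi_Fi x hx, hxy, Fi_Fi y hy]
  · apply subset_antisymm
    · rintro _ ⟨x, hx, rfl⟩
      exact Fi_pos x hx
    · intro x hx
      exact ⟨Fi x, Fi_pos x hx, Fi_Fi x hx⟩
  · intro x hx
    have h0 := nr_pos x hx
    have h1 : (Fi x).2 = (nr x)⁻¹ * x.2 := by
      rw [Fi, Lc_apply]
      simp only [Prod.smul_mk, smul_eq_mul]
    have hx' : 0 < x.2 := hx
    rw [Fi_det x hx, h1]
    field_simp

/-! ### Triangular matrices -/

/-- the affine map -/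
noncomputable def Ft (a b : ℂ) (x : Hs) : Hs := (a ^ 2 * x.1 + a * b, ‖a‖ ^ 2 * x.2)

/-- its derivative -/
noncomputable def Ft' (a : ℂ) : Hs →L[ℝ] Hs :=
  (ContinuousLinearMap.mul ℝ ℂ (a ^ 2)).prodMap (ContinuousLinearMap.mul ℝ ℝ (‖a‖ ^ 2))

lemma Ft'_det (a : ℂ) : (Ft' a).det = (‖a‖ ^ 2) ^ 3 := by
  have h1 : (Ft' a : Hs →ₗ[ℝ] Hs) =
      LinearMap.prodMap (LinearMap.mul ℝ ℂ (a ^ 2)) (LinearMap.mul ℝ ℝ (‖a‖ ^ 2)) := by
    apply LinearMap.ext
    intro w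
    rfl
  have h2 : (Ft' a).det = LinearMap.det (Ft' a : Hs →ₗ[ℝ] Hs) := rfl
  have h3 : LinearMap.det (LinearMap.mul ℝ ℂ (a ^ 2)) = (‖a‖ ^ 2) ^ 2 := by
    have h4 := Algebra.norm_complex_apply (a ^ 2)
    rw [Algebra.norm_apply] at h4
    have h5 : Complex.normSq (a ^ 2) = (‖a‖ ^ 2) ^ 2 := by
      rw [map_pow, Complex.normSq_eq_norm_sq]
    rw [← h5, ← h4]
    rfl
  have h6 : LinearMap.det (LinearMap.mul ℝ ℝ (‖a‖ ^ 2)) = ‖a‖ ^ 2 := by
    rw [LinearMap.det_ring]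
    simp
  rw [h2, h1, LinearMap.det_prodMap, h3, h6]
  ring

lemma Ft_deriv (a b : ℂ) (x : Hs) : HasFDerivAt (Ft a b) (Ft' a) x := by
  have h1 : HasFDerivAt (fun x : Hs => Ft' a x + (a * b, (0 : ℝ))) (Ft' a) x :=
    (Ft' a).hasFDerivAt.add_const _
  refine h1.congr_of_eventuallyEq (Filter.Eventually.of_forall fun y => ?_)
  change (a ^ 2 * y.1 + a * b, ‖a‖ ^ 2 * y.2) = (a ^ 2 * y.1 + a * b, ‖a‖ ^ 2 * y.2 + 0)
  rw [add_zero]

lemma Ft_pres (a b : ℂ) (ha : a ≠ 0) : MeasurePreserving (Ft a b) mu mu := by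
  have hn : 0 < ‖a‖ := norm_pos_iff.mpr ha
  refine pres_of_jac (Ft a b) (fun _ => Ft' a) ?_ (fun x _ => Ft_deriv a b x) ?_ ?_ ?_
  · unfold Ft
    fun_prop
  · intro x _ y _ hxy
    simp only [Ft, Prod.mk.injEq] at hxy
    obtain ⟨h1, h2⟩ := hxy
    have h3 : x.1 = y.1 := by
      have h4 : a ^ 2 * x.1 = a ^ 2 * y.1 := by linear_combination h1
      exact mul_left_cancel₀ (pow_ne_zero 2 ha) h4
    have h4 : x.2 = y.2 := mul_left_cancel₀ (pow_pos hn 2).ne' h2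
    exact Prod.ext h3 h4
  · apply subset_antisymm
    · rintro _ ⟨x, hx, rfl⟩
      have hx' : 0 < x.2 := hx
      simp only [Ft, mem_ofPred_eq]
      positivity
    · intro x hx
      have hx' : 0 < x.2 := hx
      refine ⟨((x.1 - a * b) / a ^ 2, x.2 / ‖a‖ ^ 2), ?_, ?_⟩
      · simp only [mem_ofPred_eq]
        positivity
      · simp only [Ft]
        ext1
        · simp only
          field_simp
          ring
        · simp only
          field_simp
  · intro x hx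
    have hx' : 0 < x.2 := hx
    simp only [Ft]
    rw [Ft'_det, abs_of_pos (by positivity)]
    field_simp

/-! ### The action -/

lemma act_meas (g : Matrix.SpecialLinearGroup (Fin 2) ℂ) : Measurable (act g) := by
  have h1 : Measurable (dn g) := by
    apply Continuous.measurable
    unfold dn
    fun_prop
  have h2 : Measurable fun x : Hs => ((g.1 0 0 * x.1 + g.1 0 1) *
      conj (g.1 1 0 * x.1 + g.1 1 1) + g.1 0 0 * conj (g.1 1 0) * (x.2 : ℂ) ^ 2) := by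
    apply Continuous.measurable
    fun_prop
  exact (h2.div (Complex.measurable_ofReal.comp h1)).prodMk (measurable_snd.div h1)

lemma act_tri (g : Matrix.SpecialLinearGroup (Fin 2) ℂ) (hc : g.1 1 0 = 0) :
    g.1 0 0 ≠ 0 ∧ act g = Ft (g.1 0 0) (g.1 0 1) := by
  have hdet := g.2
  rw [Matrix.det_fin_two, hc, mul_zero, sub_zero] at hdet
  have ha : g.1 0 0 ≠ 0 := left_ne_zero_of_mul_eq_one hdet
  have hd : g.1 1 1 ≠ 0 := right_ne_zero_of_mul_eq_one hdet
  refine ⟨ha, ?_⟩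
  funext x
  have hn : ‖g.1 0 0‖ * ‖g.1 1 1‖ = 1 := by rw [← norm_mul, hdet, norm_one]
  have hdn : dn g x = ‖g.1 1 1‖ ^ 2 := by simp [dn, hc]
  have hnd : ‖g.1 1 1‖ ≠ 0 := norm_ne_zero_iff.mpr hd
  have hcd : conj (g.1 1 1) ≠ 0 := by simpa using hd
  have hsq : ((‖g.1 1 1‖ ^ 2 : ℝ) : ℂ) = g.1 1 1 * conj (g.1 1 1) := by
    rw [Complex.mul_conj, Complex.normSq_eq_norm_sq]
  have hinv : g.1 0 0 = (g.1 1 1)⁻¹ := eq_inv_of_mul_eq_one_left hdet
  simp only [act, Ft, hdn, hsq, hc]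
  ext1
  · simp only [zero_mul, zero_add, map_zero, mul_zero, add_zero]
    rw [mul_div_mul_right _ _ hcd, div_eq_mul_inv, ← hinv]
    ring
  · simp only
    have h1 : ‖g.1 0 0‖ = ‖g.1 1 1‖⁻¹ := eq_inv_of_mul_eq_one_left hn
    rw [h1]
    field_simp

/-- the matrix of the inversion -/
def Jm : Matrix.SpecialLinearGroup (Fin 2) ℂ := ⟨!![0, -1; 1, 0], by simp [Matrix.det_fin_two]⟩

lemma act_J : act Jm = Fi := by
  funext x
  have hdn : dn Jm x = nr x := by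
    simp only [dn, Jm, nr, Matrix.of_apply, Matrix.cons_val_zero, Matrix.cons_val_one,
      Matrix.cons_val', Matrix.cons_val_fin_one, one_mul, add_zero, norm_one, one_pow]
    rw [Complex.sq_norm, Complex.normSq_apply]
    ring
  simp only [act, hdn, Fi, Lc_apply]
  simp only [Jm, Matrix.of_apply, Matrix.cons_val_zero, Matrix.cons_val_one,
      Matrix.cons_val', Matrix.cons_val_fin_one, one_mul, add_zero, zero_mul, zero_add,
      Prod.smul_mk, Complex.real_smul, smul_eq_mul, Complex.ofReal_inv]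
  ext1
  · simp only
    rw [div_eq_mul_inv]
    ring
  · simp only
    rw [div_eq_mul_inv]
    ring

end INV

open INV

/-- INV -/
theorem t_INV (h : S_ISO) : S_INV := by
  obtain ⟨hpos, hmul, -⟩ := h
  intro g
  by_cases hc : g.1 1 0 = 0
  · obtain ⟨ha, h1⟩ := act_tri g hc
    rw [h1]
    exact Ft_pres _ _ ha
  · set c : ℂ := g.1 1 0 with hcdef
    have hdet := g.2
    rw [Matrix.det_fin_two] at hdet
    let U : Matrix.SpecialLinearGroup (Fin 2) ℂ :=
      ⟨!![1, g.1 0 0 / c; 0, 1], by simp [Matrix.det_fin_two]⟩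
    let B : Matrix.SpecialLinearGroup (Fin 2) ℂ :=
      ⟨!![c, g.1 1 1; 0, c⁻¹], by simp [Matrix.det_fin_two, hc]⟩
    have hg : g = U * (Jm * B) := by
      apply Subtype.ext
      have hM : (U * (Jm * B)).1 = !![1, g.1 0 0 / c; 0, 1] *
          (!![0, -1; 1, 0] * !![c, g.1 1 1; 0, c⁻¹]) := rfl
      rw [hM, Matrix.mul_fin_two, Matrix.mul_fin_two, Matrix.eta_fin_two g.1]
      have e1 : g.1 0 0 = 1 * (0 * c + -1 * 0) + g.1 0 0 / c * (1 * c + 0 * 0) := by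
        field_simp
        ring
      have e2 : g.1 0 1 = 1 * (0 * g.1 1 1 + -1 * c⁻¹) +
          g.1 0 0 / c * (1 * g.1 1 1 + 0 * c⁻¹) := by
        rw [← hcdef] at hdet
        field_simp
        linear_combination -c * hdet
      have e3 : g.1 1 0 = 0 * (0 * c + -1 * 0) + 1 * (1 * c + 0 * 0) := by
        rw [hcdef]
        ring
      have e4 : g.1 1 1 = 0 * (0 * g.1 1 1 + -1 * c⁻¹) + 1 * (1 * g.1 1 1 + 0 * c⁻¹) := by
        ring
      simp only [Matrix.of_apply, Matrix.cons_val_zero, Matrix.cons_val_one,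
        Matrix.cons_val', Matrix.cons_val_fin_one]
      rw [← e1, ← e2, ← e3, ← e4]
    have hU : MeasurePreserving (act U) mu mu := by
      obtain ⟨ha, h1⟩ := act_tri U (by simp [U])
      rw [h1]
      exact Ft_pres _ _ ha
    have hB : MeasurePreserving (act B) mu mu := by
      obtain ⟨ha, h1⟩ := act_tri B (by simp [B])
      rw [h1]
      exact Ft_pres _ _ ha
    have hJ : MeasurePreserving (act Jm) mu mu := by
      rw [act_J]
      exact Fi_pres
    have hcomp := hU.comp (hJ.comp hB)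
    have hae : act g =ᵐ[mu] act U ∘ act Jm ∘ act B := by
      have h1 : ∀ᵐ x ∂mu, 0 < x.2 :=
        (withDensity_absolutelyContinuous _ _).ae_le (ae_restrict_mem hs_meas)
      filter_upwards [h1] with x hx
      rw [hg, hmul U (Jm * B) x hx, hmul Jm B x hx]
      rfl
    exact ⟨act_meas g, by rw [Measure.map_congr hae]; exact hcomp.map_eq⟩

end Pool.Agent.N46.HM
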