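import Pool.Agent.N46.HM.Stm

/-!
# Project HM, part ISO: the action of `SL(2, ℂ)` on hyperbolic three-space (helper547)
-/

set_option autoImplicit false
set_option linter.all false

open MeasureTheory Set Filter
open scoped ENNReal Topology ComplexConjugate

namespace Pool.Agent.N46.HM

namespace ISO

abbrev SL : Type := Matrix.SpecialLinearGroup (Fin 2) ℂ

/-- numerator of the first coordinate -/
noncomputable def Nn (g : SL) (x : Hs) : ℂ :=
  (g.1 0 0 * x.1 + g.1 0 1) * conj (g.1 1 0 * x.1 + g.1 1 1) +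
    g.1 0 0 * conj (g.1 1 0) * (x.2 : ℂ) ^ 2

noncomputable def An (g : SL) (x : Hs) : ℝ :=
  ‖g.1 0 0 * x.1 + g.1 0 1‖ ^ 2 + ‖g.1 0 0‖ ^ 2 * x.2 ^ 2

theorem act_def (g : SL) (x : Hs) : act g x = (Nn g x / (dn g x : ℂ), x.2 / dn g x) := rfl

theorem det1 (g : SL) : g.1 0 0 * g.1 1 1 - g.1 0 1 * g.1 1 0 = 1 := by
  have := g.2
  rwa [Matrix.det_fin_two] at this

theorem det2 (g : SL) : conj (g.1 0 0) * conj (g.1 1 1) - conj (g.1 0 1) * conj (g.1 1 0) = 1 := by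
  have := congrArg conj (det1 g)
  simpa only [map_sub, map_mul, map_one] using this

theorem nsq (z : ℂ) : ((‖z‖ ^ 2 : ℝ) : ℂ) = z * conj z := by
  rw [Complex.mul_conj']; push_cast; rfl

theorem dn_c (g : SL) (x : Hs) : (dn g x : ℂ) =
    (g.1 1 0 * x.1 + g.1 1 1) * (conj (g.1 1 0) * conj x.1 + conj (g.1 1 1)) +
      g.1 1 0 * conj (g.1 1 0) * (x.2 : ℂ) ^ 2 := by
  rw [dn, Complex.ofReal_add, Complex.ofReal_mul, nsq, nsq, Complex.ofReal_pow]
  simp only [map_add, map_mul]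

theorem An_c (g : SL) (x : Hs) : (An g x : ℂ) =
    (g.1 0 0 * x.1 + g.1 0 1) * (conj (g.1 0 0) * conj x.1 + conj (g.1 0 1)) +
      g.1 0 0 * conj (g.1 0 0) * (x.2 : ℂ) ^ 2 := by
  rw [An, Complex.ofReal_add, Complex.ofReal_mul, nsq, nsq, Complex.ofReal_pow]
  simp only [map_add, map_mul]

theorem Nn_c (g : SL) (x : Hs) : Nn g x =
    (g.1 0 0 * x.1 + g.1 0 1) * (conj (g.1 1 0) * conj x.1 + conj (g.1 1 1)) +
    g.1 0 0 * conj (g.1 1 0) * (x.2 : ℂ) ^ 2 := by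
  rw [Nn]; simp only [map_add, map_mul]

theorem Nn_cc (g : SL) (x : Hs) : conj (Nn g x) =
    (conj (g.1 0 0) * conj x.1 + conj (g.1 0 1)) * (g.1 1 0 * x.1 + g.1 1 1) +
    conj (g.1 0 0) * g.1 1 0 * (x.2 : ℂ) ^ 2 := by
  rw [Nn]; simp only [map_add, map_mul, Complex.conj_conj, map_pow, Complex.conj_ofReal]

theorem NA (g : SL) (x : Hs) : Nn g x * conj (Nn g x) + (x.2 : ℂ) ^ 2 = (An g x : ℂ) * (dn g x : ℂ) := by
  rw [Nn_cc, Nn_c, An_c, dn_c]
  have h1 := det1 g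
  have h2 := det2 g
  linear_combination (-(x.2 : ℂ) ^ 2 * (conj (g.1 0 0) * conj (g.1 1 1) - conj (g.1 0 1) * conj (g.1 1 0))) * h1 + (-(x.2 : ℂ) ^ 2) * h2

theorem QQ (g : SL) (x x' : Hs) : (An g x : ℂ) * (dn g x' : ℂ) + (An g x' : ℂ) * (dn g x : ℂ) -
    (Nn g x * conj (Nn g x') + conj (Nn g x) * Nn g x') =
    (x.1 - x'.1) * (conj x.1 - conj x'.1) + (x.2 : ℂ) ^ 2 + (x'.2 : ℂ) ^ 2 := by
  rw [Nn_cc, Nn_cc, Nn_c, Nn_c, An_c, dn_c, An_c, dn_c]
  have h1 := det1 g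
  have h2 := det2 g
  linear_combination (((x.1 - x'.1) * (conj x.1 - conj x'.1) + (x.2 : ℂ) ^ 2 + (x'.2 : ℂ) ^ 2) *
    (conj (g.1 0 0) * conj (g.1 1 1) - conj (g.1 0 1) * conj (g.1 1 0))) * h1 +
    ((x.1 - x'.1) * (conj x.1 - conj x'.1) + (x.2 : ℂ) ^ 2 + (x'.2 : ℂ) ^ 2) * h2

theorem dn_pos (g : SL) (x : Hs) (hx : 0 < x.2) : 0 < dn g x := by
  rw [dn]
  by_cases hc : g.1 1 0 = 0
  · have hd : g.1 1 1 ≠ 0 := by
      intro hd
      have := det1 g
      rw [hc, hd] at this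
      simp at this
    have : 0 < ‖g.1 1 1‖ := norm_pos_iff.2 hd
    rw [hc]
    simp only [zero_mul, zero_add, norm_zero]
    positivity
  · have : 0 < ‖g.1 1 0‖ := norm_pos_iff.2 hc
    positivity

theorem ch_act (g : SL) (x x' : Hs) (hx : 0 < x.2) (hx' : 0 < x'.2) :
    ch (act g x) (act g x') = ch x x' := by
  have hD := dn_pos g x hx
  have hD' := dn_pos g x' hx'
  have hDc : (dn g x : ℂ) ≠ 0 := by exact_mod_cast hD.ne'
  have hDc' : (dn g x' : ℂ) ≠ 0 := by exact_mod_cast hD'.ne'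
  have hxc : (x.2 : ℂ) ≠ 0 := by exact_mod_cast hx.ne'
  have hxc' : (x'.2 : ℂ) ≠ 0 := by exact_mod_cast hx'.ne'
  apply Complex.ofReal_injective
  rw [ch, ch, act_def, act_def]
  simp only
  rw [Complex.ofReal_add, Complex.ofReal_add, Complex.ofReal_div, Complex.ofReal_div,
    Complex.ofReal_add, Complex.ofReal_add, nsq, nsq]
  simp only [map_sub, map_div₀, Complex.conj_ofReal, Complex.ofReal_mul, Complex.ofReal_div,
    Complex.ofReal_sub, Complex.ofReal_pow, Complex.ofReal_one, Complex.ofReal_ofNat]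
  have e1 := NA g x
  have e2 := NA g x'
  have e3 := QQ g x x'
  set N := Nn g x
  set N' := Nn g x'
  set M := conj N
  set M' := conj N'
  set D : ℂ := (dn g x : ℂ)
  set D' : ℂ := (dn g x' : ℂ)
  set A : ℂ := (An g x : ℂ)
  set A' : ℂ := (An g x' : ℂ)
  field_simp
  linear_combination D' ^ 2 * e1 + D ^ 2 * e2 + D * D' * e3

theorem mul_ij (g h : SL) (i j : Fin 2) :
    (g * h).1 i j = g.1 i 0 * h.1 0 j + g.1 i 1 * h.1 1 j := by
  have : (g * h).1 = g.1 * h.1 := rfl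
  rw [this, Matrix.mul_apply, Fin.sum_univ_two]

theorem dn_mul (g h : SL) (x : Hs) (hx : 0 < x.2) :
    (dn g (act h x) : ℂ) * (dn h x : ℂ) = (dn (g * h) x : ℂ) := by
  have hD := dn_pos h x hx
  have hDc : (dn h x : ℂ) ≠ 0 := by exact_mod_cast hD.ne'
  have e1 := NA h x
  have e2 := Nn_c h x
  have e3 := Nn_cc h x
  have e4 := An_c h x
  have e5 := dn_c h x
  rw [dn_c g, dn_c (g * h), mul_ij, mul_ij, act_def]
  simp only [map_div₀, map_add, map_mul, Complex.conj_ofReal, Complex.ofReal_div]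
  generalize hN : Nn h x = N at *
  generalize hM : conj N = M at *
  generalize hDD : (dn h x : ℂ) = D at *
  generalize hAA : (An h x : ℂ) = A at *
  field_simp
  linear_combination (g.1 1 0 * conj (g.1 1 0)) * e1 + D * ((g.1 1 0 * conj (g.1 1 0)) * e4 +
    g.1 1 0 * conj (g.1 1 1) * e2 + conj (g.1 1 0) * g.1 1 1 * e3 + g.1 1 1 * conj (g.1 1 1) * e5)

theorem Nn_mul (g h : SL) (x : Hs) (hx : 0 < x.2) :
    Nn g (act h x) * (dn h x : ℂ) = Nn (g * h) x := by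
  have hD := dn_pos h x hx
  have hDc : (dn h x : ℂ) ≠ 0 := by exact_mod_cast hD.ne'
  have e1 := NA h x
  have e2 := Nn_c h x
  have e3 := Nn_cc h x
  have e4 := An_c h x
  have e5 := dn_c h x
  rw [Nn_c g, Nn_c (g * h), mul_ij, mul_ij, mul_ij, mul_ij, act_def]
  simp only [map_div₀, map_add, map_mul, Complex.conj_ofReal, Complex.ofReal_div]
  generalize hN : Nn h x = N at *
  generalize hM : conj N = M at *
  generalize hDD : (dn h x : ℂ) = D at *
  generalize hAA : (An h x : ℂ) = A at *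
  field_simp
  linear_combination (g.1 0 0 * conj (g.1 1 0)) * e1 + D * ((g.1 0 0 * conj (g.1 1 0)) * e4 +
    g.1 0 0 * conj (g.1 1 1) * e2 + g.1 0 1 * conj (g.1 1 0) * e3 + g.1 0 1 * conj (g.1 1 1) * e5)

theorem act_mul (g h : SL) (x : Hs) (hx : 0 < x.2) : act (g * h) x = act g (act h x) := by
  have hD := dn_pos h x hx
  have hDc : (dn h x : ℂ) ≠ 0 := by exact_mod_cast hD.ne'
  have hy : 0 < (act h x).2 := div_pos hx hD
  have hE := dn_pos g (act h x) hy
  have hEc : (dn g (act h x) : ℂ) ≠ 0 := by exact_mod_cast hE.ne'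
  have e1 := dn_mul g h x hx
  have e1' : dn g (act h x) * dn h x = dn (g * h) x := by exact_mod_cast e1
  have e2 := Nn_mul g h x hx
  rw [act_def (g * h) x, act_def g (act h x), ← e1', ← e2]
  ext1
  · simp only [Complex.ofReal_mul]
    rw [mul_div_mul_right _ _ hDc]
  · simp only
    rw [show (act h x).2 = x.2 / dn h x from rfl]
    field_simp

end ISO

open ISO in
theorem t_ISO : S_ISO := by
  refine ⟨fun g x hx => ⟨dn_pos g x hx, div_pos hx (dn_pos g x hx), fun x' hx' => ?_⟩,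
    fun g h x hx => act_mul g h x hx, fun x => ?_⟩
  · have := ch_act g x x' hx hx'
    exact ⟨this, by rw [dH, dH, this]⟩
  · rw [act, dn]
    simp

end Pool.Agent.N46.HM
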