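import Pool.Agent.N46.HM.Stm

/-!
# Project HM, part KAP: properties of the kernel (helper547)
-/

set_option autoImplicit false
set_option linter.all false

open MeasureTheory Set Filter
open scoped ENNReal Topology ComplexConjugate

namespace Pool.Agent.N46.HM

namespace KAP

/-- the primitive of the cosine -/
noncomputable def Pf (l : ℂ) (t : ℝ) : ℂ := ∫ r in (0 : ℝ)..t, Complex.cos (l * r)

theorem cont_cos (l : ℂ) : Continuous fun r : ℝ => Complex.cos (l * r) := by fun_prop

theorem Pf_deriv (l : ℂ) (t : ℝ) : HasDerivAt (Pf l) (Complex.cos (l * t)) t :=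
  intervalIntegral.integral_hasDerivAt_right ((cont_cos l).intervalIntegrable _ _)
    ((cont_cos l).stronglyMeasurableAtFilter _ _) (cont_cos l).continuousAt

theorem sph_P (l : ℂ) (t : ℝ) (ht : 0 < t) : sph l t * (Real.sinh t : ℂ) = Pf l t := by
  have hs : (Real.sinh t : ℂ) ≠ 0 := by
    have : 0 < Real.sinh t := Real.sinh_pos_iff.2 ht
    exact_mod_cast this.ne'
  have c1 : Continuous fun r : ℝ => Complex.exp (-(Complex.I * l * r)) := by fun_prop
  have c2 : Continuous fun r : ℝ => Complex.exp (-(Complex.I * l * ((-r : ℝ) : ℂ))) := by fun_prop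
  have h1 : ∫ r in (-t)..t, Complex.exp (-(Complex.I * l * r)) = 2 * Pf l t := by
    rw [← intervalIntegral.integral_add_adjacent_intervals (c1.intervalIntegrable (-t) 0)
      (c1.intervalIntegrable 0 t)]
    have h2 : ∫ r in (-t)..0, Complex.exp (-(Complex.I * l * r)) =
        ∫ r in (0 : ℝ)..t, Complex.exp (-(Complex.I * l * ((-r : ℝ) : ℂ))) := by
      have := intervalIntegral.integral_comp_neg (a := 0) (b := t)
        (fun r : ℝ => Complex.exp (-(Complex.I * l * r)))
      rw [this, neg_zero]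
    rw [h2, ← intervalIntegral.integral_add (c2.intervalIntegrable _ _)
      (c1.intervalIntegrable _ _), Pf, ← intervalIntegral.integral_const_mul]
    apply intervalIntegral.integral_congr
    intro r _
    simp only [Complex.cos]
    push_cast
    rw [show -(Complex.I * l * -(r : ℂ)) = l * r * Complex.I by ring,
      show -(Complex.I * l * (r : ℂ)) = -(l * r) * Complex.I by ring]
    ring
  rw [sph, h1]
  field_simp

theorem norm_cos_le (z : ℂ) : ‖Complex.cos z‖ ≤ Real.exp |z.im| := by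
  rw [Complex.cos, norm_div, Complex.norm_ofNat, div_le_iff₀ (by norm_num)]
  refine (norm_add_le _ _).trans ?_
  rw [Complex.norm_exp, Complex.norm_exp]
  have h1 : (z * Complex.I).re ≤ |z.im| := by
    simp only [Complex.mul_re, Complex.I_re, Complex.I_im, mul_zero, mul_one, zero_sub]
    exact neg_le_abs _
  have h2 : (-z * Complex.I).re ≤ |z.im| := by
    simp only [Complex.mul_re, Complex.I_re, Complex.I_im, mul_zero, mul_one, zero_sub,
      Complex.neg_re, Complex.neg_im, neg_neg]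
    exact le_abs_self _
  have := Real.exp_le_exp.2 h1
  have := Real.exp_le_exp.2 h2
  linarith

theorem norm_Pf (l : ℂ) (t : ℝ) (ht : 0 ≤ t) : ‖Pf l t‖ ≤ t * Real.exp (|l.im| * t) := by
  rw [Pf]
  have := intervalIntegral.norm_integral_le_of_norm_le_const (a := 0) (b := t)
    (f := fun r : ℝ => Complex.cos (l * r)) (C := Real.exp (|l.im| * t)) ?_
  · rw [sub_zero, abs_of_nonneg ht] at this
    linarith
  · intro r hr
    rw [uIoc_of_le ht] at hr
    refine (norm_cos_le _).trans (Real.exp_le_exp.2 ?_)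
    simp only [Complex.mul_im, Complex.ofReal_im, mul_zero, zero_add, Complex.ofReal_re]
    rw [abs_mul, abs_of_pos hr.1]
    exact mul_le_mul_of_nonneg_left hr.2 (abs_nonneg _)

theorem num_nonneg (x : ℝ) (hx : 0 ≤ x) : 0 ≤ x * Real.cosh x - Real.sinh x := by
  have hm : MonotoneOn (fun x : ℝ => x * Real.cosh x - Real.sinh x) (Ici 0) := by
    apply monotoneOn_of_deriv_nonneg (convex_Ici 0)
    · fun_prop
    · intro x hx
      exact (by fun_prop : DifferentiableAt ℝ (fun x : ℝ => x * Real.cosh x - Real.sinh x) x).differentiableWithinAt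
    · intro x hx
      rw [interior_Ici, mem_Ioi] at hx
      have h1 : HasDerivAt (fun x : ℝ => x * Real.cosh x - Real.sinh x)
          (1 * Real.cosh x + x * Real.sinh x - Real.cosh x) x :=
        ((hasDerivAt_id x).mul (Real.hasDerivAt_cosh x)).sub (Real.hasDerivAt_sinh x)
      rw [h1.deriv]
      have := Real.sinh_pos_iff.2 hx
      have := mul_pos hx this
      linarith
  have := hm (mem_Ici.2 le_rfl) (mem_Ici.2 hx) hx
  simpa using this

/-- the function `(x cosh x - sinh x) / sinh² x` -/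
noncomputable def Ph (x : ℝ) : ℝ := (x * Real.cosh x - Real.sinh x) / Real.sinh x ^ 2

theorem Ph_nonneg (x : ℝ) (hx : 0 ≤ x) : 0 ≤ Ph x := div_nonneg (num_nonneg x hx) (sq_nonneg _)

theorem Ph_le (x : ℝ) (hx : 0 < x) : Ph x ≤ 2 * x * Real.exp (-x) := by
  have hs : 0 < Real.sinh x := Real.sinh_pos_iff.2 hx
  have hc : 1 ≤ Real.cosh x := Real.one_le_cosh x
  have h1 : x ≤ Real.sinh x := Real.self_le_sinh_iff.2 hx.le
  have h2 : Real.cosh x ^ 2 = Real.sinh x ^ 2 + 1 := Real.cosh_sq x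
  have h3 : Real.exp x ≤ 2 * (Real.cosh x + 1) := by
    rw [Real.cosh_eq]
    have := Real.exp_pos (-x)
    linarith
  rw [Ph, div_le_iff₀ (by positivity)]
  have h4 : 1 ≤ Real.exp (-x) * (2 * (Real.cosh x + 1)) := by
    calc (1 : ℝ) = Real.exp (-x) * Real.exp x := by rw [← Real.exp_add]; simp
      _ ≤ _ := mul_le_mul_of_nonneg_left h3 (Real.exp_pos _).le
  have h5 : x * Real.cosh x - Real.sinh x ≤ x * (Real.cosh x - 1) := by linarith
  refine h5.trans ?_
  have h6 : Real.sinh x ^ 2 = (Real.cosh x - 1) * (Real.cosh x + 1) := by linarith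
  rw [h6]
  have h7 : 0 ≤ x * (Real.cosh x - 1) := mul_nonneg hx.le (by linarith)
  nlinarith [mul_le_mul_of_nonneg_left h4 h7]

theorem kap_sinh (s t : ℝ) (ht : 0 < t) :
    kap s t * Real.sinh t = 4 * s ^ 2 / Real.pi ^ 3 * Ph (2 * s * t) := by
  have hs : Real.sinh t ≠ 0 := (Real.sinh_pos_iff.2 ht).ne'
  have h : ∀ A B C K : ℝ, C ≠ 0 → K * (A / (B * C)) * C = K * (A / B) := by
    intro A B C K h
    rw [mul_assoc, ← div_div, div_mul_cancel₀ _ h]
  rw [kap, Ph, h _ _ _ _ hs]

/-- the function `t / sinh (2 s t)` -/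
noncomputable def hh (s t : ℝ) : ℝ := t / Real.sinh (2 * s * t)

theorem hh_deriv (s t : ℝ) (hs : 0 < s) (ht : 0 < t) : HasDerivAt (hh s) (-Ph (2 * s * t)) t := by
  have h0 : Real.sinh (2 * s * t) ≠ 0 := (Real.sinh_pos_iff.2 (by positivity)).ne'
  have h1 : HasDerivAt (fun t : ℝ => 2 * s * t) (2 * s) t := by
    simpa using (hasDerivAt_id t).const_mul (2 * s)
  have h2 : HasDerivAt (fun t : ℝ => Real.sinh (2 * s * t)) (Real.cosh (2 * s * t) * (2 * s)) t :=
    (Real.hasDerivAt_sinh _).comp t h1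
  have h3 := (hasDerivAt_id t).div h2 h0
  refine h3.congr_deriv ?_
  rw [Ph, ← neg_div]
  congr 1
  simp only [id]
  ring

theorem sinh_low (x : ℝ) (hx : 0 ≤ x) : x * Real.exp x ≤ (1 + 2 * x) * Real.sinh x := by
  rw [Real.sinh_eq]
  have h1 : 1 + 2 * x ≤ Real.exp (2 * x) := by linarith [Real.add_one_le_exp (2 * x)]
  have h2 : (1 + 2 * x) * Real.exp (-x) ≤ Real.exp x := by
    calc (1 + 2 * x) * Real.exp (-x) ≤ Real.exp (2 * x) * Real.exp (-x) :=
          mul_le_mul_of_nonneg_right h1 (Real.exp_pos _).le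
      _ = Real.exp x := by rw [← Real.exp_add]; ring_nf
  nlinarith

theorem hh_nonneg (s t : ℝ) (hs : 0 < s) (ht : 0 < t) : 0 ≤ hh s t :=
  div_nonneg ht.le (Real.sinh_pos_iff.2 (by positivity)).le

theorem hh_le1 (s t : ℝ) (hs : 0 < s) (ht : 0 < t) : hh s t ≤ 1 / (2 * s) := by
  have h0 : 0 < Real.sinh (2 * s * t) := Real.sinh_pos_iff.2 (by positivity)
  have h1 : 2 * s * t ≤ Real.sinh (2 * s * t) := Real.self_le_sinh_iff.2 (by positivity)
  rw [hh, div_le_div_iff₀ h0 (by positivity)]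
  linarith

theorem hh_le2 (s t : ℝ) (hs : 0 < s) (ht : 0 < t) :
    hh s t ≤ (1 + 4 * s * t) / (2 * s) * Real.exp (-(2 * s * t)) := by
  have h0 : 0 < Real.sinh (2 * s * t) := Real.sinh_pos_iff.2 (by positivity)
  have h1 := sinh_low (2 * s * t) (by positivity)
  have h2 : Real.exp (2 * s * t) * Real.exp (-(2 * s * t)) = 1 := by
    rw [← Real.exp_add, add_neg_cancel, Real.exp_zero]
  rw [hh, div_le_iff₀ h0]
  have h3 := mul_le_mul_of_nonneg_right h1 (Real.exp_pos (-(2 * s * t))).le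
  rw [mul_assoc, h2, mul_one] at h3
  rw [div_mul_eq_mul_div, div_mul_eq_mul_div, le_div_iff₀ (by positivity)]
  nlinarith

theorem poly (a t : ℝ) (ha : 0 < a) (ht : 0 ≤ t) :
    (1 + t) * t ≤ (1 + 1 / a) * (1 / a) * Real.exp (2 * a * t) := by
  have h1 : t ≤ 1 / a * Real.exp (a * t) := by
    rw [div_mul_eq_mul_div, le_div_iff₀ ha]
    linarith [Real.add_one_le_exp (a * t)]
  have h2 : 1 ≤ Real.exp (a * t) := Real.one_le_exp (by positivity)
  have h3 : 1 + t ≤ (1 + 1 / a) * Real.exp (a * t) := by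
    rw [add_mul, one_mul]; linarith
  have h4 : Real.exp (2 * a * t) = Real.exp (a * t) * Real.exp (a * t) := by
    rw [← Real.exp_add]; ring_nf
  rw [h4]
  calc (1 + t) * t ≤ ((1 + 1 / a) * Real.exp (a * t)) * (1 / a * Real.exp (a * t)) :=
        mul_le_mul h3 h1 ht (by positivity)
    _ = _ := by ring

/-- bound with a polynomial -/
theorem bnd (s : ℝ) (l : ℂ) (hl : |l.im| < 2 * s) : ∃ K : ℝ, 0 ≤ K ∧ ∀ t : ℝ, 0 ≤ t →
    (1 + t) * t * (Real.exp (-(2 * s * t)) * Real.exp (|l.im| * t)) ≤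
      K * Real.exp (-((2 * s - |l.im|) / 2) * t) := by
  set δ := 2 * s - |l.im| with hδ
  have hδp : 0 < δ := by linarith
  refine ⟨(1 + 1 / (δ / 4)) * (1 / (δ / 4)), by positivity, fun t ht => ?_⟩
  have h1 := poly (δ / 4) t (by positivity) ht
  have h2 : Real.exp (-(2 * s * t)) * Real.exp (|l.im| * t) = Real.exp (-(δ * t)) := by
    rw [← Real.exp_add, hδ]; ring_nf
  rw [h2]
  calc (1 + t) * t * Real.exp (-(δ * t)) ≤
      ((1 + 1 / (δ / 4)) * (1 / (δ / 4)) * Real.exp (2 * (δ / 4) * t)) * Real.exp (-(δ * t)) :=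
        mul_le_mul_of_nonneg_right h1 (Real.exp_pos _).le
    _ = _ := by
        rw [mul_assoc, ← Real.exp_add]
        congr 2
        ring

theorem int_exp (s : ℝ) (l : ℂ) (hl : |l.im| < 2 * s) :
    IntegrableOn (fun t : ℝ => Real.exp (-((2 * s - |l.im|) / 2) * t)) (Ioi 0) :=
  exp_neg_integrableOn_Ioi 0 (by linarith)

theorem Ph_meas : Measurable Ph := by
  unfold Ph
  fun_prop

theorem Pf_cont (l : ℂ) : Continuous (Pf l) :=
  continuous_iff_continuousAt.2 fun t => (Pf_deriv l t).continuousAt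

theorem int_PhPf (s : ℝ) (hs : 0 < s) (l : ℂ) (hl : |l.im| < 2 * s) :
    IntegrableOn (fun t : ℝ => ((Ph (2 * s * t) : ℝ) : ℂ) * Pf l t) (Ioi 0) := by
  obtain ⟨K, hK, hb⟩ := bnd s l hl
  refine Integrable.mono' ((int_exp s l hl).const_mul (4 * s * K)) ?_ ?_
  · have h1 : Measurable fun t : ℝ => ((Ph (2 * s * t) : ℝ) : ℂ) :=
      Complex.measurable_ofReal.comp (Ph_meas.comp (measurable_const.mul measurable_id))
    exact (h1.mul (Pf_cont l).measurable).aestronglyMeasurable
  · refine (ae_restrict_iff' measurableSet_Ioi).2 (Eventually.of_forall fun t ht => ?_)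
    rw [mem_Ioi] at ht
    have hx : 0 < 2 * s * t := by positivity
    rw [norm_mul, Complex.norm_real, Real.norm_of_nonneg (Ph_nonneg _ hx.le)]
    have h1 := Ph_le _ hx
    have h2 := norm_Pf l t ht.le
    calc Ph (2 * s * t) * ‖Pf l t‖ ≤ (2 * (2 * s * t) * Real.exp (-(2 * s * t))) *
          (t * Real.exp (|l.im| * t)) := mul_le_mul h1 h2 (norm_nonneg _) (by positivity)
      _ = 4 * s * (t * t * (Real.exp (-(2 * s * t)) * Real.exp (|l.im| * t))) := by ring
      _ ≤ 4 * s * ((1 + t) * t * (Real.exp (-(2 * s * t)) * Real.exp (|l.im| * t))) := by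
          apply mul_le_mul_of_nonneg_left _ (by positivity)
          apply mul_le_mul_of_nonneg_right _ (by positivity)
          nlinarith
      _ ≤ 4 * s * (K * Real.exp (-((2 * s - |l.im|) / 2) * t)) :=
          mul_le_mul_of_nonneg_left (hb t ht.le) (by positivity)
      _ = _ := by ring

theorem main_int (h1 : S_FT) (s : ℝ) (hs : 0 < s) (l : ℂ) (hl : |l.im| < 2 * s) :
    ∫ t in Ioi (0 : ℝ), ((Ph (2 * s * t) : ℝ) : ℂ) * Pf l t =
      Real.pi ^ 2 / (16 * s ^ 2) * sec s l := by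
  obtain ⟨hi, hv⟩ := h1 (2 * s) (by positivity) l hl
  have hv' : ∫ t in Ioi (0 : ℝ), (t : ℂ) * Complex.cos (l * t) / (Real.sinh (2 * s * t) : ℂ) =
      Real.pi ^ 2 / (16 * s ^ 2) * sec s l := by
    rw [hv, sec]
    congr 1
    · push_cast; ring
    · congr 4
      push_cast
      ring
  rw [← hv']
  have hder : ∀ t ∈ Ioi (0 : ℝ), HasDerivAt (fun t : ℝ => ((hh s t : ℝ) : ℂ) * Pf l t)
      ((t : ℂ) * Complex.cos (l * t) / (Real.sinh (2 * s * t) : ℂ) -
        ((Ph (2 * s * t) : ℝ) : ℂ) * Pf l t) t := by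
    intro t ht
    have h3 := ((hh_deriv s t hs ht).ofReal_comp).mul (Pf_deriv l t)
    refine h3.congr_deriv ?_
    rw [hh]
    push_cast
    ring
  have hint : IntegrableOn (fun t : ℝ => (t : ℂ) * Complex.cos (l * t) /
      (Real.sinh (2 * s * t) : ℂ) - ((Ph (2 * s * t) : ℝ) : ℂ) * Pf l t) (Ioi 0) :=
    hi.sub (int_PhPf s hs l hl)
  have hf0 : ((hh s 0 : ℝ) : ℂ) * Pf l 0 = 0 := by simp [hh]
  have hcont : ContinuousWithinAt (fun t : ℝ => ((hh s t : ℝ) : ℂ) * Pf l t) (Ici 0) 0 := by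
    rw [ContinuousWithinAt, hf0]
    have hb : Tendsto (fun t : ℝ => 1 / (2 * s) * ‖Pf l t‖) (𝓝[Ici 0] 0) (𝓝 0) := by
      have h4 : Continuous fun t : ℝ => 1 / (2 * s) * ‖Pf l t‖ :=
        continuous_const.mul (Pf_cont l).norm
      have h5 := h4.tendsto 0
      have h6 : Pf l 0 = 0 := by simp [Pf]
      rw [h6, norm_zero, mul_zero] at h5
      exact h5.mono_left nhdsWithin_le_nhds
    refine squeeze_zero_norm' ?_ hb
    filter_upwards [self_mem_nhdsWithin] with t ht
    rcases eq_or_lt_of_le (mem_Ici.1 ht) with h | h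
    · rw [← h]
      simp [Pf]
    · rw [norm_mul, Complex.norm_real, Real.norm_of_nonneg (hh_nonneg s t hs h)]
      exact mul_le_mul_of_nonneg_right (hh_le1 s t hs h) (norm_nonneg _)
  have htend : Tendsto (fun t : ℝ => ((hh s t : ℝ) : ℂ) * Pf l t) atTop (𝓝 0) := by
    obtain ⟨K, hK, hb⟩ := bnd s l hl
    have hlim : Tendsto (fun t : ℝ => (1 + 4 * s) / (2 * s) *
        (K * Real.exp (-((2 * s - |l.im|) / 2) * t))) atTop (𝓝 0) := by
      have h7 : Tendsto (fun t : ℝ => -((2 * s - |l.im|) / 2) * t) atTop atBot :=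
        tendsto_id.const_mul_atTop_of_neg (by linarith)
      have h8 := (Real.tendsto_exp_atBot.comp h7).const_mul K
      have h9 := h8.const_mul ((1 + 4 * s) / (2 * s))
      simpa using h9
    refine squeeze_zero_norm' ?_ hlim
    filter_upwards [eventually_gt_atTop (0 : ℝ)] with t ht
    rw [norm_mul, Complex.norm_real, Real.norm_of_nonneg (hh_nonneg s t hs ht)]
    calc hh s t * ‖Pf l t‖ ≤ ((1 + 4 * s * t) / (2 * s) * Real.exp (-(2 * s * t))) *
          (t * Real.exp (|l.im| * t)) :=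
          mul_le_mul (hh_le2 s t hs ht) (norm_Pf l t ht.le) (norm_nonneg _) (by positivity)
      _ = (1 + 4 * s * t) / (2 * s) * (t * (Real.exp (-(2 * s * t)) * Real.exp (|l.im| * t))) := by
          ring
      _ ≤ ((1 + 4 * s) * (1 + t)) / (2 * s) *
          (t * (Real.exp (-(2 * s * t)) * Real.exp (|l.im| * t))) := by
          apply mul_le_mul_of_nonneg_right _ (by positivity)
          apply div_le_div_of_nonneg_right _ (by positivity)
          nlinarith
      _ = (1 + 4 * s) / (2 * s) *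
          ((1 + t) * t * (Real.exp (-(2 * s * t)) * Real.exp (|l.im| * t))) := by ring
      _ ≤ _ := mul_le_mul_of_nonneg_left (hb t ht.le) (by positivity)
  have hmain := integral_Ioi_of_hasDerivAt_of_tendsto hcont hder hint htend
  rw [integral_sub hi (int_PhPf s hs l hl), hf0, sub_zero, sub_eq_zero] at hmain
  exact hmain.symm

end KAP

open KAP in
theorem t_KAP (h1 : S_FT) (h2 : S_SPH) : S_KAP := by
  intro s hs
  refine ⟨?_, ?_, ?_, ?_⟩
  · unfold kap
    fun_prop
  · intro t ht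
    rw [kap]
    have hx : 0 < 2 * s * t := by positivity
    have := num_nonneg _ hx.le
    have := (Real.sinh_pos_iff.2 ht).le
    positivity
  · refine ⟨4 * s ^ 2 / Real.pi ^ 3 * (2 * (2 * s)), fun t ht => ?_⟩
    have hx : 0 < 2 * s * t := by positivity
    rw [kap_sinh s t ht]
    calc 4 * s ^ 2 / Real.pi ^ 3 * Ph (2 * s * t) ≤
        4 * s ^ 2 / Real.pi ^ 3 * (2 * (2 * s * t) * Real.exp (-(2 * s * t))) :=
          mul_le_mul_of_nonneg_left (Ph_le _ hx) (by positivity)
      _ = 4 * s ^ 2 / Real.pi ^ 3 * (2 * (2 * s)) * t * Real.exp (-(2 * s * t)) := by ring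
      _ ≤ _ := by
          apply mul_le_mul_of_nonneg_right _ (by positivity)
          apply mul_le_mul_of_nonneg_left _ (by positivity)
          linarith
  · intro l hl
    have heq : EqOn (fun t : ℝ => ((4 * s ^ 2 / Real.pi ^ 3 : ℝ) : ℂ) *
        (((Ph (2 * s * t) : ℝ) : ℂ) * Pf l t))
        (fun t : ℝ => ((kap s t * Real.sinh t ^ 2 : ℝ) : ℂ) * sph l t) (Ioi 0) := by
      intro t ht
      simp only
      have e1 := kap_sinh s t ht
      have e2 := sph_P l t ht
      have e3 : ((kap s t * Real.sinh t ^ 2 : ℝ) : ℂ) =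
          ((kap s t * Real.sinh t : ℝ) : ℂ) * (Real.sinh t : ℂ) := by push_cast; ring
      rw [e3, e1, ← e2]
      push_cast
      ring
    constructor
    · exact IntegrableOn.congr_fun ((int_PhPf s hs l hl).const_mul _) heq measurableSet_Ioi
    · rw [← setIntegral_congr_fun measurableSet_Ioi heq, integral_const_mul, main_int h1 s hs l hl]
      have hpi : (Real.pi : ℂ) ≠ 0 := by exact_mod_cast Real.pi_ne_zero
      have hsc : (s : ℂ) ≠ 0 := by exact_mod_cast hs.ne'
      push_cast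
      field_simp
      ring

end Pool.Agent.N46.HM
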