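import Pool.Agent.N46.HM.Stm

/-!
# Project HM (helper46), MP_e4fe74_an: step KG, the operator on wave packets
-/

set_option autoImplicit false

open MeasureTheory Set Filter
open scoped ENNReal Topology ComplexConjugate

namespace Pool.Agent.N46.HM

namespace KG

/-- the exchange of the integrals, for abstract functions -/
theorem fub_abs {X : Type} [MeasurableSpace X] (μ : Measure X) [SFinite μ] (k : X → ℂ)
    (d : X → ℝ) (σ : ℂ → ℝ → ℂ) (hk : Measurable k) (hd : Measurable d)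
    (hσ : Measurable (fun q : ℂ × ℝ => σ q.1 q.2)) (a : ℝ → ℂ) (ha : Continuous a)
    (hac : HasCompactSupport a) (s : ℝ) (c : ℝ → ℂ)
    (hI : Integrable (fun x' => k x' * σ (s * Complex.I) (d x')) μ)
    (hb : ∀ᵐ x' ∂μ, ∀ ξ : ℝ, ‖σ (ξ + s * Complex.I) (d x')‖ ≤ ‖σ (s * Complex.I) (d x')‖)
    (hE : ∀ ξ : ℝ, ∫ x', k x' * σ (ξ + s * Complex.I) (d x') ∂μ = c ξ) :
    ∫ x', k x' * (∫ ξ : ℝ, a ξ * σ (ξ + s * Complex.I) (d x')) ∂μ = ∫ ξ : ℝ, a ξ * c ξ := by
  have hmeas : Measurable (fun z : X × ℝ => k z.1 *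
      (a z.2 * σ (z.2 + s * Complex.I) (d z.1))) := by
    refine Measurable.mul ?_ (Measurable.mul ?_ ?_)
    · exact hk.comp measurable_fst
    · exact ha.measurable.comp measurable_snd
    · have h6 : Measurable (fun z : X × ℝ => (((z.2 : ℂ) + s * Complex.I, d z.1) : ℂ × ℝ)) :=
        ((Complex.measurable_ofReal.comp measurable_snd).add_const _).prodMk
          (hd.comp measurable_fst)
      exact hσ.comp h6
  have hint : Integrable (fun z : X × ℝ => k z.1 *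
      (a z.2 * σ (z.2 + s * Complex.I) (d z.1))) (μ.prod volume) := by
    have h7 : Integrable a := ha.integrable_of_hasCompactSupport hac
    have h8 := hI.mul_prod (ν := volume) h7
    refine h8.mono hmeas.aestronglyMeasurable ?_
    have h9 : ∀ᵐ z ∂(μ.prod (volume : Measure ℝ)), ∀ ξ : ℝ,
        ‖σ (ξ + s * Complex.I) (d z.1)‖ ≤ ‖σ (s * Complex.I) (d z.1)‖ :=
      Measure.quasiMeasurePreserving_fst.ae hb
    filter_upwards [h9] with z hz
    have h10 := hz z.2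
    rw [norm_mul, norm_mul, norm_mul, norm_mul]
    calc ‖k z.1‖ * (‖a z.2‖ * ‖σ ((z.2 : ℂ) + s * Complex.I) (d z.1)‖)
        ≤ ‖k z.1‖ * (‖a z.2‖ * ‖σ ((s : ℂ) * Complex.I) (d z.1)‖) := by
          gcongr
      _ = ‖k z.1‖ * ‖σ ((s : ℂ) * Complex.I) (d z.1)‖ * ‖a z.2‖ := by ring
  have e2 : ∫ x', k x' * (∫ ξ : ℝ, a ξ * σ (ξ + s * Complex.I) (d x')) ∂μ =
      ∫ x', (∫ ξ : ℝ, k x' * (a ξ * σ (ξ + s * Complex.I) (d x'))) ∂μ := by
    congr 1
    funext x'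
    rw [integral_const_mul]
  rw [e2, integral_integral_swap hint]
  congr 1
  funext ξ
  rw [← hE ξ, ← integral_const_mul]
  congr 1
  funext x'
  ring

theorem ae_mu (x₀ : Hs) : ∀ᵐ x ∂mu, 0 < x.2 ∧ x ≠ x₀ := by
  have h1 : ∀ᵐ x ∂(volume.restrict {x : Hs | 0 < x.2}), 0 < x.2 ∧ x ≠ x₀ := by
    have hm : MeasurableSet {x : Hs | 0 < x.2} := measurableSet_lt measurable_const measurable_snd
    have h2 : ∀ᵐ x ∂(volume.restrict {x : Hs | 0 < x.2}), 0 < x.2 := ae_restrict_mem hm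
    have h3 : ∀ᵐ x ∂(volume : Measure Hs), x ≠ x₀ := by
      rw [ae_iff]
      have e : {a : Hs | ¬ a ≠ x₀} = {x₀.1} ×ˢ {x₀.2} := by
        ext y
        simp [Prod.ext_iff]
      rw [e, Measure.volume_eq_prod, Measure.prod_prod, measure_singleton, zero_mul]
    filter_upwards [h2, ae_restrict_of_ae h3] with x hx hx'
    exact ⟨hx, hx'⟩
  exact (withDensity_absolutelyContinuous _ _).ae_le h1

theorem el_eq {p : ℝ≥0∞} {F : Hs → ℂ} (h : MemLp F p mu) : el p F = h.toLp F := by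
  unfold el
  rw [dif_pos h]

theorem meas_kap (s : ℝ) : Measurable (kap s) := by
  unfold kap
  fun_prop

theorem tst_sec (h3 : S_MS) {s : ℝ} (hs : 0 < s) {a : ℝ → ℂ} (ha : Tst a) :
    Tst (fun ξ => sec s (ξ + s * Complex.I) * a ξ) := by
  refine ⟨?_, ha.2.mul_left⟩
  refine ContDiff.mul ?_ ha.1
  unfold sec
  refine ContDiff.inv ?_ ?_
  · have h1 : ContDiff ℝ (⊤ : ℕ∞) (fun x : ℝ => (x : ℂ)) := Complex.ofRealCLM.contDiff
    have h2 : ContDiff ℝ (⊤ : ℕ∞) (fun z : ℂ => Complex.cosh z) :=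
      Complex.contDiff_cosh.restrict_scalars ℝ
    have h4 : ContDiff ℝ (⊤ : ℕ∞) (fun x : ℝ => Real.pi * ((x : ℂ) + s * Complex.I) / (4 * s)) :=
      (contDiff_const.mul (h1.add contDiff_const)).div_const _
    exact (h2.comp h4).pow 2
  · intro ξ
    refine pow_ne_zero 2 ((h3 s hs).1 _ ?_)
    have e : ((ξ : ℂ) + s * Complex.I).im = s := by simp
    rw [e, abs_of_pos hs]
    linarith

theorem meas_dH (h1 : S_DIST) (y : Hs) : Measurable (fun x' : Hs => dH y x') := by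
  have hy : Measurable (fun x' : Hs => ((y, x') : Hs × Hs)) := measurable_prodMk_left
  have hc := Measurable.comp h1.2 hy
  simpa only [Function.comp_def] using hc

instance : SFinite mu := by
  unfold mu
  infer_instance

/-- the pointwise identity -/
theorem point (h1 : S_DIST) (h2 : S_SPH) (h4 : S_EIG) {s : ℝ} (hs : 0 < s) {a : ℝ → ℂ}
    (ha : Tst a) {x₀ : Hs} (hx₀ : 0 < x₀.2) {x : Hs} (hx : 0 < x.2) (hxx : x ≠ x₀) :
    ∫ x', (kap s (dH x x') : ℂ) * GG a (s * Complex.I) (dH x₀ x') ∂mu =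
      GG (fun ξ => sec s (ξ + s * Complex.I) * a ξ) (s * Complex.I) (dH x₀ x) := by
  have hlt : |((s : ℂ) * Complex.I).im| < 2 * s := by
    have e : ((s : ℂ) * Complex.I).im = s := by simp
    rw [e, abs_of_pos hs]
    linarith
  have hk : Measurable (fun x' : Hs => (kap s (dH x x') : ℂ)) := by
    have := Complex.measurable_ofReal.comp ((meas_kap s).comp (meas_dH h1 x))
    simpa only [Function.comp_def] using this
  have hb : ∀ᵐ x' ∂mu, ∀ ξ : ℝ, ‖sph (ξ + s * Complex.I) (dH x₀ x')‖ ≤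
      ‖sph (s * Complex.I) (dH x₀ x')‖ := by
    filter_upwards [ae_mu x₀] with z hz ξ
    obtain ⟨hz1, hz2⟩ := hz
    have hd := h1.1 x₀ z hx₀ hz1
    have hd0 : 0 < dH x₀ z :=
      lt_of_le_of_ne hd.2.1 (fun h => hz2 (hd.2.2.2.2 h.symm).symm)
    have h10 := (h2.2.1 ((ξ : ℂ) + s * Complex.I) (dH x₀ z) hd0).1
    have e : ((ξ : ℂ) + s * Complex.I).im = s := by simp
    rw [e] at h10
    exact h10.trans (Complex.re_le_norm _)
  have hE : ∀ ξ : ℝ, ∫ x', (kap s (dH x x') : ℂ) * sph (ξ + s * Complex.I) (dH x₀ x') ∂mu =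
      sec s (ξ + s * Complex.I) * sph (ξ + s * Complex.I) (dH x₀ x) := by
    intro ξ
    have hlt : |((ξ : ℂ) + (s : ℂ) * Complex.I).im| < 2 * s := by
      have e : ((ξ : ℂ) + s * Complex.I).im = s := by simp
      rw [e, abs_of_pos hs]
      linarith
    exact (h4 s hs (ξ + s * Complex.I) hlt x x₀ hx hx₀ hxx).2
  have h6 := fub_abs mu (fun x' : Hs => (kap s (dH x x') : ℂ)) (fun x' : Hs => dH x₀ x') sph hk
    (meas_dH h1 x₀) h2.2.2.2.2 a ha.1.continuous ha.2 s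
    (fun ξ => sec s (ξ + s * Complex.I) * sph (ξ + s * Complex.I) (dH x₀ x))
    (h4 s hs (s * Complex.I) hlt x x₀ hx hx₀ hxx).1 hb hE
  unfold GG
  rw [h6]
  congr 1
  funext ξ
  ring

/-- the last step, for abstract functions -/
theorem fin_abs {p : ℝ≥0∞} [Fact (1 ≤ p)] (K : Lp ℂ p mu →L[ℂ] Lp ℂ p mu) (κ : Hs → Hs → ℂ)
    (hK : ∀ f : Lp ℂ p mu, K f =ᵐ[mu] fun x => ∫ x', κ x x' * f x' ∂mu) (F F' : Hs → ℂ)
    (hF : MemLp F p mu) (hF' : MemLp F' p mu)
    (h : ∀ᵐ x ∂mu, ∫ x', κ x x' * F x' ∂mu = F' x) : K (hF.toLp F) = hF'.toLp F' := by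
  apply Lp.ext
  refine (hK _).trans (EventuallyEq.trans ?_ hF'.coeFn_toLp.symm)
  filter_upwards [h] with x hx
  rw [← hx]
  apply integral_congr_ae
  filter_upwards [hF.coeFn_toLp] with x' hx'
  rw [hx']

end KG

theorem t_KG (h1 : S_DIST) (h2 : S_SPH) (h3 : S_MS) (h4 : S_EIG) (h5 : S_MEM) : S_KG := by
  intro s hs hs1 _ K hK a ha x₀ hx₀
  have him : |((s : ℂ) * Complex.I).im| ≤ s := by
    have e : ((s : ℂ) * Complex.I).im = s := by simp
    rw [e, abs_of_pos hs]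
  have hF : MemLp (fun x => GG a (s * Complex.I) (dH x₀ x)) (pp s) mu :=
    h5 s hs hs1 a ha x₀ hx₀ _ him
  have ha' := KG.tst_sec h3 hs ha
  have hF' : MemLp (fun x => GG (fun ξ => sec s (ξ + s * Complex.I) * a ξ) (s * Complex.I)
      (dH x₀ x)) (pp s) mu := h5 s hs hs1 _ ha' x₀ hx₀ _ him
  rw [KG.el_eq hF, KG.el_eq hF']
  refine KG.fin_abs K (fun x x' => (kap s (dH x x') : ℂ)) (fun f => (hK f).2) _ _ hF hF' ?_
  filter_upwards [KG.ae_mu x₀] with x hx
  exact KG.point h1 h2 h4 hs ha hx₀ hx.1 hx.2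

end Pool.Agent.N46.HM
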