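import Mathlib
import Pool.Agent.N46.HM.Stm

/-!
Project HM (helper46), leaf KIT, by helper841: Kitai's criterion.
-/

set_option autoImplicit false

open Filter Topology Set

namespace Pool.Agent.N46.HM

namespace KIT

variable {E : Type} [NormedAddCommGroup E] [NormedSpace ℂ E]

theorem dense_span {S : Set E} (hS : ∀ φ : E →L[ℂ] ℂ, (∀ e ∈ S, φ e = 0) → φ = 0) :
    Dense (Submodule.span ℂ S : Set E) := by
  rw [Submodule.dense_iff_topologicalClosure_eq_top]
  by_contra hcon
  set W : Submodule ℂ E := (Submodule.span ℂ S).topologicalClosure with hW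
  have hcl : IsClosed (W : Set E) := Submodule.isClosed_topologicalClosure _
  obtain ⟨x, hx⟩ : ∃ x : E, x ∉ W := by
    by_contra h
    push Not at h
    exact hcon (Submodule.eq_top_iff'.2 h)
  have : IsClosed (W : Set E) := hcl
  have hne : W.mkQ x ≠ 0 := by
    rw [Submodule.mkQ_apply, Ne, Submodule.Quotient.mk_eq_zero]
    exact hx
  obtain ⟨g, hg1, hg2⟩ := exists_dual_vector ℂ (W.mkQ x) (norm_ne_zero_iff.2 hne)
  have hφ := hS (g.comp (W.mkQL)) (fun e he => by
    have h1 : W.mkQ e = 0 := by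
      rw [Submodule.mkQ_apply, Submodule.Quotient.mk_eq_zero]
      exact Submodule.le_topologicalClosure _ (Submodule.subset_span he)
    change g (W.mkQ e) = 0
    rw [h1, map_zero])
  have h2 : g (W.mkQ x) = 0 := by
    have := DFunLike.congr_fun hφ x
    exact this
  rw [hg2] at h2
  have h3 : ‖W.mkQ x‖ = 0 := RCLike.ofReal_eq_zero.1 h2
  exact hne (norm_eq_zero.1 h3)

theorem tends_span {T : E →L[ℂ] E} {S : Set E}
    (h0 : ∀ e ∈ S, Tendsto (fun n : ℕ => (T ^ n) e) atTop (𝓝 0)) {e : E}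
    (he : e ∈ Submodule.span ℂ S) : Tendsto (fun n : ℕ => (T ^ n) e) atTop (𝓝 0) := by
  induction he using Submodule.span_induction with
  | mem x hx => exact h0 x hx
  | zero => simp
  | add x y _ _ hx hy =>
    have := hx.add hy
    simp only [add_zero] at this
    refine this.congr fun n => ?_
    rw [map_add]
  | smul a x _ hx =>
    have := hx.const_smul a
    simp only [smul_zero] at this
    refine this.congr fun n => ?_
    rw [map_smul]

theorem right_span {T : E →L[ℂ] E} {S : Set E}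
    (hv : ∀ e ∈ S, ∃ v : ℕ → E, Tendsto v atTop (𝓝 0) ∧ ∀ n, (T ^ n) (v n) = e) {e : E}
    (he : e ∈ Submodule.span ℂ S) :
    ∃ v : ℕ → E, Tendsto v atTop (𝓝 0) ∧ ∀ n, (T ^ n) (v n) = e := by
  induction he using Submodule.span_induction with
  | mem x hx => exact hv x hx
  | zero => exact ⟨fun _ => 0, tendsto_const_nhds, fun n => map_zero _⟩
  | add x y _ _ hx hy =>
    obtain ⟨v, h1, h2⟩ := hx
    obtain ⟨w, h3, h4⟩ := hy
    refine ⟨fun n => v n + w n, ?_, fun n => ?_⟩
    · simpa using h1.add h3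
    · rw [map_add, h2, h4]
  | smul a x _ hx =>
    obtain ⟨v, h1, h2⟩ := hx
    refine ⟨fun n => a • v n, ?_, fun n => ?_⟩
    · simpa using h1.const_smul a
    · rw [map_smul, h2]

theorem transitive {T : E →L[ℂ] E} {S : Set E}
    (hS : ∀ φ : E →L[ℂ] ℂ, (∀ e ∈ S, φ e = 0) → φ = 0)
    (h0 : ∀ e ∈ S, Tendsto (fun n : ℕ => (T ^ n) e) atTop (𝓝 0))
    (hv : ∀ e ∈ S, ∃ v : ℕ → E, Tendsto v atTop (𝓝 0) ∧ ∀ n, (T ^ n) (v n) = e)
    {U W : Set E} (hU : IsOpen U) (hU0 : U.Nonempty) (hW : IsOpen W) (hW0 : W.Nonempty) :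
    ∃ n : ℕ, ∃ u ∈ U, (T ^ n) u ∈ W := by
  have hd := dense_span hS
  obtain ⟨x, hxU, hx⟩ := hd.inter_open_nonempty U hU hU0
  obtain ⟨y, hyW, hy⟩ := hd.inter_open_nonempty W hW hW0
  obtain ⟨v, h1, h2⟩ := right_span hv hy
  have h3 : Tendsto (fun n => x + v n) atTop (𝓝 x) := by
    simpa using (tendsto_const_nhds (x := x)).add h1
  have h4 : Tendsto (fun n => (T ^ n) (x + v n)) atTop (𝓝 y) := by
    have h5 : Tendsto (fun n => (T ^ n) x + y) atTop (𝓝 y) := by
      simpa using (tends_span h0 hx).add (tendsto_const_nhds (x := y))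
    refine h5.congr fun n => ?_
    rw [map_add, h2]
  obtain ⟨n, h6, h7⟩ := ((h3.eventually (hU.mem_nhds hxU)).and
    (h4.eventually (hW.mem_nhds hyW))).exists
  exact ⟨n, _, h6, h7⟩

end KIT

theorem t_KIT : S_KIT := by
  intro E _ _ _ _ T S hS h0 hv
  let B := TopologicalSpace.countableBasis E
  have hB : TopologicalSpace.IsTopologicalBasis B := TopologicalSpace.isBasis_countableBasis E
  have hBc : B.Countable := TopologicalSpace.countable_countableBasis E
  have hBn : ∀ W ∈ B, W.Nonempty := fun W hW => TopologicalSpace.nonempty_of_mem_countableBasis hW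
  have hd : Dense (⋂ W ∈ B, ⋃ n : ℕ, (fun f : E => (T ^ n) f) ⁻¹' W) := by
    refine dense_biInter_of_isOpen (fun W hW => ?_) hBc (fun W hW => ?_)
    · exact isOpen_iUnion fun n => (hB.isOpen hW).preimage (T ^ n).continuous
    · rw [dense_iff_inter_open]
      intro U hU hU0
      obtain ⟨n, u, h1, h2⟩ := KIT.transitive hS h0 hv hU hU0 (hB.isOpen hW) (hBn W hW)
      exact ⟨u, h1, mem_iUnion.2 ⟨n, h2⟩⟩
  obtain ⟨f, hf⟩ := hd.nonempty
  refine ⟨f, ?_⟩
  rw [hB.dense_iff]
  intro W hW _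
  have h1 := mem_iInter₂.1 hf W hW
  obtain ⟨n, hn⟩ := mem_iUnion.1 h1
  exact ⟨(T ^ n) f, hn, n, rfl⟩

end Pool.Agent.N46.HM
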