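import Pool.Agent.N46.HM.Stm

/-!
# Project HM (helper46), part MEM (helper371): wave packets are in `L^p`
-/

set_option autoImplicit false

open MeasureTheory Set Filter
open scoped ENNReal Topology ComplexConjugate

namespace Pool.Agent.N46.HM

namespace MEM

theorem inner_int (t : ℝ) (ht : 0 < t) :
    ∫⁻ r in Ioo (-t) t, ENNReal.ofReal (2 * Real.pi * Real.sinh t * Real.exp (-r)) =
      ENNReal.ofReal (4 * Real.pi * Real.sinh t ^ 2) := by
  have hs : 0 ≤ Real.sinh t := (Real.sinh_pos_iff.2 ht).le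
  have hint : IntegrableOn (fun r : ℝ => 2 * Real.pi * Real.sinh t * Real.exp (-r))
      (Ioo (-t) t) := by
    have hc : Continuous (fun r : ℝ => 2 * Real.pi * Real.sinh t * Real.exp (-r)) := by fun_prop
    exact hc.integrableOn_Icc.mono_set Ioo_subset_Icc_self
  rw [← ofReal_integral_eq_lintegral_ofReal hint (ae_of_all _ fun r => by
    have := Real.pi_pos
    positivity)]
  congr 1
  rw [← integral_Ioc_eq_integral_Ioo, ← intervalIntegral.integral_of_le (by linarith),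
    intervalIntegral.integral_const_mul, intervalIntegral.integral_comp_neg (fun x => Real.exp x),
    integral_exp, neg_neg]
  have h2 := Real.sinh_eq t
  have h3 : Real.exp t - Real.exp (-t) = 2 * Real.sinh t := by linarith
  rw [h3]
  ring

theorem key (h2 : S_RAD) (s : ℝ) (hs1 : s < 1) (a : ℝ → ℂ) (x₀ : Hs) (hx₀ : 0 < x₀.2) (z : ℂ) (D : ℝ → ℝ)
   (hD0 : ∀ t, 0 ≤ D t) (hD : ∀ t, 0 < t → ‖GG a z t‖ ≤ D t) (hGm : Measurable (GG a z))
   (hDint : ∫⁻ t in Ioi (0 : ℝ), ENNReal.ofReal (D t ^ (2 / (1 - s)) * Real.sinh t ^ 2) < ∞) :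
   ∫⁻ x, ‖GG a z (dH x₀ x)‖ₑ ^ (2 / (1 - s)) ∂mu < ∞ := by
  have hp : 0 < 2 / (1 - s) := div_pos two_pos (by linarith)
  have hr := h2 x₀ hx₀ (fun t => ‖GG a z t‖ₑ ^ (2 / (1 - s))) (fun _ => 1)
    (hGm.enorm.pow_const _) measurable_const
  simp only [mul_one] at hr
  rw [hr]
  have h4 : ∀ t ∈ Ioi (0 : ℝ), ∫⁻ r in Ioo (-t) t, ‖GG a z t‖ₑ ^ (2 / (1 - s)) *
      ENNReal.ofReal (2 * Real.pi * Real.sinh t * Real.exp (-r)) ≤
      ENNReal.ofReal (4 * Real.pi) * ENNReal.ofReal (D t ^ (2 / (1 - s)) * Real.sinh t ^ 2) := by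
    intro t ht
    rw [lintegral_const_mul _ (by fun_prop), inner_int t ht]
    have h5 := (hD t ht)
    have h6 : ‖GG a z t‖ₑ ^ (2 / (1 - s)) ≤ ENNReal.ofReal (D t ^ (2 / (1 - s))) := by
      rw [← ENNReal.ofReal_rpow_of_nonneg (hD0 t) hp.le, ← ofReal_norm]
      exact ENNReal.rpow_le_rpow (ENNReal.ofReal_le_ofReal h5) hp.le
    calc _ ≤ ENNReal.ofReal (D t ^ (2 / (1 - s))) * ENNReal.ofReal (4 * Real.pi * Real.sinh t ^ 2) :=
          mul_le_mul_left h6 _
      _ = _ := by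
          rw [← ENNReal.ofReal_mul (Real.rpow_nonneg (hD0 t) _),
            ← ENNReal.ofReal_mul (by positivity)]
          congr 1
          ring
  refine lt_of_le_of_lt (setLIntegral_mono' measurableSet_Ioi h4) ?_
  rw [lintegral_const_mul' _ _ ENNReal.ofReal_ne_top]
  exact ENNReal.mul_lt_top ENNReal.ofReal_lt_top hDint
theorem main' (s : ℝ) (hs1 : s < 1) (a : ℝ → ℂ) (x₀ : Hs) (z : ℂ) 
   (hGm : Measurable (GG a z)) (hdm : Measurable fun x : Hs => dH x₀ x)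
   (h : ∫⁻ x, ‖GG a z (dH x₀ x)‖ₑ ^ (2 / (1 - s)) ∂mu < ∞) : MemLp (fun x => GG a z (dH x₀ x)) (pp s) mu := by
  have hp : 0 < 2 / (1 - s) := div_pos two_pos (by linarith)
  refine ⟨(hGm.comp hdm).aestronglyMeasurable, ?_⟩
  have hp0 : pp s ≠ 0 := by
    unfold pp
    exact (ENNReal.ofReal_pos.2 hp).ne'
  have hpt : pp s ≠ ∞ := ENNReal.ofReal_ne_top
  have hpr : (pp s).toReal = 2 / (1 - s) := ENNReal.toReal_ofReal hp.le
  rw [eLpNorm_lt_top_iff_lintegral_rpow_enorm_lt_top hp0 hpt, hpr]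
  exact h
theorem meas_dH (h12 : Measurable (fun q : Hs × Hs => dH q.1 q.2)) (x₀ : Hs) :
    Measurable fun x : Hs => dH x₀ x := by
  have hpr : Measurable (fun x : Hs => ((x₀, x) : Hs × Hs)) := by
    exact Measurable.prodMk measurable_const measurable_id
  have h := h12.comp hpr
  simpa only [Function.comp_def] using h

end MEM

theorem t_MEM (h1 : S_DIST) (h2 : S_RAD) (h3 : S_DOM) : S_MEM := by
  intro s hs hs1 a ha x₀ hx₀ z hz
  obtain ⟨D, -, hD0, hD, hGm, hDint⟩ := h3 s hs hs1 a ha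
  have hdm := MEM.meas_dH h1.2 x₀
  exact MEM.main' s hs1 a x₀ z (hGm z) hdm (MEM.key h2 s hs1 a x₀ hx₀ z D hD0
    (fun t ht => ((hD t ht).2 z hz).1) (hGm z) hDint)

end Pool.Agent.N46.HM
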