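import Pool.Agent.N46.HM.Stm

/-!
# HM/MS: properties of the symbol (helper454, for project HM of helper46)
-/

set_option autoImplicit false

namespace Pool.Agent.N46.HM

namespace MS

/-- the real and the imaginary part of the hyperbolic cosine -/
lemma cosh_eq (z : ℂ) : Complex.cosh z = ((Real.cosh z.re * Real.cos z.im : ℝ) : ℂ) +
    ((Real.sinh z.re * Real.sin z.im : ℝ) : ℂ) * Complex.I := by
  conv_lhs => rw [← Complex.re_add_im z]
  rw [Complex.cosh_add, Complex.cosh_mul_I, Complex.sinh_mul_I]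
  push_cast
  ring

/-- the real and the imaginary part of the hyperbolic sine -/
lemma sinh_eq (z : ℂ) : Complex.sinh z = ((Real.sinh z.re * Real.cos z.im : ℝ) : ℂ) +
    ((Real.cosh z.re * Real.sin z.im : ℝ) : ℂ) * Complex.I := by
  conv_lhs => rw [← Complex.re_add_im z]
  rw [Complex.sinh_add, Complex.cosh_mul_I, Complex.sinh_mul_I]
  push_cast
  ring

lemma re_form (a b : ℝ) : ((a : ℂ) + (b : ℂ) * Complex.I).re = a := by simp

lemma im_form (a b : ℝ) : ((a : ℂ) + (b : ℂ) * Complex.I).im = b := by simp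

lemma cosh_ne {z : ℂ} (hz : |z.im| < Real.pi / 2) : Complex.cosh z ≠ 0 := by
  intro h
  have h1 := congrArg Complex.re h
  rw [cosh_eq, re_form, Complex.zero_re] at h1
  have h2 := abs_lt.1 hz
  have h3 : 0 < Real.cos z.im := Real.cos_pos_of_mem_Ioo ⟨by linarith, h2.2⟩
  have h4 := mul_pos (Real.cosh_pos z.re) h3
  linarith

lemma norm_tanh {z : ℂ} (hz : |z.im| ≤ Real.pi / 4) : ‖Complex.tanh z‖ ≤ 1 := by
  rw [Complex.tanh_eq_sinh_div_cosh, norm_div]
  have hpi := Real.pi_pos
  have h0 := cosh_ne (z := z) (by linarith)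
  rw [div_le_one (norm_pos_iff.2 h0)]
  have h1 : Complex.normSq (Complex.sinh z) ≤ Complex.normSq (Complex.cosh z) := by
    rw [Complex.normSq_apply, Complex.normSq_apply, sinh_eq, cosh_eq, re_form, im_form, re_form,
      im_form]
    have h2 := abs_le.1 hz
    have h3 : 0 ≤ Real.cos (2 * z.im) :=
      Real.cos_nonneg_of_mem_Icc ⟨by linarith, by linarith⟩
    rw [Real.cos_two_mul] at h3
    have h4 := Real.sin_sq_add_cos_sq z.im
    have h5 := Real.cosh_sq z.re
    nlinarith
  rw [Complex.normSq_eq_norm_sq, Complex.normSq_eq_norm_sq] at h1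
  exact (pow_le_pow_iff_left₀ (norm_nonneg _) (norm_nonneg _) two_ne_zero).1 h1

/-- the argument on the line `ℝ + i s` -/
lemma tanh_line (a : ℝ) : Complex.tanh ((a : ℂ) + ((Real.pi / 4 : ℝ) : ℂ) * Complex.I) =
    Complex.exp (2 * (Real.arctan (Real.exp (-(2 * a))) : ℂ) * Complex.I) := by
  set T : ℝ := Real.exp (-(2 * a)) with hT
  set θ : ℝ := Real.arctan T with hθ
  set z : ℂ := (a : ℂ) + ((Real.pi / 4 : ℝ) : ℂ) * Complex.I with hz
  have hzim : z.im = Real.pi / 4 := by rw [hz, im_form]
  have h0 : Complex.cosh z ≠ 0 := cosh_ne (by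
    rw [hzim, abs_of_pos (by positivity)]
    linarith [Real.pi_pos])
  rw [Complex.tanh_eq_sinh_div_cosh, div_eq_iff h0]
  have hc : 0 < Real.cos θ := Real.cos_arctan_pos T
  have hcc : (Real.cos θ : ℂ) ≠ 0 := by exact_mod_cast hc.ne'
  have hs : Real.sin θ = T * Real.cos θ := by
    have h1 := Real.tan_arctan T
    rw [← hθ, Real.tan_eq_sin_div_cos, div_eq_iff hc.ne'] at h1
    exact h1
  have hsc : (Real.sin θ : ℂ) = T * Real.cos θ := by rw [hs]; push_cast; ring
  have e1 : Complex.exp (θ * Complex.I) = Real.cos θ * (1 + T * Complex.I) := by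
    rw [Complex.exp_mul_I, ← Complex.ofReal_cos, ← Complex.ofReal_sin, hsc]
    ring
  have e2 : Complex.exp (-(θ * Complex.I)) = Real.cos θ * (1 - T * Complex.I) := by
    have : -(θ * Complex.I) = (-θ : ℂ) * Complex.I := by ring
    rw [this, Complex.exp_mul_I, Complex.cos_neg, Complex.sin_neg, ← Complex.ofReal_cos,
      ← Complex.ofReal_sin, hsc]
    ring
  have e3 : (1 + T * Complex.I : ℂ) = (1 - T * Complex.I) * Complex.exp (2 * (θ : ℂ) * Complex.I) := by
    apply mul_left_cancel₀ hcc
    rw [← mul_assoc, ← e1, ← e2, ← Complex.exp_add]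
    congr 1
    ring
  have e4 : Complex.exp (-(2 * z)) = -(T * Complex.I) := by
    have : -(2 * z) = ((-(2 * a) : ℝ) : ℂ) + (-(Real.pi / 2 : ℂ) * Complex.I) := by
      rw [hz]; push_cast; ring
    rw [this, Complex.exp_add, ← Complex.ofReal_exp, ← hT]
    have h2 : Complex.exp (-(Real.pi / 2 : ℂ) * Complex.I) = -Complex.I := by
      rw [Complex.exp_mul_I, Complex.cos_neg, Complex.sin_neg, Complex.cos_pi_div_two,
        Complex.sin_pi_div_two]
      ring
    rw [h2]
    ring
  have e5 : Complex.exp (-z) = Complex.exp z * Complex.exp (-(2 * z)) := by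
    rw [← Complex.exp_add]
    congr 1
    ring
  have e6 : Complex.sinh z = Complex.exp z / 2 * (1 + T * Complex.I) := by
    rw [Complex.sinh, e5, e4]
    ring
  have e7 : Complex.cosh z = Complex.exp z / 2 * (1 - T * Complex.I) := by
    rw [Complex.cosh, e5, e4]
    ring
  rw [e6, e7, e3]
  ring

end MS

theorem t_MS : S_MS := by
  intro s hs
  have him : ∀ l : ℂ, (Real.pi * l / (4 * s) : ℂ).im = Real.pi * l.im / (4 * s) := by
    intro l
    have : (Real.pi * l / (4 * s) : ℂ) = ((Real.pi / (4 * s) : ℝ) : ℂ) * l := by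
      push_cast; ring
    rw [this, Complex.im_ofReal_mul]
    ring
  have habs : ∀ l : ℂ, |(Real.pi * l / (4 * s) : ℂ).im| = Real.pi * |l.im| / (4 * s) := by
    intro l
    rw [him, abs_div, abs_mul, abs_of_pos Real.pi_pos, abs_of_pos (by positivity : 0 < 4 * s)]
  have h1 : ∀ l : ℂ, |l.im| < 2 * s → Complex.cosh (Real.pi * l / (4 * s)) ≠ 0 := by
    intro l hl
    apply MS.cosh_ne
    rw [habs, div_lt_div_iff₀ (by positivity) (by norm_num)]
    have := mul_lt_mul_of_pos_left hl Real.pi_pos
    linarith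
  have h2 : ∀ l : ℂ, |l.im| < 2 * s → msym s l = 1 - sec s l := by
    intro l hl
    have h0 := h1 l hl
    unfold msym sec
    rw [Complex.tanh_eq_sinh_div_cosh, div_pow, Complex.sinh_sq]
    field_simp
  refine ⟨h1, h2, ?_, ?_, ?_, ?_, ?_⟩
  · intro l
    unfold msym
    have : (Real.pi * (-l) / (4 * s) : ℂ) = -(Real.pi * l / (4 * s)) := by ring
    rw [this, Complex.tanh_neg, neg_sq]
  · have h3 : DifferentiableOn ℂ (fun l => 1 - sec s l) {l : ℂ | |l.im| < 2 * s} := by
      intro l hl
      refine DifferentiableAt.differentiableWithinAt ?_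
      refine (differentiableAt_const _).sub (DifferentiableAt.inv ?_ (pow_ne_zero 2 (h1 l hl)))
      refine DifferentiableAt.pow (Complex.differentiable_cosh.differentiableAt.comp l ?_) 2
      exact ((differentiableAt_id.const_mul _).div_const _)
    exact h3.congr h2
  · intro l hl
    unfold msym
    rw [norm_pow]
    refine pow_le_one₀ (norm_nonneg _) (MS.norm_tanh ?_)
    rw [habs, div_le_div_iff₀ (by positivity) (by norm_num)]
    have := mul_le_mul_of_nonneg_left hl Real.pi_pos.le
    linarith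
  · intro ξ
    unfold msym ph
    have hs' : (s : ℂ) ≠ 0 := by exact_mod_cast hs.ne'
    have e : (Real.pi * (ξ + s * Complex.I) / (4 * s) : ℂ) =
        ((Real.pi * ξ / (4 * s) : ℝ) : ℂ) + ((Real.pi / 4 : ℝ) : ℂ) * Complex.I := by
      push_cast
      field_simp
    rw [e, MS.tanh_line, ← Complex.exp_nat_mul]
    have e2 : -(2 * (Real.pi * ξ / (4 * s))) = -(Real.pi * ξ) / (2 * s) := by
      field_simp
      ring
    rw [e2]
    congr 1
    push_cast
    ring
  · unfold ph
    refine contDiff_const.mul (Real.contDiff_arctan.comp (Real.contDiff_exp.comp ?_))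
    exact ((contDiff_const.mul contDiff_id).neg.div_const _)

end Pool.Agent.N46.HM
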