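import Pool.Agent.N46.HM.Fin

/-!
# Project HM (helper46): the model is `SL(2, ℂ) / SU(2)`, and the final theorem from the parts
-/

set_option autoImplicit false

open MeasureTheory Set Filter
open scoped ENNReal Topology ComplexConjugate

namespace Pool.Agent.N46.HM

noncomputable section

namespace Mod

theorem trans (x : Hs) (hx : 0 < x.2) :
    ∃ g : Matrix.SpecialLinearGroup (Fin 2) ℂ, act g (0, 1) = x := by
  obtain ⟨z, y⟩ := x
  simp only at hx
  have hy : (√y : ℝ) ≠ 0 := (Real.sqrt_pos.2 hx).ne'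
  have hyc : ((√y : ℝ) : ℂ) ≠ 0 := by exact_mod_cast hy
  have hsq : √y * √y = y := Real.mul_self_sqrt hx.le
  have hsqc : ((√y : ℝ) : ℂ) * ((√y : ℝ) : ℂ) = (y : ℂ) := by
    rw [← Complex.ofReal_mul, hsq]
  have hyc2 : (y : ℂ) ≠ 0 := by exact_mod_cast hx.ne'
  refine ⟨⟨!![((√y : ℝ) : ℂ), z / ((√y : ℝ) : ℂ); 0, 1 / ((√y : ℝ) : ℂ)], ?_⟩, ?_⟩
  · rw [Matrix.det_fin_two]
    simp [hyc]
  · have hdn : dn ⟨!![((√y : ℝ) : ℂ), z / ((√y : ℝ) : ℂ); 0, 1 / ((√y : ℝ) : ℂ)], by
        rw [Matrix.det_fin_two]; simp [hyc]⟩ (0, 1) = 1 / y := by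
      simp [dn]
      exact Real.sq_sqrt hx.le
    unfold act
    rw [hdn]
    simp only [Matrix.of_apply, Matrix.cons_val', Matrix.cons_val_zero, Matrix.cons_val_one,
      Matrix.cons_val_fin_one, mul_zero, zero_add, map_zero, zero_mul, add_zero]
    refine Prod.ext ?_ ?_
    · simp only [map_div₀, map_one, Complex.conj_ofReal]
      push_cast
      rw [div_mul_div_comm, mul_one, hsqc]
      field_simp
    · simp

theorem stab (g : Matrix.SpecialLinearGroup (Fin 2) ℂ) :
    act g (0, 1) = (0, 1) ↔ g.1 ∈ Matrix.unitaryGroup (Fin 2) ℂ := by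
  rw [Matrix.mem_unitaryGroup_iff]
  have hdet := g.2
  rw [Matrix.det_fin_two] at hdet
  set a := g.1 0 0
  set b := g.1 0 1
  set c := g.1 1 0
  set d := g.1 1 1
  have hmul : g.1 * star g.1 = !![a * conj a + b * conj b, a * conj c + b * conj d;
      c * conj a + d * conj b, c * conj c + d * conj d] := by
    ext i j
    fin_cases i <;> fin_cases j <;>
      simp [Matrix.mul_apply, Fin.sum_univ_two, Matrix.star_apply, a, b, c, d]
  have hdn : (dn g (0, 1) : ℂ) = c * conj c + d * conj d := by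
    simp only [dn, mul_zero, zero_add, one_pow, mul_one]
    push_cast
    rw [Complex.mul_conj, Complex.mul_conj, Complex.normSq_eq_norm_sq, Complex.normSq_eq_norm_sq]
    push_cast
    ring
  constructor
  · intro h
    rw [hmul]
    have h1 := congrArg Prod.fst h
    have h2 := congrArg Prod.snd h
    simp only [act] at h1 h2
    have h3 : dn g (0, 1) = 1 := by
      have h4 : dn g (0, 1) ≠ 0 := by
        intro h0; rw [h0] at h2; simp at h2
      field_simp at h2
      exact h2.symm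
    have h5 : c * conj c + d * conj d = 1 := by rw [← hdn, h3]; simp
    have h6 : a * conj c + b * conj d = 0 := by
      rw [h3] at h1
      simp at h1
      linear_combination h1
    have h7 : c * conj a + d * conj b = 0 := by
      have := congrArg conj h6
      simp at this
      linear_combination this
    have h8 : a * conj a + b * conj b = 1 := by
      have h9 : (a * conj a + b * conj b) * (c * conj c + d * conj d) -
          (a * conj c + b * conj d) * (c * conj a + d * conj b) =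
          (a * d - b * c) * conj (a * d - b * c) := by
        simp only [map_sub, map_mul]; ring
      rw [h5, h6, hdet] at h9
      simpa using h9
    rw [h5, h6, h7, h8]
    exact Matrix.one_fin_two.symm
  · intro h
    rw [hmul] at h
    have e01 := congrFun (congrFun h 0) 1
    have e11 := congrFun (congrFun h 1) 1
    simp at e01 e11
    have h3 : dn g (0, 1) = 1 := by
      have : (dn g (0, 1) : ℂ) = 1 := by rw [hdn, e11]
      exact_mod_cast this
    unfold act
    rw [h3]
    refine Prod.ext ?_ ?_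
    · simp
      linear_combination e01
    · simp


/-- `T` is a bounded operator on `L^q` of hyperbolic three-space which commutes with the action of
`SL(2, ℂ)` and acts on the Helgason Fourier transforms of the continuous functions with compact
support by the symbol `m`, in the strip `|Im l| ≤ w` -/
def IsMult (q : ℝ≥0∞) [Fact (1 ≤ q)] (w : ℝ) (T : Lp ℂ q mu →L[ℂ] Lp ℂ q mu) (m : ℂ → ℂ) : Prop :=
  (∀ g : Matrix.SpecialLinearGroup (Fin 2) ℂ, ∃ hg : MeasurePreserving (act g) mu mu,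
    ∀ f : Lp ℂ q mu, T (Lp.compMeasurePreserving (act g) hg f) =
      Lp.compMeasurePreserving (act g) hg (T f)) ∧
  ∀ (f : Lp ℂ q mu) (u : Hs → ℂ), Continuous u → HasCompactSupport u →
    tsupport u ⊆ {x | 0 < x.2} → f =ᵐ[mu] u → ∀ l : ℂ, |l.im| ≤ w → ∀ b : Option ℂ,
    Integrable (fun x => T f x * EE l b x) mu ∧ Integrable (fun x => u x * EE l b x) mu ∧
    ∫ x, T f x * EE l b x ∂mu = m l * ∫ x, u x * EE l b x ∂mu

theorem isMult (hCOMM : S_COMM) (hFUB : S_FUB) (hMS : S_MS) (hINV : S_INV) {s : ℝ} (hs : 0 < s)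
    (hs1 : s < 1) [Fact (1 ≤ pp s)] (K : Lp ℂ (pp s) mu →L[ℂ] Lp ℂ (pp s) mu)
    (hK : IsK s (pp s) K) : IsMult (pp s) s (Fin.TT K) (msym s) := by
  constructor
  · intro g
    refine ⟨hINV g, fun f => ?_⟩
    rw [Fin.TT_apply, Fin.TT_apply, hCOMM s hs hs1 K hK g (hINV g) f, map_sub]
  · intro f u hu huc hus hfu l hl b
    have hl2 : |l.im| < 2 * s := by linarith
    obtain ⟨h1, h2, h3⟩ := hFUB s hs hs1 K hK f u hu huc hus hfu l hl2 b
    have h4 : (fun x => Fin.TT K f x * EE l b x) =ᵐ[mu]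
        fun x => u x * EE l b x - K f x * EE l b x := by
      filter_upwards [Lp.coeFn_sub f (K f), hfu] with x hx hx2
      rw [Fin.TT_apply, hx, Pi.sub_apply, hx2]
      ring
    refine ⟨(h2.sub h1).congr h4.symm, h2, ?_⟩
    rw [integral_congr_ae h4, integral_sub h2 h1, h3, (hMS s hs).2.1 l hl2]
    ring

/-- the conclusion, for the exponent `q` and `w = 1 - 2 / q` -/
def Concl (q : ℝ≥0∞) [Fact (1 ≤ q)] (w : ℝ) : Prop :=
  ∃ (T : Lp ℂ q mu →L[ℂ] Lp ℂ q mu) (m : ℂ → ℂ), IsMult q w T m ∧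
    (∀ l, m (-l) = m l) ∧ DifferentiableOn ℂ m {l : ℂ | |l.im| < 2 * w} ∧
    (∀ l : ℂ, |l.im| ≤ w → ‖m l‖ ≤ 1) ∧
    ∃ f : Lp ℂ q mu, Dense (range fun n : ℕ => (T ^ n) f)

theorem final (hINV : S_INV) (hSPH : S_SPH) (hMS : S_MS) (hOP : S_OP)
    (hCOMM : S_COMM) (hFUB : S_FUB) (hMEM : S_MEM) (hKG : S_KG) (hDISP : S_DISP)
    (hHOLV : S_HOLV) (hUNQ : S_UNQ) (hBUMP : S_BUMP) (hBALL : S_BALL) (hEUC : S_EUC)
    (hVIT : S_VIT) (hKIT : S_KIT) (p : ℝ) (hp : 2 < p) [inst : Fact (1 ≤ ENNReal.ofReal p)] :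
    Concl (ENNReal.ofReal p) (1 - 2 / p) := by
  set s : ℝ := 1 - 2 / p with hs_def
  have hp0 : 0 < p := by linarith
  have hs : 0 < s := by
    have : 2 / p < 1 := by rw [div_lt_one hp0]; exact hp
    linarith
  have hs1 : s < 1 := by
    have : 0 < 2 / p := by positivity
    linarith
  have hpp : ENNReal.ofReal p = pp s := by
    unfold pp
    congr 1
    rw [hs_def]
    field_simp
    ring
  have key : ∀ q : ℝ≥0∞, q = pp s → ∀ [Fact (1 ≤ q)], Concl q s := by
    rintro _ rfl _
    obtain ⟨K, hK⟩ := hOP s hs hs1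
    obtain ⟨-, -, h3, h4, h5, -, -⟩ := hMS s hs
    refine ⟨Fin.TT K, msym s, isMult hCOMM hFUB hMS hINV hs hs1 K hK, h3, h4, h5, ?_⟩
    exact Fin.hyp hSPH hMS hMEM hKG hDISP hHOLV hUNQ hBUMP hBALL hEUC hVIT hKIT hs hs1 K hK
  exact key _ hpp

end Mod

end

end Pool.Agent.N46.HM
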