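import Pool.Agent.N46.HM.Stm

/-!
# Project HM (helper46), MP_e4fe74_an, leaf OP: the convolution with the kernel is bounded on `L^p`

Schur's test with powers of the height as weights.
-/

set_option autoImplicit false

open MeasureTheory Set Filter
open scoped ENNReal Topology ComplexConjugate

namespace Pool.Agent.N46.HM

noncomputable section

namespace OP

/-- Hölder's inequality against a kernel with a weight -/
lemma hoelder {X : Type*} [MeasurableSpace X] (μ : Measure X) {p q : ℝ} (hpq : p.HolderConjugate q)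
    (k g w : X → ℝ≥0∞) (hk : Measurable k) (hg : Measurable g) (hw : Measurable w)
    (hw0 : ∀ x, w x ≠ 0) (hwt : ∀ x, w x ≠ ⊤) :
    ∫⁻ x, k x * g x ∂μ ≤ (∫⁻ x, k x * (g x ^ p * (w x ^ p)⁻¹) ∂μ) ^ (1 / p) *
      (∫⁻ x, k x * w x ^ q ∂μ) ^ (1 / q) := by
  have hp0 : 0 < p := hpq.pos
  have hq0 : 0 < q := hpq.symm.pos
  have h := ENNReal.lintegral_mul_le_Lp_mul_Lq μ hpq
    (f := fun x => k x ^ (1 / p) * (g x * (w x)⁻¹)) (g := fun x => k x ^ (1 / q) * w x)
    ((hk.pow_const _).mul (hg.mul hw.inv)).aemeasurable ((hk.pow_const _).mul hw).aemeasurable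
  have e1 : ∀ x, ((fun x => k x ^ (1 / p) * (g x * (w x)⁻¹)) * fun x => k x ^ (1 / q) * w x) x =
      k x * g x := by
    intro x
    have e : k x ^ (1 / p) * k x ^ (1 / q) = k x := by
      rw [← ENNReal.rpow_add_of_nonneg _ _ (by positivity) (by positivity)]
      have : 1 / p + 1 / q = 1 := by
        have := hpq.inv_add_inv_eq_one
        simpa [one_div] using this
      rw [this, ENNReal.rpow_one]
    have e' : (w x)⁻¹ * w x = 1 := ENNReal.inv_mul_cancel (hw0 x) (hwt x)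
    calc (k x ^ (1 / p) * (g x * (w x)⁻¹)) * (k x ^ (1 / q) * w x)
        = (k x ^ (1 / p) * k x ^ (1 / q)) * (g x * ((w x)⁻¹ * w x)) := by ring
      _ = k x * g x := by rw [e, e', mul_one]
  have e2 : ∀ x, (k x ^ (1 / p) * (g x * (w x)⁻¹)) ^ p = k x * (g x ^ p * (w x ^ p)⁻¹) := by
    intro x
    rw [ENNReal.mul_rpow_of_nonneg _ _ hp0.le, ENNReal.mul_rpow_of_nonneg _ _ hp0.le,
      ← ENNReal.rpow_mul, ENNReal.inv_rpow]
    rw [one_div_mul_cancel hp0.ne', ENNReal.rpow_one]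
  have e3 : ∀ x, (k x ^ (1 / q) * w x) ^ q = k x * w x ^ q := by
    intro x
    rw [ENNReal.mul_rpow_of_nonneg _ _ hq0.le, ← ENNReal.rpow_mul, one_div_mul_cancel hq0.ne',
      ENNReal.rpow_one]
  rw [lintegral_congr e1] at h
  simp only [e2, e3] at h
  exact h

/-- Schur's test with weights -/
lemma schur {X : Type*} [MeasurableSpace X] (μ : Measure X) [SFinite μ] {p q : ℝ}
    (hpq : p.HolderConjugate q) (k : X → X → ℝ≥0∞) (g w : X → ℝ≥0∞)
    (hk : Measurable (Function.uncurry k)) (hg : Measurable g) (hw : Measurable w)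
    (hw0 : ∀ x, w x ≠ 0) (hwt : ∀ x, w x ≠ ⊤) (c : ℝ≥0∞)
    (h1 : ∀ᵐ x ∂μ, ∫⁻ x', k x x' * w x' ^ q ∂μ ≤ c * w x ^ q)
    (h2 : ∀ᵐ x' ∂μ, ∫⁻ x, k x x' * w x ^ p ∂μ ≤ c * w x' ^ p) :
    ∫⁻ x, (∫⁻ x', k x x' * g x' ∂μ) ^ p ∂μ ≤ c ^ p * ∫⁻ x, g x ^ p ∂μ := by
  have hp0 : 0 < p := hpq.pos
  have hq0 : 0 < q := hpq.symm.pos
  have hkx : ∀ x, Measurable (k x) := fun x => hk.comp (measurable_const.prodMk measurable_id)
  have s1 : ∀ᵐ x ∂μ, (∫⁻ x', k x x' * g x' ∂μ) ^ p ≤
      ∫⁻ x', c ^ (p / q) * (k x x' * w x ^ p * (g x' ^ p * (w x' ^ p)⁻¹)) ∂μ := by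
    filter_upwards [h1] with x hx
    have h := hoelder μ hpq (k x) g w (hkx x) hg hw hw0 hwt
    have h' : (∫⁻ x', k x x' * g x' ∂μ) ^ p ≤
        ((∫⁻ x', k x x' * (g x' ^ p * (w x' ^ p)⁻¹) ∂μ) ^ (1 / p) *
        (c * w x ^ q) ^ (1 / q)) ^ p := by
      apply ENNReal.rpow_le_rpow _ hp0.le
      exact h.trans (mul_le_mul' le_rfl (ENNReal.rpow_le_rpow hx (by positivity)))
    refine h'.trans (le_of_eq ?_)
    rw [ENNReal.mul_rpow_of_nonneg _ _ hp0.le, ← ENNReal.rpow_mul, ← ENNReal.rpow_mul,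
      one_div_mul_cancel hp0.ne', ENNReal.rpow_one]
    rw [ENNReal.mul_rpow_of_nonneg _ _ (by positivity), ← ENNReal.rpow_mul]
    have ea : 1 / q * p = p / q := by ring
    have eb : q * (p / q) = p := by field_simp
    rw [ea, eb]
    have hm1 : Measurable fun x' => k x x' * (g x' ^ p * (w x' ^ p)⁻¹) :=
      (hkx x).mul ((hg.pow_const _).mul (hw.pow_const _).inv)
    rw [← lintegral_mul_const _ hm1]
    apply lintegral_congr
    intro x'
    ring
  have hmeas : Measurable (Function.uncurry fun x x' =>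
      c ^ (p / q) * (k x x' * w x ^ p * (g x' ^ p * (w x' ^ p)⁻¹))) := by
    apply Measurable.const_mul
    apply Measurable.mul
    · exact hk.mul ((hw.comp measurable_fst).pow_const _)
    · exact ((hg.comp measurable_snd).pow_const _).mul ((hw.comp measurable_snd).pow_const _).inv
  calc ∫⁻ x, (∫⁻ x', k x x' * g x' ∂μ) ^ p ∂μ
      ≤ ∫⁻ x, ∫⁻ x', c ^ (p / q) * (k x x' * w x ^ p * (g x' ^ p * (w x' ^ p)⁻¹)) ∂μ ∂μ :=
        lintegral_mono_ae s1
    _ = ∫⁻ x', ∫⁻ x, c ^ (p / q) * (k x x' * w x ^ p * (g x' ^ p * (w x' ^ p)⁻¹)) ∂μ ∂μ :=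
        lintegral_lintegral_swap hmeas.aemeasurable
    _ ≤ ∫⁻ x', c ^ p * g x' ^ p ∂μ := by
        apply lintegral_mono_ae
        filter_upwards [h2] with x' hx'
        have hkx' : Measurable fun x => k x x' := hk.comp (measurable_id.prodMk measurable_const)
        have e0 : ∫⁻ x, c ^ (p / q) * (k x x' * w x ^ p * (g x' ^ p * (w x' ^ p)⁻¹)) ∂μ =
            c ^ (p / q) * ((∫⁻ x, k x x' * w x ^ p ∂μ) * (g x' ^ p * (w x' ^ p)⁻¹)) := by
          have hm2 : Measurable fun x => k x x' * w x ^ p := hkx'.mul (hw.pow_const _)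
          have hm3 : Measurable fun x => k x x' * w x ^ p * (g x' ^ p * (w x' ^ p)⁻¹) :=
            hm2.mul_const _
          rw [lintegral_const_mul _ hm3, lintegral_mul_const _ hm2]
        rw [e0]
        calc c ^ (p / q) * ((∫⁻ x, k x x' * w x ^ p ∂μ) * (g x' ^ p * (w x' ^ p)⁻¹))
            ≤ c ^ (p / q) * ((c * w x' ^ p) * (g x' ^ p * (w x' ^ p)⁻¹)) := by gcongr
          _ = (c ^ (p / q) * c) * g x' ^ p * (w x' ^ p * (w x' ^ p)⁻¹) := by ring
          _ = c ^ p * g x' ^ p := by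
              have h0 : w x' ^ p ≠ 0 := by
                simp [ENNReal.rpow_eq_zero_iff, hw0 x', hwt x']
              have ht : w x' ^ p ≠ ⊤ := ENNReal.rpow_ne_top_of_nonneg hp0.le (hwt x')
              rw [ENNReal.mul_inv_cancel h0 ht, mul_one]
              congr 1
              have ec : p / q + 1 = p := by
                have := hpq.inv_add_inv_eq_one
                field_simp at this ⊢
                linarith
              nth_rewrite 2 [← ENNReal.rpow_one c]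
              rw [← ENNReal.rpow_add_of_nonneg _ _ (by positivity) zero_le_one, ec]
    _ = c ^ p * ∫⁻ x, g x ^ p ∂μ := lintegral_const_mul _ (hg.pow_const _)

instance : SFinite mu := by unfold mu; infer_instance

lemma ae_pos : ∀ᵐ x ∂mu, 0 < x.2 := by
  have hs : MeasurableSet {x : Hs | 0 < x.2} := measurableSet_lt measurable_const measurable_snd
  exact (withDensity_absolutelyContinuous _ _).ae_le (ae_restrict_mem hs)

/-- the majorant of the kernel integral is integrable -/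
lemma int_fin (s : ℝ) (hs : 0 < s) (C : ℝ) :
    ∫⁻ t in Ioi (0 : ℝ), ENNReal.ofReal (2 * Real.pi * C * (1 + t) * Real.exp (-(s * t))) *
      ENNReal.ofReal (2 * t) < ⊤ := by
  have i1 := integrableOn_rpow_mul_exp_neg_mul_rpow (p := 1) (s := 1) (b := s) (by norm_num)
    one_pos hs
  have i2 := integrableOn_rpow_mul_exp_neg_mul_rpow (p := 1) (s := 2) (b := s) (by norm_num)
    one_pos hs
  have i3 : IntegrableOn (fun t : ℝ => 4 * Real.pi * |C| * (t ^ (1 : ℝ) * Real.exp (-s * t ^ (1 : ℝ))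
      + t ^ (2 : ℝ) * Real.exp (-s * t ^ (1 : ℝ)))) (Ioi 0) := (i1.add i2).const_mul _
  refine lt_of_le_of_lt ?_ i3.lintegral_lt_top
  apply lintegral_mono_ae
  filter_upwards [ae_restrict_mem measurableSet_Ioi] with t ht
  have ht0 : (0 : ℝ) < t := ht
  rw [← ENNReal.ofReal_mul' (by positivity)]
  apply ENNReal.ofReal_le_ofReal
  have e2 : t ^ (2 : ℝ) = t ^ 2 := by
    rw [← Real.rpow_natCast]; norm_num
  rw [Real.rpow_one, e2]
  have e3 : -s * t = -(s * t) := by ring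
  rw [e3]
  have hE := Real.exp_pos (-(s * t))
  have hC : C ≤ |C| := le_abs_self C
  have : 2 * Real.pi * C * (1 + t) * Real.exp (-(s * t)) * (2 * t) =
      (4 * Real.pi * (1 + t) * Real.exp (-(s * t)) * t) * C := by ring
  rw [this]
  have h5 : (4 * Real.pi * (1 + t) * Real.exp (-(s * t)) * t) * C ≤
      (4 * Real.pi * (1 + t) * Real.exp (-(s * t)) * t) * |C| :=
    mul_le_mul_of_nonneg_left hC (by have := Real.pi_pos; positivity)
  refine h5.trans (le_of_eq ?_)
  ring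

/-- the kernel -/
def kk (s : ℝ) (x x' : Hs) : ℝ≥0∞ := ‖kap s (dH x x')‖ₑ

attribute [local irreducible] dH kap

lemma meas_dH (h1 : S_DIST) (x : Hs) : Measurable fun x' : Hs => dH x x' := by
  have a : Measurable fun x' : Hs => ((x, x') : Hs × Hs) := measurable_prodMk_left
  exact h1.2.comp a

/-- the integral of the kernel against a power of the height -/
lemma pow_int (h1 : S_DIST) (h2 : S_RAD) (h4 : S_KAP) (s : ℝ) (hs : 0 < s) :
    ∃ c : ℝ≥0∞, c ≠ ⊤ ∧ ∀ a : ℝ, |a - 1| ≤ s → ∀ x : Hs, 0 < x.2 →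
      ∫⁻ x', kk s x x' * ENNReal.ofReal (Real.exp (a * Real.log x'.2)) ∂mu ≤
        c * ENNReal.ofReal (Real.exp (a * Real.log x.2)) := by
  obtain ⟨hkm, hk0, ⟨C, hC⟩, -⟩ := h4 s hs
  refine ⟨_, (int_fin s hs C).ne, ?_⟩
  intro a ha x hx
  have hF : Measurable fun t : ℝ => (‖kap s t‖ₑ : ℝ≥0∞) := hkm.enorm
  have hG : Measurable fun r : ℝ => ENNReal.ofReal (Real.exp (a * r)) := by fun_prop
  have hR := h2 x hx _ _ hF hG
  have e1 : ∫⁻ x', kk s x x' * ENNReal.ofReal (Real.exp (a * Real.log x'.2)) ∂mu =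
      (∫⁻ x', ‖kap s (dH x x')‖ₑ * ENNReal.ofReal (Real.exp (a * Real.log (x'.2 / x.2))) ∂mu) *
        ENNReal.ofReal (Real.exp (a * Real.log x.2)) := by
    have hm : Measurable fun x' : Hs => (‖kap s (dH x x')‖ₑ : ℝ≥0∞) *
        ENNReal.ofReal (Real.exp (a * Real.log (x'.2 / x.2))) := by
      have hd : Measurable fun x' : Hs => dH x x' := meas_dH h1 x
      have ha : Measurable fun x' : Hs => (‖kap s (dH x x')‖ₑ : ℝ≥0∞) := hF.comp hd
      have hb : Measurable fun x' : Hs =>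
          ENNReal.ofReal (Real.exp (a * Real.log (x'.2 / x.2))) := by fun_prop
      exact ha.mul hb
    rw [← lintegral_mul_const _ hm]
    apply lintegral_congr_ae
    filter_upwards [ae_pos] with x' hx'
    rw [kk, mul_assoc, ← ENNReal.ofReal_mul (Real.exp_pos _).le, ← Real.exp_add]
    congr 3
    rw [Real.log_div hx'.ne' hx.ne']
    ring
  rw [e1]
  apply mul_le_mul' _ le_rfl
  rw [hR]
  apply lintegral_mono_ae
  filter_upwards [ae_restrict_mem measurableSet_Ioi] with t ht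
  have ht0 : (0 : ℝ) < t := ht
  have hsh : 0 < Real.sinh t := Real.sinh_pos_iff.2 ht0
  have hb : ∀ r ∈ Ioo (-t) t, (‖kap s t‖ₑ : ℝ≥0∞) * ENNReal.ofReal (Real.exp (a * r)) *
      ENNReal.ofReal (2 * Real.pi * Real.sinh t * Real.exp (-r)) ≤
      ENNReal.ofReal (2 * Real.pi * C * (1 + t) * Real.exp (-(s * t))) := by
    intro r hr
    rw [Real.enorm_of_nonneg (hk0 t ht0), ← ENNReal.ofReal_mul (hk0 t ht0),
      ← ENNReal.ofReal_mul (mul_nonneg (hk0 t ht0) (Real.exp_pos _).le)]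
    apply ENNReal.ofReal_le_ofReal
    have hr' : |r| ≤ t := abs_le.2 ⟨hr.1.le, hr.2.le⟩
    have h5 : (a - 1) * r ≤ s * t := by
      calc (a - 1) * r ≤ |(a - 1) * r| := le_abs_self _
        _ = |a - 1| * |r| := abs_mul _ _
        _ ≤ s * t := mul_le_mul ha hr' (abs_nonneg _) hs.le
    have h6 : Real.exp (a * r) * Real.exp (-r) ≤ Real.exp (s * t) := by
      rw [← Real.exp_add]
      apply Real.exp_le_exp.2
      linarith
    have h7 := hC t ht0
    have h8 : 0 ≤ kap s t * Real.sinh t := mul_nonneg (hk0 t ht0) hsh.le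
    have h9 : (kap s t * Real.sinh t) * (Real.exp (a * r) * Real.exp (-r)) ≤
        (C * (1 + t) * Real.exp (-(2 * s * t))) * Real.exp (s * t) :=
      mul_le_mul h7 h6 (by positivity) (h8.trans h7)
    have h10 : Real.exp (-(2 * s * t)) * Real.exp (s * t) = Real.exp (-(s * t)) := by
      rw [← Real.exp_add]; congr 1; ring
    calc kap s t * Real.exp (a * r) * (2 * Real.pi * Real.sinh t * Real.exp (-r))
        = 2 * Real.pi * ((kap s t * Real.sinh t) * (Real.exp (a * r) * Real.exp (-r))) := by ring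
      _ ≤ 2 * Real.pi * ((C * (1 + t) * Real.exp (-(2 * s * t))) * Real.exp (s * t)) :=
          mul_le_mul_of_nonneg_left h9 (by have := Real.pi_pos; positivity)
      _ = 2 * Real.pi * (C * (1 + t) * (Real.exp (-(2 * s * t)) * Real.exp (s * t))) := by ring
      _ = 2 * Real.pi * C * (1 + t) * Real.exp (-(s * t)) := by rw [h10]; ring
  calc ∫⁻ r in Ioo (-t) t, (‖kap s t‖ₑ : ℝ≥0∞) * ENNReal.ofReal (Real.exp (a * r)) *
        ENNReal.ofReal (2 * Real.pi * Real.sinh t * Real.exp (-r))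
      ≤ ∫⁻ _ in Ioo (-t) t, ENNReal.ofReal (2 * Real.pi * C * (1 + t) * Real.exp (-(s * t))) := by
        apply lintegral_mono_ae
        filter_upwards [ae_restrict_mem measurableSet_Ioo] with r hr
        exact hb r hr
    _ = ENNReal.ofReal (2 * Real.pi * C * (1 + t) * Real.exp (-(s * t))) *
          ENNReal.ofReal (2 * t) := by
        rw [lintegral_const, Measure.restrict_apply MeasurableSet.univ, univ_inter,
          Real.volume_Ioo]
        congr 2
        ring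

/-- the norm estimate -/
lemma norm_est (h1 : S_DIST) (h2 : S_RAD) (h4 : S_KAP) (s : ℝ) (hs : 0 < s) (hs1 : s < 1) :
    ∃ c : ℝ≥0∞, c ≠ ⊤ ∧ ∀ g : Hs → ℝ≥0∞, Measurable g →
      ∫⁻ x, (∫⁻ x', kk s x x' * g x' ∂mu) ^ (2 / (1 - s)) ∂mu ≤
        c ^ (2 / (1 - s)) * ∫⁻ x, g x ^ (2 / (1 - s)) ∂mu := by
  obtain ⟨c, hc, hp⟩ := pow_int h1 h2 h4 s hs
  refine ⟨c, hc, ?_⟩
  intro g hg
  obtain ⟨hkm, -⟩ := h4 s hs
  have hpq : (2 / (1 - s)).HolderConjugate (2 / (1 + s)) := by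
    rw [Real.holderConjugate_iff]
    constructor
    · rw [lt_div_iff₀ (by linarith)]; linarith
    · rw [inv_div, inv_div]; ring
  have hk : Measurable (Function.uncurry (kk s)) := by
    have : Measurable fun q : Hs × Hs => (‖kap s (dH q.1 q.2)‖ₑ : ℝ≥0∞) :=
      (hkm.comp h1.2).enorm
    exact this
  have hw : ∀ b : ℝ, Measurable fun x : Hs => ENNReal.ofReal (Real.exp (b * Real.log x.2)) := by
    intro b
    fun_prop
  have hwr : ∀ (b r : ℝ), ∀ x : Hs, ENNReal.ofReal (Real.exp (b * Real.log x.2)) ^ r =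
      ENNReal.ofReal (Real.exp ((b * r) * Real.log x.2)) := by
    intro b r x
    rw [ENNReal.ofReal_rpow_of_pos (Real.exp_pos _), ← Real.exp_mul]
    congr 2
    ring
  have hs1' : (1 - s) ≠ 0 := by linarith
  have hs2' : (1 + s) ≠ 0 := by linarith
  apply schur mu hpq (kk s) g
    (fun x => ENNReal.ofReal (Real.exp (((1 - s) * (1 + s) / 2) * Real.log x.2))) hk hg (hw _)
    (fun x => (ENNReal.ofReal_pos.2 (Real.exp_pos _)).ne') (fun x => ENNReal.ofReal_ne_top) c
  · filter_upwards [ae_pos] with x hx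
    simp only [hwr]
    have e : (1 - s) * (1 + s) / 2 * (2 / (1 + s)) = 1 - s := by field_simp
    rw [e]
    apply hp _ _ x hx
    rw [show 1 - s - 1 = -s by ring, abs_neg, abs_of_pos hs]
  · filter_upwards [ae_pos] with x' hx'
    simp only [hwr]
    have e : (1 - s) * (1 + s) / 2 * (2 / (1 - s)) = 1 + s := by field_simp
    rw [e]
    have e2 : ∫⁻ x, kk s x x' * ENNReal.ofReal (Real.exp ((1 + s) * Real.log x.2)) ∂mu =
        ∫⁻ x, kk s x' x * ENNReal.ofReal (Real.exp ((1 + s) * Real.log x.2)) ∂mu := by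
      apply lintegral_congr_ae
      filter_upwards [ae_pos] with x hx
      rw [kk, kk, (h1.1 x x' hx hx').2.2.2.1]
    rw [e2]
    apply hp _ _ x' hx'
    rw [show 1 + s - 1 = s by ring, abs_of_pos hs]

/-- the integral operator -/
def TT (s : ℝ) (f : Hs → ℂ) (x : Hs) : ℂ := ∫ x', (kap s (dH x x') : ℂ) * f x' ∂mu

lemma pp_toReal (s : ℝ) (hs1 : s < 1) : (pp s).toReal = 2 / (1 - s) := by
  rw [pp, ENNReal.toReal_ofReal]
  have : 0 < 1 - s := by linarith
  positivity

lemma pp_ne_zero (s : ℝ) (hs1 : s < 1) : pp s ≠ 0 := by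
  rw [pp]
  have : 0 < 1 - s := by linarith
  exact (ENNReal.ofReal_pos.2 (by positivity)).ne'

lemma pp_ne_top (s : ℝ) : pp s ≠ ⊤ := by
  rw [pp]; exact ENNReal.ofReal_ne_top

lemma enorm_ker (s : ℝ) (f : Hs → ℂ) (x x' : Hs) :
    ‖(kap s (dH x x') : ℂ) * f x'‖ₑ = kk s x x' * ‖f x'‖ₑ := by
  rw [enorm_mul, kk]
  congr 1
  rw [← ofReal_norm, ← ofReal_norm, Complex.norm_real]

lemma sm_ker (h1 : S_DIST) (h4 : S_KAP) (s : ℝ) (hs : 0 < s) (f : Hs → ℂ)
    (hf : StronglyMeasurable f) :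
    StronglyMeasurable (Function.uncurry fun x x' : Hs => (kap s (dH x x') : ℂ) * f x') := by
  obtain ⟨hkm, -⟩ := h4 s hs
  apply Measurable.stronglyMeasurable
  apply Measurable.mul
  · exact Complex.measurable_ofReal.comp (hkm.comp h1.2)
  · exact hf.measurable.comp measurable_snd

/-- the operator is well defined and bounded -/
lemma TT_est (h1 : S_DIST) (h2 : S_RAD) (h4 : S_KAP) (s : ℝ) (hs : 0 < s) (hs1 : s < 1) :
    ∃ c : ℝ≥0∞, c ≠ ⊤ ∧ ∀ f : Hs → ℂ, StronglyMeasurable f → MemLp f (pp s) mu →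
      (∀ᵐ x ∂mu, Integrable (fun x' => (kap s (dH x x') : ℂ) * f x') mu) ∧
      MemLp (TT s f) (pp s) mu ∧ eLpNorm (TT s f) (pp s) mu ≤ c * eLpNorm f (pp s) mu := by
  obtain ⟨c, hc, hn⟩ := norm_est h1 h2 h4 s hs hs1
  refine ⟨c, hc, ?_⟩
  intro f hf hfp
  have hp0 : 0 < 2 / (1 - s) := by
    have : 0 < 1 - s := by linarith
    positivity
  have hg : Measurable fun x => (‖f x‖ₑ : ℝ≥0∞) := hf.measurable.enorm
  have hN := hn _ hg
  have hfin : c ^ (2 / (1 - s)) * ∫⁻ x, (‖f x‖ₑ : ℝ≥0∞) ^ (2 / (1 - s)) ∂mu < ⊤ := by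
    apply ENNReal.mul_lt_top
    · exact ENNReal.rpow_lt_top_of_nonneg hp0.le hc
    · have := lintegral_rpow_enorm_lt_top_of_eLpNorm_lt_top (pp_ne_zero s hs1) (pp_ne_top s) hfp.2
      rwa [pp_toReal s hs1] at this
  have hsm := sm_ker h1 h4 s hs f hf
  have hsec : ∀ x : Hs, StronglyMeasurable fun x' : Hs => (kap s (dH x x') : ℂ) * f x' := by
    intro x
    exact hsm.of_uncurry_left
  have hmk : Measurable fun x : Hs => ∫⁻ x', kk s x x' * ‖f x'‖ₑ ∂mu := by
    have : Measurable (Function.uncurry fun x x' : Hs => ‖(kap s (dH x x') : ℂ) * f x'‖ₑ) :=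
      hsm.measurable.enorm
    have := this.lintegral_prod_right' (ν := mu)
    simp only [Function.uncurry, enorm_ker] at this
    exact this
  have hae : ∀ᵐ x ∂mu, ∫⁻ x', kk s x x' * ‖f x'‖ₑ ∂mu < ⊤ := by
    have := ae_lt_top (hmk.pow_const (2 / (1 - s))) (hN.trans_lt hfin).ne
    filter_upwards [this] with x hx
    exact (ENNReal.rpow_lt_top_iff_of_pos hp0).1 hx
  have hle : ∀ x, ‖TT s f x‖ₑ ≤ ∫⁻ x', kk s x x' * ‖f x'‖ₑ ∂mu := by
    intro x
    refine (enorm_integral_le_lintegral_enorm _).trans (le_of_eq ?_)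
    simp only [enorm_ker]
  have hTm : StronglyMeasurable (TT s f) := by
    have := hsm.integral_prod_right (ν := mu)
    exact this
  have hT : eLpNorm (TT s f) (pp s) mu ≤ c * eLpNorm f (pp s) mu := by
    rw [eLpNorm_eq_lintegral_rpow_enorm_toReal (pp_ne_zero s hs1) (pp_ne_top s),
      eLpNorm_eq_lintegral_rpow_enorm_toReal (pp_ne_zero s hs1) (pp_ne_top s), pp_toReal s hs1]
    have e : c * (∫⁻ x, ‖f x‖ₑ ^ (2 / (1 - s)) ∂mu) ^ (1 / (2 / (1 - s))) =
        (c ^ (2 / (1 - s)) * ∫⁻ x, ‖f x‖ₑ ^ (2 / (1 - s)) ∂mu) ^ (1 / (2 / (1 - s))) := by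
      rw [ENNReal.mul_rpow_of_nonneg _ _ (by positivity), ← ENNReal.rpow_mul,
        mul_one_div_cancel hp0.ne', ENNReal.rpow_one]
    rw [e]
    apply ENNReal.rpow_le_rpow _ (by positivity)
    refine le_trans (lintegral_mono fun x => ?_) hN
    exact ENNReal.rpow_le_rpow (hle x) hp0.le
  refine ⟨?_, ⟨hTm.aestronglyMeasurable, ?_⟩, hT⟩
  · filter_upwards [hae] with x hx
    refine ⟨(hsec x).aestronglyMeasurable, ?_⟩
    rw [hasFiniteIntegral_iff_enorm]
    simp only [enorm_ker]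
    exact hx
  · exact hT.trans_lt (ENNReal.mul_lt_top hc.lt_top hfp.2)

end OP

/-- OP: the convolution is bounded -/
theorem t_OP (h1 : S_DIST) (h2 : S_RAD) (h3 : S_SPH) (h4 : S_KAP) : S_OP := by
  intro s hs hs1 hfact
  obtain ⟨c, hc, hT⟩ := OP.TT_est h1 h2 h4 s hs hs1
  have H : ∀ f : Lp ℂ (pp s) mu,
      (∀ᵐ x ∂mu, Integrable (fun x' => (kap s (dH x x') : ℂ) * f x') mu) ∧
      MemLp (OP.TT s f) (pp s) mu ∧ eLpNorm (OP.TT s f) (pp s) mu ≤ c * eLpNorm f (pp s) mu :=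
    fun f => hT f (Lp.stronglyMeasurable f) (Lp.memLp f)
  have hcongr : ∀ f g : Hs → ℂ, f =ᵐ[mu] g → OP.TT s f = OP.TT s g := by
    intro f g hfg
    funext x
    apply integral_congr_ae
    filter_upwards [hfg] with x' hx'
    rw [hx']
  have hadd : ∀ f g : Lp ℂ (pp s) mu, OP.TT s ((f + g : Lp ℂ (pp s) mu) : Hs → ℂ) =ᵐ[mu]
      OP.TT s f + OP.TT s g := by
    intro f g
    rw [hcongr _ _ (Lp.coeFn_add f g)]
    filter_upwards [(H f).1, (H g).1] with x hx hx'
    simp only [OP.TT, Pi.add_apply]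
    rw [← integral_add hx hx']
    apply integral_congr_ae
    filter_upwards with x'
    ring
  have hsmul : ∀ (a : ℂ) (f : Lp ℂ (pp s) mu), OP.TT s ((a • f : Lp ℂ (pp s) mu) : Hs → ℂ) =ᵐ[mu]
      a • OP.TT s f := by
    intro a f
    rw [hcongr _ _ (Lp.coeFn_smul a f)]
    filter_upwards with x
    simp only [OP.TT, Pi.smul_apply, smul_eq_mul]
    rw [← integral_const_mul]
    apply integral_congr_ae
    filter_upwards with x'
    ring
  let L : Lp ℂ (pp s) mu →ₗ[ℂ] Lp ℂ (pp s) mu :=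
    { toFun := fun f => (H f).2.1.toLp (OP.TT s f)
      map_add' := by
        intro f g
        rw [← MemLp.toLp_add]
        exact MemLp.toLp_congr _ _ (hadd f g)
      map_smul' := by
        intro a f
        rw [RingHom.id_apply, ← MemLp.toLp_const_smul]
        exact MemLp.toLp_congr _ _ (hsmul a f) }
  refine ⟨L.mkContinuous c.toReal ?_, ?_⟩
  · intro f
    change ‖(H f).2.1.toLp (OP.TT s f)‖ ≤ _
    rw [Lp.norm_toLp, Lp.norm_def, ← ENNReal.toReal_mul]
    exact ENNReal.toReal_mono (ENNReal.mul_ne_top hc (Lp.memLp f).2.ne) (H f).2.2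
  · intro f
    refine ⟨(H f).1, ?_⟩
    exact MemLp.coeFn_toLp (H f).2.1

end

end Pool.Agent.N46.HM
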