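import Pool.Agent.N46.HM.Mod

/-!
# Project HM (helper46): short form of the final statement
-/

set_option autoImplicit false

open MeasureTheory Set Filter
open scoped ENNReal Topology ComplexConjugate

namespace Pool.Agent.N46.HM

noncomputable section

/-- the group `SL(2, ℂ)` -/
abbrev SL2 : Type := Matrix.SpecialLinearGroup (Fin 2) ℂ

/-- The upper half-space `{(z, y) | 0 < y}` with `act` and `mu` is the homogeneous space
`SL(2, ℂ) / SU(2)`: `act` is an action of `SL(2, ℂ)` which preserves the upper half-space and the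
measure `mu`, it is transitive, and the stabilizer of `(0, 1)` is `SU(2)`. -/
def IsModel : Prop :=
  (∀ (g h : SL2) (x : Hs), 0 < x.2 →
    0 < (act g x).2 ∧ act (g * h) x = act g (act h x) ∧ act 1 x = x) ∧
  (∀ x : Hs, 0 < x.2 → ∃ g : SL2, act g (0, 1) = x) ∧
  (∀ g : SL2, act g (0, 1) = (0, 1) ↔ g.1 ∈ Matrix.unitaryGroup (Fin 2) ℂ) ∧
  ∀ g : SL2, MeasurePreserving (act g) mu mu

/-- `L^q` of hyperbolic three-space (Mathlib's `Lp` for the measure `mu`) -/
def LX (q : ℝ≥0∞) : Type := Lp ℂ q mu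

/-- the norm of Mathlib's `Lp` -/
instance instNG (q : ℝ≥0∞) [Fact (1 ≤ q)] : NormedAddCommGroup (LX q) :=
  (Lp.instNormedAddCommGroup : NormedAddCommGroup (Lp ℂ q mu))

/-- the vector space structure of Mathlib's `Lp` -/
instance instNS (q : ℝ≥0∞) [Fact (1 ≤ q)] : NormedSpace ℂ (LX q) :=
  (Lp.instNormedSpace : NormedSpace ℂ (Lp ℂ q mu))

/-- the function given by an element of `L^q` (determined up to null sets) -/
def val {q : ℝ≥0∞} (f : LX q) : Hs → ℂ := fun x => (show Lp ℂ q mu from f) x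

/-- `T` commutes with the translations by the elements of `SL(2, ℂ)`: if `f' = f ∘ act g` (almost
everywhere), then `T f' = (T f) ∘ act g` (almost everywhere). -/
def Commutes {q : ℝ≥0∞} [Fact (1 ≤ q)] (T : LX q →L[ℂ] LX q) : Prop :=
  ∀ (g : SL2) (f f' : LX q), val f' =ᵐ[mu] (fun x => val f (act g x)) →
    val (T f') =ᵐ[mu] fun x => val (T f) (act g x)

/-- continuous functions with compact support in the upper half-space -/
def Test (u : Hs → ℂ) : Prop :=
  Continuous u ∧ HasCompactSupport u ∧ tsupport u ⊆ {x | 0 < x.2}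

/-- `m` is the symbol of `T` in the strip `|Im l| ≤ w`: the Helgason Fourier transforms
`∫ u · EE l b` of the continuous functions `u` with compact support are multiplied by `m l`. -/
def HasSymbol {q : ℝ≥0∞} [Fact (1 ≤ q)] (w : ℝ) (T : LX q →L[ℂ] LX q) (m : ℂ → ℂ) : Prop :=
  ∀ (f : LX q) (u : Hs → ℂ), Test u → val f =ᵐ[mu] u → ∀ l : ℂ, |l.im| ≤ w →
    ∀ b : Option ℂ, Integrable (fun x => val (T f) x * EE l b x) mu ∧
      Integrable (fun x => u x * EE l b x) mu ∧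
      ∫ x, val (T f) x * EE l b x ∂mu = m l * ∫ x, u x * EE l b x ∂mu

/-- `m` is even, holomorphic in the open strip `|Im l| < 2 w` and bounded by one in the strip
`|Im l| ≤ w`. -/
def Contractive (w : ℝ) (m : ℂ → ℂ) : Prop :=
  (∀ l, m (-l) = m l) ∧ DifferentiableOn ℂ m {l : ℂ | |l.im| < 2 * w} ∧
    ∀ l : ℂ, |l.im| ≤ w → ‖m l‖ ≤ 1

/-- `T` has a dense orbit `{T^n f : n ≥ 0}`. -/
def Hypercyclic {q : ℝ≥0∞} [Fact (1 ≤ q)] (T : LX q →L[ℂ] LX q) : Prop :=
  ∃ f : LX q, Dense (range fun n : ℕ => (T ^ n) f)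

theorem out_model (hISO : S_ISO) (hINV : S_INV) : IsModel :=
  ⟨fun g h x hx => ⟨(hISO.1 g x hx).2.1, hISO.2.1 g h x hx, hISO.2.2 x⟩, Mod.trans, Mod.stab, hINV⟩

theorem out_main (p : ℝ) [Fact (1 ≤ ENNReal.ofReal p)]
    (h : Mod.Concl (ENNReal.ofReal p) (1 - 2 / p)) :
    ∃ (T : LX (ENNReal.ofReal p) →L[ℂ] LX (ENNReal.ofReal p)) (m : ℂ → ℂ),
      Commutes T ∧ HasSymbol (1 - 2 / p) T m ∧ Contractive (1 - 2 / p) m ∧ Hypercyclic T := by
  obtain ⟨T, m, ⟨h1, h2⟩, h3, h4, h5, h6⟩ := h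
  refine ⟨T, m, ?_, ?_, ⟨h3, h4, h5⟩, h6⟩
  · intro g f f' hf
    obtain ⟨hg, hg2⟩ := h1 g
    have hf' : (f' : Lp ℂ (ENNReal.ofReal p) mu) =
        Lp.compMeasurePreserving (act g) hg (f : Lp ℂ (ENNReal.ofReal p) mu) := by
      apply Lp.ext
      exact hf.trans (Lp.coeFn_compMeasurePreserving (f : Lp ℂ (ENNReal.ofReal p) mu) hg).symm
    have h7 : T f' = Lp.compMeasurePreserving (act g) hg (T f) := by
      rw [hf']; exact hg2 f
    show (T f' : Lp ℂ (ENNReal.ofReal p) mu) =ᵐ[mu] _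
    rw [h7]
    exact Lp.coeFn_compMeasurePreserving (T f : Lp ℂ (ENNReal.ofReal p) mu) hg
  · intro f u hu hfu l hl b
    exact h2 f u hu.1 hu.2.1 hu.2.2 hfu l hl b

end

end Pool.Agent.N46.HM
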