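import Pool.Agent.N46.HM.Stm

/-!
# Project HM, part PAIR: pairs of points can be moved to the vertical line (helper547)
-/

set_option autoImplicit false
set_option linter.all false

open MeasureTheory Set Filter
open scoped ENNReal Topology ComplexConjugate

namespace Pool.Agent.N46.HM

namespace PAIR

abbrev SL : Type := Matrix.SpecialLinearGroup (Fin 2) ℂ

def mk (a b c d : ℂ) (h : a * d - b * c = 1) : SL :=
  ⟨!![a, b; c, d], by rw [Matrix.det_fin_two_of]; exact h⟩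

theorem act_mk (a b c d : ℂ) (h : a * d - b * c = 1) (x : Hs) :
    act (mk a b c d h) x = (((a * x.1 + b) * conj (c * x.1 + d) + a * conj c * (x.2 : ℂ) ^ 2) /
      ((‖c * x.1 + d‖ ^ 2 + ‖c‖ ^ 2 * x.2 ^ 2 : ℝ) : ℂ),
      x.2 / (‖c * x.1 + d‖ ^ 2 + ‖c‖ ^ 2 * x.2 ^ 2)) := by
  simp [act, dn, mk]

theorem step1 (x : Hs) (hx : 0 < x.2) : ∃ g : SL, act g x = (0, 1) := by
  have hs : (0 : ℝ) < √x.2 := Real.sqrt_pos.2 hx
  have hs2 : √x.2 * √x.2 = x.2 := Real.mul_self_sqrt hx.le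
  have hsc : ((√x.2 : ℝ) : ℂ) ≠ 0 := by exact_mod_cast hs.ne'
  refine ⟨mk (((√x.2 : ℝ) : ℂ)⁻¹) (-x.1 * ((√x.2 : ℝ) : ℂ)⁻¹) 0 (√x.2 : ℝ) (by field_simp; ring), ?_⟩
  rw [act_mk]
  ext1
  · simp only
    rw [div_eq_zero_iff]
    left
    simp only [map_zero, mul_zero, zero_mul, add_zero]
    ring
  · simp only [zero_mul, zero_add, norm_zero]
    rw [Complex.norm_real, Real.norm_of_nonneg hs.le]
    have : √x.2 ^ 2 = x.2 := by rw [sq]; exact hs2
    rw [this]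
    simp [hx.ne']

theorem root (ζ : ℂ) (k : ℝ) : ∃ t : ℂ, ζ - t ^ 2 * conj ζ + t * k = 0 := by
  by_cases hζ : ζ = 0
  · exact ⟨0, by rw [hζ]; simp⟩
  · have h1 : 0 < ‖ζ‖ := norm_pos_iff.2 hζ
    set s : ℝ := √(k ^ 2 + 4 * ‖ζ‖ ^ 2) with hs
    have hs2 : s ^ 2 = k ^ 2 + 4 * ‖ζ‖ ^ 2 := Real.sq_sqrt (by positivity)
    have hs2c : (s : ℂ) ^ 2 = (k : ℂ) ^ 2 + 4 * (ζ * conj ζ) := by
      rw [Complex.mul_conj']
      exact_mod_cast hs2
    have hcz : conj ζ ≠ 0 := by simpa using hζ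
    refine ⟨(k + s) / (2 * conj ζ), ?_⟩
    field_simp
    linear_combination -hs2c

theorem step2 (x : Hs) (hx : 0 < x.2) : ∃ (g : SL) (Y : ℝ), 0 < Y ∧ act g (0, 1) = (0, 1) ∧
    act g x = (0, Y) := by
  obtain ⟨t, ht⟩ := root x.1 (‖x.1‖ ^ 2 + x.2 ^ 2 - 1)
  have htp : 0 < 1 + ‖t‖ ^ 2 := by positivity
  set α : ℝ := (√(1 + ‖t‖ ^ 2))⁻¹ with hα
  have hαp : 0 < α := inv_pos.2 (Real.sqrt_pos.2 htp)
  have hα2 : α ^ 2 * (1 + ‖t‖ ^ 2) = 1 := by
    rw [hα, inv_pow, Real.sq_sqrt htp.le, inv_mul_cancel₀ htp.ne']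
  have hα2c : (α : ℂ) ^ 2 * (1 + t * conj t) = 1 := by
    rw [Complex.mul_conj']
    exact_mod_cast hα2
  have hdet : (α : ℂ) * α - (-(α * t)) * (α * conj t) = 1 := by linear_combination hα2c
  have hn : ‖(α : ℂ)‖ = α := by rw [Complex.norm_real, Real.norm_of_nonneg hαp.le]
  refine ⟨mk α (-(α * t)) (α * conj t) α hdet,
    x.2 / (‖(α : ℂ) * conj t * x.1 + α‖ ^ 2 + ‖(α : ℂ) * conj t‖ ^ 2 * x.2 ^ 2), ?_, ?_, ?_⟩
  · apply div_pos hx
    by_cases h0 : t = 0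
    · rw [h0]
      simp only [map_zero, mul_zero, zero_mul, zero_add, hn, norm_zero]
      positivity
    · have : 0 < ‖(α : ℂ) * conj t‖ := by
        rw [norm_pos_iff]
        refine mul_ne_zero (by exact_mod_cast hαp.ne') (by simpa using h0)
      positivity
  · rw [act_mk]
    ext1
    · simp only
      rw [div_eq_zero_iff]
      left
      simp only [mul_zero, zero_add, Complex.conj_ofReal, map_mul, Complex.conj_conj,
        Complex.ofReal_one, one_pow, mul_one]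
      ring
    · simp only [mul_zero, zero_add, one_pow, mul_one]
      rw [norm_mul, hn, Complex.norm_conj]
      rw [show α ^ 2 + (α * ‖t‖) ^ 2 = α ^ 2 * (1 + ‖t‖ ^ 2) by ring, hα2]
      norm_num
  · rw [act_mk]
    ext1
    · simp only
      rw [div_eq_zero_iff]
      left
      simp only [map_add, map_mul, Complex.conj_conj, Complex.conj_ofReal]
      have h3 : ((‖x.1‖ : ℂ)) ^ 2 = x.1 * conj x.1 := (Complex.mul_conj' _).symm
      push_cast at ht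
      rw [h3] at ht
      linear_combination (α : ℂ) ^ 2 * ht
    · rfl

theorem step3 (Y : ℝ) (hY : 0 < Y) : ∃ (g : SL) (D : ℝ), 0 ≤ D ∧ act g (0, 1) = (0, 1) ∧
    act g (0, Y) = (0, Real.exp D) := by
  rcases le_total 1 Y with h | h
  · refine ⟨mk 1 0 0 1 (by norm_num), Real.log Y, Real.log_nonneg h, ?_, ?_⟩
    · rw [act_mk]; simp
    · rw [act_mk, Real.exp_log hY]; simp
  · refine ⟨mk 0 (-1) 1 0 (by norm_num), Real.log Y⁻¹, Real.log_nonneg ((one_le_inv₀ hY).2 h),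
      ?_, ?_⟩
    · rw [act_mk]; simp
    · rw [act_mk, Real.exp_log (inv_pos.2 hY)]
      ext1
      · simp
      · simp
        field_simp

end PAIR

open PAIR in
theorem t_PAIR (h : S_ISO) : S_PAIR := by
  intro x x₀ hx hx₀
  obtain ⟨g1, h1⟩ := step1 x hx
  have hp1 := (h.1 g1 x₀ hx₀).2.1
  obtain ⟨g2, Y, hY, h2, h3⟩ := step2 (act g1 x₀) hp1
  obtain ⟨g3, D, hD, h4, h5⟩ := step3 Y hY
  refine ⟨g3 * (g2 * g1), D, hD, ?_, ?_⟩
  · rw [h.2.1 _ _ x hx, h.2.1 _ _ x hx, h1, h2, h4]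
  · rw [h.2.1 _ _ x₀ hx₀, h.2.1 _ _ x₀ hx₀, h3, h5]

end Pool.Agent.N46.HM
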