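import Pool.Agent.N46.HM.Stm

/-!
# Project HM (helper46), part PLA: the Plancherel inequality (helper861)

`aux_plancherel` is a copy of the lemma with the same name in `Pool.Agent.CG3.Planch`.
-/

set_option autoImplicit false

open MeasureTheory Set Filter
open scoped ENNReal Topology ComplexConjugate

namespace Pool.Agent.N46.HM

noncomputable section

namespace PLA

open scoped FourierTransform SchwartzMap ContDiff in
/-- Plancherel for the Fourier integral of `L¹ ∩ L²` functions on the line -/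
theorem aux_plancherel (f : ℝ → ℂ) (hf : Integrable f) (hf2 : MemLp f 2) :
    ∫⁻ ξ : ℝ, ‖FourierTransform.fourier f ξ‖ₑ ^ 2 = ∫⁻ z : ℝ, ‖f z‖ₑ ^ 2 := by
  obtain ⟨F2, hF2⟩ : ∃ F2 : Lp ℂ 2 (volume : Measure ℝ), F2 = hf2.toLp f := ⟨_, rfl⟩
  obtain ⟨G, hG⟩ : ∃ G : Lp ℂ 2 (volume : Measure ℝ), G = 𝓕 F2 := ⟨_, rfl⟩
  have hF2ae : (F2 : ℝ → ℂ) =ᵐ[volume] f := by rw [hF2]; exact hf2.coeFn_toLp
  have key : ∀ g : 𝓢(ℝ, ℂ), ∫ x, g x • (G x) = ∫ x, g x • FourierTransform.fourier f x := by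
    intro g
    have h1 : (𝓕 (F2 : 𝓢'(ℝ, ℂ))) g = ((𝓕 F2 : Lp ℂ 2 (volume : Measure ℝ)) : 𝓢'(ℝ, ℂ)) g := by
      rw [Lp.fourier_toTemperedDistribution_eq]
    rw [TemperedDistribution.fourier_apply, Lp.toTemperedDistribution_apply,
      Lp.toTemperedDistribution_apply, ← hG] at h1
    rw [← h1]
    have h2 : ∫ x, (𝓕 g) x • F2 x = ∫ x, (𝓕 g) x • f x := by
      apply integral_congr_ae
      filter_upwards [hF2ae] with x hx
      rw [hx]
    rw [h2]
    have h3 := VectorFourier.integral_fourierIntegral_smul_eq_flip (L := innerₗ ℝ)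
      (μ := (volume : Measure ℝ)) (ν := (volume : Measure ℝ))
      Real.continuous_fourierChar continuous_inner g.integrable hf
    rw [flip_innerₗ] at h3
    exact h3
  have hGae : (G : ℝ → ℂ) =ᵐ[volume] FourierTransform.fourier f := by
    have hcont : Continuous (FourierTransform.fourier f : ℝ → ℂ) :=
      VectorFourier.fourierIntegral_continuous Real.continuous_fourierChar continuous_inner hf
    apply ae_eq_of_integral_contDiff_smul_eq
    · exact (Lp.memLp G).locallyIntegrable (by norm_num)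
    · exact hcont.locallyIntegrable
    · intro g g_smooth g_cpt
      have hg₁ : HasCompactSupport (Complex.ofRealCLM ∘ g) := g_cpt.comp_left rfl
      have hg₂ : ContDiff ℝ ∞ (Complex.ofRealCLM ∘ g) := by fun_prop
      have := key (hg₁.toSchwartzMap hg₂)
      simpa using this
  have hnorm : eLpNorm G 2 volume = eLpNorm f 2 volume := by
    have h1 : ‖G‖ = ‖F2‖ := by rw [hG]; exact Lp.norm_fourier_eq F2
    have h2 : eLpNorm G 2 volume = eLpNorm F2 2 volume := by
      rw [Lp.norm_def, Lp.norm_def] at h1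
      exact (ENNReal.toReal_eq_toReal_iff' (Lp.eLpNorm_ne_top G) (Lp.eLpNorm_ne_top F2)).1 h1
    rw [h2]
    exact eLpNorm_congr_ae hF2ae
  have h2 : ∀ h : ℝ → ℂ, eLpNorm h 2 volume ^ 2 = ∫⁻ z : ℝ, ‖h z‖ₑ ^ 2 := by
    intro h
    rw [eLpNorm_eq_lintegral_rpow_enorm_toReal (by norm_num) (by norm_num)]
    simp only [ENNReal.toReal_ofNat, ENNReal.rpow_ofNat, one_div]
    rw [← ENNReal.rpow_natCast, ← ENNReal.rpow_mul]
    norm_num
  rw [← h2, ← h2, ← hnorm, eLpNorm_congr_ae hGae]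

theorem trans_eq (c : ℝ → ℂ) (t : ℝ) :
    ∫ ξ : ℝ, c ξ * Complex.exp (Complex.I * ((t * ξ : ℝ) : ℂ)) =
      FourierTransform.fourier c (-(2 * Real.pi)⁻¹ * t) := by
  rw [Real.fourier_eq']
  congr 1
  funext v
  rw [smul_eq_mul, mul_comm]
  congr 2
  have h0 : (inner ℝ v (-(2 * Real.pi)⁻¹ * t) : ℝ) = -(2 * Real.pi)⁻¹ * t * v := by simp
  rw [h0]
  have h1 : (-2 * Real.pi * (-(2 * Real.pi)⁻¹ * t * v) : ℝ) = t * v := by
    have := Real.pi_pos.ne'
    field_simp
  rw [h1, mul_comm]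

end PLA

theorem t_PLA : S_PLA := by
  intro c hc hs
  have hi : Integrable c := hc.integrable_of_hasCompactSupport hs
  have h2 : MemLp c 2 := hc.memLp_of_hasCompactSupport hs
  have hcont : Continuous (FourierTransform.fourier c : ℝ → ℂ) :=
    VectorFourier.fourierIntegral_continuous Real.continuous_fourierChar continuous_inner hi
  simp_rw [PLA.trans_eq]
  have ha : (-(2 * Real.pi)⁻¹ : ℝ) ≠ 0 := by
    have := Real.pi_pos
    have : (0 : ℝ) < (2 * Real.pi)⁻¹ := by positivity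
    linarith
  have hF : Measurable (fun w : ℝ => ‖FourierTransform.fourier c w‖ₑ ^ 2) := by
    have := hcont.measurable.enorm
    exact this.pow_const 2
  have e1 : ∫⁻ t : ℝ, ‖FourierTransform.fourier c (-(2 * Real.pi)⁻¹ * t)‖ₑ ^ 2 =
      ENNReal.ofReal (2 * Real.pi) * ∫⁻ w : ℝ, ‖FourierTransform.fourier c w‖ₑ ^ 2 := by
    have h3 := lintegral_map (μ := (volume : Measure ℝ)) hF
      (measurable_const_mul (-(2 * Real.pi)⁻¹ : ℝ))
    rw [Real.map_volume_mul_left ha, lintegral_smul_measure] at h3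
    rw [← h3]
    congr 2
    rw [inv_neg, inv_inv, abs_neg, abs_of_pos (by positivity)]
  have hpos : (0 : ℝ) ≤ 2 * Real.pi := by positivity
  rw [e1, PLA.aux_plancherel c hi h2,
    ENNReal.ofReal_mul (p := 2 * Real.pi) (q := ∫ ξ : ℝ, ‖c ξ‖ ^ 2) hpos]
  have hint : Integrable (fun ξ : ℝ => ‖c ξ‖ ^ 2) :=
    (memLp_two_iff_integrable_sq_norm h2.aestronglyMeasurable).1 h2
  rw [ofReal_integral_eq_lintegral_ofReal hint (Filter.Eventually.of_forall fun _ => sq_nonneg _)]
  refine le_of_eq ?_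
  congr 1
  refine lintegral_congr fun z => ?_
  rw [← ofReal_norm, ← ENNReal.ofReal_pow (norm_nonneg _)]

end

end Pool.Agent.N46.HM
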