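import Pool.Agent.N46.HM.Stm

/-!
# Project HM (helper46), part RAD (helper252): distance from a point and height
-/

set_option autoImplicit false

open MeasureTheory Set Filter
open scoped ENNReal Topology ComplexConjugate Real

namespace Pool.Agent.N46.HM

namespace RAD

theorem radial (f : ℝ → ℝ≥0∞) (hf : Measurable f) :
    ∫⁻ z : ℂ, f ‖z‖ = ∫⁻ ρ in Ioi (0 : ℝ), ENNReal.ofReal (2 * π * ρ) * f ρ := by
  have hm : Measurable fun p : ℝ × ℝ =>
      ENNReal.ofReal p.1 • f ‖Complex.polarCoord.symm p‖ := by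
    simp only [Complex.norm_polarCoord_symm, smul_eq_mul]
    exact (ENNReal.measurable_ofReal.comp measurable_fst).mul
      (hf.comp (measurable_fst.abs))
  rw [← Complex.lintegral_comp_polarCoord_symm, polarCoord_target, Measure.volume_eq_prod,
    ← Measure.prod_restrict, lintegral_prod _ hm.aemeasurable]
  refine setLIntegral_congr_fun measurableSet_Ioi fun ρ hρ => ?_
  have hρ' : (0 : ℝ) < ρ := hρ
  simp only [Complex.norm_polarCoord_symm, abs_of_pos hρ', smul_eq_mul, lintegral_const,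
    Measure.restrict_apply, MeasurableSet.univ, univ_inter, Real.volume_Ioo]
  rw [show π - -π = 2 * π by ring, mul_right_comm, ← ENNReal.ofReal_mul hρ'.le,
    mul_comm ρ (2 * π)]

theorem cosh_log_div {a b : ℝ} (ha : 0 < a) (hb : 0 < b) :
    Real.cosh (Real.log (b / a)) = 1 + (a - b) ^ 2 / (2 * a * b) := by
  rw [Real.cosh_log (div_pos hb ha)]
  field_simp
  ring

/-- the substitution `ρ² = 2 c (cosh t - cosh r)` -/
theorem subst (c r : ℝ) (hc : 0 < c) (f F : ℝ → ℝ≥0∞)
    (hfF : ∀ t : ℝ, |r| < t → f (√(2 * c * (Real.cosh t - Real.cosh r))) = F t) :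
    ∫⁻ ρ in Ioi (0 : ℝ), ENNReal.ofReal (2 * π * ρ) * f ρ =
      ∫⁻ t in Ioi |r|, ENNReal.ofReal (2 * π * c * Real.sinh t) * F t := by
  have hpos : ∀ t : ℝ, |r| < t → 0 < 2 * c * (Real.cosh t - Real.cosh r) := by
    intro t ht
    have h0 : 0 ≤ |r| := abs_nonneg r
    have : Real.cosh r < Real.cosh t := by
      rw [Real.cosh_lt_cosh, abs_of_pos (h0.trans_lt ht)]
      exact ht
    have h2 : 0 < Real.cosh t - Real.cosh r := by linarith
    positivity
  have him : (fun t : ℝ => √(2 * c * (Real.cosh t - Real.cosh r))) '' Ioi |r| = Ioi 0 := by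
    ext ρ
    constructor
    · rintro ⟨t, ht, rfl⟩
      exact Real.sqrt_pos.2 (hpos t ht)
    · intro hρ
      have hρ' : (0 : ℝ) < ρ := hρ
      have h1 : 1 ≤ Real.cosh r := Real.one_le_cosh r
      have h2 : 0 < ρ ^ 2 / (2 * c) := by positivity
      have h3 : 1 ≤ Real.cosh r + ρ ^ 2 / (2 * c) := by linarith
      refine ⟨Real.arcosh (Real.cosh r + ρ ^ 2 / (2 * c)), ?_, ?_⟩
      · show |r| < _
        rw [← abs_of_nonneg (Real.arcosh_nonneg h3), ← Real.cosh_lt_cosh, Real.cosh_arcosh h3]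
        linarith
      · show √(2 * c * (Real.cosh (Real.arcosh _) - Real.cosh r)) = ρ
        rw [Real.cosh_arcosh h3]
        rw [show 2 * c * (Real.cosh r + ρ ^ 2 / (2 * c) - Real.cosh r) = ρ ^ 2 by
          field_simp; ring]
        exact Real.sqrt_sq hρ'.le
  have hinj : InjOn (fun t : ℝ => √(2 * c * (Real.cosh t - Real.cosh r))) (Ioi |r|) := by
    intro t ht t' ht' h
    have h1 : 2 * c * (Real.cosh t - Real.cosh r) = 2 * c * (Real.cosh t' - Real.cosh r) := by
      have := congrArg (fun x : ℝ => x ^ 2) h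
      simpa [Real.sq_sqrt (hpos t ht).le, Real.sq_sqrt (hpos t' ht').le] using this
    have h2 : Real.cosh t = Real.cosh t' := by
      have := mul_left_cancel₀ (by positivity : (2 * c : ℝ) ≠ 0) h1
      linarith
    have h0 : 0 ≤ |r| := abs_nonneg r
    exact Real.cosh_injOn (mem_Ici.2 (h0.trans ht.le)) (mem_Ici.2 (h0.trans ht'.le)) h2
  have hder : ∀ t ∈ Ioi |r|, HasDerivWithinAt
      (fun t : ℝ => √(2 * c * (Real.cosh t - Real.cosh r)))
      (2 * c * Real.sinh t / (2 * √(2 * c * (Real.cosh t - Real.cosh r)))) (Ioi |r|) t := by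
    intro t ht
    have h1 : HasDerivAt (fun t : ℝ => 2 * c * (Real.cosh t - Real.cosh r))
        (2 * c * Real.sinh t) t := ((Real.hasDerivAt_cosh t).sub_const _).const_mul _
    exact (h1.sqrt (hpos t ht).ne').hasDerivWithinAt
  rw [← him, lintegral_image_eq_lintegral_abs_deriv_mul measurableSet_Ioi hder hinj]
  refine setLIntegral_congr_fun measurableSet_Ioi fun t ht => ?_
  have ht' : |r| < t := ht
  have h0 : 0 < t := (abs_nonneg r).trans_lt ht'
  have hs : 0 < Real.sinh t := Real.sinh_pos_iff.2 h0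
  have hq : 0 < √(2 * c * (Real.cosh t - Real.cosh r)) := Real.sqrt_pos.2 (hpos t ht')
  rw [hfF t ht', abs_of_pos (by positivity), ← mul_assoc, ← ENNReal.ofReal_mul (by positivity)]
  congr 2
  field_simp

/-- the distance as a function of the horizontal distance -/
noncomputable def DD (a b ρ : ℝ) : ℝ :=
  2 * Real.arsinh (√(((1 + (ρ ^ 2 + (a - b) ^ 2) / (2 * a * b)) - 1) / 2))

theorem measurable_DD (a b : ℝ) : Measurable (DD a b) := by
  unfold DD
  exact (Real.continuous_arsinh.measurable.comp (by fun_prop)).const_mul 2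

theorem dH_eq (x : Hs) (z : ℂ) (y : ℝ) : dH x (z, y) = DD x.2 y ‖x.1 - z‖ := rfl

theorem DD_eq (h : S_DIST) {a b t : ℝ} (ha : 0 < a) (hb : 0 < b)
    (ht : |Real.log (b / a)| < t) :
    DD a b (√(2 * (a * b) * (Real.cosh t - Real.cosh (Real.log (b / a))))) = t := by
  have h0 : 0 < t := (abs_nonneg _).trans_lt ht
  have hc : Real.cosh (Real.log (b / a)) < Real.cosh t := by
    rw [Real.cosh_lt_cosh, abs_of_pos h0]
    exact ht
  obtain ⟨ρ, hρ⟩ : ∃ ρ : ℝ, ρ = √(2 * (a * b) * (Real.cosh t - Real.cosh (Real.log (b / a)))) :=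
    ⟨_, rfl⟩
  rw [← hρ]
  have hρ0 : 0 ≤ ρ := by rw [hρ]; exact Real.sqrt_nonneg _
  have hρ2 : ρ ^ 2 = 2 * (a * b) * (Real.cosh t - Real.cosh (Real.log (b / a))) := by
    rw [hρ]
    refine Real.sq_sqrt ?_
    have : 0 < Real.cosh t - Real.cosh (Real.log (b / a)) := by linarith
    positivity
  have e1 : dH ((0 : ℂ), a) ((-(ρ : ℂ)), b) = DD a b ρ := by
    rw [dH_eq]
    simp [abs_of_nonneg hρ0]
  obtain ⟨-, h2, h3, -⟩ := h.1 ((0 : ℂ), a) ((-(ρ : ℂ)), b) ha hb
  rw [e1] at h2 h3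
  refine Real.cosh_injOn (mem_Ici.2 h2) (mem_Ici.2 h0.le) ?_
  rw [h3]
  unfold ch
  simp only [zero_sub, neg_neg, Complex.norm_real, Real.norm_eq_abs, abs_of_nonneg hρ0]
  rw [hρ2, cosh_log_div ha hb]
  field_simp
  ring

theorem inner (h : S_DIST) (x : Hs) (hx : 0 < x.2) (y : ℝ) (hy : 0 < y) (F : ℝ → ℝ≥0∞)
    (hF : Measurable F) :
    ∫⁻ z : ℂ, F (dH x (z, y)) =
      ∫⁻ t in Ioi |Real.log (y / x.2)|,
        ENNReal.ofReal (2 * π * (x.2 * y) * Real.sinh t) * F t := by
  have e1 : ∀ z : ℂ, F (dH x (z, y)) = (fun w : ℂ => F (DD x.2 y ‖w‖)) (x.1 - z) := fun z => rfl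
  simp_rw [e1]
  rw [lintegral_sub_left_eq_self (fun w : ℂ => F (DD x.2 y ‖w‖)) x.1,
    radial (fun ρ => F (DD x.2 y ρ)) (hF.comp (measurable_DD _ _))]
  exact subst (x.2 * y) (Real.log (y / x.2)) (mul_pos hx hy) _ F fun t ht => by
    rw [DD_eq h hx hy ht]

theorem meas_dH (h : Measurable (fun q : Hs × Hs => dH q.1 q.2)) (x : Hs) :
    Measurable fun x' : Hs => dH x x' := h.of_uncurry_left

/-- reduction to the height -/
theorem step1 (h : S_DIST) (x : Hs) (hx : 0 < x.2) (F G : ℝ → ℝ≥0∞) (hF : Measurable F)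
    (hG : Measurable G) :
    ∫⁻ x', F (dH x x') * G (Real.log (x'.2 / x.2)) ∂mu =
      ∫⁻ y in Ioi (0 : ℝ), ∫⁻ t in Ioi |Real.log (y / x.2)|,
        ENNReal.ofReal (2 * π * x.2 * (y ^ 2)⁻¹ * Real.sinh t) *
          (F t * G (Real.log (y / x.2))) := by
  have hmd : Measurable fun x' : Hs => dH x x' := meas_dH h.2 x
  have hmF : Measurable fun x' : Hs => F (dH x x') := hF.comp hmd
  have hml : Measurable fun x' : Hs => Real.log (x'.2 / x.2) :=
    Real.measurable_log.comp (measurable_snd.div_const _)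
  have hmG : Measurable fun x' : Hs => G (Real.log (x'.2 / x.2)) := hG.comp hml
  have hm1 : Measurable fun x' : Hs => F (dH x x') * G (Real.log (x'.2 / x.2)) := hmF.mul hmG
  have hm2 : Measurable fun x' : Hs => ENNReal.ofReal ((x'.2 ^ 3)⁻¹) :=
    ENNReal.measurable_ofReal.comp ((measurable_snd.pow_const 3).inv)
  have hset : {x' : Hs | 0 < x'.2} = univ ×ˢ Ioi (0 : ℝ) := by
    ext p
    simp
  unfold mu
  rw [lintegral_withDensity_eq_lintegral_mul _ hm2 hm1, hset, Measure.volume_eq_prod,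
    ← Measure.prod_restrict, Measure.restrict_univ,
    lintegral_prod_symm' _ (hm2.mul hm1)]
  refine setLIntegral_congr_fun measurableSet_Ioi fun y hy => ?_
  have hy' : (0 : ℝ) < y := hy
  have e2 : ∀ z : ℂ, ((fun x' : Hs => ENNReal.ofReal ((x'.2 ^ 3)⁻¹)) *
      fun x' : Hs => F (dH x x') * G (Real.log (x'.2 / x.2))) (z, y) =
      (ENNReal.ofReal ((y ^ 3)⁻¹) * G (Real.log (y / x.2))) * F (dH x (z, y)) := by
    intro z
    simp only [Pi.mul_apply]
    ring
  simp_rw [e2]
  have hmz0 : Measurable fun z : ℂ => ((z, y) : Hs) := measurable_id.prodMk measurable_const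
  have hmz : Measurable fun z : ℂ => F (dH x (z, y)) := hmF.comp hmz0
  have hmt : Measurable fun t : ℝ =>
      ENNReal.ofReal (2 * π * (x.2 * y) * Real.sinh t) * F t :=
    (ENNReal.measurable_ofReal.comp (Real.measurable_sinh.const_mul _)).mul hF
  rw [lintegral_const_mul _ hmz, inner h x hx y hy' F hF, ← lintegral_const_mul _ hmt]
  refine setLIntegral_congr_fun measurableSet_Ioi fun t ht => ?_
  have h0 : 0 < t := (abs_nonneg _).trans_lt ht
  have hs : 0 < Real.sinh t := Real.sinh_pos_iff.2 h0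
  have e3 : ENNReal.ofReal (2 * π * x.2 * (y ^ 2)⁻¹ * Real.sinh t) =
      ENNReal.ofReal ((y ^ 3)⁻¹) * ENNReal.ofReal (2 * π * (x.2 * y) * Real.sinh t) := by
    rw [← ENNReal.ofReal_mul (by positivity)]
    congr 1
    field_simp
  rw [e3]
  ring

/-- the substitution `y = a * exp r` -/
theorem step2 (a : ℝ) (ha : 0 < a) (F G : ℝ → ℝ≥0∞) :
    ∫⁻ y in Ioi (0 : ℝ), ∫⁻ t in Ioi |Real.log (y / a)|,
        ENNReal.ofReal (2 * π * a * (y ^ 2)⁻¹ * Real.sinh t) * (F t * G (Real.log (y / a))) =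
      ∫⁻ r : ℝ, ∫⁻ t in Ioi |r|, F t * G r *
        ENNReal.ofReal (2 * π * Real.sinh t * Real.exp (-r)) := by
  have him : (fun r : ℝ => a * Real.exp r) '' univ = Ioi 0 := by
    ext y
    constructor
    · rintro ⟨r, -, rfl⟩
      exact mul_pos ha (Real.exp_pos r)
    · intro hy
      have hy' : (0 : ℝ) < y := hy
      refine ⟨Real.log (y / a), mem_univ _, ?_⟩
      show a * Real.exp (Real.log (y / a)) = y
      rw [Real.exp_log (div_pos hy' ha)]
      field_simp
  have hinj : InjOn (fun r : ℝ => a * Real.exp r) univ := by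
    intro r _ r' _ hr
    exact Real.exp_injective (mul_left_cancel₀ ha.ne' hr)
  have hder : ∀ r ∈ (univ : Set ℝ), HasDerivWithinAt (fun r : ℝ => a * Real.exp r)
      (a * Real.exp r) univ r := fun r _ =>
    ((Real.hasDerivAt_exp r).const_mul _).hasDerivWithinAt
  rw [← him, lintegral_image_eq_lintegral_abs_deriv_mul MeasurableSet.univ hder hinj,
    Measure.restrict_univ]
  refine lintegral_congr fun r => ?_
  have e5 : Real.log (a * Real.exp r / a) = r := by
    rw [mul_div_cancel_left₀ _ ha.ne', Real.log_exp]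
  rw [e5, ← lintegral_const_mul' _ _ ENNReal.ofReal_ne_top]
  refine setLIntegral_congr_fun measurableSet_Ioi fun t ht => ?_
  have h0 : 0 < t := (abs_nonneg _).trans_lt ht
  have hs : 0 < Real.sinh t := Real.sinh_pos_iff.2 h0
  have hxe : 0 < a * Real.exp r := mul_pos ha (Real.exp_pos r)
  rw [← mul_assoc, ← ENNReal.ofReal_mul (abs_nonneg _), abs_of_pos hxe, mul_comm (F t * G r)]
  congr 2
  rw [Real.exp_neg]
  field_simp

/-- exchange of the order -/
theorem step3 (K : ℝ → ℝ → ℝ≥0∞) (hK : Measurable (Function.uncurry K)) :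
    ∫⁻ r : ℝ, ∫⁻ t in Ioi |r|, K r t = ∫⁻ t in Ioi (0 : ℝ), ∫⁻ r in Ioo (-t) t, K r t := by
  have hms : MeasurableSet {q : ℝ × ℝ | |q.1| < q.2} :=
    measurableSet_lt (measurable_fst.abs) measurable_snd
  have e1 : ∀ r : ℝ, ∫⁻ t in Ioi |r|, K r t =
      ∫⁻ t, ({q : ℝ × ℝ | |q.1| < q.2}.indicator (Function.uncurry K)) (r, t) := by
    intro r
    rw [← lintegral_indicator measurableSet_Ioi]
    refine lintegral_congr fun t => ?_
    by_cases hr : |r| < t
    · rw [indicator_of_mem (mem_Ioi.2 hr), indicator_of_mem (show (r, t) ∈ _ from hr)]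
      rfl
    · rw [indicator_of_notMem (show t ∉ Ioi |r| from hr),
        indicator_of_notMem (show (r, t) ∉ {q : ℝ × ℝ | |q.1| < q.2} from hr)]
  have e3 := lintegral_lintegral_swap (μ := (volume : Measure ℝ)) (ν := (volume : Measure ℝ))
    (f := fun r t => ({q : ℝ × ℝ | |q.1| < q.2}.indicator (Function.uncurry K)) (r, t))
    (hK.indicator hms).aemeasurable
  simp_rw [e1]
  rw [e3, ← lintegral_indicator measurableSet_Ioi]
  refine lintegral_congr fun t => ?_
  by_cases ht : 0 < t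
  · rw [indicator_of_mem (mem_Ioi.2 ht), ← lintegral_indicator measurableSet_Ioo]
    refine lintegral_congr fun r => ?_
    by_cases hr : |r| < t
    · rw [indicator_of_mem (show (r, t) ∈ {q : ℝ × ℝ | |q.1| < q.2} from hr),
        indicator_of_mem (show r ∈ Ioo (-t) t from abs_lt.1 hr)]
      rfl
    · rw [indicator_of_notMem (show (r, t) ∉ {q : ℝ × ℝ | |q.1| < q.2} from hr),
        indicator_of_notMem (show r ∉ Ioo (-t) t from fun h' => hr (abs_lt.2 h'))]
  · rw [indicator_of_notMem (show t ∉ Ioi (0 : ℝ) from ht)]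
    have e2 : ∀ r : ℝ, ({q : ℝ × ℝ | |q.1| < q.2}.indicator (Function.uncurry K)) (r, t) = 0 :=
      fun r => indicator_of_notMem (fun h' => ht ((abs_nonneg r).trans_lt h')) _
    simp_rw [e2]
    simp

end RAD

open RAD in
theorem t_RAD (h : S_DIST) : S_RAD := by
  intro x hx F G hF hG
  rw [step1 h x hx F G hF hG, step2 x.2 hx F G]
  refine step3 (fun r t => F t * G r * ENNReal.ofReal (2 * π * Real.sinh t * Real.exp (-r))) ?_
  exact ((hF.comp measurable_snd).mul (hG.comp measurable_fst)).mul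
    (ENNReal.measurable_ofReal.comp (((Real.measurable_sinh.comp measurable_snd).const_mul _).mul
      (Real.measurable_exp.comp measurable_fst.neg)))

end Pool.Agent.N46.HM
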