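import Mathlib
import Pool.Agent.N46.HM.Stm

/-!
# Project HM (helper46): spherical functions (helper93)
-/

set_option autoImplicit false

open MeasureTheory Set Filter
open scoped ENNReal Topology ComplexConjugate

namespace Pool.Agent.N46.HM

namespace SPH

lemma int_eq (l : ℂ) (t : ℝ) (hl : l ≠ 0) :
    (∫ r in (-t)..t, Complex.exp (-(Complex.I * l * r))) = 2 * Complex.sin (l * t) / l := by
  have hc : -(Complex.I * l) ≠ 0 := neg_ne_zero.2 (mul_ne_zero Complex.I_ne_zero hl)
  have h1 := integral_exp_mul_complex (a := -t) (b := t) hc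
  have h2 : (∫ r in (-t)..t, Complex.exp (-(Complex.I * l * r))) =
      ∫ r in (-t)..t, Complex.exp (-(Complex.I * l) * r) := by
    refine intervalIntegral.integral_congr fun r _ => ?_
    simp only [neg_mul]
  rw [h2, h1, div_eq_div_iff hc hl, Complex.sin]
  have e1 : -(Complex.I * l) * (t : ℂ) = -(l * t) * Complex.I := by ring
  have e2 : -(Complex.I * l) * ((-t : ℝ) : ℂ) = l * t * Complex.I := by
    push_cast
    ring
  rw [e1, e2]
  linear_combination ((Complex.exp (-(l * t) * Complex.I) - Complex.exp (l * t * Complex.I)) * l) *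
    Complex.I_sq

lemma norm_exp (l : ℂ) (r : ℝ) :
    ‖Complex.exp (-(Complex.I * l * r))‖ = Real.exp (l.im * r) := by
  rw [Complex.norm_exp]
  congr 1
  simp

lemma norm_int (l : ℂ) (t : ℝ) (ht : 0 < t) :
    ‖∫ r in (-t)..t, Complex.exp (-(Complex.I * l * r))‖ ≤
      ∫ r in (-t)..t, Real.exp (l.im * r) := by
  refine (intervalIntegral.norm_integral_le_integral_norm (by linarith)).trans (le_of_eq ?_)
  refine intervalIntegral.integral_congr fun r _ => ?_
  exact norm_exp l r

lemma sph_im (y t : ℝ) : sph (y * Complex.I) t =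
    (((∫ r in (-t)..t, Real.exp (y * r)) / (2 * Real.sinh t) : ℝ) : ℂ) := by
  unfold sph
  push_cast
  congr 1
  rw [← intervalIntegral.integral_ofReal]
  refine intervalIntegral.integral_congr fun r _ => ?_
  push_cast
  congr 1
  linear_combination (-(y * r : ℂ)) * Complex.I_sq

lemma norm_sph (l : ℂ) (t : ℝ) (ht : 0 < t) :
    ‖sph l t‖ ≤ (∫ r in (-t)..t, Real.exp (l.im * r)) / (2 * Real.sinh t) := by
  have hs : 0 < Real.sinh t := Real.sinh_pos_iff.2 ht
  unfold sph
  rw [norm_div]
  have h1 : ‖(2 * (Real.sinh t : ℂ))‖ = 2 * Real.sinh t := by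
    rw [norm_mul, Complex.norm_real, Real.norm_of_nonneg hs.le]
    simp
  rw [h1]
  gcongr
  exact norm_int l t ht

lemma cont_int : Continuous fun q : ℂ × ℝ =>
    ∫ r in (-q.2)..q.2, Complex.exp (-(Complex.I * q.1 * r)) := by
  have h1 : Continuous fun q : ℂ × ℝ =>
      ∫ u in (-1 : ℝ)..1, Complex.exp (-(Complex.I * q.1 * ((q.2 * u : ℝ) : ℂ))) := by
    apply intervalIntegral.continuous_parametric_intervalIntegral_of_continuous'
    fun_prop
  have h2 : Continuous fun q : ℂ × ℝ => q.2 •
      ∫ u in (-1 : ℝ)..1, Complex.exp (-(Complex.I * q.1 * ((q.2 * u : ℝ) : ℂ))) :=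
    continuous_snd.smul h1
  refine h2.congr fun q => ?_
  have h3 := intervalIntegral.smul_integral_comp_mul_left (a := -1) (b := 1)
    (fun r : ℝ => Complex.exp (-(Complex.I * q.1 * r))) q.2
  rw [h3, mul_neg, mul_one]

end SPH

open SPH in
/-- **SPH.** -/
theorem t_SPH : S_SPH := by
  refine ⟨fun l t hl => ?_, fun l t ht => ?_, fun ξ t ht => ?_, fun t => ?_, ?_⟩
  · unfold sph
    rw [int_eq l t hl, div_div, mul_comm (2 : ℂ) (Real.sinh t : ℂ), ← mul_assoc, mul_comm (2 : ℂ),
      mul_div_mul_right _ _ two_ne_zero]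
  · rw [sph_im, Complex.ofReal_re, Complex.ofReal_im]
    exact ⟨norm_sph l t ht, rfl⟩
  · refine (norm_sph ξ t ht).trans (le_of_eq ?_)
    have hs : 0 < Real.sinh t := Real.sinh_pos_iff.2 ht
    simp only [Complex.ofReal_im, zero_mul, Real.exp_zero, intervalIntegral.integral_const,
      smul_eq_mul, mul_one]
    field_simp
    ring
  · have hc : Continuous fun l : ℂ => ∫ r in (-t)..t, Complex.exp (-(Complex.I * l * r)) :=
      cont_int.comp (continuous_id.prodMk continuous_const)
    have hd : ∀ l : ℂ, l ≠ 0 → DifferentiableAt ℂ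
        (fun l : ℂ => ∫ r in (-t)..t, Complex.exp (-(Complex.I * l * r))) l := by
      intro l hl
      have h1 : DifferentiableAt ℂ (fun l : ℂ => 2 * Complex.sin (l * t) / l) l := by
        refine DifferentiableAt.div ?_ differentiableAt_id hl
        fun_prop
      refine h1.congr_of_eventuallyEq ?_
      filter_upwards [isOpen_ne.mem_nhds hl] with z hz
      exact int_eq z t hz
    have hD : Differentiable ℂ
        (fun l : ℂ => ∫ r in (-t)..t, Complex.exp (-(Complex.I * l * r))) := by
      intro l
      by_cases hl : l = 0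
      · rw [hl]
        refine (Complex.analyticAt_of_differentiable_on_punctured_nhds_of_continuousAt ?_
          hc.continuousAt).differentiableAt
        filter_upwards [self_mem_nhdsWithin] with z hz
        exact hd z hz
      · exact hd l hl
    exact hD.div_const _
  · refine cont_int.measurable.div ?_
    have : Continuous fun q : ℂ × ℝ => (2 * (Real.sinh q.2 : ℂ)) := by
      have := Real.continuous_sinh
      fun_prop
    exact this.measurable

end Pool.Agent.N46.HM
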