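import Pool.Agent.N46.HM.Stm

/-!
# Project HM (helper46), leaf SYM (helper492): eigenfunctions
-/

set_option autoImplicit false

open MeasureTheory Set Filter
open scoped ENNReal Topology ComplexConjugate

namespace Pool.Agent.N46.HM

namespace SYM

/-- the density of distance and height -/
noncomputable def wt (q : ℝ × ℝ) : ℝ≥0∞ :=
  if 0 < q.1 ∧ -q.1 < q.2 ∧ q.2 < q.1 then
    ENNReal.ofReal (2 * Real.pi * Real.sinh q.1 * Real.exp (-q.2)) else 0

theorem measurable_wt : Measurable wt := by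
  unfold wt
  refine Measurable.ite ?_ ?_ measurable_const
  · exact (measurableSet_lt measurable_const measurable_fst).inter
      ((measurableSet_lt measurable_fst.neg measurable_snd).inter
        (measurableSet_lt measurable_snd measurable_fst))
  · exact (((measurable_const.mul (Real.measurable_sinh.comp measurable_fst)).mul
      (Real.measurable_exp.comp measurable_snd.neg))).ennreal_ofReal

/-- the law of distance and height -/
noncomputable def nu : Measure (ℝ × ℝ) := (volume : Measure (ℝ × ℝ)).withDensity wt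

theorem wt_eq (t r : ℝ) : wt (t, r) = (Ioi (0 : ℝ)).indicator (fun t => (Ioo (-t) t).indicator
    (fun r => ENNReal.ofReal (2 * Real.pi * Real.sinh t * Real.exp (-r))) r) t := by
  unfold wt
  by_cases h1 : 0 < t
  · rw [indicator_of_mem (mem_Ioi.2 h1)]
    by_cases h2 : -t < r ∧ r < t
    · rw [if_pos ⟨h1, h2⟩, indicator_of_mem (mem_Ioo.2 h2)]
    · rw [if_neg (fun h => h2 h.2), indicator_of_notMem (fun h => h2 (mem_Ioo.1 h))]
  · rw [if_neg (fun h => h1 h.1), indicator_of_notMem (fun h => h1 (mem_Ioi.1 h))]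

theorem lint_nu (H : ℝ × ℝ → ℝ≥0∞) (hH : Measurable H) :
    ∫⁻ q, H q ∂nu = ∫⁻ t in Ioi (0 : ℝ), ∫⁻ r in Ioo (-t) t,
      H (t, r) * ENNReal.ofReal (2 * Real.pi * Real.sinh t * Real.exp (-r)) := by
  rw [nu, lintegral_withDensity_eq_lintegral_mul _ measurable_wt hH, Measure.volume_eq_prod,
    lintegral_prod _ (measurable_wt.mul hH).aemeasurable, ← lintegral_indicator measurableSet_Ioi]
  refine lintegral_congr fun t => ?_
  by_cases h1 : t ∈ Ioi (0 : ℝ)
  · rw [indicator_of_mem h1, ← lintegral_indicator measurableSet_Ioo]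
    refine lintegral_congr fun r => ?_
    rw [Pi.mul_apply, wt_eq, indicator_of_mem h1]
    by_cases h2 : r ∈ Ioo (-t) t
    · rw [indicator_of_mem h2, indicator_of_mem h2, mul_comm]
    · rw [indicator_of_notMem h2, indicator_of_notMem h2, zero_mul]
  · rw [indicator_of_notMem h1]
    have h3 : ∀ r, (wt * H) (t, r) = 0 := by
      intro r
      rw [Pi.mul_apply, wt_eq, indicator_of_notMem h1, zero_mul]
    simp only [h3, lintegral_zero]

/-- distance and height -/
noncomputable def psi (x x' : Hs) : ℝ × ℝ := (dH x x', Real.log (x'.2 / x.2))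

theorem measurable_psi (h1 : S_DIST) (x : Hs) : Measurable (psi x) := by
  have h2 : Measurable (fun x' : Hs => ((x, x') : Hs × Hs)) := measurable_prodMk_left
  have h3 := h1.2.comp h2
  have h4 : Measurable (fun x' : Hs => Real.log (x'.2 / x.2)) :=
    Real.measurable_log.comp (measurable_snd.div_const _)
  exact h3.prodMk h4

theorem map_psi (h1 : S_DIST) (h4 : S_RAD) {x : Hs} (hx : 0 < x.2) :
    mu.map (psi x) = nu := by
  have hm := measurable_psi h1 x
  have hrect : ∀ A B : Set ℝ, MeasurableSet A → MeasurableSet B →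
      (mu.map (psi x)) (A ×ˢ B) = nu (A ×ˢ B) := by
    intro A B hA hB
    have e1 : (mu.map (psi x)) (A ×ˢ B) = ∫⁻ x', A.indicator 1 (dH x x') *
        B.indicator 1 (Real.log (x'.2 / x.2)) ∂mu := by
      rw [← lintegral_indicator_one (hA.prod hB), lintegral_map
        (measurable_one.indicator (hA.prod hB)) hm]
      refine lintegral_congr fun x' => ?_
      by_cases g1 : dH x x' ∈ A
      · by_cases g2 : Real.log (x'.2 / x.2) ∈ B
        · rw [indicator_of_mem (show psi x x' ∈ A ×ˢ B from ⟨g1, g2⟩), indicator_of_mem g1,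
            indicator_of_mem g2]
          simp
        · rw [indicator_of_notMem (show psi x x' ∉ A ×ˢ B from fun h => g2 h.2),
            indicator_of_notMem g2, mul_zero]
      · rw [indicator_of_notMem (show psi x x' ∉ A ×ˢ B from fun h => g1 h.1),
          indicator_of_notMem g1, zero_mul]
    have e2 : nu (A ×ˢ B) = ∫⁻ t in Ioi (0 : ℝ), ∫⁻ r in Ioo (-t) t,
        A.indicator 1 t * B.indicator 1 r *
          ENNReal.ofReal (2 * Real.pi * Real.sinh t * Real.exp (-r)) := by
      rw [← lintegral_indicator_one (hA.prod hB), lint_nu _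
        (measurable_one.indicator (hA.prod hB))]
      refine lintegral_congr fun t => lintegral_congr fun r => ?_
      congr 1
      by_cases g1 : t ∈ A
      · by_cases g2 : r ∈ B
        · rw [indicator_of_mem (show (t, r) ∈ A ×ˢ B from ⟨g1, g2⟩), indicator_of_mem g1,
            indicator_of_mem g2]
          simp
        · rw [indicator_of_notMem (show (t, r) ∉ A ×ˢ B from fun h => g2 h.2),
            indicator_of_notMem g2, mul_zero]
      · rw [indicator_of_notMem (show (t, r) ∉ A ×ˢ B from fun h => g1 h.1),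
          indicator_of_notMem g1, zero_mul]
    rw [e1, e2]
    exact h4 x hx (A.indicator 1) (B.indicator 1) (measurable_one.indicator hA)
      (measurable_one.indicator hB)
  refine Measure.ext_of_generateFrom_of_iUnion
    (image2 (· ×ˢ ·) {s : Set ℝ | MeasurableSet s} {t : Set ℝ | MeasurableSet t})
    (fun n : ℕ => Iic (n : ℝ) ×ˢ univ) generateFrom_prod.symm isPiSystem_prod ?_ ?_ ?_ ?_
  · refine eq_univ_of_forall fun q => ?_
    obtain ⟨n, hn⟩ := exists_nat_ge q.1
    exact mem_iUnion.2 ⟨n, ⟨hn, mem_univ _⟩⟩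
  · intro n
    exact mem_image2_of_mem (mem_setOf.2 measurableSet_Iic) (mem_setOf.2 MeasurableSet.univ)
  · intro n
    rw [hrect _ _ measurableSet_Iic MeasurableSet.univ, nu,
      withDensity_apply _ (measurableSet_Iic.prod MeasurableSet.univ),
      ← lintegral_indicator (measurableSet_Iic.prod MeasurableSet.univ)]
    refine ne_of_lt ?_
    have g1 : ∀ q : ℝ × ℝ, ((Iic (n : ℝ)) ×ˢ (univ : Set ℝ)).indicator wt q ≤
        ((Icc (0 : ℝ) n) ×ˢ (Icc (-(n : ℝ)) n)).indicator
          (fun _ => ENNReal.ofReal (2 * Real.pi * Real.sinh n * Real.exp n)) q := by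
      intro q
      by_cases g2 : q ∈ ((Iic (n : ℝ)) ×ˢ (univ : Set ℝ))
      · rw [indicator_of_mem g2]
        have g3 : q.1 ≤ n := g2.1
        unfold wt
        split_ifs with g4
        · rw [indicator_of_mem]
          · apply ENNReal.ofReal_le_ofReal
            have g5 : Real.sinh q.1 ≤ Real.sinh n := Real.sinh_le_sinh.2 g3
            have g6 : Real.exp (-q.2) ≤ Real.exp n := Real.exp_le_exp.2 (by linarith [g4.2.1])
            have g7 : 0 ≤ Real.sinh n := Real.sinh_nonneg_iff.2 (Nat.cast_nonneg n)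
            have g8 : 0 < Real.pi := Real.pi_pos
            gcongr
          · exact ⟨⟨g4.1.le, g3⟩, ⟨by linarith [g4.2.1], by linarith [g4.2.2]⟩⟩
        · exact bot_le
      · rw [indicator_of_notMem g2]
        exact bot_le
    refine lt_of_le_of_lt (lintegral_mono g1) ?_
    rw [lintegral_indicator (measurableSet_Icc.prod measurableSet_Icc), setLIntegral_const]
    refine ENNReal.mul_lt_top ENNReal.ofReal_lt_top ?_
    rw [Measure.volume_eq_prod, Measure.prod_prod, Real.volume_Icc, Real.volume_Icc]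
    exact ENNReal.mul_lt_top ENNReal.ofReal_lt_top ENNReal.ofReal_lt_top
  · rintro _ ⟨A, hA, B, hB, rfl⟩
    exact hrect A B hA hB

/-- the function of distance and height -/
noncomputable def ff (s : ℝ) (l : ℂ) (q : ℝ × ℝ) : ℂ :=
  (kap s q.1 : ℂ) * Complex.exp ((1 - Complex.I * l) * q.2)

theorem measurable_ff (h6 : S_KAP) {s : ℝ} (hs : 0 < s) (l : ℂ) : Measurable (ff s l) := by
  unfold ff
  refine Measurable.mul ?_ ?_
  · exact Complex.measurable_ofReal.comp ((h6 s hs).1.comp measurable_fst)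
  · exact Complex.measurable_exp.comp
      (measurable_const.mul (Complex.measurable_ofReal.comp measurable_snd))

theorem sph_mul (l : ℂ) {t : ℝ} (ht : 0 < t) :
    ∫ r in Ioo (-t) t, Complex.exp (-(Complex.I * l * r)) = 2 * Real.sinh t * sph l t := by
  have h1 : (Real.sinh t : ℂ) ≠ 0 := by
    exact_mod_cast (Real.sinh_pos_iff.2 ht).ne'
  unfold sph
  rw [intervalIntegral.integral_of_le (by linarith), integral_Ioc_eq_integral_Ioo]
  field_simp

theorem norm_ff {s : ℝ} {l : ℂ} (q : ℝ × ℝ) (hk : 0 ≤ kap s q.1) :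
    ‖ff s l q‖ = kap s q.1 * Real.exp ((1 + l.im) * q.2) := by
  unfold ff
  rw [norm_mul, Complex.norm_real, Real.norm_eq_abs, abs_of_nonneg hk, Complex.norm_exp]
  congr 2
  simp [Complex.mul_re, Complex.sub_re, Complex.sub_im, Complex.mul_im]

theorem inner_lint (h6 : S_KAP) {s : ℝ} (hs : 0 < s) (l : ℂ) {t : ℝ} (ht : 0 < t) :
    ∫⁻ r in Ioo (-t) t, ‖ff s l (t, r)‖ₑ *
      ENNReal.ofReal (2 * Real.pi * Real.sinh t * Real.exp (-r)) =
    ENNReal.ofReal (4 * Real.pi * (((kap s t * Real.sinh t ^ 2 : ℝ) : ℂ) *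
      sph (l.im * Complex.I) t).re) := by
  have hk : 0 ≤ kap s t := (h6 s hs).2.1 t ht
  have hsh : 0 < Real.sinh t := Real.sinh_pos_iff.2 ht
  have e1 : ∀ r : ℝ, ‖ff s l (t, r)‖ₑ *
      ENNReal.ofReal (2 * Real.pi * Real.sinh t * Real.exp (-r)) =
      ENNReal.ofReal (kap s t * (2 * Real.pi * Real.sinh t) * Real.exp (l.im * r)) := by
    intro r
    rw [← ofReal_norm, norm_ff (t, r) hk, ← ENNReal.ofReal_mul (by positivity)]
    congr 1
    have e2 : Real.exp (l.im * r) = Real.exp ((1 + l.im) * r) * Real.exp (-r) := by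
      rw [← Real.exp_add]
      congr 1
      ring
    rw [e2]
    ring
  simp only [e1]
  have hcont : Continuous fun r : ℝ =>
      kap s t * (2 * Real.pi * Real.sinh t) * Real.exp (l.im * r) := by fun_prop
  have hint : IntegrableOn (fun r : ℝ =>
      kap s t * (2 * Real.pi * Real.sinh t) * Real.exp (l.im * r)) (Ioo (-t) t) :=
    (hcont.integrableOn_Icc (a := -t) (b := t)).mono_set Ioo_subset_Icc_self
  rw [← ofReal_integral_eq_lintegral_ofReal hint
    (Eventually.of_forall fun r => by have := Real.pi_pos; positivity)]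
  congr 1
  rw [integral_const_mul]
  have e3 : ((∫ r in Ioo (-t) t, Real.exp (l.im * r) : ℝ) : ℂ) =
      2 * Real.sinh t * sph (l.im * Complex.I) t := by
    rw [← sph_mul _ ht, ← integral_complex_ofReal]
    refine integral_congr_ae (Eventually.of_forall fun r => ?_)
    simp only
    rw [Complex.ofReal_exp]
    congr 1
    push_cast
    linear_combination ((l.im : ℂ) * r) * Complex.I_mul_I
  have e4 : ∫ r in Ioo (-t) t, Real.exp (l.im * r) =
      2 * Real.sinh t * (sph (l.im * Complex.I) t).re := by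
    have e5 := congrArg Complex.re e3
    rw [Complex.ofReal_re] at e5
    rw [e5]
    have e6 : (2 : ℂ) * (Real.sinh t : ℂ) = ((2 * Real.sinh t : ℝ) : ℂ) := by push_cast; ring
    rw [e6, Complex.re_ofReal_mul]
  rw [e4, Complex.re_ofReal_mul]
  ring

theorem integrable_ff (h6 : S_KAP) {s : ℝ} (hs : 0 < s) {l : ℂ} (hl : |l.im| < 2 * s) :
    Integrable (ff s l) nu := by
  refine ⟨(measurable_ff h6 hs l).aestronglyMeasurable, ?_⟩
  unfold HasFiniteIntegral
  rw [lint_nu _ (measurable_ff h6 hs l).enorm]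
  have h1 : ∫⁻ t in Ioi (0 : ℝ), ∫⁻ r in Ioo (-t) t, ‖ff s l (t, r)‖ₑ *
      ENNReal.ofReal (2 * Real.pi * Real.sinh t * Real.exp (-r)) =
      ∫⁻ t in Ioi (0 : ℝ), ENNReal.ofReal (4 * Real.pi *
        (((kap s t * Real.sinh t ^ 2 : ℝ) : ℂ) * sph (l.im * Complex.I) t).re) :=
    setLIntegral_congr_fun measurableSet_Ioi fun t ht => inner_lint h6 hs l ht
  rw [h1]
  have h2 : |((l.im : ℂ) * Complex.I).im| < 2 * s := by
    simpa using hl
  exact (((h6 s hs).2.2.2 _ h2).1.re.const_mul (4 * Real.pi)).lintegral_lt_top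

theorem inner_int {s : ℝ} (l : ℂ) {t : ℝ} (ht : 0 < t) :
    ∫ r, (wt (t, r)).toReal • ff s l (t, r) =
      4 * Real.pi * (((kap s t * Real.sinh t ^ 2 : ℝ) : ℂ) * sph l t) := by
  have hsh : 0 < Real.sinh t := Real.sinh_pos_iff.2 ht
  have h1 : ∀ r, (wt (t, r)).toReal • ff s l (t, r) = (Ioo (-t) t).indicator
      (fun r : ℝ => ((2 * Real.pi * Real.sinh t * kap s t : ℝ) : ℂ) *
        Complex.exp (-(Complex.I * l * r))) r := by
    intro r
    rw [wt_eq, indicator_of_mem (mem_Ioi.2 ht)]
    by_cases h2 : r ∈ Ioo (-t) t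
    · have hp := Real.pi_pos
      rw [indicator_of_mem h2, indicator_of_mem h2, ENNReal.toReal_ofReal (by positivity)]
      unfold ff
      rw [Complex.real_smul]
      have h3 : Complex.exp (-(Complex.I * l * r)) =
          Complex.exp ((1 - Complex.I * l) * r) * Complex.exp (-r) := by
        rw [← Complex.exp_add]
        congr 1
        ring
      rw [h3]
      push_cast
      ring
    · rw [indicator_of_notMem h2, indicator_of_notMem h2]
      simp
  simp only [h1]
  rw [integral_indicator measurableSet_Ioo, integral_const_mul, sph_mul l ht]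
  push_cast
  ring

theorem int_ff (h6 : S_KAP) {s : ℝ} (hs : 0 < s) {l : ℂ} (hl : |l.im| < 2 * s) :
    ∫ q, ff s l q ∂nu = sec s l := by
  have h0 : ∀ᵐ q ∂(volume : Measure (ℝ × ℝ)), wt q < ∞ := by
    refine Eventually.of_forall fun q => ?_
    unfold wt
    split_ifs
    · exact ENNReal.ofReal_lt_top
    · exact ENNReal.zero_lt_top
  have hI := integrable_ff h6 hs hl
  rw [nu, integrable_withDensity_iff_integrable_smul' measurable_wt h0] at hI
  rw [nu, integral_withDensity_eq_integral_toReal_smul measurable_wt h0]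
  rw [Measure.volume_eq_prod] at hI ⊢
  rw [integral_prod _ hI, ← ((h6 s hs).2.2.2 l hl).2]
  have h1 : ∀ t, ∫ r, (wt (t, r)).toReal • ff s l (t, r) = (Ioi (0 : ℝ)).indicator
      (fun t => 4 * Real.pi * (((kap s t * Real.sinh t ^ 2 : ℝ) : ℂ) * sph l t)) t := by
    intro t
    by_cases ht : t ∈ Ioi (0 : ℝ)
    · rw [indicator_of_mem ht]
      exact inner_int l ht
    · rw [indicator_of_notMem ht]
      have h2 : ∀ r, (wt (t, r)).toReal • ff s l (t, r) = 0 := by
        intro r
        rw [wt_eq, indicator_of_notMem ht]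
        simp
      simp only [h2, integral_zero]
  simp only [h1]
  rw [integral_indicator measurableSet_Ioi, integral_const_mul]

theorem ae_pos : ∀ᵐ x' ∂mu, 0 < x'.2 := by
  unfold mu
  have h1 : ∀ᵐ x' ∂((volume : Measure Hs).restrict {x : Hs | 0 < x.2}), 0 < x'.2 :=
    ae_restrict_mem (measurableSet_lt measurable_const measurable_snd)
  exact (withDensity_absolutelyContinuous _ _).ae_le h1

theorem EE_none (l : ℂ) {x x' : Hs} (hx : 0 < x.2) (hx' : 0 < x'.2) :
    EE l none x' = EE l none x *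
      Complex.exp ((1 - Complex.I * l) * (Real.log (x'.2 / x.2) : ℝ)) := by
  show (x'.2 : ℂ) ^ (1 - Complex.I * l) = (x.2 : ℂ) ^ (1 - Complex.I * l) * _
  have h1 : (x.2 : ℂ) ≠ 0 := by exact_mod_cast hx.ne'
  have h2 : (x'.2 : ℂ) ≠ 0 := by exact_mod_cast hx'.ne'
  rw [Complex.cpow_def_of_ne_zero h1, Complex.cpow_def_of_ne_zero h2, ← Complex.exp_add,
    ← Complex.ofReal_log hx.le, ← Complex.ofReal_log hx'.le, Real.log_div hx'.ne' hx.ne']
  congr 1
  push_cast
  ring

theorem none_case (h1 : S_DIST) (h4 : S_RAD) (h6 : S_KAP) {s : ℝ} (hs : 0 < s) {l : ℂ}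
    (hl : |l.im| < 2 * s) {x : Hs} (hx : 0 < x.2) :
    Integrable (fun x' => (kap s (dH x x') : ℂ) * EE l none x') mu ∧
    ∫ x', (kap s (dH x x') : ℂ) * EE l none x' ∂mu = sec s l * EE l none x := by
  have hm := measurable_psi h1 x
  have hae : (fun x' => (kap s (dH x x') : ℂ) * EE l none x') =ᵐ[mu]
      fun x' => EE l none x * ff s l (psi x x') := by
    filter_upwards [ae_pos] with x' hx'
    rw [EE_none l hx hx']
    unfold ff psi
    ring
  have hI := integrable_ff h6 hs hl
  rw [← map_psi h1 h4 hx] at hI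
  have hsm := hI.aestronglyMeasurable
  have hI' : Integrable (fun x' => ff s l (psi x x')) mu := (integrable_map_measure hsm
    hm.aemeasurable).1 hI
  refine ⟨(integrable_congr hae).2 (hI'.const_mul _), ?_⟩
  rw [integral_congr_ae hae, integral_const_mul, ← integral_map hm.aemeasurable hsm,
    map_psi h1 h4 hx, int_ff h6 hs hl]
  ring

/-- an isometry which moves the boundary point to infinity -/
noncomputable def gz (ζ : ℂ) : Matrix.SpecialLinearGroup (Fin 2) ℂ :=
  ⟨!![0, -1; 1, -ζ], by rw [Matrix.det_fin_two_of]; ring⟩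

theorem dn_gz (ζ : ℂ) (x : Hs) : dn (gz ζ) x = ‖x.1 - ζ‖ ^ 2 + x.2 ^ 2 := by
  unfold dn gz
  simp [sub_eq_add_neg]

theorem EE_some (l ζ : ℂ) {x : Hs} (hx : 0 < x.2) :
    EE l (some ζ) x = ((1 + ‖ζ‖ ^ 2 : ℝ) : ℂ) ^ (1 - Complex.I * l) *
      EE l none (act (gz ζ) x) := by
  show ((x.2 * (1 + ‖ζ‖ ^ 2) / (x.2 ^ 2 + ‖x.1 - ζ‖ ^ 2) : ℝ) : ℂ) ^ (1 - Complex.I * l) =
    _ * (((x.2 / dn (gz ζ) x : ℝ)) : ℂ) ^ (1 - Complex.I * l)
  have h1 : 0 < dn (gz ζ) x := by
    rw [dn_gz]
    positivity
  rw [← Complex.mul_cpow_ofReal_nonneg (by positivity) (div_pos hx h1).le, ← Complex.ofReal_mul,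
    dn_gz]
  congr 2
  rw [add_comm (‖x.1 - ζ‖ ^ 2)]
  ring

end SYM

open SYM in
theorem t_SYM (h1 : S_DIST) (h2 : S_ISO) (h3 : S_INV) (h4 : S_RAD) (_h5 : S_SPH) (h6 : S_KAP) :
    S_SYM := by
  intro s hs l hl b x hx
  rcases b with _ | ζ
  · exact none_case h1 h4 h6 hs hl hx
  · have hg := h3 (gz ζ)
    have hx2 := (h2.1 (gz ζ) x hx).2.1
    obtain ⟨hI, hV⟩ := none_case h1 h4 h6 hs hl hx2
    have hae : (fun x' => (kap s (dH x x') : ℂ) * EE l (some ζ) x') =ᵐ[mu]
        fun x' => ((1 + ‖ζ‖ ^ 2 : ℝ) : ℂ) ^ (1 - Complex.I * l) *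
          ((kap s (dH (act (gz ζ) x) (act (gz ζ) x')) : ℂ) * EE l none (act (gz ζ) x')) := by
      filter_upwards [ae_pos] with x' hx'
      rw [EE_some l ζ hx', ((h2.1 (gz ζ) x hx).2.2 x' hx').2]
      ring
    have hI' : Integrable (fun x' => (kap s (dH (act (gz ζ) x) (act (gz ζ) x')) : ℂ) *
        EE l none (act (gz ζ) x')) mu := (hg.integrable_comp hI.aestronglyMeasurable).2 hI
    refine ⟨(integrable_congr hae).2 (hI'.const_mul _), ?_⟩
    have hV' : ∫ x', (kap s (dH (act (gz ζ) x) (act (gz ζ) x')) : ℂ) *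
        EE l none (act (gz ζ) x') ∂mu = sec s l * EE l none (act (gz ζ) x) := by
      rw [← hV]
      have hsm : AEStronglyMeasurable (fun x'' => (kap s (dH (act (gz ζ) x) x'') : ℂ) *
          EE l none x'') (mu.map (act (gz ζ))) := by
        rw [hg.map_eq]
        exact hI.aestronglyMeasurable
      have := integral_map hg.measurable.aemeasurable hsm
      rw [hg.map_eq] at this
      exact this.symm
    rw [integral_congr_ae hae, integral_const_mul, hV', EE_some l ζ hx]
    ring

end Pool.Agent.N46.HM
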