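import Mathlib
import Pool.Agent.N46.HM.Stm

set_option autoImplicit false

/-!
# HM/UNQ: uniqueness for holomorphic functions on a strip vanishing on a boundary interval
-/

open Set Filter
open scoped Topology

namespace Pool.Agent.N46.HM

namespace UNQ

/-- the open square -/
def Q (h : ℝ) : Set ℂ := Ioo (-h) h ×ℂ Ioo (-h) h

theorem mem_Q (h : ℝ) (w : ℂ) : w ∈ Q h ↔ (-h < w.re ∧ w.re < h) ∧ (-h < w.im ∧ w.im < h) := by
  simp [Q, Complex.mem_reProdIm]

theorem closure_Q (h : ℝ) (h0 : 0 < h) (w : ℂ) :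
    w ∈ closure (Q h) ↔ (-h ≤ w.re ∧ w.re ≤ h) ∧ (-h ≤ w.im ∧ w.im ≤ h) := by
  have : (-h : ℝ) ≠ h := by linarith
  rw [Q, Complex.closure_reProdIm, closure_Ioo this]
  simp [Complex.mem_reProdIm]

theorem frontier_Q (h : ℝ) (h0 : 0 < h) (w : ℂ) (hw : w ∈ frontier (Q h)) :
    ((-h ≤ w.re ∧ w.re ≤ h) ∧ (-h ≤ w.im ∧ w.im ≤ h)) ∧
      (w.re = h ∨ w.re = -h ∨ w.im = h ∨ w.im = -h) := by
  have hcl := (closure_Q h h0 w).1 (frontier_subset_closure hw)
  refine ⟨hcl, ?_⟩
  by_contra hcon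
  push Not at hcon
  obtain ⟨h1, h2, h3, h4⟩ := hcon
  have ho : IsOpen (Q h) := isOpen_Ioo.reProdIm isOpen_Ioo
  have hQ : w ∈ Q h := by
    rw [mem_Q]
    exact ⟨⟨lt_of_le_of_ne hcl.1.1 (Ne.symm h2), lt_of_le_of_ne hcl.1.2 h1⟩,
      ⟨lt_of_le_of_ne hcl.2.1 (Ne.symm h4), lt_of_le_of_ne hcl.2.2 h3⟩⟩
  rw [frontier, ho.interior_eq] at hw
  exact hw.2 hQ

end UNQ

theorem t_UNQ : S_UNQ := by
  intro s A hs hc hd hδ
  obtain ⟨δ, hδ, hA⟩ := hδ
  obtain ⟨h, h0, h1, h2⟩ : ∃ h : ℝ, 0 < h ∧ h < δ ∧ h < s :=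
    ⟨min (δ / 2) (s / 2), by positivity, lt_of_le_of_lt (min_le_left _ _) (by linarith),
      lt_of_le_of_lt (min_le_right _ _) (by linarith)⟩
  have hUo : IsOpen {z : ℂ | |z.im| < s} :=
    isOpen_lt (continuous_abs.comp Complex.continuous_im) continuous_const
  -- the centre of the square
  set q : ℂ := ((s - h : ℝ) : ℂ) * Complex.I with hq
  have hqre : q.re = 0 := by simp [hq]
  have hqim : q.im = s - h := by simp [hq]
  have hqU : q ∈ {z : ℂ | |z.im| < s} := by
    rw [mem_setOf_eq, hqim, abs_lt]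
    constructor <;> linarith
  -- the four factors
  let B : ℂ → ℂ := fun w => A (q + w) * A (q + Complex.I * w) * (A (q - w) * A (q - Complex.I * w))
  have c1 : ∀ w ∈ closure (UNQ.Q h), |(q + w).im| ≤ s ∧ |(q + Complex.I * w).im| ≤ s ∧
      |(q - w).im| ≤ s ∧ |(q - Complex.I * w).im| ≤ s := by
    intro w hw
    obtain ⟨⟨a1, a2⟩, a3, a4⟩ := (UNQ.closure_Q h h0 w).1 hw
    have e1 : (q + w).im = s - h + w.im := by rw [Complex.add_im, hqim]
    have e2 : (q + Complex.I * w).im = s - h + w.re := by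
      rw [Complex.add_im, hqim]; simp
    have e3 : (q - w).im = s - h - w.im := by rw [Complex.sub_im, hqim]
    have e4 : (q - Complex.I * w).im = s - h - w.re := by
      rw [Complex.sub_im, hqim]; simp
    rw [e1, e2, e3, e4, abs_le, abs_le, abs_le, abs_le]
    refine ⟨⟨?_, ?_⟩, ⟨?_, ?_⟩, ⟨?_, ?_⟩, ⟨?_, ?_⟩⟩ <;> linarith
  have c2 : ∀ w ∈ UNQ.Q h, |(q + w).im| < s ∧ |(q + Complex.I * w).im| < s ∧
      |(q - w).im| < s ∧ |(q - Complex.I * w).im| < s := by
    intro w hw
    obtain ⟨⟨a1, a2⟩, a3, a4⟩ := (UNQ.mem_Q h w).1 hw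
    have e1 : (q + w).im = s - h + w.im := by rw [Complex.add_im, hqim]
    have e2 : (q + Complex.I * w).im = s - h + w.re := by
      rw [Complex.add_im, hqim]; simp
    have e3 : (q - w).im = s - h - w.im := by rw [Complex.sub_im, hqim]
    have e4 : (q - Complex.I * w).im = s - h - w.re := by
      rw [Complex.sub_im, hqim]; simp
    rw [e1, e2, e3, e4, abs_lt, abs_lt, abs_lt, abs_lt]
    refine ⟨⟨?_, ?_⟩, ⟨?_, ?_⟩, ⟨?_, ?_⟩, ⟨?_, ?_⟩⟩ <;> linarith
  have hdc : DiffContOnCl ℂ B (UNQ.Q h) := by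
    constructor
    · refine DifferentiableOn.mul (DifferentiableOn.mul ?_ ?_) (DifferentiableOn.mul ?_ ?_)
      · exact hd.comp (by fun_prop) fun w hw => (c2 w hw).1
      · exact hd.comp (by fun_prop) fun w hw => (c2 w hw).2.1
      · exact hd.comp (by fun_prop) fun w hw => (c2 w hw).2.2.1
      · exact hd.comp (by fun_prop) fun w hw => (c2 w hw).2.2.2
    · refine ContinuousOn.mul (ContinuousOn.mul ?_ ?_) (ContinuousOn.mul ?_ ?_)
      · exact hc.comp (by fun_prop) fun w hw => (c1 w hw).1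
      · exact hc.comp (by fun_prop) fun w hw => (c1 w hw).2.1
      · exact hc.comp (by fun_prop) fun w hw => (c1 w hw).2.2.1
      · exact hc.comp (by fun_prop) fun w hw => (c1 w hw).2.2.2
  have hbd : Bornology.IsBounded (UNQ.Q h) := by
    refine (Metric.isBounded_ball (x := (0 : ℂ)) (r := 2 * h)).subset fun w hw => ?_
    obtain ⟨⟨a1, a2⟩, a3, a4⟩ := (UNQ.mem_Q h w).1 hw
    rw [mem_ball_zero_iff]
    calc ‖w‖ ≤ |w.re| + |w.im| := Complex.norm_le_abs_re_add_abs_im w
      _ < h + h := add_lt_add (abs_lt.2 ⟨a1, a2⟩) (abs_lt.2 ⟨a3, a4⟩)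
      _ = 2 * h := by ring
  have hfr : ∀ w ∈ frontier (UNQ.Q h), ‖B w‖ ≤ 0 := by
    intro w hw
    obtain ⟨⟨⟨a1, a2⟩, a3, a4⟩, h3⟩ := UNQ.frontier_Q h h0 w hw
    have key : B w = 0 := by
      show A (q + w) * A (q + Complex.I * w) * (A (q - w) * A (q - Complex.I * w)) = 0
      rcases h3 with h3 | h3 | h3 | h3
      · have e : q + Complex.I * w = ((-w.im : ℝ) : ℂ) + s * Complex.I := by
          apply Complex.ext
          · simp [hqre]
          · simp [hqim, h3]
        rw [e, hA _ (by rw [abs_lt]; constructor <;> linarith)]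
        ring
      · have e : q - Complex.I * w = ((w.im : ℝ) : ℂ) + s * Complex.I := by
          apply Complex.ext
          · simp [hqre]
          · simp [hqim, h3]
        rw [e, hA _ (by rw [abs_lt]; constructor <;> linarith)]
        ring
      · have e : q + w = ((w.re : ℝ) : ℂ) + s * Complex.I := by
          apply Complex.ext
          · simp [hqre]
          · simp [hqim, h3]
        rw [e, hA _ (by rw [abs_lt]; constructor <;> linarith)]
        ring
      · have e : q - w = ((-w.re : ℝ) : ℂ) + s * Complex.I := by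
          apply Complex.ext
          · simp [hqre]
          · simp [hqim, h3]
        rw [e, hA _ (by rw [abs_lt]; constructor <;> linarith)]
        ring
    rw [key, norm_zero]
  have hB : ∀ w ∈ UNQ.Q h, B w = 0 := by
    intro w hw
    have := Complex.norm_le_of_forall_mem_frontier_norm_le hbd hdc hfr (subset_closure hw)
    exact norm_le_zero_iff.1 this
  -- `A` vanishes near `q`
  have hAn : AnalyticOnNhd ℂ A {z : ℂ | |z.im| < s} := hd.analyticOnNhd hUo
  have hev : ∀ᶠ z in 𝓝 q, A z = 0 := by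
    rcases (hAn q hqU).eventually_eq_zero_or_eventually_ne_zero with h3 | h3
    · exact h3
    · exfalso
      rw [eventually_nhdsWithin_iff, Metric.eventually_nhds_iff] at h3
      obtain ⟨r, hr, h3⟩ := h3
      obtain ⟨ε, he0, he1, he2⟩ : ∃ ε : ℝ, 0 < ε ∧ ε < r ∧ ε < h :=
        ⟨min (r / 2) (h / 2), by positivity, lt_of_le_of_lt (min_le_left _ _) (by linarith),
          lt_of_le_of_lt (min_le_right _ _) (by linarith)⟩
      have hne : (ε : ℂ) ≠ 0 := by
        exact_mod_cast he0.ne'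
      have hnorm : ‖(ε : ℂ)‖ = ε := by
        rw [Complex.norm_real, Real.norm_of_nonneg he0.le]
      have hw : (ε : ℂ) ∈ UNQ.Q h := by
        rw [UNQ.mem_Q]
        simp only [Complex.ofReal_re, Complex.ofReal_im]
        refine ⟨⟨?_, ?_⟩, ?_, ?_⟩ <;> linarith
      have hmain : ∀ v : ℂ, ‖v‖ = ε → A (q + v) ≠ 0 := by
        intro v hv
        apply h3
        · rw [dist_eq_norm]
          simp only [add_sub_cancel_left]
          rw [hv]
          exact he1
        · rw [mem_compl_iff, mem_singleton_iff, add_eq_left]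
          intro h0v
          rw [h0v, norm_zero] at hv
          linarith
      have b1 := hmain (ε : ℂ) hnorm
      have b2 := hmain (Complex.I * ε) (by rw [norm_mul, Complex.norm_I, one_mul, hnorm])
      have b3 := hmain (-(ε : ℂ)) (by rw [norm_neg, hnorm])
      have b4 := hmain (-(Complex.I * ε)) (by rw [norm_neg, norm_mul, Complex.norm_I, one_mul, hnorm])
      rw [← sub_eq_add_neg] at b3 b4
      exact mul_ne_zero (mul_ne_zero b1 b2) (mul_ne_zero b3 b4) (hB _ hw)
  have hconv : Convex ℝ {z : ℂ | |z.im| < s} := by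
    have : {z : ℂ | |z.im| < s} = Complex.imCLM ⁻¹' Ioo (-s) s := by
      ext z
      simp [abs_lt]
    rw [this]
    exact (convex_Ioo _ _).linear_preimage (Complex.imCLM : ℂ →ₗ[ℝ] ℝ)
  have hzero : EqOn A 0 {z : ℂ | |z.im| < s} :=
    hAn.eqOn_zero_of_preconnected_of_eventuallyEq_zero hconv.isPreconnected hqU hev
  have hcl : {z : ℂ | |z.im| ≤ s} ⊆ closure {z : ℂ | |z.im| < s} := by
    intro z hz
    have : {z : ℂ | |z.im| < s} = Complex.im ⁻¹' Ioo (-s) s := by
      ext z
      simp [abs_lt]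
    rw [this, Complex.closure_preimage_im, closure_Ioo (by linarith : (-s : ℝ) ≠ s)]
    exact abs_le.1 hz
  have hfin : EqOn A 0 {z : ℂ | |z.im| ≤ s} :=
    hzero.of_subset_closure hc continuousOn_const
      (fun z hz => (show |z.im| ≤ s from le_of_lt (show |z.im| < s from hz))) hcl
  intro z hz
  exact hfin hz

end Pool.Agent.N46.HM
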