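import Mathlib
import Pool.Agent.N46.HM.Stm

/-!
# HM/VDC (helper296): decay of the oscillatory integrals, by the van der Corput lemma
-/

set_option autoImplicit false

open MeasureTheory Set Filter
open scoped ENNReal Topology ComplexConjugate

namespace Pool.Agent.N46.HM

namespace VDC

/-- van der Corput's lemma, in a smooth form -/
theorem vdc_abs {u v : ℝ} (huv : u ≤ v) {a a' : ℝ → ℂ} {Φ p q : ℝ → ℝ} {A0 A1 κ lam σ : ℝ}
    (ha : ∀ x, HasDerivAt a (a' x) x) (ha'c : Continuous a') (hau : a u = 0) (hav : a v = 0)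
    (hΦ : ∀ x, HasDerivAt Φ (p x) x) (hp : ∀ x, HasDerivAt p (q x) x) (hq : Continuous q)
    (hA0 : ∀ x, ‖a x‖ ≤ A0) (hA1 : ∀ x, ‖a' x‖ ≤ A1) (hκ : 0 < κ) (hlam : 0 < lam)
    (hσ : σ = 1 ∨ σ = -1) (hqκ : ∀ x ∈ Icc u v, κ ≤ σ * q x) :
    ‖∫ x in u..v, a x * Complex.exp (Complex.I * (Φ x : ℂ))‖ ≤
      A0 * (lam ^ 2 / κ + 1) * (Real.pi / lam) + A1 / (2 * lam) * (v - u) := by
  have hA00 : 0 ≤ A0 := (norm_nonneg _).trans (hA0 0)
  have hA10 : 0 ≤ A1 := (norm_nonneg _).trans (hA1 0)
  have pc : Continuous p := continuous_iff_continuousAt.2 fun x => (hp x).continuousAt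
  have ac : Continuous a := continuous_iff_continuousAt.2 fun x => (ha x).continuousAt
  have Φc : Continuous Φ := continuous_iff_continuousAt.2 fun x => (hΦ x).continuousAt
  set e : ℝ → ℂ := fun x => Complex.exp (Complex.I * (Φ x : ℂ)) with he
  have ec : Continuous e := by fun_prop
  have en : ∀ x, ‖e x‖ = 1 := fun x => Complex.norm_exp_I_mul_ofReal _
  have hed : ∀ x, HasDerivAt e (e x * (Complex.I * (p x : ℂ))) x := fun x =>
    (((hΦ x).ofReal_comp).const_mul Complex.I).cexp
  have den : ∀ x, 0 < lam ^ 2 + p x ^ 2 := fun x => by positivity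
  set r : ℝ → ℝ := fun x => p x / (lam ^ 2 + p x ^ 2) with hr
  set r' : ℝ → ℝ := fun x => q x * (lam ^ 2 - p x ^ 2) / (lam ^ 2 + p x ^ 2) ^ 2 with hr'
  have rc : Continuous r := by
    refine pc.div (by fun_prop) fun x => (den x).ne'
  have r'c : Continuous r' := by
    refine Continuous.div (by fun_prop) (by fun_prop) fun x => (pow_pos (den x) 2).ne'
  have hrd : ∀ x, HasDerivAt r (r' x) x := by
    intro x
    have h1 : HasDerivAt (fun x => lam ^ 2 + p x ^ 2) (2 * p x * q x) x := by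
      have h2 := ((hp x).pow 2).const_add (lam ^ 2)
      simpa using h2
    have h2 := (hp x).div h1 (den x).ne'
    refine h2.congr_deriv ?_
    rw [hr']
    congr 1
    ring
  set b : ℝ → ℂ := fun x => a x * (r x : ℂ) with hb
  set b' : ℝ → ℂ := fun x => a' x * (r x : ℂ) + a x * (r' x : ℂ) with hb'
  have b'c : Continuous b' := by fun_prop
  have bc : Continuous b := by fun_prop
  have hbd : ∀ x, HasDerivAt b (b' x) x := fun x => (ha x).mul (hrd x).ofReal_comp
  set H' : ℝ → ℂ := fun x => b' x * e x + b x * (e x * (Complex.I * (p x : ℂ))) with hH'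
  have hHd : ∀ x, HasDerivAt (fun x => b x * e x) (H' x) x := fun x => (hbd x).mul (hed x)
  have H'c : Continuous H' := by fun_prop
  have hH0 : ∫ x in u..v, H' x = 0 := by
    rw [intervalIntegral.integral_eq_sub_of_hasDerivAt (fun x _ => hHd x)
      (H'c.intervalIntegrable _ _)]
    simp only [hb, hau, hav, zero_mul, sub_self]
  set w : ℝ → ℝ := fun x => lam ^ 2 / (lam ^ 2 + p x ^ 2) with hw
  have wc : Continuous w := by
    refine Continuous.div (by fun_prop) (by fun_prop) fun x => (den x).ne'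
  set g : ℝ → ℂ := fun x => (a x * (w x : ℂ) + Complex.I * b' x) * e x with hg
  have gc : Continuous g := by fun_prop
  have hsplit : ∀ x, a x * e x = g x + (-Complex.I) * H' x := by
    intro x
    have h1 : (w x : ℂ) + (p x : ℂ) * (r x : ℂ) = 1 := by
      rw [hw, hr]
      have h2 : lam ^ 2 / (lam ^ 2 + p x ^ 2) + p x * (p x / (lam ^ 2 + p x ^ 2)) = 1 := by
        have := (den x).ne'
        field_simp
      exact_mod_cast h2
    have h2 : Complex.I * Complex.I = -1 := Complex.I_mul_I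
    simp only [hg, hH', hb]
    linear_combination (-(a x * e x)) * h1 + (a x * (r x : ℂ) * e x * (p x : ℂ)) * h2
  have hint : ∫ x in u..v, a x * e x = ∫ x in u..v, g x := by
    have h1 : ∫ x in u..v, a x * e x = ∫ x in u..v, (g x + (-Complex.I) * H' x) :=
      intervalIntegral.integral_congr fun x _ => hsplit x
    have h2 : Continuous fun x => (-Complex.I) * H' x := by fun_prop
    rw [h1, intervalIntegral.integral_add (gc.intervalIntegrable _ _)
      (h2.intervalIntegrable _ _),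
      intervalIntegral.integral_const_mul, hH0, mul_zero, add_zero]
  -- the bound
  set Bd : ℝ → ℝ := fun x => A0 * (lam ^ 2 / κ + 1) * (σ * q x / (lam ^ 2 + p x ^ 2)) +
    A1 / (2 * lam) with hBd
  have Bdc : Continuous Bd := by
    have : Continuous fun x => σ * q x / (lam ^ 2 + p x ^ 2) :=
      Continuous.div (by fun_prop) (by fun_prop) fun x => (den x).ne'
    fun_prop
  have hbound : ∀ x ∈ Icc u v, ‖g x‖ ≤ Bd x := by
    intro x hx
    have h1 := hqκ x hx
    have hq0 : 0 < σ * q x := hκ.trans_le h1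
    have habs : |q x| = σ * q x := by
      rcases hσ with h | h
      · rw [h, one_mul] at hq0 ⊢
        exact abs_of_pos hq0
      · rw [h, neg_one_mul] at hq0 ⊢
        exact abs_of_neg (by linarith)
    have d0 := den x
    have e1 : ‖(w x : ℂ)‖ ≤ lam ^ 2 / κ * (σ * q x / (lam ^ 2 + p x ^ 2)) := by
      rw [Complex.norm_real, Real.norm_eq_abs, hw, abs_of_pos (by positivity)]
      rw [div_mul_div_comm, div_le_div_iff₀ d0 (by positivity)]
      have : 0 ≤ lam ^ 2 * (lam ^ 2 + p x ^ 2) := by positivity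
      nlinarith
    have e2 : ‖(r x : ℂ)‖ ≤ 1 / (2 * lam) := by
      rw [Complex.norm_real, Real.norm_eq_abs, hr, abs_div, abs_of_pos d0,
        div_le_div_iff₀ d0 (by positivity)]
      have : 0 ≤ (lam - |p x|) ^ 2 := sq_nonneg _
      have h3 : |p x| ^ 2 = p x ^ 2 := sq_abs _
      nlinarith
    have e3 : ‖(r' x : ℂ)‖ ≤ σ * q x / (lam ^ 2 + p x ^ 2) := by
      rw [Complex.norm_real, Real.norm_eq_abs, hr', abs_div, abs_mul, habs,
        abs_of_pos (pow_pos d0 2), div_le_div_iff₀ (pow_pos d0 2) d0]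
      have h3 : |lam ^ 2 - p x ^ 2| ≤ lam ^ 2 + p x ^ 2 := by
        rw [abs_le]
        constructor <;> nlinarith [sq_nonneg lam, sq_nonneg (p x)]
      have h4 : σ * q x * |lam ^ 2 - p x ^ 2| ≤ σ * q x * (lam ^ 2 + p x ^ 2) :=
        mul_le_mul_of_nonneg_left h3 hq0.le
      calc σ * q x * |lam ^ 2 - p x ^ 2| * (lam ^ 2 + p x ^ 2)
          ≤ σ * q x * (lam ^ 2 + p x ^ 2) * (lam ^ 2 + p x ^ 2) :=
            mul_le_mul_of_nonneg_right h4 d0.le
        _ = σ * q x * (lam ^ 2 + p x ^ 2) ^ 2 := by ring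
    have hQ : 0 ≤ σ * q x / (lam ^ 2 + p x ^ 2) := by positivity
    calc ‖g x‖ = ‖a x * (w x : ℂ) + Complex.I * b' x‖ := by
          simp only [hg]; rw [norm_mul, en, mul_one]
      _ ≤ ‖a x * (w x : ℂ)‖ + ‖Complex.I * b' x‖ := norm_add_le _ _
      _ ≤ ‖a x‖ * ‖(w x : ℂ)‖ + (‖a' x‖ * ‖(r x : ℂ)‖ + ‖a x‖ * ‖(r' x : ℂ)‖) := by
          rw [norm_mul, norm_mul Complex.I, Complex.norm_I, one_mul]
          refine add_le_add le_rfl ?_
          simp only [hb']
          refine (norm_add_le _ _).trans ?_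
          rw [norm_mul, norm_mul]
      _ ≤ A0 * (lam ^ 2 / κ * (σ * q x / (lam ^ 2 + p x ^ 2))) +
          (A1 * (1 / (2 * lam)) + A0 * (σ * q x / (lam ^ 2 + p x ^ 2))) := by
          refine add_le_add (mul_le_mul (hA0 x) e1 (norm_nonneg _) hA00)
            (add_le_add (mul_le_mul (hA1 x) e2 (norm_nonneg _) hA10)
              (mul_le_mul (hA0 x) e3 (norm_nonneg _) hA00))
      _ = Bd x := by simp only [hBd]; ring
  have hB2 : ∫ x in u..v, Bd x ≤ A0 * (lam ^ 2 / κ + 1) * (Real.pi / lam) +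
      A1 / (2 * lam) * (v - u) := by
    have hprim : ∀ x, HasDerivAt (fun x => A0 * (lam ^ 2 / κ + 1) *
        (σ / lam * Real.arctan (p x / lam)) + A1 / (2 * lam) * x) (Bd x) x := by
      intro x
      have h1 := (((hp x).div_const lam).arctan.const_mul (σ / lam)).const_mul
        (A0 * (lam ^ 2 / κ + 1))
      have h2 := (hasDerivAt_id x).const_mul (A1 / (2 * lam))
      refine (h1.add h2).congr_deriv ?_
      simp only [hBd]
      have hne : (1 : ℝ) + (p x / lam) ^ 2 ≠ 0 := by positivity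
      have := (den x).ne'
      rw [mul_one]
      congr 2
      have e1 : 1 + (p x / lam) ^ 2 = (lam ^ 2 + p x ^ 2) / lam ^ 2 := by
        field_simp
      rw [e1]
      field_simp
    rw [intervalIntegral.integral_eq_sub_of_hasDerivAt (fun x _ => hprim x)
      (Bdc.intervalIntegrable _ _)]
    have h1 := Real.arctan_lt_pi_div_two (p v / lam)
    have h2 := Real.neg_pi_div_two_lt_arctan (p v / lam)
    have h3 := Real.arctan_lt_pi_div_two (p u / lam)
    have h4 := Real.neg_pi_div_two_lt_arctan (p u / lam)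
    have h5 : σ * (Real.arctan (p v / lam) - Real.arctan (p u / lam)) ≤ Real.pi := by
      rcases hσ with h | h <;> rw [h] <;> linarith
    have h6 : 0 ≤ A0 * (lam ^ 2 / κ + 1) := by positivity
    have h7 : A0 * (lam ^ 2 / κ + 1) *
        (σ * (Real.arctan (p v / lam) - Real.arctan (p u / lam)) / lam) ≤
        A0 * (lam ^ 2 / κ + 1) * (Real.pi / lam) :=
      mul_le_mul_of_nonneg_left (div_le_div_of_nonneg_right h5 hlam.le) h6
    have h8 : A0 * (lam ^ 2 / κ + 1) *
        (σ * (Real.arctan (p v / lam) - Real.arctan (p u / lam)) / lam) =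
        A0 * (lam ^ 2 / κ + 1) * (σ / lam * Real.arctan (p v / lam)) -
          A0 * (lam ^ 2 / κ + 1) * (σ / lam * Real.arctan (p u / lam)) := by
      field_simp
    linarith
  show ‖∫ x in u..v, a x * e x‖ ≤ _
  rw [hint]
  refine (intervalIntegral.norm_integral_le_of_norm_le huv (Eventually.of_forall fun x hx =>
    hbound x (Ioc_subset_Icc_self hx)) (Bdc.intervalIntegrable _ _)).trans hB2

/-- first derivative of the phase -/
noncomputable def p1 (c x : ℝ) : ℝ :=
  -(4 * c * Real.exp (-(c * x))) / (1 + Real.exp (-(c * x)) ^ 2)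

/-- second derivative of the phase -/
noncomputable def p2 (c x : ℝ) : ℝ :=
  4 * c ^ 2 * Real.exp (-(c * x)) * (1 - Real.exp (-(c * x)) ^ 2) /
    (1 + Real.exp (-(c * x)) ^ 2) ^ 2

theorem hE (c x : ℝ) : HasDerivAt (fun x => Real.exp (-(c * x))) (-(c * Real.exp (-(c * x)))) x := by
  have h := (((hasDerivAt_id x).const_mul c).neg).exp
  have h' : HasDerivAt (fun x => Real.exp (-(c * x))) _ x := h
  refine h'.congr_deriv ?_
  simp only [id, Pi.neg_apply]
  ring

theorem hph (s c x : ℝ) (hs : s ≠ 0) (hc : c = Real.pi / (2 * s)) :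
    HasDerivAt (ph s) (p1 c x) x := by
  have h := ((hE c x).arctan).const_mul 4
  have e : ph s = fun x => 4 * Real.arctan (Real.exp (-(c * x))) := by
    funext x
    unfold ph
    rw [hc]
    congr 3
    field_simp
  rw [e]
  refine h.congr_deriv ?_
  unfold p1
  have : (1 : ℝ) + Real.exp (-(c * x)) ^ 2 ≠ 0 := by positivity
  field_simp

theorem hp1 (c x : ℝ) : HasDerivAt (p1 c) (p2 c x) x := by
  have h0 : (1 : ℝ) + Real.exp (-(c * x)) ^ 2 ≠ 0 := by positivity
  have h1 := ((hE c x).const_mul (4 * c)).neg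
  have h2 := ((hE c x).pow 2).const_add 1
  have h : HasDerivAt (p1 c) _ x := h1.div h2 h0
  refine h.congr_deriv ?_
  simp only [Pi.neg_apply]
  unfold p2
  congr 1
  push_cast
  ring

theorem p2_cont (c : ℝ) : Continuous (p2 c) := by
  unfold p2
  exact Continuous.div (by fun_prop) (by fun_prop) fun x => by positivity

theorem p2_pos {c x : ℝ} (hc : 0 < c) (hx : 0 < x) : 0 < p2 c x := by
  unfold p2
  have h1 : Real.exp (-(c * x)) < 1 := by
    rw [Real.exp_lt_one_iff]
    have := mul_pos hc hx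
    linarith
  have h2 : 0 < Real.exp (-(c * x)) := Real.exp_pos _
  have h3 : 0 < 1 - Real.exp (-(c * x)) ^ 2 := by nlinarith
  positivity

/-- the support is in an interval -/
theorem supp {a : ℝ → ℂ} (h1 : HasCompactSupport a) (h2 : tsupport a ⊆ Ioi 0) :
    ∃ u v : ℝ, 0 < u ∧ u ≤ v ∧ Function.support a ⊆ Ioc u v ∧ a u = 0 ∧ a v = 0 := by
  rcases (tsupport a).eq_empty_or_nonempty with h0 | h0
  · have h3 : ∀ x, a x = 0 := fun x => image_eq_zero_of_notMem_tsupport (by rw [h0]; simp)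
    refine ⟨1, 1, one_pos, le_rfl, ?_, h3 1, h3 1⟩
    intro x hx
    exact absurd (h3 x) hx
  · obtain ⟨x0, hx0, hmin⟩ := IsCompact.exists_isMinOn h1 h0 continuousOn_id
    obtain ⟨x1, hx1, hmax⟩ := IsCompact.exists_isMaxOn h1 h0 continuousOn_id
    have hp : 0 < x0 := h2 hx0
    have hmin' : ∀ x ∈ tsupport a, x0 ≤ x := fun x hx => hmin hx
    have hmax' : ∀ x ∈ tsupport a, x ≤ x1 := fun x hx => hmax hx
    refine ⟨x0 / 2, x1 + 1, by linarith, by linarith [hmin' x1 hx1], ?_, ?_, ?_⟩
    · intro x hx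
      have h3 := subset_tsupport a hx
      exact ⟨by linarith [hmin' x h3], by linarith [hmax' x h3]⟩
    · apply image_eq_zero_of_notMem_tsupport
      intro h3
      linarith [hmin' _ h3]
    · apply image_eq_zero_of_notMem_tsupport
      intro h3
      linarith [hmax' _ h3]

end VDC

open VDC in
theorem t_VDC : S_VDC := by
  intro s hs a ha σ hσ ε hε
  obtain ⟨⟨ha1, ha2⟩, ha3⟩ := ha
  set c : ℝ := Real.pi / (2 * s) with hc
  have hc0 : 0 < c := by positivity
  obtain ⟨u, v, hu, huv, hsup, hau, hav⟩ := supp ha2 ha3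
  have had : ∀ x, HasDerivAt a (deriv a x) x := fun x =>
    ((ha1.differentiable (by simp)) x).hasDerivAt
  have ha'c : Continuous (deriv a) := ha1.continuous_deriv (by simp)
  obtain ⟨A0, hA0⟩ := ha2.exists_bound_of_continuous ha1.continuous
  obtain ⟨A1, hA1⟩ := (ha2.deriv).exists_bound_of_continuous ha'c
  have hA00 : 0 ≤ A0 := (norm_nonneg _).trans (hA0 0)
  have hA10 : 0 ≤ A1 := (norm_nonneg _).trans (hA1 0)
  obtain ⟨x0, hx0, hmin⟩ := isCompact_Icc.exists_isMinOn (nonempty_Icc.2 huv)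
    (p2_cont c).continuousOn
  set m : ℝ := p2 c x0 with hm
  have hm0 : 0 < m := p2_pos hc0 (hu.trans_le hx0.1)
  have hmx : ∀ x ∈ Icc u v, m ≤ p2 c x := fun x hx => hmin hx
  set C : ℝ := A0 * (1 / m + 1) * Real.pi + A1 / 2 * (v - u) with hC
  have hC0 : 0 ≤ C := by
    have : 0 ≤ v - u := by linarith
    positivity
  refine ⟨⌈(C / ε) ^ 2⌉₊ + 1, ?_⟩
  intro n hn t
  have hn1 : 1 ≤ n := by omega
  have hnR : (0 : ℝ) < n := by exact_mod_cast hn1
  have hnC : (C / ε) ^ 2 ≤ n := (Nat.le_ceil _).trans (by exact_mod_cast (by omega))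
  have hsq : 0 < Real.sqrt n := Real.sqrt_pos.2 hnR
  have hsq2 : Real.sqrt n ^ 2 = n := Real.sq_sqrt hnR.le
  have hCn : C / Real.sqrt n ≤ ε := by
    rw [div_le_iff₀ hsq]
    have h1 : C / ε ≤ Real.sqrt n := Real.le_sqrt_of_sq_le hnC
    rw [div_le_iff₀ hε] at h1
    linarith
  have hint : ∫ ξ : ℝ, a ξ * Complex.exp (Complex.I * ((σ * n * ph s ξ + t * ξ : ℝ) : ℂ)) =
      ∫ ξ in u..v, a ξ * Complex.exp (Complex.I * ((σ * n * ph s ξ + t * ξ : ℝ) : ℂ)) := by
    refine (intervalIntegral.integral_eq_integral_of_support_subset ?_).symm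
    intro x hx
    apply hsup
    intro h0
    apply hx
    simp only [h0, zero_mul]
  rw [hint]
  have key := vdc_abs (u := u) (v := v) huv (a := a) (a' := deriv a)
    (Φ := fun ξ => σ * n * ph s ξ + t * ξ) (p := fun ξ => σ * n * p1 c ξ + t)
    (q := fun ξ => σ * n * p2 c ξ) (A0 := A0) (A1 := A1) (κ := n * m) (lam := Real.sqrt n)
    (σ := σ) had ha'c hau hav
    (fun x => by
      have h1 : HasDerivAt (fun ξ => σ * n * ph s ξ + t * ξ) _ x :=
        ((hph s c x hs.ne' hc).const_mul (σ * n)).add ((hasDerivAt_id x).const_mul t)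
      exact h1.congr_deriv (by ring))
    (fun x => by
      have h1 := ((hp1 c x).const_mul (σ * n)).add_const t
      simpa using h1)
    ((p2_cont c).const_mul _ ) hA0 hA1 (by positivity) hsq hσ
    (fun x hx => by
      have h1 := hmx x hx
      have h2 : σ * (σ * n * p2 c x) = n * p2 c x := by
        have : σ * σ = 1 := by rcases hσ with h | h <;> rw [h] <;> norm_num
        linear_combination (n * p2 c x) * this
      rw [h2]
      exact mul_le_mul_of_nonneg_left h1 hnR.le)
  refine key.trans (le_trans (le_of_eq ?_) hCn)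
  rw [hsq2, hC]
  field_simp

end Pool.Agent.N46.HM
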