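import Pool.Agent.N46.HM.Stm

/-!
# HM/VIT (project HM of helper46): a functional which vanishes on the indicators of the Euclidean
balls is zero

By helper106.
-/

set_option autoImplicit false

open MeasureTheory Set Filter
open scoped ENNReal NNReal Topology ComplexConjugate symmDiff

namespace Pool.Agent.N46.HM.VIT

section General

variable {X : Type} [MeasurableSpace X] {μ : Measure X} {p : ℝ≥0∞} [Fact (1 ≤ p)]

/-- the functional vanishes on the indicator -/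
def Z (φ : Lp ℂ p μ →L[ℂ] ℂ) (A : Set X) : Prop :=
  ∀ (hA : MeasurableSet A) (hμ : μ A ≠ ∞), φ (indicatorConstLp p hA hμ (1 : ℂ)) = 0

lemma Z_union {φ : Lp ℂ p μ →L[ℂ] ℂ} {A B : Set X} (hA : MeasurableSet A)
    (hB : MeasurableSet B) (hd : Disjoint A B) (h1 : Z φ A) (h2 : Z φ B) : Z φ (A ∪ B) := by
  intro hAB hμ
  have hμA : μ A ≠ ∞ := ne_top_of_le_ne_top hμ (measure_mono subset_union_left)
  have hμB : μ B ≠ ∞ := ne_top_of_le_ne_top hμ (measure_mono subset_union_right)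
  rw [indicatorConstLp_disjoint_union hA hB hμA hμB hd, map_add, h1 hA hμA, h2 hB hμB, add_zero]

lemma Z_empty {φ : Lp ℂ p μ →L[ℂ] ℂ} : Z φ (∅ : Set X) := by
  intro h1 h2
  rw [indicatorConstLp_empty, map_zero]

lemma Z_finset {φ : Lp ℂ p μ →L[ℂ] ℂ} {ι : Type} {B : ι → Set X}
    (hB : ∀ i, MeasurableSet (B i)) (hd : Pairwise (Function.onFun Disjoint B))
    (h : ∀ i, Z φ (B i)) (F : Finset ι) : Z φ (⋃ i ∈ F, B i) := by
  classical
  induction F using Finset.induction_on with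
  | empty =>
    simp only [Finset.notMem_empty, iUnion_of_empty, iUnion_empty]
    exact Z_empty
  | insert a F ha ih =>
    rw [Finset.set_biUnion_insert]
    refine Z_union (hB a) (F.measurableSet_biUnion fun i _ => hB i) ?_ (h a) ih
    rw [disjoint_iUnion₂_right]
    intro i hi
    exact hd fun e => ha (e ▸ hi)

lemma Z_lim {φ : Lp ℂ p μ →L[ℂ] ℂ} (hp : p ≠ ∞) {β : Type} {l : Filter β} [l.NeBot]
    {t : β → Set X} {s : Set X} (ht : ∀ b, MeasurableSet (t b)) (hμt : ∀ b, μ (t b) ≠ ∞)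
    (h : ∀ b, Z φ (t b)) (hl : Tendsto (fun b => μ (t b ∆ s)) l (𝓝 0)) : Z φ s := by
  intro hs hμs
  have h1 := tendsto_indicatorConstLp_set (μ := μ) (p := p) (c := (1 : ℂ)) (ht := ht)
    (hμt := hμt) (hs := hs) (hμs := hμs) hp hl
  have h2 := (φ.continuous.tendsto _).comp h1
  have h3 : (φ ∘ fun b => indicatorConstLp p (ht b) (hμt b) (1 : ℂ)) = fun _ => (0 : ℂ) := by
    funext b
    exact h b (ht b) (hμt b)
  rw [h3] at h2
  exact tendsto_nhds_unique h2 tendsto_const_nhds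

lemma Z_approx {φ : Lp ℂ p μ →L[ℂ] ℂ} (hp : p ≠ ∞) {s : Set X}
    (h : ∀ ε : ℝ≥0∞, 0 < ε → ∃ t, MeasurableSet t ∧ μ t ≠ ∞ ∧ Z φ t ∧ μ (t ∆ s) ≤ ε) :
    Z φ s := by
  have h1 : ∀ n : ℕ, ∃ t, MeasurableSet t ∧ μ t ≠ ∞ ∧ Z φ t ∧ μ (t ∆ s) ≤ ((n : ℝ≥0∞) + 1)⁻¹ :=
    fun n => h _ (ENNReal.inv_pos.2 (by finiteness))
  choose t h2 h3 h4 h5 using h1
  refine Z_lim (l := atTop) hp h2 h3 h4 ?_
  refine tendsto_of_tendsto_of_tendsto_of_le_of_le tendsto_const_nhds ?_ (fun _ => zero_le) h5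
  have h6 : Tendsto (fun n : ℕ => (((n + 1 : ℕ) : ℝ≥0∞))⁻¹) atTop (𝓝 0) :=
    (tendsto_add_atTop_iff_nat 1).2 ENNReal.tendsto_inv_nat_nhds_zero
  simpa using h6

lemma Z_iUnion {φ : Lp ℂ p μ →L[ℂ] ℂ} (hp : p ≠ ∞) {ι : Type} [Countable ι] {B : ι → Set X}
    (hB : ∀ i, MeasurableSet (B i)) (hd : Pairwise (Function.onFun Disjoint B))
    (h : ∀ i, Z φ (B i)) : Z φ (⋃ i, B i) := by
  intro hm hμ
  have hsum : ∑' i, μ (B i) ≠ ∞ := by rwa [measure_iUnion hd hB] at hμ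
  have hsub : ∀ F : Finset ι, ⋃ i ∈ F, B i ⊆ ⋃ i, B i := fun F =>
    iUnion₂_subset fun i _ => subset_iUnion B i
  refine Z_lim (l := (atTop : Filter (Finset ι))) (t := fun F => ⋃ i ∈ F, B i) hp
    (fun F => F.measurableSet_biUnion fun i _ => hB i)
    (fun F => ne_top_of_le_ne_top hμ (measure_mono (hsub F))) (fun F => Z_finset hB hd h F) ?_ hm hμ
  refine tendsto_of_tendsto_of_tendsto_of_le_of_le tendsto_const_nhds
    (ENNReal.tendsto_tsum_compl_atTop_zero hsum) (fun _ => zero_le) ?_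
  intro F
  refine (measure_mono (t := ⋃ i : {i // i ∉ F}, B i) ?_).trans (measure_iUnion_le _)
  rintro x (⟨hx1, hx2⟩ | ⟨hx1, hx2⟩)
  · exact absurd (hsub F hx1) hx2
  · obtain ⟨i, hi⟩ := mem_iUnion.1 hx1
    refine mem_iUnion.2 ⟨⟨i, fun hF => hx2 (mem_iUnion₂.2 ⟨i, hF, hi⟩)⟩, hi⟩

lemma eq_zero {φ : Lp ℂ p μ →L[ℂ] ℂ} (hp : p ≠ ∞) (h : ∀ A, Z φ A) : φ = 0 := by
  ext f
  rw [zero_apply]
  refine Lp.induction hp (fun f => φ f = 0) ?_ ?_ ?_ f
  · intro c s hs hμs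
    rw [Lp.simpleFunc.coe_indicatorConst]
    have e : indicatorConstLp p hs hμs.ne c = c • indicatorConstLp p hs hμs.ne (1 : ℂ) := by
      ext1
      grw [Lp.coeFn_smul, indicatorConstLp_coeFn, indicatorConstLp_coeFn]
      filter_upwards with x
      by_cases hx : x ∈ s <;> simp [hx]
    rw [e, map_smul, h s hs hμs.ne, smul_zero]
  · intro f g hf hg _ h1 h2
    simp only [map_add, h1, h2, add_zero]
  · exact isClosed_eq φ.continuous continuous_const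

end General

/-- Euclidean balls -/
def EB (c : Hs) (R : ℝ) : Set Hs := {x : Hs | ‖x.1 - c.1‖ ^ 2 + (x.2 - c.2) ^ 2 ≤ R ^ 2}

lemma EB_closed (c : Hs) (R : ℝ) : IsClosed (EB c R) :=
  isClosed_le (by fun_prop) continuous_const

lemma EB_sub {c : Hs} {R : ℝ} (hR : 0 ≤ R) : EB c R ⊆ Metric.closedBall c R := by
  intro x hx
  have hx' : ‖x.1 - c.1‖ ^ 2 + (x.2 - c.2) ^ 2 ≤ R ^ 2 := hx
  rw [mem_closedBall_iff_norm, Prod.norm_def, max_le_iff]
  constructor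
  · show ‖x.1 - c.1‖ ≤ R
    have h1 : ‖x.1 - c.1‖ ^ 2 ≤ R ^ 2 := by nlinarith [sq_nonneg (x.2 - c.2)]
    exact (sq_le_sq₀ (norm_nonneg _) hR).1 h1
  · rw [Real.norm_eq_abs]
    exact abs_le_of_sq_le_sq (by
      show (x.2 - c.2) ^ 2 ≤ R ^ 2
      nlinarith [sq_nonneg ‖x.1 - c.1‖]) hR

lemma sub_EB {c : Hs} {R : ℝ} : Metric.closedBall c (R / 2) ⊆ EB c R := by
  intro x hx
  rw [mem_closedBall_iff_norm, Prod.norm_def, max_le_iff] at hx
  obtain ⟨h1, h2⟩ := hx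
  have h1' : ‖x.1 - c.1‖ ≤ R / 2 := h1
  have h2' : |x.2 - c.2| ≤ R / 2 := h2
  show ‖x.1 - c.1‖ ^ 2 + (x.2 - c.2) ^ 2 ≤ R ^ 2
  have h3 : ‖x.1 - c.1‖ ^ 2 ≤ (R / 2) ^ 2 := pow_le_pow_left₀ (norm_nonneg _) h1' 2
  have h4 : (x.2 - c.2) ^ 2 ≤ (R / 2) ^ 2 := by
    rw [← sq_abs]
    exact pow_le_pow_left₀ (abs_nonneg _) h2' 2
  nlinarith [sq_nonneg R]

lemma vol_le {c : Hs} {R : ℝ} (hR : 0 < R) :
    volume (Metric.closedBall c (3 * R)) ≤ ((216 : ℝ≥0) : ℝ≥0∞) * volume (EB c R) := by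
  have h1 : volume (Metric.closedBall c (R / 2)) ≤ volume (EB c R) :=
    measure_mono sub_EB
  refine le_trans ?_ (mul_le_mul_right h1 _)
  have : (volume : Measure Hs).IsAddHaarMeasure :=
    inferInstanceAs ((volume : Measure ℂ).prod (volume : Measure ℝ)).IsAddHaarMeasure
  rw [Measure.addHaar_closedBall volume c (by positivity : (0 : ℝ) ≤ 3 * R),
    Measure.addHaar_closedBall volume c (by positivity : (0 : ℝ) ≤ R / 2), ← mul_assoc]
  refine mul_le_mul_left ?_ _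
  have hf : Module.finrank ℝ Hs = 3 := by
    rw [show Module.finrank ℝ Hs = Module.finrank ℝ (ℂ × ℝ) from rfl, Module.finrank_prod,
      Complex.finrank_real_complex, Module.finrank_self]
  rw [hf]
  have e : ((216 : ℝ≥0) : ℝ≥0∞) = ENNReal.ofReal 216 := by
    rw [ENNReal.ofReal, Real.toNNReal_ofNat]
  rw [e, ← ENNReal.ofReal_mul (by norm_num)]
  exact ENNReal.ofReal_le_ofReal (by ring_nf; nlinarith [pow_pos hR 3])

lemma mu_ac : mu ≪ (volume : Measure Hs) :=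
  (withDensity_absolutelyContinuous _ _).trans Measure.restrict_le_self.absolutelyContinuous

lemma mu_low : mu {x : Hs | ¬ 0 < x.2} = 0 := by
  refine withDensity_absolutelyContinuous _ _ ?_
  have hm : MeasurableSet {x : Hs | 0 < x.2} := measurableSet_lt measurable_const measurable_snd
  show (volume.restrict {x : Hs | 0 < x.2}) {x : Hs | 0 < x.2}ᶜ = 0
  rw [Measure.restrict_apply hm.compl]
  convert measure_empty (μ := (volume : Measure Hs)) using 2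
  ext x
  simp

/-- an exhaustion -/
def KK (n : ℕ) : Set Hs := Metric.ball 0 (n + 1) ∩ {x : Hs | 1 / ((n : ℝ) + 1) < x.2}

lemma KK_open (n : ℕ) : IsOpen (KK n) :=
  Metric.isOpen_ball.inter (isOpen_lt continuous_const continuous_snd)

lemma KK_pos {n : ℕ} {x : Hs} (hx : x ∈ KK n) : 0 < x.2 :=
  lt_trans (by positivity) hx.2

lemma KK_mono : Monotone KK := by
  intro m n h x hx
  have h' : (m : ℝ) ≤ n := by exact_mod_cast h
  have h2 : 1 / ((m : ℝ) + 1) < x.2 := hx.2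
  refine ⟨Metric.ball_subset_ball (by linarith) hx.1, ?_⟩
  show 1 / ((n : ℝ) + 1) < x.2
  exact lt_of_le_of_lt (one_div_le_one_div_of_le (by positivity) (by linarith)) h2

lemma KK_fin (n : ℕ) : mu (KK n) ≠ ∞ := by
  unfold mu
  rw [withDensity_apply _ (KK_open n).measurableSet]
  have h1 : ∫⁻ x in KK n, ENNReal.ofReal ((x.2 ^ 3)⁻¹)
      ∂(volume.restrict {x : Hs | 0 < x.2}) ≤
      ∫⁻ x in KK n, ENNReal.ofReal (((n : ℝ) + 1) ^ 3) ∂(volume.restrict {x : Hs | 0 < x.2}) := by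
    refine setLIntegral_mono measurable_const fun x hx => ENNReal.ofReal_le_ofReal ?_
    have h2 : 1 / ((n : ℝ) + 1) < x.2 := hx.2
    rw [← inv_pow]
    refine pow_le_pow_left₀ (inv_nonneg.2 (KK_pos hx).le) ?_ 3
    rw [inv_le_comm₀ (KK_pos hx) (by positivity), inv_eq_one_div]
    exact h2.le
  refine ne_top_of_le_ne_top ?_ h1
  rw [setLIntegral_const]
  refine ENNReal.mul_ne_top (by finiteness) ?_
  refine ne_top_of_le_ne_top ?_ (Measure.restrict_le_self _)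
  exact ne_top_of_le_ne_top (Metric.isBounded_ball.measure_lt_top (μ := (volume : Measure Hs))).ne
    (measure_mono inter_subset_left)

lemma exists_KK {x : Hs} (hx : 0 < x.2) : ∃ n, x ∈ KK n := by
  obtain ⟨n, hn⟩ := exists_nat_gt (max ‖x‖ (1 / x.2))
  refine ⟨n, ?_, ?_⟩
  · rw [mem_ball_zero_iff]
    linarith [le_max_left ‖x‖ (1 / x.2)]
  · show 1 / ((n : ℝ) + 1) < x.2
    rw [div_lt_comm₀ (by positivity) hx]
    linarith [le_max_right ‖x‖ (1 / x.2)]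

section Main

variable {p : ℝ≥0∞} [Fact (1 ≤ p)] {φ : Lp ℂ p mu →L[ℂ] ℂ}

lemma Z_open (hp : p ≠ ∞) (h : ∀ (c : Hs) (R : ℝ), 0 < R → R < c.2 → Z φ (EB c R)) {U : Set Hs}
    (hU : IsOpen U) (hU0 : U ⊆ {x | 0 < x.2}) (hμU : mu U ≠ ∞) : Z φ U := by
  have hint : ∀ a ∈ {a : Hs × ℝ | 0 < a.2 ∧ a.2 < a.1.2 ∧ EB a.1 a.2 ⊆ U},
      (interior (EB a.1 a.2)).Nonempty := by
    intro a ha
    refine ⟨a.1, ?_⟩
    refine interior_mono sub_EB ?_
    exact Metric.ball_subset_interior_closedBall (Metric.mem_ball_self (by linarith [ha.1]))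
  have hfine : ∀ x ∈ U, ∀ ε > (0 : ℝ),
      ∃ a ∈ {a : Hs × ℝ | 0 < a.2 ∧ a.2 < a.1.2 ∧ EB a.1 a.2 ⊆ U}, a.2 ≤ ε ∧ a.1 = x := by
    intro x hx ε hε
    obtain ⟨δ, hδ, hδU⟩ := Metric.isOpen_iff.1 hU x hx
    have hx2 : 0 < x.2 := hU0 hx
    have hm : 0 < min ε (min (δ / 2) (x.2 / 2)) := by positivity
    refine ⟨(x, min ε (min (δ / 2) (x.2 / 2))), ⟨hm, ?_, ?_⟩, min_le_left _ _, rfl⟩
    · show min ε (min (δ / 2) (x.2 / 2)) < x.2
      have : min ε (min (δ / 2) (x.2 / 2)) ≤ x.2 / 2 := (min_le_right _ _).trans (min_le_right _ _)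
      linarith
    · refine (EB_sub hm.le).trans (Subset.trans (Metric.closedBall_subset_ball ?_) hδU)
      show min ε (min (δ / 2) (x.2 / 2)) < δ
      have : min ε (min (δ / 2) (x.2 / 2)) ≤ δ / 2 := (min_le_right _ _).trans (min_le_left _ _)
      linarith
  obtain ⟨u, hut, huc, hud, hu0⟩ := Vitali.exists_disjoint_covering_ae
    (volume : Measure Hs) U {a : Hs × ℝ | 0 < a.2 ∧ a.2 < a.1.2 ∧ EB a.1 a.2 ⊆ U} 216
    Prod.snd Prod.fst (fun a => EB a.1 a.2) (fun a ha => EB_sub ha.1.le)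
    (fun a ha => vol_le ha.1) hint (fun a _ => EB_closed _ _) hfine
  have : Countable u := huc.to_subtype
  have hVU : ⋃ a : u, EB a.1.1 a.1.2 ⊆ U := iUnion_subset fun a => (hut a.2).2.2
  have hV : Z φ (⋃ a : u, EB a.1.1 a.1.2) := by
    refine Z_iUnion hp (fun a => (EB_closed _ _).measurableSet) ?_
      fun a => h _ _ (hut a.2).1 (hut a.2).2.1
    intro a b hab
    exact hud a.2 b.2 fun e => hab (Subtype.ext e)
  refine Z_approx hp fun ε _ => ⟨_, MeasurableSet.iUnion fun a : u =>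
    (EB_closed a.1.1 a.1.2).measurableSet, ne_top_of_le_ne_top hμU (measure_mono hVU), hV, ?_⟩
  refine le_trans (le_of_eq ?_) zero_le
  refine mu_ac (measure_mono_null ?_ hu0)
  rintro x (⟨hx1, hx2⟩ | ⟨hx1, hx2⟩)
  · exact absurd (hVU hx1) hx2
  · refine ⟨hx1, fun h' => hx2 ?_⟩
    obtain ⟨a, ha, hxa⟩ := mem_iUnion₂.1 h'
    exact mem_iUnion.2 ⟨⟨a, ha⟩, hxa⟩

lemma Z_KK (hp : p ≠ ∞) (h : ∀ (c : Hs) (R : ℝ), 0 < R → R < c.2 → Z φ (EB c R)) {n : ℕ}
    {A : Set Hs} (hA : MeasurableSet A) (hAK : A ⊆ KK n) : Z φ A := by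
  have hfin : IsFiniteMeasure (mu.restrict (KK n)) :=
    ⟨by rw [Measure.restrict_apply_univ]; exact (KK_fin n).lt_top⟩
  refine Z_approx hp fun ε hε => ?_
  obtain ⟨U, hAU, hU, -, hUA⟩ := hA.exists_isOpen_sdiff_lt (μ := mu.restrict (KK n))
    (measure_ne_top _ _) hε.ne'
  refine ⟨U ∩ KK n, (hU.inter (KK_open n)).measurableSet,
    ne_top_of_le_ne_top (KK_fin n) (measure_mono inter_subset_right),
    Z_open hp h (hU.inter (KK_open n)) (fun x hx => KK_pos hx.2)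
      (ne_top_of_le_ne_top (KK_fin n) (measure_mono inter_subset_right)), ?_⟩
  rw [Measure.restrict_apply (hU.measurableSet.diff hA)] at hUA
  refine le_trans (measure_mono ?_) hUA.le
  rintro x (⟨hx1, hx2⟩ | ⟨hx1, hx2⟩)
  · exact ⟨⟨hx1.1, hx2⟩, hx1.2⟩
  · exact absurd ⟨hAU hx1, hAK hx1⟩ hx2

lemma Z_all (hp : p ≠ ∞) (h : ∀ (c : Hs) (R : ℝ), 0 < R → R < c.2 → Z φ (EB c R))
    (A : Set Hs) : Z φ A := by
  intro hA hμ
  refine Z_lim (l := atTop) (t := fun n : ℕ => A ∩ KK n) hp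
    (fun n => hA.inter (KK_open n).measurableSet)
    (fun n => ne_top_of_le_ne_top hμ (measure_mono inter_subset_left))
    (fun n => Z_KK hp h (hA.inter (KK_open n).measurableSet) inter_subset_right) ?_ hA hμ
  have h1 : Tendsto (fun n => mu (A \ KK n)) atTop (𝓝 (mu (⋂ n, A \ KK n))) := by
    refine tendsto_measure_iInter_atTop
      (fun n => (hA.diff (KK_open n).measurableSet).nullMeasurableSet) ?_ ⟨0, ?_⟩
    · intro m n hmn
      exact sdiff_subset_sdiff_right (KK_mono hmn)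
    · exact ne_top_of_le_ne_top hμ (measure_mono sdiff_subset)
  have h2 : mu (⋂ n, A \ KK n) = 0 := by
    refine measure_mono_null ?_ mu_low
    intro x hx hx0
    obtain ⟨n, hn⟩ := exists_KK hx0
    exact (mem_iInter.1 hx n).2 hn
  rw [h2] at h1
  refine h1.congr fun n => ?_
  congr 1
  ext x
  simp only [Set.mem_symmDiff, Set.mem_sdiff, Set.mem_inter_iff]
  tauto

end Main

end Pool.Agent.N46.HM.VIT

namespace Pool.Agent.N46.HM

open VIT

theorem t_VIT : S_VIT := by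
  intro s hs hs1 _ φ h
  have hp : pp s ≠ ∞ := ENNReal.ofReal_ne_top
  refine eq_zero hp (Z_all hp fun c R hR hRc hm hμ => ?_)
  have h1 := h c R hR hRc
  have e : el (pp s) ((EB c R).indicator 1) = indicatorConstLp (pp s) hm hμ (1 : ℂ) := by
    unfold el
    rw [dif_pos (show MemLp ((EB c R).indicator 1) (pp s) mu from
      memLp_indicator_const (pp s) hm (1 : ℂ) (Or.inr hμ))]
    rfl
  rw [← e]
  exact h1

end Pool.Agent.N46.HM
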